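import Pool.Agent.STN.Ba

/-!
# Project STN, module Ea: the embedding of a finite set

Induction over a finite set of pairs `(x, y)`, `x < y`, `x` and `y` in `X`. Start: `c x = 2 + 9 (x - x0)` with a lower bound `x0` of `X`.
Step for the pair `(x, y)`: `y - x = 3^e d`, `3 ∤ d`, `μ = d % 3`; a block `f z = 3^q + 3 μ (z - x)` with large `q` is put above the digit `k`;
`f x = 3^q` has the digits `0` at `e`, `e + 1`, and `f y = 3^q + 3^(e+1) μ d` has the digit `0` at `e` and `1` at `e + 1`.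
-/

set_option autoImplicit false

namespace Pool.Agent.STN

theorem iso_symm {k c c' : ℕ} (h : Iso k c c') : Iso k c' c := by
  obtain ⟨p, h1, h2, h3, h4⟩ := h
  refine ⟨p, h1, h3, h2, ?_⟩
  rcases h4 with ⟨h5, h6⟩ | ⟨h5, h6⟩
  · exact Or.inr ⟨h6, h5⟩
  · exact Or.inl ⟨h6, h5⟩

/-- the statement for a set of pairs -/
private def ea_St (X : Finset ℤ) (S : Finset (ℤ × ℤ)) : Prop :=
  ∃ (k : ℕ) (α β : ℤ) (c : ℤ → ℕ), 2 ≤ k ∧ 0 < α ∧
    (∀ x ∈ X, (c x : ℤ) = α * x + β ∧ c x < 3 ^ k ∧ c x % 9 = 2) ∧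
    ∀ p ∈ S, Iso k (c p.1) (c p.2)

private theorem ea_bound (X : Finset ℤ) (x : ℤ) : ∃ W : ℕ, ∀ z ∈ X, |z - x| ≤ (W : ℤ) := by
  refine ⟨∑ z ∈ X, (|z - x|).toNat, fun z hz => ?_⟩
  have h1 : (|z - x|).toNat ≤ ∑ z ∈ X, (|z - x|).toNat :=
    Finset.single_le_sum (f := fun z => (|z - x|).toNat) (fun _ _ => Nat.zero_le _) hz
  have h2 : ((|z - x|).toNat : ℤ) = |z - x| := Int.toNat_of_nonneg (abs_nonneg _)
  rw [← h2]
  exact_mod_cast h1

private theorem ea_base (X : Finset ℤ) : ea_St X ∅ := by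
  obtain ⟨W, hW⟩ := ea_bound X 0
  refine ⟨18 * W + 4, 9, 2 + 9 * (W : ℤ), fun x => (9 * x + (2 + 9 * (W : ℤ))).toNat, by omega, by norm_num, ?_, ?_⟩
  · intro x hx
    have h1 := hW x hx
    rw [sub_zero, abs_le] at h1
    have h2 : ((9 * x + (2 + 9 * (W : ℤ))).toNat : ℤ) = 9 * x + (2 + 9 * (W : ℤ)) := Int.toNat_of_nonneg (by omega)
    have h3 : 18 * W + 4 < 3 ^ (18 * W + 4) := Nat.lt_pow_self (by norm_num)
    refine ⟨h2, ?_, ?_⟩
    · show (9 * x + (2 + 9 * (W : ℤ))).toNat < _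
      omega
    · show (9 * x + (2 + 9 * (W : ℤ))).toNat % 9 = 2
      omega
  · intro p hp
    simp at hp

private theorem ea_low {k a : ℕ} (ha : a < 3 ^ k) (b : ℕ) {i : ℕ} (hi : i < k) : dg (a + 3 ^ k * b) i = dg a i := by
  rw [dg_split ha, if_pos hi]

private theorem ea_high {k a : ℕ} (ha : a < 3 ^ k) (b i : ℕ) : dg (a + 3 ^ k * b) (k + i) = dg b i := by
  rw [dg_split ha, if_neg (by omega), Nat.add_sub_cancel_left]

private theorem ea_step (X : Finset ℤ) (S : Finset (ℤ × ℤ)) (hSX : ∀ p ∈ S, p.1 ∈ X ∧ p.2 ∈ X) (x y : ℤ) (hx : x ∈ X)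
    (hy : y ∈ X) (hxy : x < y) (h : ea_St X S) : ea_St X (insert (x, y) S) := by
  obtain ⟨k, α, β, c, hk, hα, hc, hS⟩ := h
  obtain ⟨W, hW⟩ := ea_bound X x
  have hn : (y - x).toNat ≠ 0 := by omega
  obtain ⟨e, d, hd, hed⟩ := Nat.exists_eq_pow_mul_and_not_dvd hn 3 (by norm_num)
  have hyx : y - x = 3 ^ e * (d : ℤ) := by
    have h1 : ((y - x).toNat : ℤ) = y - x := Int.toNat_of_nonneg (by omega)
    rw [← h1, hed]
    push_cast
    ring
  obtain ⟨μ, hμ1, hμ2, hμd⟩ : ∃ μ : ℕ, 1 ≤ μ ∧ μ ≤ 2 ∧ (μ * d) % 3 = 1 := by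
    have h3 : d % 3 = 1 ∨ d % 3 = 2 := by omega
    rcases h3 with h3 | h3
    · exact ⟨1, by norm_num, by norm_num, by omega⟩
    · exact ⟨2, by norm_num, by norm_num, by omega⟩
  set q : ℕ := 6 * W + e + 3 with hq
  have hq3 : q < 3 ^ q := Nat.lt_pow_self (by norm_num)
  have hqz : (q : ℤ) < 3 ^ q := by exact_mod_cast hq3
  set f : ℤ → ℕ := fun z => (3 ^ q + 3 * (μ : ℤ) * (z - x)).toNat with hf
  have hfz : ∀ z ∈ X, (f z : ℤ) = 3 ^ q + 3 * (μ : ℤ) * (z - x) ∧ f z + 1 ≤ 3 ^ (q + 1) := by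
    intro z hz
    have h1 := hW z hz
    have h2 : |(μ : ℤ) * (z - x)| ≤ 2 * (W : ℤ) := by
      rw [abs_mul]
      have h3 : |(μ : ℤ)| ≤ 2 := by
        rw [abs_of_nonneg (by positivity)]
        exact_mod_cast hμ2
      exact mul_le_mul h3 h1 (abs_nonneg _) (by norm_num)
    rw [abs_le] at h2
    have h4 : (q : ℤ) = 6 * (W : ℤ) + e + 3 := by rw [hq]; push_cast; ring
    have h5 : 3 * (μ : ℤ) * (z - x) = 3 * ((μ : ℤ) * (z - x)) := by ring
    have h6 : (f z : ℤ) = 3 ^ q + 3 * (μ : ℤ) * (z - x) := by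
      rw [hf]
      refine Int.toNat_of_nonneg ?_
      rw [h5]
      omega
    refine ⟨h6, ?_⟩
    have h7 : ((f z + 1 : ℕ) : ℤ) ≤ ((3 ^ (q + 1) : ℕ) : ℤ) := by
      have h8 : (3 : ℤ) ^ (q + 1) = 3 * 3 ^ q := pow_succ' 3 q
      push_cast
      rw [h6, h5, h8]
      omega
    exact_mod_cast h7
  have h9 : (9 : ℕ) ∣ 3 ^ k := by
    have : (3 : ℕ) ^ 2 ∣ 3 ^ k := pow_dvd_pow 3 hk
    simpa using this
  refine ⟨k + q + 1, α + 3 ^ k * (3 * (μ : ℤ)), β + 3 ^ k * (3 ^ q - 3 * (μ : ℤ) * x), fun z => c z + 3 ^ k * f z,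
    by omega, by positivity, ?_, ?_⟩
  · intro z hz
    obtain ⟨h1, h2, h3⟩ := hc z hz
    obtain ⟨h4, h5⟩ := hfz z hz
    refine ⟨?_, ?_, ?_⟩
    · push_cast
      rw [h1, h4]
      ring
    · show c z + 3 ^ k * f z < 3 ^ (k + q + 1)
      calc c z + 3 ^ k * f z < 3 ^ k + 3 ^ k * f z := by omega
        _ = 3 ^ k * (f z + 1) := by ring
        _ ≤ 3 ^ k * 3 ^ (q + 1) := Nat.mul_le_mul_left _ h5
        _ = 3 ^ (k + q + 1) := by rw [← pow_add, ← add_assoc]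
    · show (c z + 3 ^ k * f z) % 9 = 2
      obtain ⟨m, hm⟩ := h9
      rw [hm, mul_assoc, Nat.add_mul_mod_self_left]
      exact h3
  · intro p hp
    rw [Finset.mem_insert] at hp
    show Iso (k + q + 1) (c p.1 + 3 ^ k * f p.1) (c p.2 + 3 ^ k * f p.2)
    rcases hp with hp | hp
    · rw [hp]
      have hfx : f x = 3 ^ q := by
        have h1 := (hfz x hx).1
        rw [sub_self, mul_zero, add_zero] at h1
        exact_mod_cast h1
      have hfy : f y = 3 ^ (e + 1) * (3 ^ (q - (e + 1)) + μ * d) := by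
        have h1 := (hfz y hy).1
        have h2 : (3 : ℤ) ^ q = 3 ^ (e + 1) * 3 ^ (q - (e + 1)) := by
          rw [← pow_add]
          congr 1
          omega
        have h3 : (f y : ℤ) = ((3 ^ (e + 1) * (3 ^ (q - (e + 1)) + μ * d) : ℕ) : ℤ) := by
          rw [h1, hyx, h2]
          push_cast
          ring
        exact_mod_cast h3
      have hfy0 : dg (f y) e = 0 := by
        have h1 : dg (0 + 3 ^ (e + 1) * (3 ^ (q - (e + 1)) + μ * d)) e = dg 0 e :=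
          ea_low (pow_pos (by norm_num) _) _ (Nat.lt_succ_self e)
        rw [zero_add] at h1
        rw [hfy, h1, dg_zero_left]
      have hfy1 : dg (f y) (e + 1) = 1 := by
        have h1 : dg (0 + 3 ^ (e + 1) * (3 ^ (q - (e + 1)) + μ * d)) (e + 1 + 0) = dg (3 ^ (q - (e + 1)) + μ * d) 0 :=
          ea_high (pow_pos (by norm_num) _) _ 0
        rw [zero_add, add_zero] at h1
        rw [hfy, h1, dg_zero']
        have h2 : q - (e + 1) = (6 * W + 1) + 1 := by omega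
        rw [h2, pow_succ]
        omega
      refine ⟨k + e, by omega, ?_, ?_, Or.inl ⟨?_, ?_⟩⟩
      · rw [ea_high (hc x hx).2.1, hfx, dg_pow, if_neg (by omega)]
      · rw [ea_high (hc y hy).2.1, hfy0]
      · rw [add_assoc, ea_high (hc x hx).2.1, hfx, dg_pow, if_neg (by omega)]
      · rw [add_assoc, ea_high (hc y hy).2.1, hfy1]
    · obtain ⟨i, hi, h1, h2, h3⟩ := hS p hp
      obtain ⟨hp1, hp2⟩ := hSX p hp
      have e1 : ∀ j, j < k → dg (c p.1 + 3 ^ k * f p.1) j = dg (c p.1) j := fun j hj => ea_low (hc _ hp1).2.1 _ hj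
      have e2 : ∀ j, j < k → dg (c p.2 + 3 ^ k * f p.2) j = dg (c p.2) j := fun j hj => ea_low (hc _ hp2).2.1 _ hj
      refine ⟨i, by omega, ?_, ?_, ?_⟩
      · rw [e1 i (by omega), h1]
      · rw [e2 i (by omega), h2]
      · rw [e1 (i + 1) hi, e2 (i + 1) hi]
        exact h3

private theorem ea_all (X : Finset ℤ) (S : Finset (ℤ × ℤ)) (hS : ∀ p ∈ S, p.1 ∈ X ∧ p.2 ∈ X ∧ p.1 < p.2) :
    ea_St X S := by
  classical
  induction S using Finset.induction_on with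
  | empty => exact ea_base X
  | insert p S _ ih =>
    have h1 := hS p (Finset.mem_insert_self _ _)
    have h2 : ∀ p' ∈ S, p'.1 ∈ X ∧ p'.2 ∈ X ∧ p'.1 < p'.2 := fun p' hp' => hS p' (Finset.mem_insert_of_mem hp')
    have h3 := ea_step X S (fun p' hp' => ⟨(h2 p' hp').1, (h2 p' hp').2.1⟩) p.1 p.2 h1.1 h1.2.1 h1.2.2 (ih h2)
    exact h3

theorem embed (X : Finset ℤ) : ∃ (k : ℕ) (α β : ℤ) (c : ℤ → ℕ), 2 ≤ k ∧ 0 < α ∧
    (∀ x ∈ X, (c x : ℤ) = α * x + β ∧ c x < 3 ^ k ∧ c x % 9 = 2) ∧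
    ∀ x ∈ X, ∀ y ∈ X, x ≠ y → Iso k (c x) (c y) := by
  obtain ⟨k, α, β, c, hk, hα, hc, hS⟩ := ea_all X ((X ×ˢ X).filter fun p => p.1 < p.2) (by
    intro p hp
    rw [Finset.mem_filter, Finset.mem_product] at hp
    exact ⟨hp.1.1, hp.1.2, hp.2⟩)
  have h1 : ∀ x ∈ X, ∀ y ∈ X, x < y → Iso k (c x) (c y) := fun x hx y hy hxy =>
    hS (x, y) (by
      rw [Finset.mem_filter, Finset.mem_product]
      exact ⟨⟨hx, hy⟩, hxy⟩)
  refine ⟨k, α, β, c, hk, hα, hc, fun x hx y hy hxy => ?_⟩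
  rcases lt_or_gt_of_ne hxy with h | h
  · exact h1 x hx y hy h
  · exact iso_symm (h1 y hy x hx h)

end Pool.Agent.STN
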