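import Pool.Agent.STN.Defs

/-!
# Project STN, module Ff: the gadget modulo 61

Finite checks, `decide` after the reduction of `z` modulo `61`.  (Residues in the order 30,5,47,0,6,25,53,1,19,23,17,51; integers = residue plus 61 times rank.
`183 ≡ 0`, `428 ≡ 1`, `673 = 2 * 428 - 183 ≡ 2`.)
-/

set_option autoImplicit false

namespace Pool.Agent.STN

def F61 : Finset ℤ := {30, 66, 169, 183, 250, 330, 419, 428, 507, 572, 627, 722}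

theorem f61_free : ∀ i ∈ F61, ∀ j ∈ F61, ∀ k ∈ F61, (61 : ℤ) ∣ i + k - 2 * j → i = j ∧ k = j := by
  decide +kernel

private theorem ff_cov : ∀ r ∈ Finset.range 61, (∃ i ∈ F61, (61 : ℤ) ∣ (r : ℤ) - i) ∨
    (61 : ℤ) ∣ (r : ℤ) - 673 ∨
    ∃ i ∈ F61, ∃ j ∈ F61, i < j ∧ ¬ (i = 183 ∧ j = 428) ∧ ¬ (i = 428 ∧ j = 183) ∧
      (61 : ℤ) ∣ (r : ℤ) - (2 * j - i) := by
  decide +kernel

theorem f61_cov (z : ℤ) : (∃ i ∈ F61, (61 : ℤ) ∣ z - i) ∨ (61 : ℤ) ∣ z - 673 ∨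
    ∃ i ∈ F61, ∃ j ∈ F61, i < j ∧ ¬ (i = 183 ∧ j = 428) ∧ ¬ (i = 428 ∧ j = 183) ∧
      (61 : ℤ) ∣ z - (2 * j - i) := by
  have h0 : 0 ≤ z % 61 := Int.emod_nonneg z (by norm_num)
  have h1 : z % 61 < 61 := Int.emod_lt_of_pos z (by norm_num)
  have hr : ((z % 61).toNat : ℤ) = z % 61 := Int.toNat_of_nonneg h0
  have key : ∀ c : ℤ, (61 : ℤ) ∣ ((z % 61).toNat : ℤ) - c → (61 : ℤ) ∣ z - c := by
    intro c hc
    rw [hr] at hc
    omega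
  rcases ff_cov (z % 61).toNat (Finset.mem_range.mpr (by omega)) with h | h | h
  · obtain ⟨i, hi, h⟩ := h
    exact Or.inl ⟨i, hi, key i h⟩
  · exact Or.inr (Or.inl (key _ h))
  · obtain ⟨i, hi, j, hj, hij, ha, hb, h⟩ := h
    exact Or.inr (Or.inr ⟨i, hi, j, hj, hij, ha, hb, key _ h⟩)

theorem f61_end : ∀ i ∈ F61, ∀ j ∈ F61, (61 : ℤ) ∣ i + 673 - 2 * j → i = 183 ∧ j = 428 := by
  decide +kernel

theorem f61_mid : ∀ i ∈ F61, ∀ j ∈ F61, ¬ (61 : ℤ) ∣ i + j - 2 * 673 := by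
  decide +kernel

theorem f61_not : ∀ i ∈ F61, ¬ (61 : ℤ) ∣ i - 673 := by
  decide +kernel

end Pool.Agent.STN
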