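import Pool.Agent.STN.Ec
import Pool.Agent.STN.Ea
import Pool.Agent.STN.Ff

/-!
# Project STN, module Ed: boards exist

The board for the finite set `X` is the partial extension (`ext_part`) of the gadget modulo `61` by the three frames of
`lemI` modulo `n'`: the frame `U0` over the class `183`, `U1` over the class `428`, `Uf` over the other classes.  The free
classes are `673 + 61 c x`, `x ∈ X`, where `c` is the embedding of `X` given by `embed`.
-/

set_option autoImplicit false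

namespace Pool.Agent.STN

/-- the frame over the class `i` -/
private def ed_B (Uf U0 U1 : Finset ℤ) (i : ℤ) : Finset ℤ :=
  if i = 183 then U0 else if i = 428 then U1 else Uf

private theorem ed_B0 (Uf U0 U1 : Finset ℤ) : ed_B Uf U0 U1 183 = U0 := by
  unfold ed_B
  rw [if_pos rfl]

private theorem ed_B1 (Uf U0 U1 : Finset ℤ) : ed_B Uf U0 U1 428 = U1 := by
  unfold ed_B
  rw [if_neg (by norm_num), if_pos rfl]

private theorem ed_Bf (Uf U0 U1 : Finset ℤ) {i : ℤ} (h : i ≠ 183) (h' : i ≠ 428) :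
    ed_B Uf U0 U1 i = Uf := by
  unfold ed_B
  rw [if_neg h, if_neg h']

private theorem ed_fr {m : ℤ} {Uf U0 U1 : Finset ℤ} (hf : Fr m Uf) (h0 : Fr m U0) (h1 : Fr m U1) (i : ℤ) :
    Fr m (ed_B Uf U0 U1 i) := by
  unfold ed_B
  split_ifs
  · exact h0
  · exact h1
  · exact hf

private theorem ed_fp {m : ℤ} {Uf U0 U1 : Finset ℤ} (hf : Fr m Uf) (p1 : Fp m Uf U0) (p2 : Fp m U0 Uf)
    (p3 : Fp m Uf U1) (p4 : Fp m U1 Uf) {i j : ℤ} (hij : i < j) (h : ¬ (i = 183 ∧ j = 428))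
    (h' : ¬ (i = 428 ∧ j = 183)) : Fp m (ed_B Uf U0 U1 i) (ed_B Uf U0 U1 j) := by
  by_cases hi : i = 183
  · subst hi
    rw [ed_B0, ed_Bf _ _ _ (ne_of_gt hij) (fun e => h ⟨rfl, e⟩)]
    exact p2
  by_cases hi' : i = 428
  · subst hi'
    rw [ed_B1, ed_Bf _ _ _ (fun e => h' ⟨rfl, e⟩) (ne_of_gt hij)]
    exact p4
  rw [ed_Bf _ _ _ hi hi']
  by_cases hj : j = 183
  · subst hj
    rw [ed_B0]
    exact p1
  by_cases hj' : j = 428
  · subst hj'
    rw [ed_B1]
    exact p3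
  rw [ed_Bf _ _ _ hj hj']
  exact fp_self hf

private theorem ed_mod {n' u i j : ℤ} (h : 61 * n' ∣ u - (i + 61 * j)) : (61 : ℤ) ∣ u - i := by
  obtain ⟨t, ht⟩ := h
  exact ⟨n' * t + j, by linarith⟩

theorem exists_board (X : Finset ℤ) : Nonempty (Board X) := by
  obtain ⟨k, α, β, c, hk, hα, hc, hiso⟩ := embed X
  obtain ⟨n', Uf, U0, U1, hn', fUf, fU0, fU1, p1, p2, p3, p4, hI⟩ :=
    lemI hk (fun x hx => ⟨(hc x hx).2.1, (hc x hx).2.2⟩) hiso
  have h3 : (0 : ℤ) < 3 ^ k := by positivity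
  have hpos : 0 < n' := by linarith
  have hlt : ∀ x ∈ X, (c x : ℤ) < 3 ^ k := fun x hx => by exact_mod_cast (hc x hx).2.1
  have hnn : ∀ x : ℤ, (0 : ℤ) ≤ (c x : ℤ) := fun x => Int.natCast_nonneg _
  have he : ∀ x ∈ X, (673 + 61 * β) + 61 * α * x = 673 + 61 * (c x : ℤ) := fun x hx => by
    rw [(hc x hx).1]
    ring
  obtain ⟨G, hG1, hG2, hG3, hG4⟩ := ext_part (n := 61) (m := n') (by norm_num) hpos (F := F61) f61_free
    (B := ed_B Uf U0 U1) (fun i _ => ed_fr fUf fU0 fU1 i)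
  have h183 : (183 : ℤ) ∈ F61 := by
    unfold F61
    decide
  have h428 : (428 : ℤ) ∈ F61 := by
    unfold F61
    decide
  have hred : ∀ u ∈ G, ∃ i ∈ F61, (61 : ℤ) ∣ u - i := fun u hu => by
    obtain ⟨i, hi, j, _, h⟩ := hG2.1 u hu
    exact ⟨i, hi, ed_mod h⟩
  have h61 : ∀ {t : ℤ}, 61 * n' ∣ t → (61 : ℤ) ∣ t := fun h => dvd_trans (dvd_mul_right _ _) h
  refine ⟨⟨61 * n', G, 673 + 61 * β, 61 * α, by linarith, by linarith, ?_, ?_, hG1, ?_, ?_, ?_, ?_, ?_, ?_⟩⟩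
  · rcases hG3 183 h183 183 (by norm_num) with ⟨g, hg, _⟩ | ⟨g, hg, _⟩
    · exact ⟨g, hg⟩
    · exact ⟨g, hg⟩
  · intro x hx y hy
    have h1 := (hc x hx).1
    have h2 := (hc y hy).1
    have h4 : 61 * α * (x - y) = 61 * ((c x : ℤ) - (c y : ℤ)) := by
      rw [h1, h2]
      ring
    rw [h4]
    have h5 := hlt x hx
    have h6 := hnn y
    linarith
  · intro u hu v hv x hx h
    rw [he x hx] at h
    obtain ⟨i, hi, j, hj, hu'⟩ := hG2.1 u hu
    obtain ⟨i', hi', j', hj', hv'⟩ := hG2.1 v hv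
    have h1 : (61 : ℤ) ∣ i + 673 - 2 * i' := by
      have e : i + 673 - 2 * i' = (u + (673 + 61 * (c x : ℤ)) - 2 * v) - (u - i) + 2 * (v - i')
          - 61 * (c x : ℤ) := by ring
      rw [e]
      exact dvd_sub (dvd_add (dvd_sub (h61 h) (ed_mod hu')) (dvd_mul_of_dvd_right (ed_mod hv') 2))
        (dvd_mul_right _ _)
    obtain ⟨e1, e2⟩ := f61_end i hi i' hi' h1
    subst e1
    subst e2
    rw [ed_B0] at hj
    rw [ed_B1] at hj'
    have h2 : 61 * n' ∣ 61 * ((c x : ℤ) - (2 * j' - j)) := by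
      have e : 61 * ((c x : ℤ) - (2 * j' - j)) = (u + (673 + 61 * (c x : ℤ)) - 2 * v)
          - (u - (183 + 61 * j)) + 2 * (v - (428 + 61 * j')) := by ring
      rw [e]
      exact dvd_add (dvd_sub h hu') (dvd_mul_of_dvd_right hv' 2)
    have h4 : n' ∣ (c x : ℤ) - (2 * j' - j) := Int.dvd_of_mul_dvd_mul_left (by norm_num) h2
    have h5 := (hI (c x)).1 ⟨j, hj, j', hj', h4⟩ x hx
    rw [sub_self] at h5
    exact h5 (dvd_zero _)
  · intro u hu v hv x hx h
    rw [he x hx] at h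
    obtain ⟨i, hi, hu'⟩ := hred u hu
    obtain ⟨i', hi', hv'⟩ := hred v hv
    refine f61_mid i hi i' hi' ?_
    have e : i + i' - 2 * 673 = (u + v - 2 * (673 + 61 * (c x : ℤ))) - (u - i) - (v - i')
        + 61 * (2 * (c x : ℤ)) := by ring
    rw [e]
    exact dvd_add (dvd_sub (dvd_sub (h61 h) hu') hv') (dvd_mul_right _ _)
  · intro u hu x hx y hy h
    rw [he x hx, he y hy] at h
    obtain ⟨i, hi, hu'⟩ := hred u hu
    refine f61_not i hi ?_
    have e : i - 673 = (u + (673 + 61 * (c x : ℤ)) - 2 * (673 + 61 * (c y : ℤ))) - (u - i)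
        + 61 * (2 * (c y : ℤ) - (c x : ℤ)) := by ring
    rw [e]
    exact dvd_add (dvd_sub (h61 h) hu') (dvd_mul_right _ _)
  · intro u hu x hx y hy h
    rw [he x hx, he y hy] at h
    obtain ⟨i, hi, hu'⟩ := hred u hu
    refine f61_not i hi ?_
    have h1 : (61 : ℤ) ∣ 2 * (i - 673) := by
      have e : 2 * (i - 673) = 61 * ((c x : ℤ) + (c y : ℤ))
          - ((673 + 61 * (c x : ℤ)) + (673 + 61 * (c y : ℤ)) - 2 * u) - 2 * (u - i) := by ring
      rw [e]
      exact dvd_sub (dvd_sub (dvd_mul_right _ _) (h61 h)) (dvd_mul_of_dvd_right hu' 2)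
    omega
  · intro x hx y hy z hz h
    rw [he x hx, he y hy, he z hz] at h
    have h2 : 61 * n' ∣ 61 * ((c x : ℤ) + c z - 2 * c y) := by
      have e : 61 * ((c x : ℤ) + c z - 2 * c y) =
          (673 + 61 * (c x : ℤ)) + (673 + 61 * (c z : ℤ)) - 2 * (673 + 61 * (c y : ℤ)) := by ring
      rw [e]
      exact h
    have h4 : n' ∣ (c x : ℤ) + c z - 2 * c y := Int.dvd_of_mul_dvd_mul_left (by norm_num) h2
    have h5 : (c x : ℤ) + c z - 2 * c y = 0 := by
      refine Int.eq_zero_of_abs_lt_dvd h4 ?_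
      have a1 := hlt x hx
      have a2 := hlt y hy
      have a3 := hlt z hz
      have b1 := hnn x
      have b2 := hnn y
      have b3 := hnn z
      rw [abs_lt]
      constructor <;> linarith
    have h6 : α * (x + z - 2 * y) = 0 := by
      rw [(hc x hx).1, (hc y hy).1, (hc z hz).1] at h5
      linarith
    rcases mul_eq_zero.1 h6 with h7 | h7
    · exact absurd h7 hα.ne'
    · linarith
  · intro z
    rcases f61_cov z with ⟨i, hi, h⟩ | h | ⟨i, hi, j, hj, hij, n1, n2, h⟩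
    · rcases hG3 i hi z h with ⟨g, hg, h1⟩ | ⟨g, hg, g', hg', hgg, h1⟩
      · exact Or.inl ⟨g, hg, h1⟩
      · exact Or.inr (Or.inr ⟨g, hg, g', hg', hgg, h1⟩)
    · obtain ⟨w, hw⟩ := h
      by_cases hx : ∃ x ∈ X, n' ∣ w - c x
      · obtain ⟨x, hx, h1⟩ := hx
        refine Or.inr (Or.inl ⟨x, hx, ?_⟩)
        rw [he x hx]
        have e : z - (673 + 61 * (c x : ℤ)) = 61 * (w - (c x : ℤ)) := by linarith
        rw [e]
        exact mul_dvd_mul_left 61 h1
      · obtain ⟨u, hu, v, hv, h1⟩ := (hI w).2 (fun x hx' h2 => hx ⟨x, hx', h2⟩)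
        obtain ⟨g, hg, g', hg', hgg, a1, a2⟩ := hG4 183 h183 428 h428 (by norm_num) u
          (by rw [ed_B0]; exact hu) v (by rw [ed_B1]; exact hv)
        refine Or.inr (Or.inr ⟨g, hg, g', hg', hgg, ?_⟩)
        have e : z - (2 * g' - g) = 61 * (w - (2 * v - u)) - 2 * (g' - (428 + 61 * v))
            + (g - (183 + 61 * u)) := by linarith
        rw [e]
        exact dvd_add (dvd_sub (mul_dvd_mul_left 61 h1) (dvd_mul_of_dvd_right a2 2)) a1
    · obtain ⟨w, hw⟩ := h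
      obtain ⟨a, ha, b, hb, h1⟩ := ed_fp fUf p1 p2 p3 p4 hij n1 n2 w
      obtain ⟨g, hg, g', hg', hgg, a1, a2⟩ := hG4 i hi j hj hij a ha b hb
      refine Or.inr (Or.inr ⟨g, hg, g', hg', hgg, ?_⟩)
      have e : z - (2 * g' - g) = 61 * (w - (2 * b - a)) - 2 * (g' - (j + 61 * b))
          + (g - (i + 61 * a)) := by linarith
      rw [e]
      exact dvd_add (dvd_sub (mul_dvd_mul_left 61 h1) (dvd_mul_of_dvd_right a2 2)) a1

end Pool.Agent.STN
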