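import Pool.Agent.STN.Bc

/-!
# Project STN, module Za: the set of a board and a free system is free of progressions

Eight cases for the kinds of the three members of a progression. Reduction modulo `N` excludes the mixed cases and gives the
equation of the classes or of the cells in the two others.
-/

set_option autoImplicit false

namespace Pool.Agent.STN

theorem bs_free {X : Finset ℤ} (B : Board X) {s : Sys} (hX : s.X = X) (hs : s.Free) {u v w : ℤ}
    (hu : u ∈ bs B s) (hv : v ∈ bs B s) (hw : w ∈ bs B s) (h : u + w = 2 * v) : u = w := by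
  have key : ∀ a b c p q r : ℤ, a + B.N * p + (c + B.N * r) = 2 * (b + B.N * q) → B.N ∣ a + c - 2 * b := by
    intro a b c p q r h1
    exact ⟨2 * q - p - r, by linear_combination h1⟩
  have hN := B.hN
  rcases hu with ⟨r1, hr1, t1, ht1, rfl⟩ | ⟨x1, hx1, t1, ht1, rfl⟩
  · rcases hv with ⟨r2, hr2, t2, ht2, rfl⟩ | ⟨x2, hx2, t2, ht2, rfl⟩
    · rcases hw with ⟨r3, hr3, t3, ht3, rfl⟩ | ⟨x3, hx3, t3, ht3, rfl⟩
      · obtain ⟨h1, h2⟩ := B.b1 r1 hr1 r2 hr2 r3 hr3 (key _ _ _ _ _ _ h)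
        subst h1
        subst h2
        have h3 : B.N * ((t1 : ℤ) + t3) = B.N * (2 * t2) := by linear_combination h
        have h4 : (t1 : ℤ) + t3 = 2 * t2 := mul_left_cancel₀ hN.ne' h3
        have h5 : t1 + t3 = 2 * t2 := by exact_mod_cast h4
        obtain ⟨h6, h7⟩ := s0_ap ht1 ht2 ht3 h5
        rw [h6, h7]
      · exact absurd (key _ _ _ _ _ _ h) (B.b2a r1 hr1 r2 hr2 x3 hx3)
    · rcases hw with ⟨r3, hr3, t3, ht3, rfl⟩ | ⟨x3, hx3, t3, ht3, rfl⟩
      · exact absurd (key _ _ _ _ _ _ h) (B.b2b r1 hr1 r3 hr3 x2 hx2)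
      · exact absurd (key _ _ _ _ _ _ h) (B.b2c r1 hr1 x3 hx3 x2 hx2)
  · rcases hv with ⟨r2, hr2, t2, ht2, rfl⟩ | ⟨x2, hx2, t2, ht2, rfl⟩
    · rcases hw with ⟨r3, hr3, t3, ht3, rfl⟩ | ⟨x3, hx3, t3, ht3, rfl⟩
      · rw [add_comm] at h
        exact absurd (key _ _ _ _ _ _ h) (B.b2a r3 hr3 r2 hr2 x1 hx1)
      · exact absurd (key _ _ _ _ _ _ h) (B.b2d r2 hr2 x1 hx1 x3 hx3)
    · rcases hw with ⟨r3, hr3, t3, ht3, rfl⟩ | ⟨x3, hx3, t3, ht3, rfl⟩
      · rw [add_comm] at h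
        exact absurd (key _ _ _ _ _ _ h) (B.b2c r3 hr3 x1 hx1 x2 hx2)
      · have h1 := B.b3 x1 hx1 x2 hx2 x3 hx3 (key _ _ _ _ _ _ h)
        have h2 : B.N * (((t1 : ℤ) + s.h x1) + ((t3 : ℤ) + s.h x3)) = B.N * (2 * ((t2 : ℤ) + s.h x2)) := by
          linear_combination h - B.γ * h1
        have h3 := mul_left_cancel₀ hN.ne' h2
        subst hX
        obtain ⟨h4, h5⟩ := hs x1 hx1 x2 hx2 x3 hx3 h1 t1 ht1 t2 ht2 t3 ht3 h3
        subst h4
        rw [h5]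

end Pool.Agent.STN
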