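import Pool.Agent.STN.Bc

/-!
# Project STN, module Zb: the set of a board and a complete system is forward complete

Every large integer outside the set is `2 v - u` with `u < v` in the set: the three cases of `b4` (a class of `R`, a class of a cell, a class
`2 r2 - r1`); the set is bounded below and unbounded above.
-/

set_option autoImplicit false

namespace Pool.Agent.STN

private theorem zb_ub {ι : Type} (F : Finset ι) (g : ι → ℤ) : ∃ K : ℤ, ∀ i ∈ F, g i ≤ K := by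
  classical
  obtain ⟨K, hK⟩ := (F.image g).exists_le
  exact ⟨K, fun i hi => hK _ (Finset.mem_image_of_mem g hi)⟩

private theorem zb_nonneg {N m : ℤ} (hN : 0 < N) (h : 0 ≤ N * m) : 0 ≤ m := by
  by_contra hm
  have : N * m < 0 := mul_neg_of_pos_of_neg hN (by omega)
  omega

theorem bs_compl {X : Finset ℤ} (B : Board X) {s : Sys} (hX : s.X = X) (hs : ∀ x ∈ s.X, s.Complete x) :
    ∃ K : ℤ, ∀ z : ℤ, K ≤ z → z ∉ bs B s → ∃ u ∈ bs B s, ∃ v ∈ bs B s, u < v ∧ z = 2 * v - u := by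
  have h0 : ∀ x : ℤ, ∃ n0 : ℕ, x ∈ s.X → ∀ n : ℕ, n0 ≤ n → n ∉ s.T x → s.Cov x n := by
    intro x
    by_cases hx : x ∈ s.X
    · obtain ⟨n0, h⟩ := hs x hx
      exact ⟨n0, fun _ => h⟩
    · exact ⟨0, fun h => absurd h hx⟩
  choose n0 hn0 using h0
  obtain ⟨K1, hK1⟩ := zb_ub B.R fun r => r
  obtain ⟨K2, hK2⟩ := zb_ub X fun x => (B.e0 + B.γ * x) + B.N * (s.h x + (n0 x : ℤ))
  obtain ⟨K3, hK3⟩ := zb_ub (B.R ×ˢ B.R) fun p => 2 * p.2 - p.1
  have hN := B.hN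
  refine ⟨max K1 (max K2 K3), fun z hz hzn => ?_⟩
  have hz1 : K1 ≤ z := (le_max_left _ _).trans hz
  have hz2 : K2 ≤ z := ((le_max_left _ _).trans (le_max_right _ _)).trans hz
  have hz3 : K3 ≤ z := ((le_max_right _ _).trans (le_max_right _ _)).trans hz
  rcases B.b4 z with ⟨r, hr, m, hm⟩ | ⟨x, hx, m, hm⟩ | ⟨r1, hr1, r2, hr2, hlt, m, hm⟩
  · have h1 := hK1 r hr
    have hm0 : 0 ≤ m := zb_nonneg hN (by rw [← hm]; linarith)
    obtain ⟨n, rfl⟩ := Int.eq_ofNat_of_zero_le hm0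
    have hn : n ∉ S0 := fun hn => hzn (Or.inl ⟨r, hr, n, hn, by linarith⟩)
    have hlt := xc_lt hn
    have hcan : (xc n : ℤ) + n = 2 * yc n := by exact_mod_cast can_eq n
    refine ⟨r + B.N * (xc n : ℤ), Or.inl ⟨r, hr, xc n, xc_mem n, rfl⟩,
      r + B.N * (yc n : ℤ), Or.inl ⟨r, hr, yc n, yc_mem n, rfl⟩, ?_, ?_⟩
    · have : (xc n : ℤ) < yc n := by exact_mod_cast hlt
      have := mul_lt_mul_of_pos_left this hN
      linarith
    · have h2 : (n : ℤ) = 2 * yc n - xc n := by linarith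
      have h3 : z = r + B.N * (n : ℤ) := by linarith
      rw [h3, h2]
      ring
  · have h1 := hK2 x hx
    have hxs : x ∈ s.X := by rw [hX]; exact hx
    have hm1 : 0 ≤ m - s.h x - (n0 x : ℤ) := by
      refine zb_nonneg hN ?_
      have e : B.N * (m - s.h x - (n0 x : ℤ)) = B.N * m - B.N * (s.h x + (n0 x : ℤ)) := by ring
      rw [e, ← hm]
      linarith
    obtain ⟨n, hn⟩ : ∃ n : ℕ, m - s.h x = (n : ℤ) := Int.eq_ofNat_of_zero_le (by omega)
    have hnn : n0 x ≤ n := by omega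
    have hzx : z = (B.e0 + B.γ * x) + B.N * (s.h x + (n : ℤ)) := by
      have e : s.h x + (n : ℤ) = m := by omega
      rw [e]
      linarith
    have hnT : n ∉ s.T x := fun h => hzn (Or.inr ⟨x, hx, n, h, hzx⟩)
    obtain ⟨x1, hx1, x2, hx2, hxx, a, ha, b, hb, hab, hlt⟩ := hn0 x hxs n hnn hnT
    rw [hX] at hx1 hx2
    refine ⟨(B.e0 + B.γ * x1) + B.N * (s.h x1 + (a : ℤ)), Or.inr ⟨x1, hx1, a, ha, rfl⟩,
      (B.e0 + B.γ * x2) + B.N * (s.h x2 + (b : ℤ)), Or.inr ⟨x2, hx2, b, hb, rfl⟩, ?_, ?_⟩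
    · rcases hlt with hlt | ⟨heq, hlt⟩
      · have h3 := B.hb x1 hx1 x2 hx2
        have h4 : B.N * 1 ≤ B.N * (((b : ℤ) + s.h x2) - ((a : ℤ) + s.h x1)) :=
          mul_le_mul_of_nonneg_left (by omega) hN.le
        have e1 : B.N * (((b : ℤ) + s.h x2) - ((a : ℤ) + s.h x1)) =
          B.N * (s.h x2 + (b : ℤ)) - B.N * (s.h x1 + (a : ℤ)) := by ring
        have e2 : B.γ * (x1 - x2) = B.γ * x1 - B.γ * x2 := by ring
        rw [e1] at h4
        rw [e2] at h3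
        linarith
      · have e1 : s.h x2 + (b : ℤ) = s.h x1 + (a : ℤ) := by omega
        rw [e1]
        have := mul_lt_mul_of_pos_left hlt B.hγ
        linarith
    · have e1 : x = 2 * x2 - x1 := by omega
      have e2 : s.h x + (n : ℤ) = 2 * (s.h x2 + (b : ℤ)) - (s.h x1 + (a : ℤ)) := by omega
      rw [hzx, e2]
      have e3 : B.γ * x = B.γ * (2 * x2 - x1) := by rw [← e1]
      rw [e3]
      ring
  · have h1 := hK3 (r1, r2) (Finset.mem_product.2 ⟨hr1, hr2⟩)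
    have hm0 : 0 ≤ m := zb_nonneg hN (by rw [← hm]; simp only at h1; omega)
    obtain ⟨n, rfl⟩ := Int.eq_ofNat_of_zero_le hm0
    have hcan : (xc n : ℤ) + n = 2 * yc n := by exact_mod_cast can_eq n
    refine ⟨r1 + B.N * (xc n : ℤ), Or.inl ⟨r1, hr1, xc n, xc_mem n, rfl⟩,
      r2 + B.N * (yc n : ℤ), Or.inl ⟨r2, hr2, yc n, yc_mem n, rfl⟩, ?_, ?_⟩
    · have h2 : (xc n : ℤ) ≤ yc n := by exact_mod_cast xc_le n
      have := mul_le_mul_of_nonneg_left h2 hN.le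
      linarith
    · have h2 : (n : ℤ) = 2 * yc n - xc n := by linarith
      have h3 : z = 2 * r2 - r1 + B.N * (n : ℤ) := by linarith
      rw [h3, h2]
      ring

theorem bs_low {X : Finset ℤ} (B : Board X) {s : Sys} (hX : s.X = X) : ∃ L : ℤ, ∀ z ∈ bs B s, L ≤ z := by
  obtain ⟨K1, hK1⟩ := zb_ub B.R fun r => -r
  obtain ⟨K2, hK2⟩ := zb_ub X fun x => -((B.e0 + B.γ * x) + B.N * s.h x)
  have hN := B.hN
  refine ⟨-(max K1 K2), fun z hz => ?_⟩
  rcases hz with ⟨r, hr, t, _, rfl⟩ | ⟨x, hx, t, _, rfl⟩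
  · have h1 := (hK1 r hr).trans (le_max_left K1 K2)
    have h2 : 0 ≤ B.N * (t : ℤ) := mul_nonneg hN.le (Int.natCast_nonneg t)
    linarith
  · have h1 := (hK2 x hx).trans (le_max_right K1 K2)
    have h2 : 0 ≤ B.N * (t : ℤ) := mul_nonneg hN.le (Int.natCast_nonneg t)
    have h3 : B.N * (s.h x + (t : ℤ)) = B.N * s.h x + B.N * (t : ℤ) := by ring
    rw [h3]
    linarith

theorem bs_inf {X : Finset ℤ} (B : Board X) (s : Sys) (K : ℤ) : ∃ z ∈ bs B s, K < z := by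
  obtain ⟨r, hr⟩ := B.hR
  have hN := B.hN
  obtain ⟨j, hj⟩ : ∃ j : ℕ, K - r ≤ (j : ℤ) := ⟨(K - r).toNat, Int.self_le_toNat _⟩
  refine ⟨r + B.N * ((3 ^ j : ℕ) : ℤ), Or.inl ⟨r, hr, 3 ^ j, s0_pow j, rfl⟩, ?_⟩
  have h1 : j < 3 ^ j := Nat.lt_pow_self (by norm_num)
  have h2 : (j : ℤ) < ((3 ^ j : ℕ) : ℤ) := by exact_mod_cast h1
  have h3 : 1 * ((3 ^ j : ℕ) : ℤ) ≤ B.N * ((3 ^ j : ℕ) : ℤ) :=
    mul_le_mul_of_nonneg_right (by omega) (Int.natCast_nonneg _)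
  linarith

end Pool.Agent.STN
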