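import Pool.Agent.STN.Defs

/-!
# Project STN, module Zc: from a free, forward complete set to a Stanley sequence

`P n := (n : ℤ) + L ∈ S` where `L` is the lower bound; the set `{n | P n}` is infinite.  `a = Nat.nth P` (`Nat.nth_strictMono`, `Nat.range_nth_of_infinite`).
`ThreeAPFree`: Mathlib: `a * c = b * b → a = b`, additive form `a + c = b + b → a = b` (`ThreeAPFree`, `threeAPFree` with `AddMonoid`), from `hfree` (`u = w`, then `u = v`).
Greedy condition: `K` the bound of `hc`; `k` with `a k + L ≥ K`.  If `a n < m < a (n+1)`, `n ≥ k`, then `m` is not in the range (`a` strictly increasing), so `m + L = 2 v - u` with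
`u < v` in `S`, `u = a i + L`, `v = a j + L`, `i < j`; `v < m + L`, so `a j < m < a (n+1)`, `j ≤ n`; `a i + m = 2 a j` is a progression in `insert m (a '' Iic n)`, non trivial.
-/

set_option autoImplicit false

namespace Pool.Agent.STN

theorem stanley_of_set (S : Set ℤ) (L : ℤ) (hlow : ∀ z ∈ S, L ≤ z) (hinf : ∀ K : ℤ, ∃ z ∈ S, K < z)
    (hfree : ∀ u ∈ S, ∀ v ∈ S, ∀ w ∈ S, u + w = 2 * v → u = w)
    (hc : ∃ K : ℤ, ∀ z : ℤ, K ≤ z → z ∉ S → ∃ u ∈ S, ∃ v ∈ S, u < v ∧ z = 2 * v - u) :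
    ∃ a : ℕ → ℕ, StrictMono a ∧ ThreeAPFree (Set.range a) ∧
      (∃ k : ℕ, ∀ n : ℕ, k ≤ n → ∀ m : ℕ, a n < m → m < a (n + 1) →
        ¬ ThreeAPFree (insert m (a '' Set.Iic n))) ∧
      ∀ n : ℕ, n ∈ Set.range a ↔ (n : ℤ) + L ∈ S := by
  classical
  set P : ℕ → Prop := fun n => (n : ℤ) + L ∈ S with hP
  have hinf' : (setOf P).Infinite := by
    rw [Set.infinite_iff_exists_gt]
    intro N
    obtain ⟨z, hz, hNz⟩ := hinf ((N : ℤ) + L)
    have h1 : ((z - L).toNat : ℤ) = z - L := Int.toNat_of_nonneg (by omega)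
    refine ⟨(z - L).toNat, ?_, by omega⟩
    show ((z - L).toNat : ℤ) + L ∈ S
    rw [h1, sub_add_cancel]
    exact hz
  have hmono : StrictMono (Nat.nth P) := Nat.nth_strictMono hinf'
  have hrange : ∀ n : ℕ, n ∈ Set.range (Nat.nth P) ↔ (n : ℤ) + L ∈ S := by
    intro n
    rw [Nat.range_nth_of_infinite hinf']
    exact Iff.rfl
  refine ⟨Nat.nth P, hmono, ?_, ?_, hrange⟩
  · intro x hx y hy z hz h
    have h1 := (hrange x).1 hx
    have h2 := (hrange y).1 hy
    have h3 := (hrange z).1 hz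
    have h4 := hfree _ h1 _ h2 _ h3 (by
      have h5 : (x : ℤ) + z = y + y := by exact_mod_cast h
      linarith)
    omega
  · obtain ⟨K, hK⟩ := hc
    refine ⟨(K - L).toNat, ?_⟩
    intro n hn m hm1 hm2 hfr
    have hmr : m ∉ Set.range (Nat.nth P) := by
      rintro ⟨i, rfl⟩
      have h1 := hmono.lt_iff_lt.1 hm1
      have h2 := hmono.lt_iff_lt.1 hm2
      omega
    have hmS : (m : ℤ) + L ∉ S := fun h => hmr ((hrange m).2 h)
    have h0 : n ≤ Nat.nth P n := hmono.le_apply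
    obtain ⟨u, hu, v, hv, huv, hz⟩ := hK ((m : ℤ) + L) (by omega) hmS
    have hLu := hlow u hu
    have hLv := hlow v hv
    have e1 : ((u - L).toNat : ℤ) = u - L := Int.toNat_of_nonneg (by omega)
    have e2 : ((v - L).toNat : ℤ) = v - L := Int.toNat_of_nonneg (by omega)
    obtain ⟨i, hi⟩ := (hrange (u - L).toNat).2 (by rw [e1, sub_add_cancel]; exact hu)
    obtain ⟨j, hj⟩ := (hrange (v - L).toNat).2 (by rw [e2, sub_add_cancel]; exact hv)
    have h1 : Nat.nth P i < Nat.nth P j := by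
      rw [hi, hj]
      omega
    have h2 : Nat.nth P j < m := by
      rw [hj]
      omega
    have h3 : j < n + 1 := hmono.lt_iff_lt.1 (h2.trans hm2)
    have h4 : i < j := hmono.lt_iff_lt.1 h1
    have h5 := hfr (Set.mem_insert_of_mem _ ⟨i, Set.mem_Iic.2 (by omega), rfl⟩)
      (Set.mem_insert_of_mem _ ⟨j, Set.mem_Iic.2 (by omega), rfl⟩) (Set.mem_insert m _) (by
        rw [hi, hj]
        omega)
    omega

end Pool.Agent.STN
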