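import Pool.Agent.STN.Defs

/-!
# Project STN, module Zd: growth

Given `n ≥ 1` let `h` be minimal with `n < q^h` (`Nat.log q n + 1`), so `q^(h-1) ≤ n`.  The set `F` for `h` has more than `n` elements in the range of the strictly
increasing `a`, all below `M0 L^h`, so some index `j ≥ n` has `a j < M0 L^h` (otherwise `F` is contained in the image of `range n`), hence
`a n ≤ a j < M0 L^h = M0 L L^(h-1) ≤ M0 L (q^(h-1))^(1+ε) ≤ M0 L n^(1+ε)`.  Take `C = M0 L + 1`.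
-/

set_option autoImplicit false

namespace Pool.Agent.STN

theorem growth {a : ℕ → ℕ} (ha : StrictMono a) {M0 L q : ℕ} (hq : 2 ≤ q) (ε : ℝ) (hε : 0 < ε)
    (hLq : (L : ℝ) ≤ (q : ℝ) ^ (1 + ε))
    (hc : ∀ h : ℕ, ∃ F : Finset ℕ, q ^ h ≤ F.card ∧ ∀ m ∈ F, m ∈ Set.range a ∧ m < M0 * L ^ h) :
    ∃ C : ℝ, 0 < C ∧ ∀ n : ℕ, 1 ≤ n → (a n : ℝ) ≤ C * (n : ℝ) ^ (1 + ε) := by
  refine ⟨M0 * L + 1, by positivity, fun n hn => ?_⟩
  have hq1 : 1 < q := by omega
  obtain ⟨F, hF1, hF2⟩ := hc (Nat.log q n + 1)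
  have hlt : n < q ^ (Nat.log q n + 1) := Nat.lt_pow_succ_log_self hq1 n
  have hle : q ^ Nat.log q n ≤ n := Nat.pow_log_le_self q (by omega)
  have hex : ∃ j, n ≤ j ∧ a j < M0 * L ^ (Nat.log q n + 1) := by
    by_contra hno
    push Not at hno
    have hsub : F ⊆ (Finset.range n).image a := by
      intro m hm
      obtain ⟨⟨j, hj⟩, hm2⟩ := hF2 m hm
      rw [Finset.mem_image]
      refine ⟨j, ?_, hj⟩
      rw [Finset.mem_range]
      by_contra hjn
      have h1 := hno j (by omega)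
      omega
    have h2 := Finset.card_le_card hsub
    have h3 : ((Finset.range n).image a).card ≤ n := by
      have := Finset.card_image_le (s := Finset.range n) (f := a)
      rwa [Finset.card_range] at this
    omega
  obtain ⟨j, hj1, hj2⟩ := hex
  have h1 : a n < M0 * L ^ (Nat.log q n + 1) := lt_of_le_of_lt (ha.monotone hj1) hj2
  have h2 : (a n : ℝ) ≤ M0 * (L : ℝ) ^ (Nat.log q n + 1) := by exact_mod_cast h1.le
  have hn0 : (0 : ℝ) ≤ n := Nat.cast_nonneg n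
  have hL0 : (0 : ℝ) ≤ L := Nat.cast_nonneg L
  have hq0 : (0 : ℝ) ≤ q := Nat.cast_nonneg q
  have h3 : (L : ℝ) ^ Nat.log q n ≤ (n : ℝ) ^ (1 + ε) := by
    calc (L : ℝ) ^ Nat.log q n ≤ ((q : ℝ) ^ (1 + ε)) ^ Nat.log q n := pow_le_pow_left₀ hL0 hLq _
      _ = ((q : ℝ) ^ Nat.log q n) ^ (1 + ε) := by
          rw [← Real.rpow_natCast, ← Real.rpow_mul hq0, mul_comm, Real.rpow_mul hq0, Real.rpow_natCast]
      _ ≤ (n : ℝ) ^ (1 + ε) := by
          refine Real.rpow_le_rpow (by positivity) ?_ (by linarith)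
          exact_mod_cast hle
  have h4 : (0 : ℝ) ≤ (n : ℝ) ^ (1 + ε) := Real.rpow_nonneg hn0 _
  calc (a n : ℝ) ≤ M0 * (L : ℝ) ^ (Nat.log q n + 1) := h2
    _ = M0 * L * (L : ℝ) ^ Nat.log q n := by ring
    _ ≤ M0 * L * (n : ℝ) ^ (1 + ε) := mul_le_mul_of_nonneg_left h3 (by positivity)
    _ ≤ (M0 * L + 1) * (n : ℝ) ^ (1 + ε) := by nlinarith

end Pool.Agent.STN
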