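import Pool.Agent.STN.Defs

/-!
# Project STN, module Ze: parameters from Behrend's theorem

`Behrend.roth_lower_bound`: `N exp(-4 √(log N)) ≤ rothNumberNat N` with `N = 3^(r-1)`, `rothNumberNat_spec` gives a 3-AP-free subset `A` of `range N` with this cardinality.
With `t = √((r-1) log 3)` large, `(1+ε) (t² - 4 t) ≥ t² + 5 log 3`, which gives `3^(r+4) ≤ A.card^(1+ε)`.
-/

set_option autoImplicit false

namespace Pool.Agent.STN

theorem exists_params (ε : ℝ) (hε : 0 < ε) : ∃ (r : ℕ) (A : Finset ℕ), 1 ≤ r ∧ Fre (A : Set ℕ) ∧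
    (∀ a ∈ A, a < 3 ^ (r - 1)) ∧ 2 ≤ A.card ∧ ((3 ^ (r + 4) : ℕ) : ℝ) ≤ (A.card : ℝ) ^ (1 + ε) := by
  have hl : (1 : ℝ) ≤ Real.log 3 := by
    rw [Real.le_log_iff_exp_le (by norm_num)]
    exact (Real.exp_one_lt_d9.le).trans (by norm_num)
  obtain ⟨m, hm⟩ : ∃ m : ℕ, (max ((4 * (1 + ε) + 5 * Real.log 3) / ε) 1) ^ 2 ≤ (m : ℝ) := exists_nat_ge _
  obtain ⟨A, hA1, hA2, hA3⟩ := rothNumberNat_spec (3 ^ m)
  refine ⟨m + 1, A, by omega, ?_, ?_, ?_⟩
  · intro a ha b hb c hc hac
    have h1 : a = b := hA3 ha hb hc (by omega)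
    omega
  · intro a ha
    have := hA1 ha
    rw [Finset.mem_range] at this
    simpa using this
  · -- the main estimate
    set L : ℝ := m * Real.log 3 with hL
    set t : ℝ := √L with ht
    have hL0 : 0 ≤ L := mul_nonneg (Nat.cast_nonneg _) (by linarith)
    have htt : t ^ 2 = L := Real.sq_sqrt hL0
    have hmL : (m : ℝ) ≤ L := by
      rw [hL]
      exact le_mul_of_one_le_right (Nat.cast_nonneg _) hl
    have hmx : max ((4 * (1 + ε) + 5 * Real.log 3) / ε) 1 ≤ t :=
      Real.le_sqrt_of_sq_le (hm.trans hmL)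
    have ht1 : 1 ≤ t := (le_max_right _ _).trans hmx
    have hte : 4 * (1 + ε) + 5 * Real.log 3 ≤ ε * t := by
      have := (le_max_left _ _).trans hmx
      rw [div_le_iff₀ hε] at this
      linarith
    have hkey : L + 5 * Real.log 3 ≤ (1 + ε) * (L - 4 * t) := by
      have h1 : (4 * (1 + ε) + 5 * Real.log 3) * t ≤ (ε * t) * t :=
        mul_le_mul_of_nonneg_right hte (by linarith)
      have h2 : 5 * Real.log 3 ≤ 5 * Real.log 3 * t :=
        le_mul_of_one_le_right (by linarith) ht1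
      have h3 : (ε * t) * t = ε * L := by
        rw [← htt]
        ring
      nlinarith [h1, h2, h3]
    have hlog : Real.log ((3 ^ m : ℕ) : ℝ) = L := by
      push_cast
      rw [Real.log_pow]
    have hroth := Behrend.roth_lower_bound (N := 3 ^ m)
    rw [hlog, ← hA2] at hroth
    have hN : ((3 ^ m : ℕ) : ℝ) = Real.exp L := by
      rw [← hlog, Real.exp_log (by positivity)]
    have hcard : Real.exp (L - 4 * t) ≤ (A.card : ℝ) := by
      refine le_trans (le_of_eq ?_) hroth
      rw [hN, ← Real.exp_add]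
      congr 1
      ring
    have hpow : ((3 ^ (m + 1 + 4) : ℕ) : ℝ) ≤ (A.card : ℝ) ^ (1 + ε) := by
      have h1 : ((3 ^ (m + 1 + 4) : ℕ) : ℝ) = Real.exp (L + 5 * Real.log 3) := by
        rw [Real.exp_add, ← hN, show 5 * Real.log 3 = Real.log (3 ^ 5) by rw [Real.log_pow]; norm_num,
          Real.exp_log (by norm_num)]
        push_cast
        ring
      rw [h1]
      calc Real.exp (L + 5 * Real.log 3) ≤ Real.exp ((1 + ε) * (L - 4 * t)) := Real.exp_le_exp.2 hkey
        _ = Real.exp (L - 4 * t) ^ (1 + ε) := by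
            rw [← Real.exp_mul, mul_comm]
        _ ≤ (A.card : ℝ) ^ (1 + ε) :=
            Real.rpow_le_rpow (Real.exp_pos _).le hcard (by linarith)
    refine ⟨?_, hpow⟩
    have hgt : (1 : ℝ) < (A.card : ℝ) ^ (1 + ε) := by
      refine lt_of_lt_of_le ?_ hpow
      have : 1 < 3 ^ (m + 1 + 4) := Nat.one_lt_pow (by omega) (by norm_num)
      exact_mod_cast this
    by_contra hc
    have hc1 : (A.card : ℝ) ≤ 1 := by
      have : A.card ≤ 1 := by omega
      exact_mod_cast this
    have := Real.rpow_le_one (Nat.cast_nonneg A.card) hc1 (by linarith : (0 : ℝ) ≤ 1 + ε)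
    linarith

end Pool.Agent.STN
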