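import Pool.Agent.STN.Mt
import Pool.Agent.STN.Ed
import Pool.Agent.STN.Za
import Pool.Agent.STN.Zb
import Pool.Agent.STN.Zc
import Pool.Agent.STN.Zd
import Pool.Agent.STN.Ze

/-!
# Project STN, module Mu: the theorem

`exists_params ε`: `r, A`; `sys_T`: `s`, cell `x`; `exists_board s.X`: `B`; `bs_low`: `L`; `stanley_of_set (bs B s) L`: `a`.  `growth` with `q = A.card`, `L = 3^(r+4)`: for `h` take the image of `F` under `t ↦ ((e0 + γ x) + N (h x + t) - L).toNat` (injective, `≥ 0` by `bs_low`),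
all elements `≤ |e0 + γ x| + N |h x| + |L| + N (3^(r+4))^h < M0 (3^(r+4))^h` with `M0 = |e0 + γ x| + N |h x| + |L| + N + 1`.
-/

set_option autoImplicit false

namespace Pool.Agent.STN

theorem main (ε : ℝ) (hε : 0 < ε) : ∃ a : ℕ → ℕ, StrictMono a ∧ ThreeAPFree (Set.range a) ∧
    (∃ k : ℕ, ∀ n : ℕ, k ≤ n → ∀ m : ℕ, a n < m → m < a (n + 1) →
      ¬ ThreeAPFree (insert m (a '' Set.Iic n))) ∧
    ∃ C : ℝ, 0 < C ∧ ∀ n : ℕ, 1 ≤ n → (a n : ℝ) ≤ C * (n : ℝ) ^ (1 + ε) := by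
  obtain ⟨r, A, hr, hfre, hA, h2, hpow⟩ := exists_params ε hε
  obtain ⟨s, hsf, hsc, x, hx, hF⟩ := sys_T hr hA hfre
  obtain ⟨B⟩ := exists_board s.X
  obtain ⟨L, hL⟩ := bs_low B (s := s) rfl
  obtain ⟨a, ha1, ha2, ha3, ha4⟩ := stanley_of_set (bs B s) L hL (bs_inf B s)
    (fun u hu v hv w hw h => bs_free B rfl hsf hu hv hw h) (bs_compl B rfl hsc)
  refine ⟨a, ha1, ha2, ha3, growth ha1 (M0 := (|B.e0 + B.γ * x| + B.N * |s.h x| + |L| + B.N + 1).toNat)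
    (L := 3 ^ (r + 4)) (q := A.card) h2 ε hε hpow ?_⟩
  intro h
  obtain ⟨F, hF1, hF2⟩ := hF h
  have hN := B.hN
  have hmem : ∀ t ∈ F, (B.e0 + B.γ * x) + B.N * (s.h x + (t : ℤ)) ∈ bs B s := fun t ht =>
    Or.inr ⟨x, hx, t, (hF2 t ht).1, rfl⟩
  have hval : ∀ t ∈ F, ((((B.e0 + B.γ * x) + B.N * (s.h x + (t : ℤ)) - L).toNat : ℕ) : ℤ) =
      (B.e0 + B.γ * x) + B.N * (s.h x + (t : ℤ)) - L := fun t ht =>
    Int.toNat_of_nonneg (by linarith [hL _ (hmem t ht)])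
  refine ⟨F.image fun t : ℕ => ((B.e0 + B.γ * x) + B.N * (s.h x + (t : ℤ)) - L).toNat, ?_, ?_⟩
  · rw [Finset.card_image_of_injOn]
    · exact hF1
    · intro t ht t' ht' htt
      have h3 := hval t ht
      have h4 := hval t' ht'
      have h5 : ((((B.e0 + B.γ * x) + B.N * (s.h x + (t : ℤ)) - L).toNat : ℕ) : ℤ) =
          ((((B.e0 + B.γ * x) + B.N * (s.h x + (t' : ℤ)) - L).toNat : ℕ) : ℤ) :=
        congrArg (fun k : ℕ => (k : ℤ)) htt
      rw [h3, h4] at h5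
      have h6 : B.N * (t : ℤ) = B.N * (t' : ℤ) := by linear_combination h5
      have h7 : (t : ℤ) = (t' : ℤ) := mul_left_cancel₀ hN.ne' h6
      exact_mod_cast h7
  · intro m hm
    rw [Finset.mem_image] at hm
    obtain ⟨t, ht, rfl⟩ := hm
    refine ⟨?_, ?_⟩
    · rw [ha4, hval t ht, sub_add_cancel]
      exact hmem t ht
    · have h3 := hval t ht
      have h4 : (t : ℤ) < (((3 ^ (r + 4)) ^ h : ℕ) : ℤ) := by exact_mod_cast (hF2 t ht).2
      have h5 : (1 : ℤ) ≤ (((3 ^ (r + 4)) ^ h : ℕ) : ℤ) := by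
        exact_mod_cast Nat.one_le_pow _ _ (Nat.pow_pos (by norm_num))
      have hc0 : (0 : ℤ) ≤ |B.e0 + B.γ * x| + B.N * |s.h x| + |L| :=
        add_nonneg (add_nonneg (abs_nonneg _) (mul_nonneg hN.le (abs_nonneg _))) (abs_nonneg _)
      have hM : (((|B.e0 + B.γ * x| + B.N * |s.h x| + |L| + B.N + 1).toNat : ℕ) : ℤ) =
          |B.e0 + B.γ * x| + B.N * |s.h x| + |L| + B.N + 1 := Int.toNat_of_nonneg (by linarith)
      have h6 : ((((B.e0 + B.γ * x) + B.N * (s.h x + (t : ℤ)) - L).toNat : ℕ) : ℤ) <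
          (((|B.e0 + B.γ * x| + B.N * |s.h x| + |L| + B.N + 1).toNat * (3 ^ (r + 4)) ^ h : ℕ) : ℤ) := by
        rw [h3, Nat.cast_mul, hM]
        have a1 := le_abs_self (B.e0 + B.γ * x)
        have a2 := mul_le_mul_of_nonneg_left (le_abs_self (s.h x)) hN.le
        have a3 := neg_abs_le L
        have a4 := mul_lt_mul_of_pos_left h4 hN
        have a5 := mul_le_mul_of_nonneg_left h5 hc0
        have e1 : B.N * (s.h x + (t : ℤ)) = B.N * s.h x + B.N * (t : ℤ) := by ring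
        have e2 : (|B.e0 + B.γ * x| + B.N * |s.h x| + |L| + B.N + 1) * (((3 ^ (r + 4)) ^ h : ℕ) : ℤ) =
          (|B.e0 + B.γ * x| + B.N * |s.h x| + |L|) * (((3 ^ (r + 4)) ^ h : ℕ) : ℤ) +
            B.N * (((3 ^ (r + 4)) ^ h : ℕ) : ℤ) + (((3 ^ (r + 4)) ^ h : ℕ) : ℤ) := by ring
        rw [e1, e2]
        linarith
      exact_mod_cast h6

end Pool.Agent.STN
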