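import Pool.Agent.STN.Ga

/-!
# Project STN, module Gg: finitely many steps

Induction over a list enumerating `ι` (`Finite`, e.g. `Finite.exists_equiv_fin` or `Finset.induction_on` over subsets of `Finset.univ` with `Fintype.ofFinite`): for every finite set `F` of indices there is `s'` with
`s.Good s'`, `Inv s'` and `P i s'` for all `i ∈ F`.
-/

set_option autoImplicit false

namespace Pool.Agent.STN

theorem iter {ι : Type} [Finite ι] (Inv : Sys → Prop) (P : ι → Sys → Prop)
    (hInv : ∀ s s' : Sys, Inv s → s.Good s' → Inv s')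
    (hmono : ∀ i (s s' : Sys), Inv s → s.Good s' → P i s → P i s')
    (hstep : ∀ i (s : Sys), Inv s → ∃ s' : Sys, s.Good s' ∧ P i s')
    (hfree : ∀ s : Sys, Inv s → s.Free) (s : Sys) (hs : Inv s) :
    ∃ s' : Sys, s.Good s' ∧ Inv s' ∧ ∀ i, P i s' := by
  classical
  have := Fintype.ofFinite ι
  have key : ∀ F : Finset ι, ∃ s' : Sys, s.Good s' ∧ Inv s' ∧ ∀ i ∈ F, P i s' := by
    intro F
    induction F using Finset.induction_on with
    | empty => exact ⟨s, good_refl (hfree s hs), hs, fun i hi => absurd hi (Finset.notMem_empty i)⟩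
    | insert a F _ ih =>
      obtain ⟨s1, h1, hI1, hP1⟩ := ih
      obtain ⟨s2, h2, hP2⟩ := hstep a s1 hI1
      refine ⟨s2, good_trans h1 h2, hInv s1 s2 hI1 h2, fun i hi => ?_⟩
      rcases Finset.mem_insert.mp hi with rfl | hi
      · exact hP2
      · exact hmono i s1 s2 hI1 h2 (hP1 i hi)
  obtain ⟨s', h1, h2, h3⟩ := key Finset.univ
  exact ⟨s', h1, h2, fun i => h3 i (Finset.mem_univ i)⟩

end Pool.Agent.STN
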