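import Pool.Agent.STN.Gf
import Pool.Agent.STN.Gg

/-!
# Project STN, module Gh: the line G5

A cell `B` (content `E`, level `3`) and a cell `A = 2 B - x` (content `G a`, level `3`) far to the right of all
old cells: the new system is free, `A` is made complete with `copy_cell`, `B` with `iter` over all pairs
of states and `g4`, and the two cells cover `x`.
-/

set_option autoImplicit false

namespace Pool.Agent.STN

private theorem gh_bound (X : Finset ℤ) : ∃ M : ℤ, ∀ z ∈ X, -M ≤ z ∧ z ≤ M := by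
  refine ⟨∑ z ∈ X, |z|, fun z hz => ?_⟩
  have h := Finset.single_le_sum (f := fun z : ℤ => |z|) (fun i _ => abs_nonneg i) hz
  exact abs_le.1 h

/-- the two new cells -/
private theorem gh_add {Q : Type} {s : Sys} {G : Q → Set ℕ} {c : Q → ℤ} (hs : BaseIn s G c)
    (hG : ∀ q, G q ⊆ S0) {E : Set ℕ} (hEf : Fre E) {x : ℤ} (hx : x ∈ s.X) (hh : s.h x = 3) (a : Q)
    (hleg : Leg 0 (G a) E (s.T x)) :
    ∃ (s1 : Sys) (A t : ℤ), BaseIn s1 G c ∧ s.Le s1 ∧ A ∈ s1.X ∧ t ∈ s1.X ∧ s1.h A = 3 ∧ s1.h t = 3 ∧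
      s1.T A = G a ∧ s1.T t = E ∧ A + x = 2 * t ∧ ∀ z ∈ s1.X, z ∉ s.X → z = A ∨ z = t := by
  classical
  obtain ⟨M, hM⟩ := gh_bound s.X
  have hx' := hM x hx
  obtain ⟨t, ht⟩ : ∃ t : ℤ, t = 10 * M + 10 := ⟨_, rfl⟩
  obtain ⟨A, hA⟩ : ∃ A : ℤ, A = 2 * t - x := ⟨_, rfl⟩
  have hAt : A ≠ t := by omega
  have htX : t ∉ s.X := fun h => by have := hM t h; omega
  have hAX : A ∉ s.X := fun h => by have := hM A h; omega
  obtain ⟨s1, hs1⟩ : ∃ s1 : Sys, s1 = ⟨insert A (insert t s.X),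
    fun z => if z = t then 3 else if z = A then 3 else s.h z,
    fun z => if z = t then E else if z = A then G a else s.T z⟩ := ⟨_, rfl⟩
  have hX1 : ∀ z, z ∈ s1.X ↔ z = A ∨ z = t ∨ z ∈ s.X := by
    intro z
    rw [hs1]
    simp only [Finset.mem_insert]
  have hht : s1.h t = 3 := by rw [hs1]; exact if_pos rfl
  have hTt : s1.T t = E := by rw [hs1]; exact if_pos rfl
  have hhA : s1.h A = 3 := by
    rw [hs1]
    show (if A = t then (3 : ℤ) else if A = A then 3 else s.h A) = 3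
    rw [if_neg hAt, if_pos rfl]
  have hTA : s1.T A = G a := by
    rw [hs1]
    show (if A = t then E else if A = A then G a else s.T A) = G a
    rw [if_neg hAt, if_pos rfl]
  have hold : ∀ z ∈ s.X, s1.h z = s.h z ∧ s1.T z = s.T z := by
    intro z hz
    have h1 : z ≠ t := fun h => htX (h ▸ hz)
    have h2 : z ≠ A := fun h => hAX (h ▸ hz)
    rw [hs1]
    constructor
    · show (if z = t then (3 : ℤ) else if z = A then 3 else s.h z) = s.h z
      rw [if_neg h1, if_neg h2]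
    · show (if z = t then E else if z = A then G a else s.T z) = s.T z
      rw [if_neg h1, if_neg h2]
  have hAX1 : A ∈ s1.X := (hX1 A).2 (Or.inl rfl)
  have htX1 : t ∈ s1.X := (hX1 t).2 (Or.inr (Or.inl rfl))
  have holdX : ∀ z ∈ s.X, z ∈ s1.X := fun z hz => (hX1 z).2 (Or.inr (Or.inr hz))
  have hLe : s.Le s1 := ⟨holdX, hold⟩
  have hFree : s1.Free := by
    intro x1 h1 x2 h2 x3 h3 he a' ha b' hb c' hc heq
    have m1 : x1 = t ∨ x1 = A ∨ (x1 ∈ s.X ∧ -M ≤ x1 ∧ x1 ≤ M) := by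
      rcases (hX1 x1).1 h1 with h | h | h
      · exact Or.inr (Or.inl h)
      · exact Or.inl h
      · exact Or.inr (Or.inr ⟨h, hM x1 h⟩)
    have m2 : x2 = t ∨ x2 = A ∨ (x2 ∈ s.X ∧ -M ≤ x2 ∧ x2 ≤ M) := by
      rcases (hX1 x2).1 h2 with h | h | h
      · exact Or.inr (Or.inl h)
      · exact Or.inl h
      · exact Or.inr (Or.inr ⟨h, hM x2 h⟩)
    have m3 : x3 = t ∨ x3 = A ∨ (x3 ∈ s.X ∧ -M ≤ x3 ∧ x3 ≤ M) := by
      rcases (hX1 x3).1 h3 with h | h | h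
      · exact Or.inr (Or.inl h)
      · exact Or.inl h
      · exact Or.inr (Or.inr ⟨h, hM x3 h⟩)
    rcases m1 with e1 | e1 | ⟨o1, p1, q1⟩ <;> rcases m2 with e2 | e2 | ⟨o2, p2, q2⟩ <;>
      rcases m3 with e3 | e3 | ⟨o3, p3, q3⟩ <;> try (exfalso; omega)
    · -- t t t
      subst e1 e2 e3
      rw [hTt] at ha hb hc
      exact ⟨rfl, hEf a' ha b' hb c' hc (by omega)⟩
    · -- A t x
      exfalso
      have e3 : x3 = x := by omega
      rw [e1, hTA] at ha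
      rw [e2, hTt] at hb
      rw [e3, (hold x hx).2] at hc
      rw [e1, e2, e3, hhA, hht, (hold x hx).1, hh] at heq
      exact hleg a' ha b' hb c' hc (by omega)
    · -- A A A
      rw [e1, hTA] at ha
      rw [e2, hTA] at hb
      rw [e3, hTA] at hc
      rw [e1, e2, e3] at heq
      obtain ⟨r1, r2⟩ := s0_ap (hG a ha) (hG a hb) (hG a hc) (by omega)
      exact ⟨by omega, by omega⟩
    · -- x t A
      exfalso
      have e1 : x1 = x := by omega
      rw [e1, (hold x hx).2] at ha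
      rw [e2, hTt] at hb
      rw [e3, hTA] at hc
      rw [e1, e2, e3, hhA, hht, (hold x hx).1, hh] at heq
      exact hleg c' hc b' hb a' ha (by omega)
    · -- old
      rw [(hold x1 o1).2] at ha
      rw [(hold x2 o2).2] at hb
      rw [(hold x3 o3).2] at hc
      rw [(hold x1 o1).1, (hold x2 o2).1, (hold x3 o3).1] at heq
      exact hs.free x1 o1 x2 o2 x3 o3 he a' ha b' hb c' hc heq
  refine ⟨s1, A, t, ⟨hFree, fun q => holdX _ (hs.mem q), fun q => ?_, fun q => ?_⟩, hLe, hAX1, htX1, hhA, hht,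
    hTA, hTt, by omega, ?_⟩
  · exact (hold _ (hs.mem q)).1.trans (hs.lev q)
  · exact (hold _ (hs.mem q)).2.trans (hs.con q)
  · intro z hz hzX
    rcases (hX1 z).1 hz with h | h | h
    · exact Or.inl h
    · exact Or.inr h
    · exact absurd h hzX

theorem g5 {Q : Type} [Finite Q] {s : Sys} {G : Q → Set ℕ} {c : Q → ℤ} (hs : BaseIn s G c)
    (hG : ∀ q, G q ⊆ S0) {E : Set ℕ} (hEf : Fre E)
    (hE : ∀ n, n ∉ E → ∃ a b : Q, ∃ X ∈ G a, ∃ Y ∈ G b, X + n = 2 * Y ∧ X ≤ Y ∧ Leg 0 (G a) (G b) E)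
    {x : ℤ} (hx : x ∈ s.X) (hh : s.h x = 3) (a : Q) (hleg : Leg 0 (G a) E (s.T x)) :
    ∃ s' : Sys, s.Good s' ∧ ∀ n X Y : ℕ, X ∈ G a → Y ∈ E → X + n = 2 * Y → X < Y → s'.Cov x n := by
  obtain ⟨s1, A, t, hB1, hLe, hAX, htX, hhA, hht, hTA, hTt, hAt, hnew⟩ := gh_add hs hG hEf hx hh a hleg
  -- the copy of `A`
  obtain ⟨s2, hg2, hc2⟩ := copy_cell hB1.free (hG a) (hB1.mem a) (hB1.con a) (hB1.lev a) hAX hTA
    (by rw [hhA]; norm_num)
  have hB2 := base_good hB1 hg2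
  have ht2 := hg2.1.2 t htX
  -- completion of `t`
  obtain ⟨s3, hg3, hI3, hP3⟩ := iter (ι := Q × Q)
    (fun w => BaseIn w G c ∧ t ∈ w.X ∧ w.h t = 3 ∧ w.T t = E)
    (fun p w => Leg 0 (G p.1) (G p.2) E →
      ∀ n X Y : ℕ, X ∈ G p.1 → Y ∈ G p.2 → X + n = 2 * Y → X ≤ Y → w.Cov t n)
    (fun w w' hw hg => ⟨base_good hw.1 hg, hg.1.1 hw.2.1, (hg.1.2 t hw.2.1).1.trans hw.2.2.1,
      (hg.1.2 t hw.2.1).2.trans hw.2.2.2⟩)
    (fun p w w' hw hg hP hl n X Y h1 h2 h3 h4 => cov_mono hg.1 hw.2.1 (hP hl n X Y h1 h2 h3 h4))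
    (fun p w hw => by
      by_cases hl : Leg 0 (G p.1) (G p.2) E
      · obtain ⟨w', hw', hc'⟩ := g4 hw.1 hG hw.2.1 hw.2.2.1 p.1 p.2 (by rw [hw.2.2.2]; exact hl)
        exact ⟨w', hw', fun _ => hc'⟩
      · exact ⟨w, good_refl hw.1.free, fun h => absurd h hl⟩)
    (fun w hw => hw.1.free) s2
    ⟨hB2, hg2.1.1 htX, ht2.1.trans hht, ht2.2.trans hTt⟩
  have hg13 := good_trans hg2 hg3
  have ht3 : s3.Complete t := by
    refine ⟨0, fun n _ hn => ?_⟩
    rw [hI3.2.2.2] at hn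
    obtain ⟨a', b', X, hX, Y, hY, h1, h2, h3⟩ := hE n hn
    exact hP3 (a', b') h3 n X Y hX hY h1 h2
  refine ⟨s3, good_of hLe hg13 ?_, ?_⟩
  · intro z hz hzX
    rcases hnew z hz hzX with h | h
    · rw [h]
      exact complete_mono hg3.1 (hg2.1.1 hAX) hc2
    · rw [h]
      exact ht3
  · intro n X Y hX hY hn hXY
    have hL := hg13.1
    have hx1 := hLe.1 hx
    refine ⟨A, hL.1 hAX, t, hL.1 htX, hAt, X, ?_, Y, ?_, ?_, ?_⟩
    · rw [(hL.2 _ hAX).2, hTA]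
      exact hX
    · rw [(hL.2 _ htX).2, hTt]
      exact hY
    · rw [(hL.2 _ hAX).1, (hL.2 _ htX).1, (hL.2 _ hx1).1, (hLe.2 x hx).1, hhA, hht, hh]
      omega
    · rw [(hL.2 _ hAX).1, (hL.2 _ htX).1, hhA, hht]
      left
      omega

end Pool.Agent.STN
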