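import Pool.Agent.STN.Bb

/-!
# Project STN, module Md: the relation `X + Z = 2 Y + 1` in `S0`
-/

set_option autoImplicit false

namespace Pool.Agent.STN

private theorem md_mul {x : ℕ} (h : x ∈ S0) (d : ℕ) (hd : d ≤ 1) : 3 * x + d ∈ S0 := by
  rw [s0_step]
  have e : (3 * x + d) / 3 = x := by omega
  rw [e]
  exact ⟨by omega, h⟩

theorem kap {X Y Z : ℕ} (hX : X ∈ S0) (hY : Y ∈ S0) (hZ : Z ∈ S0) (h : X + Z = 2 * Y + 1) :
    ∃ x j, x ∈ S0 ∧ 3 ^ (j + 1) ∣ x ∧ 2 * Y + 1 = 2 * x + 3 ^ j ∧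
      ((X = x ∧ Z = x + 3 ^ j) ∨ (X = x + 3 ^ j ∧ Z = x)) := by
  induction Y using Nat.strong_induction_on generalizing X Z with
  | _ Y ih =>
    have hX' := s0_step.mp hX
    have hY' := s0_step.mp hY
    have hZ' := s0_step.mp hZ
    have x1 := hX'.1
    have y1 := hY'.1
    have z1 := hZ'.1
    by_cases h0 : Y % 3 = 0
    · have e : X / 3 + Z / 3 = 2 * (Y / 3) := by omega
      obtain ⟨e1, e2⟩ := s0_ap hX'.2 hY'.2 hZ'.2 e
      refine ⟨Y, 0, hY, ?_, ?_, ?_⟩
      · rw [zero_add, pow_one]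
        exact Nat.dvd_of_mod_eq_zero h0
      · rw [pow_zero]
      · rw [pow_zero]
        omega
    · have e : X / 3 + Z / 3 = 2 * (Y / 3) + 1 := by omega
      obtain ⟨x, j, hx, hd, hy, hor⟩ := ih (Y / 3) (by omega) hX'.2 hY'.2 hZ'.2 e
      refine ⟨3 * x, j + 1, ?_, ?_, ?_, ?_⟩
      · have := md_mul hx 0 (by norm_num)
        rwa [add_zero] at this
      · obtain ⟨c, hc⟩ := hd
        exact ⟨c, by rw [hc]; ring⟩
      · rw [pow_succ]
        omega
      · rw [pow_succ]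
        rcases hor with ⟨h1, h2⟩ | ⟨h1, h2⟩
        · left
          omega
        · right
          omega

theorem s0_last {m : ℕ} (h : m ∈ S0) (h0 : 0 < m) :
    ∃ x j Y, x ∈ S0 ∧ Y ∈ S0 ∧ 3 ^ (j + 1) ∣ x ∧ m = x + 3 ^ j ∧ 2 * Y + 1 = 2 * x + 3 ^ j := by
  induction m using Nat.strong_induction_on with
  | _ m ih =>
    have h' := s0_step.mp h
    by_cases h1 : m % 3 = 1
    · have hm : m - 1 ∈ S0 := by
        have := md_mul h'.2 0 (by norm_num)
        have e : 3 * (m / 3) + 0 = m - 1 := by omega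
        rwa [e] at this
      refine ⟨m - 1, 0, m - 1, hm, hm, ?_, ?_, ?_⟩
      · rw [zero_add, pow_one]
        exact Nat.dvd_of_mod_eq_zero (by omega)
      · rw [pow_zero]
        omega
      · rw [pow_zero]
    · have h2 := h'.1
      obtain ⟨x, j, Y, hx, hY, hd, he, hy⟩ := ih (m / 3) (by omega) h'.2 (by omega)
      refine ⟨3 * x, j + 1, 3 * Y + 1, ?_, md_mul hY 1 (le_refl _), ?_, ?_, ?_⟩
      · have := md_mul hx 0 (by norm_num)
        rwa [add_zero] at this
      · obtain ⟨c, hc⟩ := hd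
        exact ⟨c, by rw [hc]; ring⟩
      · rw [pow_succ]
        omega
      · rw [pow_succ]
        omega

end Pool.Agent.STN
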