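import Pool.Agent.STN.Mb
import Pool.Agent.STN.Md

/-!
# Project STN, module Me: killing the elements of `S0` (A1)

`ej l s j` is the number of the positions below `j` in the class `s`, modulo `3`; it is the difference of the digit sums of the
two members of a pair with the shift `1`. It determines the class of `j`.
-/

set_option autoImplicit false

namespace Pool.Agent.STN

/-- number of positions below `j` in a class, modulo `3` -/
def ej (l s j : ℕ) : ZMod 3 := (((Finset.range j).filter (fun p => p % l = s)).card : ZMod 3)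

theorem ej_val {l s : ℕ} (hs : s < l) (j : ℕ) : ej l s j = ((j / l : ℕ) : ZMod 3) + (if s < j % l then 1 else 0) := by
  have h1 : ((Finset.range j).filter (fun p => p % l = s)).card = j / l + (if s < j % l then 1 else 0) := by
    have h2 := Nat.count_modEq_card (b := j) (r := l) (by omega) s
    rw [Nat.count_eq_card_filter_range, Nat.mod_eq_of_lt hs] at h2
    rw [← h2]
    congr 1
    refine Finset.filter_congr fun p _ => ?_
    unfold Nat.ModEq
    rw [Nat.mod_eq_of_lt hs]
  unfold ej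
  rw [h1]
  split_ifs <;> push_cast <;> rfl

private theorem me_ej_succ (l s j : ℕ) : ej l s (j + 1) = ej l s j + (if j % l = s then 1 else 0) := by
  unfold ej
  rw [Finset.range_add_one, Finset.filter_insert]
  by_cases h : j % l = s
  · rw [if_pos h, if_pos h, Finset.card_insert_of_notMem]
    · push_cast
      rfl
    · intro h1
      exact absurd (Finset.mem_range.1 (Finset.mem_filter.1 h1).1) (lt_irrefl j)
  · rw [if_neg h, if_neg h, add_zero]

private theorem me_half (l s : ℕ) (j : ℕ) : ∀ b : ℕ, 2 * b + 1 = 3 ^ j → cs l s 0 b = ej l s j := by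
  induction j with
  | zero =>
    intro b hb
    have hb0 : b = 0 := by
      rw [pow_zero] at hb
      omega
    subst hb0
    rw [cs_zero]
    simp [ej]
  | succ j ih =>
    intro b hb
    have h3 : 3 ^ (j + 1) = 3 * 3 ^ j := by ring
    have hodd : 3 ^ j % 2 = 1 := by
      rw [Nat.pow_mod]
      norm_num
    obtain ⟨c, hc⟩ : ∃ c, 2 * c + 1 = 3 ^ j := ⟨3 ^ j / 2, by omega⟩
    have hbc : b = c + 3 ^ j * 1 := by omega
    rw [hbc, cs_append (by omega), ih c hc, me_ej_succ]
    congr 1
    rw [cs_step, zero_add]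
    have h4 : (1 : ℕ) / 3 = 0 := by norm_num
    have h5 : (1 : ℕ) % 3 = 1 := by norm_num
    rw [h4, h5, cs_zero, add_zero]
    push_cast
    rfl

theorem cs_Y {l s x Y j : ℕ} (hx : 3 ^ (j + 1) ∣ x) (h : 2 * Y + 1 = 2 * x + 3 ^ j) :
    cs l s 0 Y = cs l s 0 x + ej l s j := by
  obtain ⟨a, ha⟩ := hx
  have h3 : 3 ^ (j + 1) = 3 ^ j * 3 := by ring
  have hodd : 3 ^ j % 2 = 1 := by
    rw [Nat.pow_mod]
    norm_num
  obtain ⟨b, hb⟩ : ∃ b, 2 * b + 1 = 3 ^ j := ⟨3 ^ j / 2, by omega⟩
  have hx1 : x = 0 + 3 ^ j * (3 * a) := by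
    rw [ha, h3]
    ring
  have hY : Y = b + 3 ^ j * (3 * a) := by omega
  have h4 : cs l s 0 Y = cs l s 0 b + cs l s (0 + j) (3 * a) := by
    rw [hY]
    exact cs_append (by omega) l s 0 (3 * a)
  have h5 : cs l s 0 x = cs l s 0 0 + cs l s (0 + j) (3 * a) := by
    rw [hx1]
    exact cs_append (by omega) l s 0 (3 * a)
  rw [h4, h5, cs_zero, me_half l s j b hb]
  ring

theorem ej_inj {l j j' : ℕ} (hl : 3 ≤ l) (h : ∀ s < l, ej l s j = ej l s j') : j % l = j' % l := by
  have hj : j % l < l := Nat.mod_lt _ (by omega)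
  have hj' : j' % l < l := Nat.mod_lt _ (by omega)
  have h1 := h (l - 1) (by omega)
  rw [ej_val (by omega), ej_val (by omega), if_neg (by omega), if_neg (by omega), add_zero, add_zero] at h1
  have h10 : (1 : ZMod 3) ≠ 0 := by decide
  rcases lt_trichotomy (j % l) (j' % l) with h2 | h2 | h2
  · exfalso
    have h3 := h (j % l) hj
    rw [ej_val hj, ej_val hj, if_neg (lt_irrefl _), if_pos h2, h1, add_zero] at h3
    exact h10 (left_eq_add.1 h3)
  · exact h2
  · exfalso
    have h3 := h (j' % l) hj'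
    rw [ej_val hj', ej_val hj', if_pos h2, if_neg (lt_irrefl _), h1, add_zero] at h3
    exact h10 (add_eq_left.1 h3)

theorem ej_ne {l j j' : ℕ} (hl : 3 ≤ l)
    (h : ∀ s < l, ej l s j = ej l s j' - (if j' % l = s then 1 else 0)) : False := by
  have hj : j % l < l := Nat.mod_lt _ (by omega)
  have hj' : j' % l < l := Nat.mod_lt _ (by omega)
  have h1 := h (l - 1) (by omega)
  have hb : ∀ (P : Prop) [Decidable P], (if P then (1 : ZMod 3) else 0) ≠ -1 := by
    intro P _
    split_ifs
    · decide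
    · decide
  rw [ej_val (by omega), ej_val (by omega), if_neg (by omega), if_neg (by omega), add_zero, add_zero] at h1
  by_cases hc : j' % l = l - 1
  · rw [if_pos hc] at h1
    have h2 := h 0 (by omega)
    rw [ej_val (by omega), ej_val (by omega), if_pos (by omega : 0 < j' % l), if_neg (by omega : ¬ j' % l = 0),
      sub_zero, h1] at h2
    refine hb (0 < j % l) ?_
    have h3 : (if 0 < j % l then (1 : ZMod 3) else 0) = 2 := by linear_combination h2
    rw [h3]
    decide
  · rw [if_neg hc, sub_zero] at h1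
    have h2 := h (j' % l) hj'
    rw [ej_val hj', ej_val hj', if_neg (lt_irrefl _), if_pos rfl, h1] at h2
    refine hb (j' % l < j % l) ?_
    linear_combination h2

theorem a1 (r : ℕ) {m : ℕ} (hm : m ∈ S0) (h0 : 0 < m)
    (q : (Fin (r + 4) → ZMod 3) × Option (ℕ × Option ℕ)) (hq : sg r m ≠ q) :
    ∃ X ∈ S0, ∃ Y ∈ S0, X + m = 2 * Y + 1 ∧ X ≤ Y ∧
      Leg 1 (Gq r (sg r X)) (Gq r (sg r Y)) (Gq r q) := by
  obtain ⟨x, j, Y, hx, hY, hdx, hmx, hYx⟩ := s0_last hm h0
  have h3 : 1 ≤ 3 ^ j := Nat.one_le_pow _ _ (by norm_num)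
  refine ⟨x, hx, Y, hY, by omega, by omega, ?_⟩
  rintro X' ⟨hX', hX's⟩ Y' ⟨hY', hY's⟩ Z' ⟨hZ', hZ's⟩ hsum
  obtain ⟨x', j', hx', hdx', hYx', hc⟩ := kap hX' hY' hZ' hsum
  have hcs : ∀ {u v : ℕ}, sg r u = sg r v → ∀ s < r + 4, cs (r + 4) s 0 u = cs (r + 4) s 0 v := by
    intro u v huv s hs
    have h4 := congrArg Prod.fst huv
    exact congrFun h4 ⟨s, hs⟩
  rcases hc with ⟨h1, h2⟩ | ⟨h1, h2⟩
  · subst h1
    have h5 : j' % (r + 4) = j % (r + 4) := by
      refine ej_inj (by omega) fun s hs => ?_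
      have h6 := hcs hX's s hs
      have h7 := hcs hY's s hs
      rw [cs_Y hdx' hYx', cs_Y hdx hYx, h6] at h7
      exact add_left_cancel h7
    have h8 := sg_cong hdx' hdx hX's h5
    rw [← h2, ← hmx] at h8
    exact hq (h8.symm.trans hZ's)
  · subst h2
    refine ej_ne (l := r + 4) (j := j) (j' := j') (by omega) fun s hs => ?_
    have h6 := hcs hX's s hs
    have h7 := hcs hY's s hs
    rw [cs_Y hdx' hYx', cs_Y hdx hYx] at h7
    rw [h1, cs_add_pow (hx' j')] at h6
    linear_combination h6 - h7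

end Pool.Agent.STN
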