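import Pool.Agent.STN.Bc

/-!
# Project STN, module Bd: splitting a relation `x + n = 2 y` at a digit zero of `n`

`split_mod`: `x % 3^(p+1) + n % 3^(p+1) < 3^(p+1)` because `n % 3^(p+1) < 3^p` (`dg n p = 0`) and `2 (x % 3^(p+1)) < 3^(p+1)` (`s0_two`), and `2 (y % 3^(p+1)) < 3^(p+1)`;
two numbers below `3^(p+1)` which are congruent are equal.  `split_dg`: subtract, divide by `3^(p+1)`.
-/

set_option autoImplicit false

namespace Pool.Agent.STN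

private theorem bd_id (M x n y : ℕ) : (x : ℤ) + n - 2 * y =
    (((x % M : ℕ) : ℤ) + (n % M : ℕ) - 2 * (y % M : ℕ)) +
      (M : ℤ) * ((x / M : ℕ) + (n / M : ℕ) - 2 * (y / M : ℕ)) := by
  have ex : (x : ℤ) = (x % M : ℕ) + (M : ℤ) * (x / M : ℕ) := by
    exact_mod_cast (Nat.mod_add_div x M).symm
  have en : (n : ℤ) = (n % M : ℕ) + (M : ℤ) * (n / M : ℕ) := by
    exact_mod_cast (Nat.mod_add_div n M).symm
  have ey : (y : ℤ) = (y % M : ℕ) + (M : ℤ) * (y / M : ℕ) := by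
    exact_mod_cast (Nat.mod_add_div y M).symm
  linear_combination ex + en - 2 * ey

private theorem bd_eq {M x n y : ℕ} (h : (M : ℤ) ∣ (x : ℤ) + n - 2 * y) (h1 : x % M + n % M < M)
    (h2 : 2 * (y % M) < M) : x % M + n % M = 2 * (y % M) := by
  rw [bd_id M x n y] at h
  have hd := (dvd_add_left (dvd_mul_right (M : ℤ) _)).1 h
  have h3 : |((x % M : ℕ) : ℤ) + (n % M : ℕ) - 2 * (y % M : ℕ)| < M := by
    rw [abs_lt]
    constructor <;> omega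
  have h4 := Int.eq_zero_of_abs_lt_dvd hd h3
  omega

private theorem bd_small {n p : ℕ} (h0 : dg n p = 0) : n % 3 ^ (p + 1) < 3 ^ p := by
  have h1 : n % (3 ^ p * 3) = n % 3 ^ p + 3 ^ p * (n / 3 ^ p % 3) := Nat.mod_mul
  have h2 : n / 3 ^ p % 3 = 0 := h0
  rw [pow_succ, h1, h2, mul_zero, add_zero]
  exact Nat.mod_lt _ (by positivity)

theorem split_mod {n x y p : ℕ} (hx : x ∈ S0) (hy : y ∈ S0)
    (h : (3 : ℤ) ^ (p + 1) ∣ (x : ℤ) + n - 2 * y) (h0 : dg n p = 0) :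
    x % 3 ^ (p + 1) + n % 3 ^ (p + 1) = 2 * (y % 3 ^ (p + 1)) := by
  have h1 := s0_two hx (p + 1)
  have h2 := s0_two hy (p + 1)
  have h3 := bd_small h0
  have h4 : 3 ^ (p + 1) = 3 * 3 ^ p := by rw [pow_succ, mul_comm]
  refine bd_eq ?_ (by omega) (by omega)
  push_cast
  exact h

theorem split_dg {n x y p : ℕ} (hx : x ∈ S0) (hy : y ∈ S0)
    (h : (3 : ℤ) ^ (p + 2) ∣ (x : ℤ) + n - 2 * y) (h0 : dg n p = 0) :
    (3 : ℤ) ∣ (dg x (p + 1) : ℤ) + dg n (p + 1) - 2 * dg y (p + 1) := by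
  have h1 : (3 : ℤ) ^ (p + 1) ∣ (x : ℤ) + n - 2 * y :=
    (pow_dvd_pow 3 (Nat.le_succ (p + 1))).trans h
  have h2 := split_mod hx hy h1 h0
  have h3 := bd_id (3 ^ (p + 1)) x n y
  have h4 : (((x % 3 ^ (p + 1) : ℕ) : ℤ) + (n % 3 ^ (p + 1) : ℕ) - 2 * (y % 3 ^ (p + 1) : ℕ)) = 0 := by
    omega
  rw [h4, zero_add] at h3
  rw [h3, pow_succ (3 : ℤ) (p + 1)] at h
  push_cast at h
  have h5 : (3 : ℤ) ∣ ((x : ℤ) / 3 ^ (p + 1)) + ((n : ℤ) / 3 ^ (p + 1)) - 2 * ((y : ℤ) / 3 ^ (p + 1)) :=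
    (mul_dvd_mul_iff_left (by positivity : (3 : ℤ) ^ (p + 1) ≠ 0)).1 h
  have ex : ((x / 3 ^ (p + 1) : ℕ) : ℤ) = (x : ℤ) / 3 ^ (p + 1) := by push_cast; rfl
  have en : ((n / 3 ^ (p + 1) : ℕ) : ℤ) = (n : ℤ) / 3 ^ (p + 1) := by push_cast; rfl
  have ey : ((y / 3 ^ (p + 1) : ℕ) : ℤ) = (y : ℤ) / 3 ^ (p + 1) := by push_cast; rfl
  rw [← ex, ← en, ← ey] at h5
  unfold dg
  omega

theorem split_eq {n x y p : ℕ} (hx : x ∈ S0) (hy : y ∈ S0) (h : x + n = 2 * y) (h0 : dg n p = 0) :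
    x % 3 ^ (p + 1) + n % 3 ^ (p + 1) = 2 * (y % 3 ^ (p + 1)) ∧
      x / 3 ^ (p + 1) + n / 3 ^ (p + 1) = 2 * (y / 3 ^ (p + 1)) := by
  have h1 : (x : ℤ) + n - 2 * y = 0 := by omega
  have h2 : x % 3 ^ (p + 1) + n % 3 ^ (p + 1) = 2 * (y % 3 ^ (p + 1)) := by
    refine split_mod hx hy ?_ h0
    rw [h1]
    exact dvd_zero _
  refine ⟨h2, ?_⟩
  have ex := Nat.mod_add_div x (3 ^ (p + 1))
  have en := Nat.mod_add_div n (3 ^ (p + 1))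
  have ey := Nat.mod_add_div y (3 ^ (p + 1))
  have h3 : 3 ^ (p + 1) * (x / 3 ^ (p + 1) + n / 3 ^ (p + 1)) =
      3 ^ (p + 1) * (2 * (y / 3 ^ (p + 1))) := by
    rw [mul_add, mul_left_comm]
    omega
  exact Nat.eq_of_mul_eq_mul_left (by positivity) h3

end Pool.Agent.STN
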