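import Pool.Agent.STN.Mc
import Pool.Agent.STN.Bd

/-!
# Project STN, module Mg: representations of the elements of `C_v`

`two_reps`: `n = w + 2 3^i` has the digit `0` at `i + 1`: `split_eq` with `p = i + 1`: the high parts give `X / 3^(i+2) = w / 3^(i+2) = Y / 3^(i+2)` (`s0_ap`).  Low parts (below `3^(i+2)`): modulo `3^i`: `X % 3^i + w % 3^i < 3^i` and `2 (Y % 3^i) < 3^i`
(`s0_two`), so they are equal and `X % 3^i = w % 3^i = Y % 3^i`; the digits `x, y` at `i` and `x', y'` at `i + 1` satisfy `x + 2 + 3 x' = 2 y + 6 y'`: `(0, 1, 0, 0)` or `(1, 0, 1, 1)`.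
`ill_C`: `Z = w + 2 3^i`, `sg (w + 3^i) = v`.  Case 1 is immediate (`cs_add_pow`).  Case 2: `X = w + 3^i + 3^(i+1)`, `Y = w + 3^(i+1)`; `mu (w + 3^i)` is marked with kind `2` or `3` (`V1_sat`); its guard (`mu_mar`) is at `i` since the digit of
`w + 3^i` at `i` is one and `i` has the class `r + 1`; so `mu (w + 3^i - 3^i + 3^(i+1)) = (2, none)`.
-/

set_option autoImplicit false

namespace Pool.Agent.STN

private theorem mg_dec (M X : ℕ) :
    X = X % M + M * (X / M % 3) + 3 * (M * (X / M / 3 % 3)) + 9 * (M * (X / M / 3 / 3)) := by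
  have h1 : X = X % M + M * (X / M) := (Nat.mod_add_div X M).symm
  have h2 : X / M = X / M % 3 + 3 * (X / M / 3 % 3) + 9 * (X / M / 3 / 3) := by omega
  calc X = X % M + M * (X / M) := h1
    _ = X % M + M * (X / M % 3 + 3 * (X / M / 3 % 3) + 9 * (X / M / 3 / 3)) := by rw [← h2]
    _ = _ := by ring

private theorem mg_dg (n p : ℕ) : n / 3 ^ p / 3 % 3 = dg n (p + 1) := by
  unfold dg
  rw [Nat.div_div_eq_div_mul, ← pow_succ]

theorem two_reps {w i X Y : ℕ} (hw : w ∈ S0) (h0 : dg w i = 0) (h1 : dg w (i + 1) = 0) (hX : X ∈ S0)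
    (hY : Y ∈ S0) (h : X + (w + 2 * 3 ^ i) = 2 * Y) :
    (X = w ∧ Y = w + 3 ^ i) ∨ (X = w + 3 ^ i + 3 ^ (i + 1) ∧ Y = w + 3 ^ (i + 1)) := by
  obtain ⟨M, hM⟩ : ∃ M : ℕ, M = 3 ^ i := ⟨_, rfl⟩
  have hM0 : 0 < M := by rw [hM]; positivity
  have e1 := mg_dec M X
  have e2 := mg_dec M Y
  have e3 := mg_dec M w
  have z1 : w / M % 3 = 0 := by rw [hM]; exact h0
  have z2 : w / M / 3 % 3 = 0 := by rw [hM, mg_dg]; exact h1
  rw [z1, z2] at e3
  have qX : X / M ∈ S0 := by rw [hM]; exact s0_div hX i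
  have qY : Y / M ∈ S0 := by rw [hM]; exact s0_div hY i
  have qw : w / M ∈ S0 := by rw [hM]; exact s0_div hw i
  obtain ⟨x1, x2⟩ := s0_step.1 qX
  obtain ⟨x3, x4⟩ := s0_step.1 x2
  obtain ⟨y1, y2⟩ := s0_step.1 qY
  obtain ⟨y3, y4⟩ := s0_step.1 y2
  have w4 := (s0_step.1 (s0_step.1 qw).2).2
  have lX : X % M ∈ S0 := by rw [hM]; exact s0_mod hX i
  have lY : Y % M ∈ S0 := by rw [hM]; exact s0_mod hY i
  have lw : w % M ∈ S0 := by rw [hM]; exact s0_mod hw i
  have tX : 2 * (X % M) + 1 ≤ M := by rw [hM]; exact s0_two hX i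
  have tY : 2 * (Y % M) + 1 ≤ M := by rw [hM]; exact s0_two hY i
  have tw : 2 * (w % M) + 1 ≤ M := by rw [hM]; exact s0_two hw i
  obtain ⟨a, ha⟩ : ∃ a : ℕ, a = X / M % 3 + 3 * (X / M / 3 % 3) := ⟨_, rfl⟩
  obtain ⟨b, hb⟩ : ∃ b : ℕ, b = Y / M % 3 + 3 * (Y / M / 3 % 3) := ⟨_, rfl⟩
  have e4 : X = X % M + M * (a + 9 * (X / M / 3 / 3)) := by
    rw [ha]
    refine e1.trans ?_
    ring
  have e5 : Y = Y % M + M * (b + 9 * (Y / M / 3 / 3)) := by
    rw [hb]
    refine e2.trans ?_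
    ring
  have e6 : w = w % M + M * (9 * (w / M / 3 / 3)) := by
    refine e3.trans ?_
    ring
  rw [← hM] at h
  -- the equation in base `M`
  have e7 : (X % M + w % M) + M * (a + 2 + 9 * (X / M / 3 / 3 + w / M / 3 / 3)) =
      2 * (Y % M) + M * (2 * b + 9 * (2 * (Y / M / 3 / 3))) := by
    calc (X % M + w % M) + M * (a + 2 + 9 * (X / M / 3 / 3 + w / M / 3 / 3)) =
        (X % M + M * (a + 9 * (X / M / 3 / 3))) + ((w % M + M * (9 * (w / M / 3 / 3))) + 2 * M) := by ring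
      _ = X + (w + 2 * M) := by rw [← e4, ← e6]
      _ = 2 * Y := h
      _ = 2 * (Y % M + M * (b + 9 * (Y / M / 3 / 3))) := by rw [← e5]
      _ = _ := by ring
  have e8 : X % M + w % M = 2 * (Y % M) := by
    have g1 : (X % M + w % M) % M = (2 * (Y % M)) % M := by
      rw [← Nat.add_mul_mod_self_left (X % M + w % M) M (a + 2 + 9 * (X / M / 3 / 3 + w / M / 3 / 3)), e7,
        Nat.add_mul_mod_self_left]
    have g2 : (X % M + w % M) % M = X % M + w % M := Nat.mod_eq_of_lt (by omega)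
    have g3 : (2 * (Y % M)) % M = 2 * (Y % M) := Nat.mod_eq_of_lt (by omega)
    rw [← g2, g1, g3]
  have e9 : a + 2 + 9 * (X / M / 3 / 3 + w / M / 3 / 3) = 2 * b + 9 * (2 * (Y / M / 3 / 3)) := by
    rw [e8] at e7
    exact Nat.eq_of_mul_eq_mul_left hM0 (Nat.add_left_cancel e7)
  have e10 : a + 2 = 2 * b ∧ X / M / 3 / 3 + w / M / 3 / 3 = 2 * (Y / M / 3 / 3) := by
    constructor <;> omega
  obtain ⟨f1, f2⟩ := s0_ap lX lY lw e8
  obtain ⟨f3, f4⟩ := s0_ap x4 y4 w4 e10.2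
  have hXw : X = w + M * a := by
    calc X = X % M + M * (a + 9 * (X / M / 3 / 3)) := e4
      _ = (w % M + M * (9 * (w / M / 3 / 3))) + M * a := by rw [f1, f3, f2, f4]; ring
      _ = w + M * a := by rw [← e6]
  have hYw : Y = w + M * b := by
    calc Y = Y % M + M * (b + 9 * (Y / M / 3 / 3)) := e5
      _ = (w % M + M * (9 * (w / M / 3 / 3))) + M * b := by rw [f2, f4]; ring
      _ = w + M * b := by rw [← e6]
  have hab : (a = 0 ∧ b = 1) ∨ (a = 4 ∧ b = 3) := by omega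
  rcases hab with ⟨ga, gb⟩ | ⟨ga, gb⟩
  · left
    rw [hXw, hYw, ga, gb, hM]
    exact ⟨by ring, by ring⟩
  · right
    rw [hXw, hYw, ga, gb, hM]
    exact ⟨by ring, by ring⟩

theorem ill_C {r : ℕ} {v : (Fin (r + 4) → ZMod 3) × Option (ℕ × Option ℕ)} (hv : V1 v.2) {X Y Z : ℕ}
    (hX : X ∈ S0) (hY : Y ∈ S0) (hZ : Z ∈ Cv r v) (h : X + Z = 2 * Y) :
    (sg r Y = v ∧ ∀ s < r + 4, cs (r + 4) s 0 Y = cs (r + 4) s 0 X + (if s = r + 1 then 1 else 0)) ∨
    (V0 (mu r 0 Y) ∧ ∀ s < r + 4, cs (r + 4) s 0 Y = cs (r + 4) s 0 X - (if s = r + 1 then 1 else 0)) := by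
  obtain ⟨w, i, hw, hi, h0, h1, hs, rfl⟩ := hZ
  have hif : ∀ s : ℕ, (if i % (r + 4) = s then (1 : ZMod 3) else 0) = if s = r + 1 then 1 else 0 := by
    intro s
    rw [hi]
    by_cases hs' : s = r + 1
    · rw [if_pos hs'.symm, if_pos hs']
    · rw [if_neg (fun h' => hs' h'.symm), if_neg hs']
  rcases two_reps hw h0 h1 hX hY h with ⟨hXw, hYw⟩ | ⟨hXw, hYw⟩
  · left
    subst hXw hYw
    refine ⟨hs, fun s _ => ?_⟩
    rw [cs_add_pow (by omega), hif s]
  · right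
    have hdY : dg Y i = 0 := by
      rw [hYw, dg_add_pow (by omega), if_neg (by omega)]
      exact h0
    have hXY : X = Y + 3 ^ i := by
      rw [hXw, hYw]
      ring
    constructor
    · have hd : dg (w + 3 ^ i) i = 1 := by
        rw [dg_add_pow (by omega), if_pos rfl, h0]
      have hv1 : V1 (mu r 0 (w + 3 ^ i)) := by
        rw [← hs] at hv
        exact V1_sat.1 hv
      have hmar : ∀ kd u, (kd = 2 ∨ kd = 3) → mu r 0 (w + 3 ^ i) = some (kd, some u) →
          mu r 0 Y = some (2, none) := by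
        intro kd u hkd hmu
        obtain ⟨-, -, -, i', g1, g2, g3, g4, g5⟩ := mu_mar hmu
        have hii : i = i' := by
          by_contra hne
          have g6 := g4 i (by rw [zero_add]; exact hi) hne
          omega
        subst hii
        rw [Nat.add_sub_cancel, ← hYw] at g5
        rw [g5]
        rcases hkd with hkd | hkd
        · rw [if_neg (by omega), hkd]
        · rw [if_pos hkd]
      obtain ⟨u, hu | hu⟩ := hv1
      · exact Or.inr (hmar 2 u (Or.inl rfl) hu)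
      · exact Or.inr (hmar 3 u (Or.inr rfl) hu)
    · intro s _
      rw [hXY, cs_add_pow (by omega), hif s, add_sub_cancel_right]

end Pool.Agent.STN
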