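import Pool.Agent.STN.Defs

/-!
# Project STN, module Ba: ternary digits

`dg n p = n / 3^p % 3`: digits of sums `b + 3^j * a` with `b < 3^j` (`dg_split`), and of `n ± 3^p` without carry.
-/

set_option autoImplicit false

namespace Pool.Agent.STN

theorem dg_zero' (n : ℕ) : dg n 0 = n % 3 := by
  unfold dg
  rw [pow_zero, Nat.div_one]

theorem dg_succ (n p : ℕ) : dg n (p + 1) = dg (n / 3) p := by
  unfold dg
  rw [Nat.div_div_eq_div_mul, pow_succ']

theorem dg_lt (n p : ℕ) : dg n p < 3 := Nat.mod_lt _ (by norm_num)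

theorem dg_zero_left (p : ℕ) : dg 0 p = 0 := by
  unfold dg
  rw [Nat.zero_div]

theorem dg_of_lt {n p : ℕ} (h : n < 3 ^ p) : dg n p = 0 := by
  unfold dg
  rw [Nat.div_eq_of_lt h]

theorem dg_ext {m n : ℕ} (h : ∀ p, dg m p = dg n p) : m = n := by
  induction m using Nat.strong_induction_on generalizing n with
  | _ m ih =>
    have h0 := h 0
    rw [dg_zero', dg_zero'] at h0
    by_cases hm : m = 0
    · subst hm
      by_contra hn
      have hn' : n ≠ 0 := fun h1 => hn h1.symm
      have h1 : ∀ n : ℕ, n ≠ 0 → ∃ p, dg n p ≠ 0 := by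
        intro n
        induction n using Nat.strong_induction_on with
        | _ n ih =>
          intro hn
          by_cases h2 : n % 3 = 0
          · obtain ⟨p, hp⟩ := ih (n / 3) (by omega) (by omega)
            exact ⟨p + 1, by rw [dg_succ]; exact hp⟩
          · exact ⟨0, by rw [dg_zero']; exact h2⟩
      obtain ⟨p, hp⟩ := h1 n hn'
      apply hp
      rw [← h p, dg_zero_left]
    · have h1 : m / 3 = n / 3 := by
        refine ih (m / 3) (by omega) fun p => ?_
        have h2 := h (p + 1)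
        rw [dg_succ, dg_succ] at h2
        exact h2
      omega

theorem dg_div (n j p : ℕ) : dg (n / 3 ^ j) p = dg n (p + j) := by
  unfold dg
  rw [Nat.div_div_eq_div_mul, ← pow_add, add_comm j p]

theorem dg_split {j b : ℕ} (hb : b < 3 ^ j) (a p : ℕ) :
    dg (b + 3 ^ j * a) p = if p < j then dg b p else dg a (p - j) := by
  split_ifs with hp
  · unfold dg
    have h1 : 3 ^ j * a = 3 ^ p * (3 * (3 ^ (j - p - 1) * a)) := by
      have h2 : j = p + (1 + (j - p - 1)) := by omega
      calc 3 ^ j * a = 3 ^ (p + (1 + (j - p - 1))) * a := by rw [← h2]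
        _ = 3 ^ p * (3 * (3 ^ (j - p - 1) * a)) := by rw [pow_add, pow_add, pow_one]; ring
    rw [h1, Nat.add_mul_div_left _ _ (by positivity), Nat.add_mul_mod_self_left]
  · have hp' : j ≤ p := not_lt.1 hp
    have h1 : p = (p - j) + j := by omega
    have h2 : (b + 3 ^ j * a) / 3 ^ j = a := by
      rw [Nat.add_mul_div_left _ _ (by positivity), Nat.div_eq_of_lt hb, zero_add]
    calc dg (b + 3 ^ j * a) p = dg (b + 3 ^ j * a) ((p - j) + j) := by rw [← h1]
      _ = dg ((b + 3 ^ j * a) / 3 ^ j) (p - j) := (dg_div _ _ _).symm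
      _ = dg a (p - j) := by rw [h2]

theorem dg_mod (n j p : ℕ) : dg (n % 3 ^ j) p = if p < j then dg n p else 0 := by
  have hb : n % 3 ^ j < 3 ^ j := Nat.mod_lt _ (by positivity)
  split_ifs with hp
  · have h1 := dg_split hb (n / 3 ^ j) p
    rw [Nat.mod_add_div, if_pos hp] at h1
    exact h1.symm
  · exact dg_of_lt (hb.trans_le (Nat.pow_le_pow_right (by norm_num) (not_lt.1 hp)))

theorem dg_pow (j p : ℕ) : dg (3 ^ j) p = if p = j then 1 else 0 := by
  have h1 := dg_split (j := j) (b := 0) (by positivity) 1 p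
  rw [mul_one, zero_add] at h1
  rw [h1]
  by_cases h2 : p < j
  · rw [if_pos h2, dg_zero_left, if_neg (by omega)]
  · rw [if_neg h2]
    by_cases h3 : p = j
    · rw [if_pos h3, h3, Nat.sub_self, dg_zero']
    · rw [if_neg h3]
      refine dg_of_lt (Nat.one_lt_pow (by omega) (by norm_num))

private theorem ba_three (d m q : ℕ) (hd : d < 3) : dg (d + 3 * m) q = if q = 0 then d else dg m (q - 1) := by
  have h1 := dg_split (j := 1) (b := d) (by rw [pow_one]; exact hd) m q
  rw [pow_one] at h1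
  rw [h1]
  by_cases h2 : q = 0
  · rw [if_pos (by omega), if_pos h2, h2, dg_zero', Nat.mod_eq_of_lt hd]
  · rw [if_neg (by omega), if_neg h2]

private theorem ba_dec (n p : ℕ) : n = n % 3 ^ p + 3 ^ p * (dg n p + 3 * (n / 3 ^ p / 3)) := by
  have h1 : dg n p + 3 * (n / 3 ^ p / 3) = n / 3 ^ p := by
    unfold dg
    exact Nat.mod_add_div _ _
  rw [h1]
  exact (Nat.mod_add_div n (3 ^ p)).symm

theorem dg_add_pow {n p : ℕ} (h : dg n p ≤ 1) (q : ℕ) :
    dg (n + 3 ^ p) q = if q = p then dg n p + 1 else dg n q := by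
  have hb : n % 3 ^ p < 3 ^ p := Nat.mod_lt _ (by positivity)
  have h1 := ba_dec n p
  have h2 : n + 3 ^ p = n % 3 ^ p + 3 ^ p * ((dg n p + 1) + 3 * (n / 3 ^ p / 3)) := by
    calc n + 3 ^ p = (n % 3 ^ p + 3 ^ p * (dg n p + 3 * (n / 3 ^ p / 3))) + 3 ^ p := by rw [← h1]
      _ = _ := by ring
  have h3 : dg (n + 3 ^ p) q = if q < p then dg (n % 3 ^ p) q else
      if q - p = 0 then dg n p + 1 else dg (n / 3 ^ p / 3) (q - p - 1) := by
    rw [h2, dg_split hb, ba_three _ _ _ (by omega)]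
  have h4 : dg n q = if q < p then dg (n % 3 ^ p) q else
      if q - p = 0 then dg n p else dg (n / 3 ^ p / 3) (q - p - 1) := by
    have h5 : dg n q = dg (n % 3 ^ p + 3 ^ p * (dg n p + 3 * (n / 3 ^ p / 3))) q := by rw [← h1]
    rw [h5, dg_split hb, ba_three _ _ _ (dg_lt n p)]
  rw [h3, h4]
  by_cases h6 : q < p
  · rw [if_pos h6, if_neg (by omega), if_pos h6]
  · rw [if_neg h6, if_neg h6]
    by_cases h7 : q = p
    · rw [if_pos (by omega), if_pos h7]
    · rw [if_neg (by omega), if_neg h7, if_neg (by omega)]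

theorem dg_sub_pow {n p : ℕ} (h : 1 ≤ dg n p) :
    3 ^ p ≤ n ∧ ∀ q, dg (n - 3 ^ p) q = if q = p then dg n p - 1 else dg n q := by
  have hle : 3 ^ p ≤ n := by
    by_contra hc
    rw [dg_of_lt (not_le.1 hc)] at h
    omega
  have hb : n % 3 ^ p < 3 ^ p := Nat.mod_lt _ (by positivity)
  have hlt := dg_lt n p
  have h1 := ba_dec n p
  have h2 : n - 3 ^ p = n % 3 ^ p + 3 ^ p * ((dg n p - 1) + 3 * (n / 3 ^ p / 3)) := by
    have h3 : n = (n % 3 ^ p + 3 ^ p * ((dg n p - 1) + 3 * (n / 3 ^ p / 3))) + 3 ^ p := by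
      have h4 : dg n p = (dg n p - 1) + 1 := by omega
      calc n = n % 3 ^ p + 3 ^ p * (((dg n p - 1) + 1) + 3 * (n / 3 ^ p / 3)) := by rw [← h4]; exact h1
        _ = _ := by ring
    omega
  have h3 : dg (n - 3 ^ p) p = dg n p - 1 := by
    rw [h2, dg_split hb, if_neg (lt_irrefl p), Nat.sub_self, ba_three _ _ _ (by omega), if_pos rfl]
  refine ⟨hle, fun q => ?_⟩
  have h4 := dg_add_pow (n := n - 3 ^ p) (p := p) (by omega) q
  rw [Nat.sub_add_cancel hle] at h4
  by_cases h5 : q = p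
  · rw [if_pos h5, h5, h3]
  · rw [if_neg h5] at h4 ⊢
    exact h4.symm

end Pool.Agent.STN
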