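import Pool.Agent.STN.Ba

/-!
# Project STN, module Bb: the set `S0`

`s0_two`: induction on `p`: `n % 3^(p+1) = n % 3^p + 3^p * dg n p`.  `s0_ap`: strong induction on `b`: modulo `3` the lowest digits `a0 + c0 ≡ 2 b0`
with `a0, b0, c0 ≤ 1` give `a0 = b0 = c0`, then divide by three (`s0_step`).
-/

set_option autoImplicit false

namespace Pool.Agent.STN

theorem s0_zero : (0 : ℕ) ∈ S0 := by
  intro p
  rw [dg_zero_left]
  exact Nat.zero_le 1

theorem s0_step {n : ℕ} : n ∈ S0 ↔ n % 3 ≤ 1 ∧ n / 3 ∈ S0 := by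
  constructor
  · intro h
    refine ⟨?_, fun p => ?_⟩
    · rw [← dg_zero']
      exact h 0
    · rw [← dg_succ]
      exact h (p + 1)
  · rintro ⟨h1, h2⟩ p
    cases p with
    | zero =>
      rw [dg_zero']
      exact h1
    | succ p =>
      rw [dg_succ]
      exact h2 p

theorem s0_mod {n : ℕ} (h : n ∈ S0) (j : ℕ) : n % 3 ^ j ∈ S0 := by
  intro p
  rw [dg_mod]
  split_ifs with hp
  · exact h p
  · exact Nat.zero_le 1

theorem s0_div {n : ℕ} (h : n ∈ S0) (j : ℕ) : n / 3 ^ j ∈ S0 := by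
  intro p
  rw [dg_div]
  exact h (p + j)

theorem s0_append {a b j : ℕ} (hb : b < 3 ^ j) (h1 : b ∈ S0) (h2 : a ∈ S0) : b + 3 ^ j * a ∈ S0 := by
  intro p
  rw [dg_split hb]
  split_ifs with hp
  · exact h1 p
  · exact h2 (p - j)

theorem s0_pow (j : ℕ) : 3 ^ j ∈ S0 := by
  intro p
  rw [dg_pow]
  split_ifs <;> omega

/-- the low part of an element of `S0` is less than half the power of three -/
theorem s0_two {n : ℕ} (h : n ∈ S0) (p : ℕ) : 2 * (n % 3 ^ p) + 1 ≤ 3 ^ p := by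
  induction p with
  | zero =>
    rw [pow_zero, Nat.mod_one]
    exact le_refl 1
  | succ p ih =>
    have h1 : n % 3 ^ (p + 1) = n % 3 ^ p + 3 ^ p * dg n p := by
      unfold dg
      rw [pow_succ, Nat.mod_mul]
    have h2 : 3 ^ p * dg n p ≤ 3 ^ p * 1 := Nat.mul_le_mul_left _ (h p)
    rw [h1, pow_succ]
    omega

theorem s0_ap {a b c : ℕ} (ha : a ∈ S0) (hb : b ∈ S0) (hc : c ∈ S0) (h : a + c = 2 * b) :
    a = b ∧ c = b := by
  induction b using Nat.strong_induction_on generalizing a c with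
  | _ b ih =>
    by_cases hb0 : b = 0
    · omega
    · obtain ⟨ha1, ha2⟩ := s0_step.1 ha
      obtain ⟨hb1, hb2⟩ := s0_step.1 hb
      obtain ⟨hc1, hc2⟩ := s0_step.1 hc
      have h0 : (a % 3 + c % 3) % 3 = (2 * (b % 3)) % 3 := by omega
      have h1 : a % 3 = b % 3 ∧ c % 3 = b % 3 := by
        rcases (by omega : a % 3 = 0 ∨ a % 3 = 1) with h5 | h5 <;>
          rcases (by omega : b % 3 = 0 ∨ b % 3 = 1) with h6 | h6 <;>
          rcases (by omega : c % 3 = 0 ∨ c % 3 = 1) with h7 | h7 <;>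
          rw [h5, h6, h7] at h0 <;> simp_all
      have h2 : a / 3 + c / 3 = 2 * (b / 3) := by omega
      obtain ⟨h3, h4⟩ := ih (b / 3) (by omega) ha2 hb2 hc2 h2
      omega

theorem s0_fre : Fre S0 := by
  intro a ha b hb c hc h
  obtain ⟨h1, h2⟩ := s0_ap ha hb hc h
  rw [h1, h2]

theorem s0_add_pow {n p : ℕ} (h : n ∈ S0) (h0 : dg n p = 0) : n + 3 ^ p ∈ S0 := by
  intro q
  rw [dg_add_pow (h p)]
  split_ifs with hq
  · rw [h0]
  · exact h q

theorem s0_sub_pow {n p : ℕ} (h : n ∈ S0) (h1 : dg n p = 1) : n - 3 ^ p ∈ S0 := by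
  intro q
  rw [(dg_sub_pow (le_of_eq h1.symm)).2 q]
  split_ifs with hq
  · rw [h1]
    exact Nat.zero_le 1
  · exact h q

end Pool.Agent.STN
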