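import Pool.Agent.STN.Bb

/-!
# Project STN, module Bc: the canonical pair
-/

set_option autoImplicit false

namespace Pool.Agent.STN

private theorem bc_xc_zero : xc 0 = 0 := by
  rw [xc]; simp

private theorem bc_yc_zero : yc 0 = 0 := by
  rw [yc]; simp

theorem xc_step (n : ℕ) : xc n = (if n % 3 = 1 then 1 else 0) + 3 * xc (n / 3) := by
  by_cases h : n = 0
  · subst h
    have e : 0 / 3 = 0 := by norm_num
    rw [e, bc_xc_zero]
    norm_num
  · conv_lhs => rw [xc]
    rw [dif_neg h]

theorem yc_step (n : ℕ) : yc n = (if n % 3 = 0 then 0 else 1) + 3 * yc (n / 3) := by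
  by_cases h : n = 0
  · subst h
    have e : 0 / 3 = 0 := by norm_num
    rw [e, bc_yc_zero]
    norm_num
  · conv_lhs => rw [yc]
    rw [dif_neg h]

private theorem bc_xc_mod (n : ℕ) : xc n % 3 = if n % 3 = 1 then 1 else 0 := by
  rw [xc_step n]
  split_ifs <;> omega

private theorem bc_xc_div (n : ℕ) : xc n / 3 = xc (n / 3) := by
  rw [xc_step n]
  split_ifs <;> omega

private theorem bc_yc_mod (n : ℕ) : yc n % 3 = if n % 3 = 0 then 0 else 1 := by
  rw [yc_step n]
  split_ifs <;> omega

private theorem bc_yc_div (n : ℕ) : yc n / 3 = yc (n / 3) := by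
  rw [yc_step n]
  split_ifs <;> omega

theorem xc_mem (n : ℕ) : xc n ∈ S0 := by
  induction n using Nat.strong_induction_on with
  | _ n ih =>
    by_cases h : n = 0
    · subst h
      rw [bc_xc_zero]
      exact s0_zero
    · rw [s0_step, bc_xc_div, bc_xc_mod]
      refine ⟨by split_ifs <;> omega, ih _ (by omega)⟩

theorem yc_mem (n : ℕ) : yc n ∈ S0 := by
  induction n using Nat.strong_induction_on with
  | _ n ih =>
    by_cases h : n = 0
    · subst h
      rw [bc_yc_zero]
      exact s0_zero
    · rw [s0_step, bc_yc_div, bc_yc_mod]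
      refine ⟨by split_ifs <;> omega, ih _ (by omega)⟩

theorem can_eq (n : ℕ) : xc n + n = 2 * yc n := by
  induction n using Nat.strong_induction_on with
  | _ n ih =>
    by_cases h : n = 0
    · subst h
      rw [bc_yc_zero, bc_xc_zero]
    · have e := ih (n / 3) (by omega)
      rw [xc_step n, yc_step n]
      split_ifs <;> omega

theorem xc_le (n : ℕ) : xc n ≤ yc n := by
  induction n using Nat.strong_induction_on with
  | _ n ih =>
    by_cases h : n = 0
    · subst h
      rw [bc_yc_zero, bc_xc_zero]
    · have e := ih (n / 3) (by omega)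
      rw [xc_step n, yc_step n]
      split_ifs <;> omega

theorem xc_lt {n : ℕ} (h : n ∉ S0) : xc n < yc n := by
  induction n using Nat.strong_induction_on with
  | _ n ih =>
    by_cases h0 : n = 0
    · subst h0
      exact absurd s0_zero h
    · have e1 := xc_le (n / 3)
      by_cases h1 : n / 3 ∈ S0
      · have h2 : ¬ n % 3 ≤ 1 := fun h2 => h (s0_step.mpr ⟨h2, h1⟩)
        rw [xc_step n, yc_step n]
        split_ifs <;> omega
      · have e := ih (n / 3) (by omega) h1
        rw [xc_step n, yc_step n]
        split_ifs <;> omega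

theorem xc_self {n : ℕ} (h : n ∈ S0) : xc n = n := by
  induction n using Nat.strong_induction_on with
  | _ n ih =>
    by_cases h0 : n = 0
    · subst h0
      exact bc_xc_zero
    · have h1 := s0_step.mp h
      have e := ih (n / 3) (by omega) h1.2
      have h2 := h1.1
      rw [xc_step n, e]
      split_ifs <;> omega

theorem yc_self {n : ℕ} (h : n ∈ S0) : yc n = n := by
  induction n using Nat.strong_induction_on with
  | _ n ih =>
    by_cases h0 : n = 0
    · subst h0
      exact bc_yc_zero
    · have h1 := s0_step.mp h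
      have e := ih (n / 3) (by omega) h1.2
      have h2 := h1.1
      rw [yc_step n, e]
      split_ifs <;> omega

theorem dg_xc (n p : ℕ) : dg (xc n) p = if dg n p = 1 then 1 else 0 := by
  induction p generalizing n with
  | zero => rw [dg_zero', dg_zero', bc_xc_mod]
  | succ p ih => rw [dg_succ, dg_succ, bc_xc_div, ih]

theorem dg_yc (n p : ℕ) : dg (yc n) p = if dg n p = 0 then 0 else 1 := by
  induction p generalizing n with
  | zero => rw [dg_zero', dg_zero', bc_yc_mod]
  | succ p ih => rw [dg_succ, dg_succ, bc_yc_div, ih]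

theorem xc_append {j b : ℕ} (hb : b < 3 ^ j) (a : ℕ) : xc (b + 3 ^ j * a) = xc b + 3 ^ j * xc a := by
  induction j generalizing b with
  | zero =>
    have e : b = 0 := by simpa using hb
    subst e
    rw [bc_xc_zero]
    simp
  | succ j ih =>
    have h1 : b / 3 < 3 ^ j := by
      rw [Nat.div_lt_iff_lt_mul (by norm_num), ← pow_succ]
      exact hb
    have e := ih h1
    have e1 : b + 3 ^ (j + 1) * a = b + 3 * (3 ^ j * a) := by ring
    have e2 : (b + 3 ^ (j + 1) * a) % 3 = b % 3 := by rw [e1]; omega
    have e3 : (b + 3 ^ (j + 1) * a) / 3 = b / 3 + 3 ^ j * a := by rw [e1]; omega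
    rw [xc_step, e2, e3, e, xc_step b]
    ring

theorem yc_append {j b : ℕ} (hb : b < 3 ^ j) (a : ℕ) : yc (b + 3 ^ j * a) = yc b + 3 ^ j * yc a := by
  induction j generalizing b with
  | zero =>
    have e : b = 0 := by simpa using hb
    subst e
    rw [bc_yc_zero]
    simp
  | succ j ih =>
    have h1 : b / 3 < 3 ^ j := by
      rw [Nat.div_lt_iff_lt_mul (by norm_num), ← pow_succ]
      exact hb
    have e := ih h1
    have e1 : b + 3 ^ (j + 1) * a = b + 3 * (3 ^ j * a) := by ring
    have e2 : (b + 3 ^ (j + 1) * a) % 3 = b % 3 := by rw [e1]; omega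
    have e3 : (b + 3 ^ (j + 1) * a) / 3 = b / 3 + 3 ^ j * a := by rw [e1]; omega
    rw [yc_step, e2, e3, e, yc_step b]
    ring

theorem yc_lt {j b : ℕ} (hb : b < 3 ^ j) : yc b < 3 ^ j := by
  induction j generalizing b with
  | zero =>
    have e : b = 0 := by simpa using hb
    subst e
    rw [bc_yc_zero]
    norm_num
  | succ j ih =>
    have h1 : b / 3 < 3 ^ j := by
      rw [Nat.div_lt_iff_lt_mul (by norm_num), ← pow_succ]
      exact hb
    have e := ih h1
    rw [yc_step b, pow_succ]
    split_ifs <;> omega

end Pool.Agent.STN
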