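import Mathlib

/-!
# Project STN (MP_680cfa_co): Stanley sequences of growth `n^(1+ε)`: definitions

Paper proof: /team-store/stanley_proof.md.
-/

set_option autoImplicit false

namespace Pool.Agent.STN

/-! ### Ternary digits -/

/-- the ternary digit of `n` at position `p` -/
def dg (n p : ℕ) : ℕ := n / 3 ^ p % 3

/-- the numbers with ternary digits `0`, `1` -/
def S0 : Set ℕ := {n | ∀ p, dg n p ≤ 1}

/-- the first member of the canonical pair: digit `1` where `n` has digit `1` -/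
def xc (n : ℕ) : ℕ :=
  if h : n = 0 then 0 else (if n % 3 = 1 then 1 else 0) + 3 * xc (n / 3)
termination_by n
decreasing_by omega

/-- the second member of the canonical pair: digit `1` where `n` has digit `1` or `2` -/
def yc (n : ℕ) : ℕ :=
  if h : n = 0 then 0 else (if n % 3 = 0 then 0 else 1) + 3 * yc (n / 3)
termination_by n
decreasing_by omega

/-- `3`-AP-free sets of naturals, in the form used here -/
def Fre (D : Set ℕ) : Prop := ∀ a ∈ D, ∀ b ∈ D, ∀ c ∈ D, a + c = 2 * b → a = c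

/-! ### Systems and boards -/

/-- A system: cells `X`, levels `h`, contents `T`. -/
structure Sys where
  X : Finset ℤ
  h : ℤ → ℤ
  T : ℤ → Set ℕ

/-- the system is free of arithmetic progressions -/
def Sys.Free (s : Sys) : Prop :=
  ∀ x1 ∈ s.X, ∀ x2 ∈ s.X, ∀ x3 ∈ s.X, x1 + x3 = 2 * x2 →
    ∀ a ∈ s.T x1, ∀ b ∈ s.T x2, ∀ c ∈ s.T x3,
      ((a : ℤ) + s.h x1) + ((c : ℤ) + s.h x3) = 2 * ((b : ℤ) + s.h x2) → x1 = x3 ∧ a = c

/-- the address `n` of the cell `x` is covered -/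
def Sys.Cov (s : Sys) (x : ℤ) (n : ℕ) : Prop :=
  ∃ x1 ∈ s.X, ∃ x2 ∈ s.X, x1 + x = 2 * x2 ∧ ∃ a ∈ s.T x1, ∃ b ∈ s.T x2,
    ((a : ℤ) + s.h x1) + ((n : ℤ) + s.h x) = 2 * ((b : ℤ) + s.h x2) ∧
      ((a : ℤ) + s.h x1 < (b : ℤ) + s.h x2 ∨ ((a : ℤ) + s.h x1 = (b : ℤ) + s.h x2 ∧ x1 < x2))

/-- the cell `x` is complete -/
def Sys.Complete (s : Sys) (x : ℤ) : Prop := ∃ n0 : ℕ, ∀ n : ℕ, n0 ≤ n → n ∉ s.T x → s.Cov x n

/-- `s'` extends `s` -/
def Sys.Le (s s' : Sys) : Prop := s.X ⊆ s'.X ∧ ∀ x ∈ s.X, s'.h x = s.h x ∧ s'.T x = s.T x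

/-- good extensions: free, and all new cells are complete -/
def Sys.Good (s s' : Sys) : Prop :=
  s.Le s' ∧ s'.Free ∧ ∀ x ∈ s'.X, x ∉ s.X → s'.Complete x

/-- A board for the finite set `X` of cells; the free class of the cell `x` is `e0 + γ x`. -/
structure Board (X : Finset ℤ) where
  N : ℤ
  R : Finset ℤ
  e0 : ℤ
  γ : ℤ
  hN : 0 < N
  hγ : 0 < γ
  hR : R.Nonempty
  hb : ∀ x ∈ X, ∀ y ∈ X, γ * (x - y) < N
  b1 : ∀ u ∈ R, ∀ v ∈ R, ∀ w ∈ R, N ∣ u + w - 2 * v → u = v ∧ w = v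
  b2a : ∀ u ∈ R, ∀ v ∈ R, ∀ x ∈ X, ¬ N ∣ u + (e0 + γ * x) - 2 * v
  b2b : ∀ u ∈ R, ∀ v ∈ R, ∀ x ∈ X, ¬ N ∣ u + v - 2 * (e0 + γ * x)
  b2c : ∀ u ∈ R, ∀ x ∈ X, ∀ y ∈ X, ¬ N ∣ u + (e0 + γ * x) - 2 * (e0 + γ * y)
  b2d : ∀ u ∈ R, ∀ x ∈ X, ∀ y ∈ X, ¬ N ∣ (e0 + γ * x) + (e0 + γ * y) - 2 * u
  b3 : ∀ x ∈ X, ∀ y ∈ X, ∀ z ∈ X, N ∣ (e0 + γ * x) + (e0 + γ * z) - 2 * (e0 + γ * y) → x + z = 2 * y
  b4 : ∀ z : ℤ, (∃ r ∈ R, N ∣ z - r) ∨ (∃ x ∈ X, N ∣ z - (e0 + γ * x)) ∨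
    ∃ r1 ∈ R, ∃ r2 ∈ R, r1 < r2 ∧ N ∣ z - (2 * r2 - r1)

/-- the set of integers belonging to a board and a system -/
def bs {X : Finset ℤ} (B : Board X) (s : Sys) : Set ℤ :=
  {z | (∃ r ∈ B.R, ∃ t ∈ S0, z = r + B.N * (t : ℤ)) ∨
    ∃ x ∈ X, ∃ t ∈ s.T x, z = (B.e0 + B.γ * x) + B.N * (s.h x + (t : ℤ))}

/-! ### Frames -/

/-- A frame modulo `n`: the integers `F` (ordered by `<`) are free of progressions mod `n`, and every
other residue is `2 j - i` with `i < j`. -/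
def Fr (n : ℤ) (F : Finset ℤ) : Prop :=
  (∀ i ∈ F, ∀ j ∈ F, ∀ k ∈ F, n ∣ i + k - 2 * j → i = j ∧ k = j) ∧
  ∀ z : ℤ, (∃ i ∈ F, n ∣ z - i) ∨ ∃ i ∈ F, ∃ j ∈ F, i < j ∧ n ∣ z - (2 * j - i)

/-- Full pairs: every residue is `2 j - i`, `i ∈ F`, `j ∈ G`. -/
def Fp (n : ℤ) (F G : Finset ℤ) : Prop := ∀ z : ℤ, ∃ i ∈ F, ∃ j ∈ G, n ∣ z - (2 * j - i)

/-- `G` represents the residues `i + n j`, `i ∈ F`, `j ∈ B i`, modulo `n m`. -/
def Rps (n m : ℤ) (F : Finset ℤ) (B : ℤ → Finset ℤ) (G : Finset ℤ) : Prop :=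
  (∀ g ∈ G, ∃ i ∈ F, ∃ j ∈ B i, n * m ∣ g - (i + n * j)) ∧
  ∀ i ∈ F, ∀ j ∈ B i, ∃ g ∈ G, n * m ∣ g - (i + n * j)

open Classical in
/-- the elements of `S0` below `3^k` -/
noncomputable def K1 (k : ℕ) : Finset ℕ := (Finset.range (3 ^ k)).filter (· ∈ S0)

/-- the same as integers -/
noncomputable def K1z (k : ℕ) : Finset ℤ := (K1 k).image (fun a : ℕ => (a : ℤ))

/-- `(a, b)` represents `c` modulo `3^k` -/
def Rp (k c a b : ℕ) : Prop := a ∈ K1 k ∧ b ∈ K1 k ∧ (3 ^ k : ℤ) ∣ (c : ℤ) + a - 2 * b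

/-- `c` and `c'` are separated by an isolated digit -/
def Iso (k c c' : ℕ) : Prop :=
  ∃ p, p + 1 < k ∧ dg c p = 0 ∧ dg c' p = 0 ∧
    ((dg c (p + 1) = 0 ∧ dg c' (p + 1) = 1) ∨ (dg c (p + 1) = 1 ∧ dg c' (p + 1) = 0))

/-! ### The automaton.  `l = r + 4`; classes `0` void, `1..r` letters, `r + 1` guard, `r + 2`, `r + 3` sync. -/

/-- one step of the automaton: a digit one in the class `c`; states `(kind, m)` -/
def stp (r c : ℕ) : Option (ℕ × Option ℕ) → Option (ℕ × Option ℕ)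
  | none => none
  | some (0, m) => if c = r + 3 then some (1, m) else none
  | some (1, m) => if c = r + 2 then some (2, m) else if c = r + 1 ∧ m = none then some (3, some 0) else none
  | some (2, m) => if 1 ≤ c ∧ c ≤ r then some (2, m) else if c = r + 3 then some (1, m) else none
  | some (3, m) => if 1 ≤ c ∧ c ≤ r then some (3, m.map (· + 3 ^ (c - 1))) else
      if c = r + 3 then some (1, m) else none
  | some (_ + 4, _) => none

/-- the automaton (with exact sums), reading `n` from the top; the lowest digit of `n` has the position `k` -/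
def mu (r k n : ℕ) : Option (ℕ × Option ℕ) :=
  if h : n = 0 then some (0, none) else
    if n % 3 = 0 then mu r (k + 1) (n / 3) else
      if n % 3 = 1 then stp r (k % (r + 4)) (mu r (k + 1) (n / 3)) else none
termination_by n
decreasing_by all_goals omega

/-- saturation of the sum -/
def sat (V : ℕ) (q : Option (ℕ × Option ℕ)) : Option (ℕ × Option ℕ) :=
  q.map fun s => (s.1, s.2.map fun u => min V u)

/-- the saturation bound -/
def VV (r : ℕ) : ℕ := 3 ^ (2 * r) + 1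

/-- digit sums over a class of positions modulo `l`, modulo `3` -/
def cs (l s k n : ℕ) : ZMod 3 :=
  if _h : n = 0 then 0 else (if k % l = s then ((n % 3 : ℕ) : ZMod 3) else 0) + cs l s (k + 1) (n / 3)
termination_by n
decreasing_by omega

/-- number of digits two in a class of positions -/
def tw (l s k n : ℕ) : ℕ :=
  if h : n = 0 then 0 else (if k % l = s ∧ n % 3 = 2 then 1 else 0) + tw l s (k + 1) (n / 3)
termination_by n
decreasing_by omega

/-- The state of `x ∈ S0`. -/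
def sg (r x : ℕ) : (Fin (r + 4) → ZMod 3) × Option (ℕ × Option ℕ) :=
  (fun s => cs (r + 4) s 0 x, sat (VV r) (mu r 0 x))

/-- states of unmarked valid words -/
def V0 (q : Option (ℕ × Option ℕ)) : Prop := q = some (0, none) ∨ q = some (2, none)

/-- states of marked valid words -/
def V1 (q : Option (ℕ × Option ℕ)) : Prop := ∃ u, q = some (2, some u) ∨ q = some (3, some u)

/-- the contents `G_q` -/
def Gq (r : ℕ) (q : (Fin (r + 4) → ZMod 3) × Option (ℕ × Option ℕ)) : Set ℕ := {x | x ∈ S0 ∧ sg r x = q}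

/-- the contents `C_v` (used for marked states `v`) -/
def Cv (r : ℕ) (v : (Fin (r + 4) → ZMod 3) × Option (ℕ × Option ℕ)) : Set ℕ :=
  {n | ∃ w i, w ∈ S0 ∧ i % (r + 4) = r + 1 ∧ dg w i = 0 ∧ dg w (i + 1) = 0 ∧ sg r (w + 3 ^ i) = v ∧
    n = w + 2 * 3 ^ i}

open Classical in
/-- one step of the machine of `U`: digit `d` in the class `c`; states `(kind, sum of the group)` -/
noncomputable def ust (r : ℕ) (A : Set ℕ) (c d : ℕ) : Option (ℕ × ℕ) → Option (ℕ × ℕ)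
  | none => none
  | some (0, z) => if d = 0 then some (0, z) else if c = r + 3 ∧ d = 1 then some (1, 0) else none
  | some (1, z) => if d = 0 then some (1, z) else if c = r + 2 ∧ d = 1 then some (2, 0) else none
  | some (2, z) => if d = 0 then some (2, z) else if 1 ≤ c ∧ c ≤ r then some (2, z + d * 3 ^ (c - 1)) else
      if c = r + 3 ∧ d = 1 ∧ z ∈ A then some (1, 0) else none
  | some (_ + 3, _) => none

/-- the machine of `U` -/
noncomputable def uz (r : ℕ) (A : Set ℕ) (k n : ℕ) : Option (ℕ × ℕ) :=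
  if h : n = 0 then some (0, 0) else ust r A (k % (r + 4)) (n % 3) (uz r A (k + 1) (n / 3))
termination_by n
decreasing_by omega

/-- the set `U` -/
def UU (r : ℕ) (A : Set ℕ) : Set ℕ :=
  {n | uz r A 0 n = some (0, 0) ∨ ∃ z ∈ A, uz r A 0 n = some (2, z)}

/-- legality: no `X ∈ G`, `Y ∈ H`, `Z ∈ T` with `X + Z = 2 Y + κ` -/
def Leg (κ : ℕ) (G H T : Set ℕ) : Prop := ∀ X ∈ G, ∀ Y ∈ H, ∀ Z ∈ T, X + Z ≠ 2 * Y + κ

end Pool.Agent.STN
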