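import Pool.Agent.STN.Fd
import Pool.Agent.STN.Bd

/-!
# Project STN, module Rb: uniqueness of representations

`rp_b`: `3^k ∣ 2 (b - b')`, `3^k` odd, `b, b' < 3^k`.  `rp_iso`: `Iso` gives `p`, `p + 2 ≤ k`, with digits zero at `p` for both; `split_dg` for `(a, c, b)` and `(a, c', b')`: `3 ∣ a_(p+1) + c_(p+1) - 2 b_(p+1)`
with `a, b` digits `≤ 1`: `c_(p+1) = 0` forces `a_(p+1) = 0`, `c_(p+1) = 1` forces `a_(p+1) = 1`.
`rp_nine`: `9 ∣ 2 + a - 2 b`, and `a % 9, b % 9 ∈ {0, 1, 3, 4}` (two lowest digits `≤ 1`).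
-/

set_option autoImplicit false

namespace Pool.Agent.STN

private theorem rb_eq {k x y : ℕ} (hx : x < 3 ^ k) (hy : y < 3 ^ k) (h : (3 ^ k : ℤ) ∣ (x : ℤ) - y) : x = y := by
  have h1 : (y : ℤ) ≡ x [ZMOD ((3 ^ k : ℕ) : ℤ)] := by
    rw [Int.modEq_iff_dvd]
    exact_mod_cast h
  have h2 := (Int.natCast_modEq_iff.1 h1).symm
  exact Nat.ModEq.eq_of_lt_of_lt h2 hx hy

theorem rp_b {k c a b b' : ℕ} (h : Rp k c a b) (h' : Rp k c a b') : b = b' := by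
  obtain ⟨-, hb, h1⟩ := h
  obtain ⟨-, hb', h1'⟩ := h'
  have h2 := (mem_K1.1 hb).2
  have h2' := (mem_K1.1 hb').2
  have h3 : (3 ^ k : ℤ) ∣ 2 * ((b' : ℤ) - b) := by
    have h4 := dvd_sub h1 h1'
    have h5 : (c : ℤ) + a - 2 * b - ((c : ℤ) + a - 2 * b') = 2 * ((b' : ℤ) - b) := by ring
    rwa [h5] at h4
  have h4 : IsCoprime (3 ^ k : ℤ) 2 := IsCoprime.pow_left (by norm_num)
  exact (rb_eq h2' h2 (h4.dvd_of_dvd_mul_left h3)).symm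

theorem rp_a {k c a a' b : ℕ} (h : Rp k c a b) (h' : Rp k c a' b) : a = a' := by
  obtain ⟨ha, -, h1⟩ := h
  obtain ⟨ha', -, h1'⟩ := h'
  refine rb_eq (mem_K1.1 ha).2 (mem_K1.1 ha').2 ?_
  have h4 := dvd_sub h1 h1'
  have h5 : (c : ℤ) + a - 2 * b - ((c : ℤ) + a' - 2 * b) = (a : ℤ) - a' := by ring
  rwa [h5] at h4

theorem rp_c {k c c' a b : ℕ} (hc : c < 3 ^ k) (hc' : c' < 3 ^ k) (h : Rp k c a b) (h' : Rp k c' a b) :
    c = c' := by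
  obtain ⟨-, -, h1⟩ := h
  obtain ⟨-, -, h1'⟩ := h'
  refine rb_eq hc hc' ?_
  have h4 := dvd_sub h1 h1'
  have h5 : (c : ℤ) + a - 2 * b - ((c' : ℤ) + a - 2 * b) = (c : ℤ) - c' := by ring
  rwa [h5] at h4

theorem rp_iso {k c c' a b b' : ℕ} (hi : Iso k c c') (h : Rp k c a b) (h' : Rp k c' a b') : False := by
  obtain ⟨p, hp, h0, h0', hd⟩ := hi
  obtain ⟨ha, hb, h1⟩ := h
  obtain ⟨-, hb', h1'⟩ := h'
  have hpow : (3 : ℤ) ^ (p + 2) ∣ 3 ^ k := pow_dvd_pow 3 (by omega)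
  have e1 : (c : ℤ) + a - 2 * b = (a : ℤ) + c - 2 * b := by ring
  have e1' : (c' : ℤ) + a - 2 * b' = (a : ℤ) + c' - 2 * b' := by ring
  rw [e1] at h1
  rw [e1'] at h1'
  have h2 := split_dg (mem_K1.1 ha).1 (mem_K1.1 hb).1 (hpow.trans h1) h0
  have h2' := split_dg (mem_K1.1 ha).1 (mem_K1.1 hb').1 (hpow.trans h1') h0'
  have h3 : dg a (p + 1) ≤ 1 := (mem_K1.1 ha).1 (p + 1)
  have h4 : dg b (p + 1) ≤ 1 := (mem_K1.1 hb).1 (p + 1)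
  have h5 : dg b' (p + 1) ≤ 1 := (mem_K1.1 hb').1 (p + 1)
  generalize dg a (p + 1) = x at *
  generalize dg b (p + 1) = y at *
  generalize dg b' (p + 1) = y' at *
  have h8 : x = 0 ∨ x = 1 := by omega
  have h9 : y = 0 ∨ y = 1 := by omega
  have h10 : y' = 0 ∨ y' = 1 := by omega
  rcases hd with ⟨h6, h7⟩ | ⟨h6, h7⟩
  · rw [h6] at h2
    rw [h7] at h2'
    rcases h8 with rfl | rfl <;> rcases h9 with rfl | rfl <;> rcases h10 with rfl | rfl <;> omega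
  · rw [h6] at h2
    rw [h7] at h2'
    rcases h8 with rfl | rfl <;> rcases h9 with rfl | rfl <;> rcases h10 with rfl | rfl <;> omega

theorem rp_nine {k c a b : ℕ} (hk : 2 ≤ k) (hc : c % 9 = 2) (h : Rp k c a b) :
    (a % 9 = 0 ∨ a % 9 = 4) ∧ (b % 9 = 1 ∨ b % 9 = 3) := by
  obtain ⟨ha, hb, h1⟩ := h
  have h9 : (9 : ℤ) ∣ 3 ^ k := by
    have h2 : (3 : ℤ) ^ 2 ∣ 3 ^ k := pow_dvd_pow 3 hk
    norm_num at h2
    exact h2
  have h2 : (9 : ℤ) ∣ (c : ℤ) + a - 2 * b := h9.trans h1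
  have a0 : dg a 0 ≤ 1 := (mem_K1.1 ha).1 0
  have a1 : dg a 1 ≤ 1 := (mem_K1.1 ha).1 1
  have b0 : dg b 0 ≤ 1 := (mem_K1.1 hb).1 0
  have b1 : dg b 1 ≤ 1 := (mem_K1.1 hb).1 1
  simp only [dg, pow_zero, pow_one, Nat.div_one] at a0 a1 b0 b1
  have a2 : a % 9 = a % 3 + 3 * (a / 3 % 3) := by omega
  have b2 : b % 9 = b % 3 + 3 * (b / 3 % 3) := by omega
  have h3 : (9 : ℤ) ∣ 2 + ((a % 9 : ℕ) : ℤ) - 2 * ((b % 9 : ℕ) : ℤ) := by omega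
  have h4 : a % 9 = 0 ∨ a % 9 = 1 ∨ a % 9 = 3 ∨ a % 9 = 4 := by omega
  have h5 : b % 9 = 0 ∨ b % 9 = 1 ∨ b % 9 = 3 ∨ b % 9 = 4 := by omega
  clear a2 b2 a0 a1 b0 b1 h2 h1 h9 ha hb
  generalize a % 9 = x at *
  generalize b % 9 = y at *
  rcases h4 with rfl | rfl | rfl | rfl <;> rcases h5 with rfl | rfl | rfl | rfl <;> omega

end Pool.Agent.STN
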