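import Pool.Agent.STN.Ra
import Pool.Agent.STN.Rb

/-!
# Project STN, module Eb: the table of shifts

Powers of ten form a Sidon set; with their help the table of the shifts `ν0`, `ν1` is constructed.
-/

set_option autoImplicit false

namespace Pool.Agent.STN

private theorem eb_le {a b c d : ℕ} (hcd : c ≤ d) (h : 10 ^ a + 10 ^ b = 10 ^ c + 10 ^ d) : b ≤ d := by
  by_contra hbd
  have h1 : d + 1 ≤ b := by omega
  have h2 : 10 ^ (d + 1) ≤ 10 ^ b := Nat.pow_le_pow_right (by norm_num) h1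
  have h3 : 10 ^ c ≤ 10 ^ d := Nat.pow_le_pow_right (by norm_num) hcd
  have h4 : 0 < 10 ^ a := Nat.pow_pos (by norm_num)
  rw [pow_succ] at h2
  omega

private theorem eb_ord {a b c d : ℕ} (hab : a ≤ b) (hcd : c ≤ d) (h : 10 ^ a + 10 ^ b = 10 ^ c + 10 ^ d) :
    a = c ∧ b = d := by
  have h1 : b = d := le_antisymm (eb_le hcd h) (eb_le hab h.symm)
  subst h1
  exact ⟨Nat.pow_right_injective (by norm_num) (Nat.add_right_cancel h), rfl⟩

theorem sidon {a b c d : ℕ} (h : |2 * ((10 : ℤ) ^ (a + 1) + 10 ^ (b + 1) - 10 ^ (c + 1) - 10 ^ (d + 1))| < 20) :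
    (a = c ∧ b = d) ∨ (a = d ∧ b = c) := by
  have h1 : (10 : ℤ) ^ a + 10 ^ b = 10 ^ c + 10 ^ d := by
    rw [abs_lt, pow_succ, pow_succ, pow_succ, pow_succ] at h
    omega
  have h2 : 10 ^ a + 10 ^ b = 10 ^ c + 10 ^ d := by exact_mod_cast h1
  rcases le_total a b with hab | hab <;> rcases le_total c d with hcd | hcd
  · exact Or.inl (eb_ord hab hcd h2)
  · exact Or.inr (eb_ord hab hcd (by omega))
  · have h3 := eb_ord hab hcd (by omega)
    exact Or.inr ⟨h3.2, h3.1⟩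
  · have h3 := eb_ord hab hcd (by omega)
    exact Or.inl ⟨h3.2, h3.1⟩

private theorem eb_lt {k a : ℕ} (h : a ∈ K1 k) : a < 3 ^ k := by
  simp only [K1, Finset.mem_filter, Finset.mem_range] at h
  exact h.1

private theorem eb_q {D q t : ℤ} (hD : 0 < D) (h : D * q = t) (h1 : -(2 * D) < t) (h2 : t < 2 * D) :
    -2 < q ∧ q < 2 := by
  constructor
  · by_contra hq
    have h3 : q ≤ -2 := by omega
    nlinarith
  · by_contra hq
    have h3 : 2 ≤ q := by omega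
    nlinarith

private theorem eb_pow {k b : ℕ} (h : b < 3 ^ k) : (0 : ℤ) < 10 ^ (b + 1) ∧ (10 : ℤ) ^ (b + 1) ≤ 10 ^ (3 ^ k) :=
  ⟨by positivity, pow_le_pow_right₀ (by norm_num) h⟩

theorem table {X : Finset ℤ} {k : ℕ} {c : ℤ → ℕ} (hk : 2 ≤ k) (hc : ∀ x ∈ X, c x < 3 ^ k ∧ c x % 9 = 2)
    (hiso : ∀ x ∈ X, ∀ y ∈ X, x ≠ y → Iso k (c x) (c y)) :
    ∃ (As : Set ℕ) (ν0 ν1 : ℕ → ℤ) (Q0 : ℤ),
      (∀ x ∈ X, ∀ a b, Rp k (c x) a b → a ∈ As ∧ b ∉ As ∧
        (2 * (b : ℤ) - a - c x) + 3 ^ k * (2 * ν1 b - ν0 a) = 0) ∧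
      ∀ Q : ℤ, Q0 ≤ Q → ∀ c' : ℕ, c' < 3 ^ k → (∀ x ∈ X, c' ≠ c x) → ∀ w : ℤ,
        ∃ a b, Rp k c' a b ∧ (a ∉ As ∨ b ∈ As ∨
          ¬ ((3 ^ k * Q : ℤ) ∣ w - (2 * (b : ℤ) - a) - 3 ^ k * (2 * ν1 b - ν0 a))) := by
  have hν : ∀ a : ℕ, ∃ v : ℤ, ∀ x ∈ X, ∀ b, Rp k (c x) a b →
      (2 * (b : ℤ) - a - c x) + 3 ^ k * (2 * 10 ^ (b + 1) - v) = 0 := by
    intro a
    by_cases ha : ∃ x ∈ X, ∃ b, Rp k (c x) a b
    · obtain ⟨x, hx, b, hb⟩ := ha
      obtain ⟨e, he⟩ := hb.2.2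
      refine ⟨2 * 10 ^ (b + 1) - e, fun x' hx' b' hb' => ?_⟩
      have hxx : x' = x := by
        by_contra hne
        exact rp_iso (hiso x' hx' x hx hne) hb' hb
      subst hxx
      have hbb : b' = b := rp_b hb' hb
      subst hbb
      have h1 : (2 * (b' : ℤ) - a - c x') = - (3 ^ k * e) := by
        rw [← he]
        ring
      rw [h1]
      ring
    · exact ⟨0, fun x hx b hb => absurd ⟨x, hx, b, hb⟩ ha⟩
  choose ν0 hν0 using hν
  have hD : (0 : ℤ) < 3 ^ k := by positivity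
  have hcast : ∀ a : ℕ, a < 3 ^ k → (a : ℤ) < 3 ^ k := fun a ha => by exact_mod_cast ha
  have hP : (10 : ℤ) ≤ 10 ^ (3 ^ k) := by
    have h1 : (10 : ℤ) ^ 1 ≤ 10 ^ (3 ^ k) :=
      pow_le_pow_right₀ (by norm_num) (Nat.one_le_iff_ne_zero.2 (by positivity))
    simpa only [pow_one] using h1
  refine ⟨{a | ∃ x ∈ X, ∃ b, Rp k (c x) a b}, ν0, fun b => 10 ^ (b + 1), 10 ^ (3 ^ k + 3),
    fun x hx a b hab => ⟨⟨x, hx, b, hab⟩, ?_, hν0 a x hx b hab⟩, fun Q hQ c' hc' hne w => ?_⟩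
  · rintro ⟨y, hy, b', hb'⟩
    have h1 := (rp_nine hk (hc x hx).2 hab).2
    have h2 := (rp_nine hk (hc y hy).2 hb').1
    omega
  · by_cases hK : c' ∈ K1 k
    · refine ⟨c', c', rp_self hK, ?_⟩
      by_cases h1 : c' ∈ {a | ∃ x ∈ X, ∃ b, Rp k (c x) a b}
      · exact Or.inr (Or.inl h1)
      · exact Or.inl h1
    · by_contra hcon
      have hall : ∀ a b, Rp k c' a b → (∃ x ∈ X, ∃ b', Rp k (c x) a b') ∧
          (3 ^ k * Q : ℤ) ∣ w - (2 * (b : ℤ) - a) - 3 ^ k * (2 * 10 ^ (b + 1) - ν0 a) := by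
        intro a b hab
        constructor
        · by_contra h1
          exact hcon ⟨a, b, hab, Or.inl h1⟩
        · by_contra h1
          exact hcon ⟨a, b, hab, Or.inr (Or.inr h1)⟩
      obtain ⟨a1, b1, a2, b2, h1, h2, hdiff⟩ := rp_two hc' hK
      obtain ⟨⟨x1, hx1, b1', hb1'⟩, hd1⟩ := hall a1 b1 h1
      obtain ⟨⟨x2, hx2, b2', hb2'⟩, hd2⟩ := hall a2 b2 h2
      have e1 := hν0 a1 x1 hx1 b1' hb1'
      have e2 := hν0 a2 x2 hx2 b2' hb2'
      obtain ⟨f1, hf1⟩ := h1.2.2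
      obtain ⟨f2, hf2⟩ := h2.2.2
      have la1 := hcast _ (eb_lt h1.1)
      have la2 := hcast _ (eb_lt h2.1)
      have lb1 := hcast _ (eb_lt h1.2.1)
      have lb2 := hcast _ (eb_lt h2.2.1)
      have lb1' := hcast _ (eb_lt hb1'.2.1)
      have lb2' := hcast _ (eb_lt hb2'.2.1)
      have lc := hcast _ hc'
      have lc1 := hcast _ (hc x1 hx1).1
      have lc2 := hcast _ (hc x2 hx2).1
      have na1 : (0 : ℤ) ≤ a1 := Int.natCast_nonneg _
      have na2 : (0 : ℤ) ≤ a2 := Int.natCast_nonneg _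
      have nb1 : (0 : ℤ) ≤ b1 := Int.natCast_nonneg _
      have nb2 : (0 : ℤ) ≤ b2 := Int.natCast_nonneg _
      have nb1' : (0 : ℤ) ≤ b1' := Int.natCast_nonneg _
      have nb2' : (0 : ℤ) ≤ b2' := Int.natCast_nonneg _
      have nc : (0 : ℤ) ≤ c' := Int.natCast_nonneg _
      have nc1 : (0 : ℤ) ≤ c x1 := Int.natCast_nonneg _
      have nc2 : (0 : ℤ) ≤ c x2 := Int.natCast_nonneg _
      have q1 := eb_q hD hf1.symm (by linarith) (by linarith)
      have q2 := eb_q hD hf2.symm (by linarith) (by linarith)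
      have q3 := eb_q (q := ν0 a1 - 2 * 10 ^ (b1' + 1)) (t := 2 * (b1' : ℤ) - a1 - c x1) hD
        (by linarith) (by linarith) (by linarith)
      have q4 := eb_q (q := ν0 a2 - 2 * 10 ^ (b2' + 1)) (t := 2 * (b2' : ℤ) - a2 - c x2) hD
        (by linarith) (by linarith) (by linarith)
      have p1 := eb_pow (eb_lt h1.2.1)
      have p2 := eb_pow (eb_lt h2.2.1)
      have p3 := eb_pow (eb_lt hb1'.2.1)
      have p4 := eb_pow (eb_lt hb2'.2.1)
      have hdv : (3 ^ k * Q : ℤ) ∣ 3 ^ k * (f1 - f2 - (2 * 10 ^ (b1 + 1) - ν0 a1) +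
          (2 * 10 ^ (b2 + 1) - ν0 a2)) := by
        have h3 := dvd_sub hd1 hd2
        have h4 : w - (2 * (b1 : ℤ) - a1) - 3 ^ k * (2 * 10 ^ (b1 + 1) - ν0 a1) -
            (w - (2 * (b2 : ℤ) - a2) - 3 ^ k * (2 * 10 ^ (b2 + 1) - ν0 a2)) =
            3 ^ k * (f1 - f2 - (2 * 10 ^ (b1 + 1) - ν0 a1) + (2 * 10 ^ (b2 + 1) - ν0 a2)) := by
          have h5 : (2 * (b1 : ℤ) - a1) = c' - 3 ^ k * f1 := by
            rw [← hf1]
            ring
          have h6 : (2 * (b2 : ℤ) - a2) = c' - 3 ^ k * f2 := by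
            rw [← hf2]
            ring
          rw [h5, h6]
          ring
        rwa [h4] at h3
      have hdv2 := (mul_dvd_mul_iff_left (ne_of_gt hD)).1 hdv
      have hQ2 : (10 : ℤ) ^ (3 ^ k) * 1000 ≤ Q := by
        have h7 : (10 : ℤ) ^ (3 ^ k + 3) = 10 ^ (3 ^ k) * 1000 := by
          rw [pow_add]
          norm_num
        rw [← h7]
        exact hQ
      have hE := Int.eq_zero_of_abs_lt_dvd hdv2 (by
        rw [abs_lt]
        constructor <;> linarith)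
      have hs : |2 * ((10 : ℤ) ^ (b1 + 1) + 10 ^ (b2' + 1) - 10 ^ (b1' + 1) - 10 ^ (b2 + 1))| < 20 := by
        rw [abs_lt]
        constructor <;> linarith
      rcases sidon hs with ⟨h8, _⟩ | ⟨h8, _⟩
      · subst h8
        exact hne x1 hx1 (rp_c hc' (hc x1 hx1).1 h1 hb1')
      · subst h8
        rcases hdiff with h9 | h9
        · exact h9 (rp_a h1 h2)
        · exact h9 rfl

end Pool.Agent.STN
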