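import Pool.Agent.STN.Defs

/-!
# Project STN, module Fc: the frames modulo 25

Finite checks.  Reduce `∀ z : ℤ` to `z ∈ Finset.range 25` (or `Fin 25`): `25 ∣ z - t ↔ 25 ∣ (z % 25) - t`, then `decide`.
(The residues in the order: K 1,24,8,2,10,4,20; L 24,17,11,15,18,22,3; J 20,12,24,23,6,7,21; the integers below are residue plus 25 times rank.)
-/

set_option autoImplicit false

namespace Pool.Agent.STN

def K25 : Finset ℤ := {1, 49, 58, 77, 110, 129, 170}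

def L25 : Finset ℤ := {24, 42, 61, 90, 118, 147, 153}

def J25 : Finset ℤ := {20, 37, 74, 98, 106, 132, 171}

/-- reduction to the residues below 25 -/
private theorem fc_red {P : ℤ → Prop} (h : ∀ z, P (z % 25) → P z) (h' : ∀ w ∈ Finset.range 25, P ((w : ℕ) : ℤ))
    (z : ℤ) : P z := by
  refine h z ?_
  have h1 := h' (z % 25).toNat (Finset.mem_range.mpr (by omega))
  have h2 : (((z % 25).toNat : ℕ) : ℤ) = z % 25 := Int.toNat_of_nonneg (by omega)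
  rwa [h2] at h1

private theorem fc_dvd (z t : ℤ) (h : (25 : ℤ) ∣ z % 25 - t) : (25 : ℤ) ∣ z - t := by omega

private theorem fc_fr {F : Finset ℤ}
    (h1 : ∀ i ∈ F, ∀ j ∈ F, ∀ k ∈ F, (25 : ℤ) ∣ i + k - 2 * j → i = j ∧ k = j)
    (h2 : ∀ w ∈ Finset.range 25, (∃ i ∈ F, (25 : ℤ) ∣ ((w : ℕ) : ℤ) - i) ∨
      ∃ i ∈ F, ∃ j ∈ F, i < j ∧ (25 : ℤ) ∣ ((w : ℕ) : ℤ) - (2 * j - i)) : Fr 25 F := by
  refine ⟨h1, fun z => ?_⟩
  refine fc_red (P := fun z => (∃ i ∈ F, (25 : ℤ) ∣ z - i) ∨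
    ∃ i ∈ F, ∃ j ∈ F, i < j ∧ (25 : ℤ) ∣ z - (2 * j - i)) ?_ h2 z
  rintro z (⟨i, hi, h⟩ | ⟨i, hi, j, hj, hij, h⟩)
  · exact Or.inl ⟨i, hi, fc_dvd _ _ h⟩
  · exact Or.inr ⟨i, hi, j, hj, hij, fc_dvd _ _ h⟩

private theorem fc_fp {F G : Finset ℤ}
    (h : ∀ w ∈ Finset.range 25, ∃ i ∈ F, ∃ j ∈ G, (25 : ℤ) ∣ ((w : ℕ) : ℤ) - (2 * j - i)) : Fp 25 F G := by
  intro z
  refine fc_red (P := fun z => ∃ i ∈ F, ∃ j ∈ G, (25 : ℤ) ∣ z - (2 * j - i)) ?_ h z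
  rintro z ⟨i, hi, j, hj, h⟩
  exact ⟨i, hi, j, hj, fc_dvd _ _ h⟩

theorem fr_K25 : Fr 25 K25 := by
  exact fc_fr (by decide) (by decide)

theorem fr_L25 : Fr 25 L25 := by
  exact fc_fr (by decide) (by decide)

theorem fr_J25 : Fr 25 J25 := by
  exact fc_fr (by decide) (by decide)

theorem fp_KJ : Fp 25 K25 J25 := by
  exact fc_fp (by decide)

theorem fp_JK : Fp 25 J25 K25 := by
  exact fc_fp (by decide)

theorem fp_LJ : Fp 25 L25 J25 := by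
  exact fc_fp (by decide)

theorem fp_JL : Fp 25 J25 L25 := by
  exact fc_fp (by decide)

theorem miss_KL (z : ℤ) : (∃ i ∈ K25, ∃ j ∈ L25, (25 : ℤ) ∣ z - (2 * j - i)) ↔ ¬ (25 : ℤ) ∣ z := by
  refine fc_red (P := fun z => (∃ i ∈ K25, ∃ j ∈ L25, (25 : ℤ) ∣ z - (2 * j - i)) ↔ ¬ (25 : ℤ) ∣ z) ?_
    (by decide) z
  intro z h
  have h1 : ∀ t : ℤ, (25 : ℤ) ∣ z - t ↔ (25 : ℤ) ∣ z % 25 - t := fun t => by omega
  have h2 : (25 : ℤ) ∣ z ↔ (25 : ℤ) ∣ z % 25 := by omega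
  simp only [h1, h2]
  exact h

end Pool.Agent.STN
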