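import Pool.Agent.STN.Bc

/-!
# Project STN, module Fd: the frame `K1z k` modulo `3^k`

Free: `a + c ≡ 2 b (mod 3^k)` with `a, b, c ∈ S0` below `3^k`: `a + c < 3^k`, `2 b < 3^k` (`s0_two` with `n % 3^k = n`), so `a + c = 2 b`, `s0_ap`.
Complete: let `c = z mod 3^k` (natural number below `3^k`); if `c ∈ S0` it is in `K1z k`, otherwise `xc c < yc c < 3^k` (`xc_lt`, `yc_lt`) and `c = 2 yc c - xc c` (`can_eq`).
-/

set_option autoImplicit false

namespace Pool.Agent.STN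

theorem mem_K1 {k a : ℕ} : a ∈ K1 k ↔ a ∈ S0 ∧ a < 3 ^ k := by
  classical
  unfold K1
  rw [Finset.mem_filter, Finset.mem_range]
  exact ⟨fun h => ⟨h.2, h.1⟩, fun h => ⟨h.2, h.1⟩⟩

theorem mem_K1z {k : ℕ} {z : ℤ} : z ∈ K1z k ↔ ∃ a ∈ K1 k, z = (a : ℤ) := by
  unfold K1z
  rw [Finset.mem_image]
  constructor
  · rintro ⟨a, ha, h⟩
    exact ⟨a, ha, h.symm⟩
  · rintro ⟨a, ha, h⟩
    exact ⟨a, ha, h.symm⟩

private theorem fd_two {k a : ℕ} (h : a ∈ K1 k) : 2 * (a : ℤ) + 1 ≤ 3 ^ k := by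
  rw [mem_K1] at h
  have h1 := s0_two h.1 k
  rw [Nat.mod_eq_of_lt h.2] at h1
  exact_mod_cast h1

theorem fr_K1 (k : ℕ) : Fr (3 ^ k) (K1z k) := by
  constructor
  · intro i hi j hj l hl hd
    obtain ⟨a, ha, rfl⟩ := mem_K1z.1 hi
    obtain ⟨b, hb, rfl⟩ := mem_K1z.1 hj
    obtain ⟨c, hc, rfl⟩ := mem_K1z.1 hl
    have h1 := fd_two ha
    have h2 := fd_two hb
    have h3 := fd_two hc
    have h0 : (a : ℤ) + c - 2 * b = 0 := by
      apply Int.eq_zero_of_abs_lt_dvd hd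
      rw [abs_lt]
      have ha0 : (0 : ℤ) ≤ a := Int.natCast_nonneg a
      have hb0 : (0 : ℤ) ≤ b := Int.natCast_nonneg b
      have hc0 : (0 : ℤ) ≤ c := Int.natCast_nonneg c
      constructor
      · linarith
      · linarith
    have h4 : a + c = 2 * b := by
      have : (a : ℤ) + c = 2 * b := by linarith
      exact_mod_cast this
    obtain ⟨h5, h6⟩ := s0_ap (mem_K1.1 ha).1 (mem_K1.1 hb).1 (mem_K1.1 hc).1 h4
    exact ⟨by rw [h5], by rw [h6]⟩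
  · intro z
    have hpos : (0 : ℤ) < 3 ^ k := by positivity
    obtain ⟨c, hc⟩ : ∃ c : ℕ, (c : ℤ) = z % 3 ^ k :=
      ⟨(z % 3 ^ k).toNat, Int.toNat_of_nonneg (Int.emod_nonneg z hpos.ne')⟩
    have hlt : c < 3 ^ k := by
      have : (c : ℤ) < 3 ^ k := by rw [hc]; exact Int.emod_lt_of_pos z hpos
      exact_mod_cast this
    have hdvd : (3 : ℤ) ^ k ∣ z - c := by
      rw [hc]
      exact Int.dvd_self_sub_emod
    by_cases hS : c ∈ S0
    · left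
      exact ⟨(c : ℤ), mem_K1z.2 ⟨c, mem_K1.2 ⟨hS, hlt⟩, rfl⟩, hdvd⟩
    · right
      have hx := xc_lt hS
      have hy := yc_lt hlt
      refine ⟨(xc c : ℤ), mem_K1z.2 ⟨xc c, mem_K1.2 ⟨xc_mem c, by omega⟩, rfl⟩,
        (yc c : ℤ), mem_K1z.2 ⟨yc c, mem_K1.2 ⟨yc_mem c, hy⟩, rfl⟩, by exact_mod_cast hx, ?_⟩
      have he : (xc c : ℤ) + c = 2 * yc c := by exact_mod_cast can_eq c
      have : z - (2 * (yc c : ℤ) - xc c) = z - c := by linarith
      rw [this]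
      exact hdvd

end Pool.Agent.STN
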