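import Pool.Agent.STN.Fb
import Pool.Agent.STN.Fc
import Pool.Agent.STN.Fd

/-!
# Project STN, module Fe: the three frames modulo `Q = 3^s * 25`

`fr_ext` (with `F = K1z s`, `n = 3^s`, `m = 25`) for `B = fun _ => J25`, `fun d => if d = 0 then K25 else J25`, `fun d => if d = 0 then L25 else J25`.
Full pairs: `fp_ext`, `fp_self (fr_K1 s)`.  Last part: `i ∈ WK` is `≡ d1 + 3^s a`, `j ∈ WL` is `≡ d2 + 3^s b` (`Rps`).  If `3^s ∤ z`: `z ≡ 2 d2 - d1 (mod 3^s)` for some `d1, d2`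
(`fp_self`), not both `0`, so the fibres are `(K, J)`, `(J, L)` or `(J, J)`: full.  If `3^s ∣ z`: `d1 + 0 ≡ 2 d2`, `0 ∈ K1z s`, so `d1 = d2 = 0` (`fr_K1`), `z = 3^s w`, and `w ≡ 2 b - a (mod 25)`
with `a ∈ K25`, `b ∈ L25` iff `¬ 25 ∣ w` (`miss_KL`).
-/

set_option autoImplicit false

namespace Pool.Agent.STN

private theorem fe_zero (s : ℕ) : (0 : ℤ) ∈ K1z s := by
  rw [mem_K1z]
  refine ⟨0, ?_, by simp⟩
  rw [mem_K1]
  refine ⟨?_, by positivity⟩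
  intro p
  simp [dg]

private def fe_BJ : ℤ → Finset ℤ := fun _ => J25

private def fe_BK : ℤ → Finset ℤ := fun d => if d = 0 then K25 else J25

private def fe_BL : ℤ → Finset ℤ := fun d => if d = 0 then L25 else J25

private theorem fe_BK0 : fe_BK 0 = K25 := if_pos rfl

private theorem fe_BL0 : fe_BL 0 = L25 := if_pos rfl

private theorem fe_BK1 {d : ℤ} (h : d ≠ 0) : fe_BK d = J25 := if_neg h

private theorem fe_BL1 {d : ℤ} (h : d ≠ 0) : fe_BL d = J25 := if_neg h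

private theorem fe_comb {n z d1 d2 g g' a b w : ℤ} (hg : n * 25 ∣ g - (d1 + n * a))
    (hg' : n * 25 ∣ g' - (d2 + n * b)) (hz : z - (2 * d2 - d1) = n * w)
    (hw : (25 : ℤ) ∣ w - (2 * b - a)) : n * 25 ∣ z - (2 * g' - g) := by
  obtain ⟨c1, h1⟩ := hg
  obtain ⟨c2, h2⟩ := hg'
  obtain ⟨c3, h3⟩ := hw
  refine ⟨c3 + c1 - 2 * c2, ?_⟩
  linear_combination h1 - 2 * h2 + hz + n * h3

theorem exists_W (s : ℕ) : ∃ WJ WK WL : Finset ℤ, Fr (3 ^ s * 25) WJ ∧ Fr (3 ^ s * 25) WK ∧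
    Fr (3 ^ s * 25) WL ∧ Fp (3 ^ s * 25) WJ WK ∧ Fp (3 ^ s * 25) WK WJ ∧ Fp (3 ^ s * 25) WJ WL ∧
    Fp (3 ^ s * 25) WL WJ ∧
    ∀ z : ℤ, (∃ i ∈ WK, ∃ j ∈ WL, (3 ^ s * 25 : ℤ) ∣ z - (2 * j - i)) ↔ ¬ (3 ^ s * 25 : ℤ) ∣ z := by
  have hn : (0 : ℤ) < 3 ^ s := by positivity
  have hm : (0 : ℤ) < 25 := by norm_num
  have hF := fr_K1 s
  have h0 := fe_zero s
  have hJJ : Fp 25 J25 J25 := fp_self fr_J25
  have frK : ∀ i, Fr 25 (fe_BK i) := by
    intro i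
    by_cases h : i = 0
    · subst h
      rw [fe_BK0]
      exact fr_K25
    · rw [fe_BK1 h]
      exact fr_J25
  have frL : ∀ i, Fr 25 (fe_BL i) := by
    intro i
    by_cases h : i = 0
    · subst h
      rw [fe_BL0]
      exact fr_L25
    · rw [fe_BL1 h]
      exact fr_J25
  have JK : ∀ i, Fp 25 J25 (fe_BK i) := by
    intro i
    by_cases h : i = 0
    · subst h
      rw [fe_BK0]
      exact fp_JK
    · rw [fe_BK1 h]
      exact hJJ
  have KJ : ∀ i, Fp 25 (fe_BK i) J25 := by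
    intro i
    by_cases h : i = 0
    · subst h
      rw [fe_BK0]
      exact fp_KJ
    · rw [fe_BK1 h]
      exact hJJ
  have JL : ∀ i, Fp 25 J25 (fe_BL i) := by
    intro i
    by_cases h : i = 0
    · subst h
      rw [fe_BL0]
      exact fp_JL
    · rw [fe_BL1 h]
      exact hJJ
  have LJ : ∀ i, Fp 25 (fe_BL i) J25 := by
    intro i
    by_cases h : i = 0
    · subst h
      rw [fe_BL0]
      exact fp_LJ
    · rw [fe_BL1 h]
      exact hJJ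
  obtain ⟨WJ, hWJ, rJ⟩ := fr_ext (m := 25) hn hm hF (B := fe_BJ) (fun _ _ => fr_J25)
    (fun _ _ _ _ => hJJ)
  obtain ⟨WK, hWK, rK⟩ := fr_ext (m := 25) hn hm hF (B := fe_BK) (fun i _ => frK i) (by
    intro i _ j _
    by_cases hi : i = 0
    · by_cases hj : j = 0
      · subst hi hj
        exact fp_self (frK 0)
      · rw [fe_BK1 hj]
        exact KJ i
    · rw [fe_BK1 hi]
      exact JK j)
  obtain ⟨WL, hWL, rL⟩ := fr_ext (m := 25) hn hm hF (B := fe_BL) (fun i _ => frL i) (by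
    intro i _ j _
    by_cases hi : i = 0
    · by_cases hj : j = 0
      · subst hi hj
        exact fp_self (frL 0)
      · rw [fe_BL1 hj]
        exact LJ i
    · rw [fe_BL1 hi]
      exact JL j)
  refine ⟨WJ, WK, WL, hWJ, hWK, hWL, fp_ext hn (fp_self hF) (fun _ _ j _ => JK j) rJ rK,
    fp_ext hn (fp_self hF) (fun i _ _ _ => KJ i) rK rJ,
    fp_ext hn (fp_self hF) (fun _ _ j _ => JL j) rJ rL,
    fp_ext hn (fp_self hF) (fun i _ _ _ => LJ i) rL rJ, ?_⟩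
  intro z
  constructor
  · rintro ⟨i, hi, j, hj, h⟩ hz
    obtain ⟨d1, hd1, a, ha, hia⟩ := rK.1 i hi
    obtain ⟨d2, hd2, b, hb, hjb⟩ := rL.1 j hj
    have h1 : (3 ^ s * 25 : ℤ) ∣ 2 * j - i := by
      have h2 := dvd_sub hz h
      rwa [sub_sub_cancel] at h2
    obtain ⟨c1, e1⟩ := hia
    obtain ⟨c2, e2⟩ := hjb
    obtain ⟨c3, e3⟩ := h1
    have h3 : (3 ^ s : ℤ) ∣ d1 + 0 - 2 * d2 := by
      refine ⟨2 * b - a - 25 * c3 + 50 * c2 - 25 * c1, ?_⟩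
      linear_combination -e3 + 2 * e2 - e1
    obtain ⟨h4, h5⟩ := hF.1 d1 hd1 d2 hd2 0 h0 h3
    have h6 : d2 = 0 := h5.symm
    have h7 : d1 = 0 := h4.trans h6
    subst h6 h7
    rw [fe_BK0] at ha
    rw [fe_BL0] at hb
    refine (miss_KL 0).1 ⟨a, ha, b, hb, ?_⟩ (dvd_zero _)
    have h8 : (3 ^ s : ℤ) * (0 - (2 * b - a)) = 3 ^ s * (25 * (2 * c2 - c1 - c3)) := by
      linear_combination -e3 + 2 * e2 - e1
    exact ⟨_, mul_left_cancel₀ hn.ne' h8⟩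
  · intro hz
    by_cases h : (3 ^ s : ℤ) ∣ z
    · obtain ⟨w, rfl⟩ := h
      have hw : ¬ (25 : ℤ) ∣ w := fun h => hz (mul_dvd_mul_left _ h)
      obtain ⟨a, ha, b, hb, hab⟩ := (miss_KL w).2 hw
      rw [← fe_BK0] at ha
      rw [← fe_BL0] at hb
      obtain ⟨g, hg, hg2⟩ := rK.2 0 h0 a ha
      obtain ⟨g', hg', hg2'⟩ := rL.2 0 h0 b hb
      exact ⟨g, hg, g', hg', fe_comb hg2 hg2' (by ring) hab⟩
    · obtain ⟨d1, hd1, d2, hd2, w, hw⟩ := fp_self hF z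
      have h3 : Fp 25 (fe_BK d1) (fe_BL d2) := by
        by_cases e1 : d1 = 0
        · by_cases e2 : d2 = 0
          · exfalso
            subst e1 e2
            refine h ⟨w, ?_⟩
            linear_combination hw
          · rw [fe_BL1 e2]
            exact KJ d1
        · rw [fe_BK1 e1]
          exact JL d2
      obtain ⟨a, ha, b, hb, hab⟩ := h3 w
      obtain ⟨g, hg, hg2⟩ := rK.2 d1 hd1 a ha
      obtain ⟨g', hg', hg2'⟩ := rL.2 d2 hd2 b hb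
      exact ⟨g, hg, g', hg', fe_comb hg2 hg2' hw hab⟩

end Pool.Agent.STN
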