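import Pool.Agent.STN.Eb
import Pool.Agent.STN.Fe

/-!
# Project STN, module Ec: Lemma I

The frames modulo `3^k * Q` have fibres `WJ`, `WK`, `WL` (shifted by the table) over the frame `K1z k`; all pairs of fibres are full except `(WK, WL)`,
which misses the class zero only.
-/

set_option autoImplicit false

namespace Pool.Agent.STN

private theorem ec_image (t : ℤ) (ht : t = 0) (F : Finset ℤ) : F.image (· + t) = F := by
  rw [ht]
  simp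

private theorem ec_shl {n : ℤ} {F G : Finset ℤ} (h : Fp n F G) (t : ℤ) : Fp n (F.image (· + t)) G := by
  have h1 := fp_shift h t 0
  rw [ec_image 0 rfl G] at h1
  exact h1

private theorem ec_shr {n : ℤ} {F G : Finset ℤ} (h : Fp n F G) (t : ℤ) : Fp n F (G.image (· + t)) := by
  have h1 := fp_shift h 0 t
  rw [ec_image 0 rfl F] at h1
  exact h1

private theorem ec_lift {n Q w : ℤ} {a b : ℤ} {F : Finset ℤ} {B0 B1 : ℤ → Finset ℤ} {U0 U1 : Finset ℤ}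
    (h0 : Rps n Q F B0 U0) (h1 : Rps n Q F B1 U1) (ha : a ∈ F) (hb : b ∈ F) {w1 : ℤ}
    (hw : w - (2 * b - a) = n * w1) (h : ∃ i ∈ B0 a, ∃ j ∈ B1 b, Q ∣ w1 - (2 * j - i)) :
    ∃ u ∈ U0, ∃ v ∈ U1, n * Q ∣ w - (2 * v - u) := by
  obtain ⟨i, hi, j, hj, hd⟩ := h
  obtain ⟨u, hu, hu'⟩ := h0.2 a ha i hi
  obtain ⟨v, hv, hv'⟩ := h1.2 b hb j hj
  refine ⟨u, hu, v, hv, ?_⟩
  have h2 : n * Q ∣ n * (w1 - (2 * j - i)) := mul_dvd_mul_left n hd
  have h3 : w - (2 * v - u) = n * (w1 - (2 * j - i)) - 2 * (v - (b + n * j)) + (u - (a + n * i)) := by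
    have h4 : w = 2 * b - a + n * w1 := by linarith
    rw [h4]
    ring
  rw [h3]
  exact dvd_add (dvd_sub h2 (Dvd.dvd.mul_left hv' 2)) hu'

theorem lemI {X : Finset ℤ} {k : ℕ} {c : ℤ → ℕ} (hk : 2 ≤ k) (hc : ∀ x ∈ X, c x < 3 ^ k ∧ c x % 9 = 2)
    (hiso : ∀ x ∈ X, ∀ y ∈ X, x ≠ y → Iso k (c x) (c y)) :
    ∃ (n' : ℤ) (Uf U0 U1 : Finset ℤ), 4 * 3 ^ k ≤ n' ∧ Fr n' Uf ∧ Fr n' U0 ∧ Fr n' U1 ∧
      Fp n' Uf U0 ∧ Fp n' U0 Uf ∧ Fp n' Uf U1 ∧ Fp n' U1 Uf ∧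
      ∀ w : ℤ, (∃ u ∈ U0, ∃ v ∈ U1, n' ∣ w - (2 * v - u)) ↔ ∀ x ∈ X, ¬ n' ∣ w - c x := by
  classical
  obtain ⟨As, ν0, ν1, Q0, ht1, ht2⟩ := table hk hc hiso
  obtain ⟨s, hs⟩ : ∃ s : ℕ, Q0 ≤ 3 ^ s * 25 := by
    refine ⟨Q0.toNat, ?_⟩
    have h1 : Q0.toNat < 3 ^ Q0.toNat := Nat.lt_pow_self (by norm_num)
    have h2 : Q0 ≤ (Q0.toNat : ℤ) := Int.self_le_toNat Q0
    have h3 : ((Q0.toNat : ℕ) : ℤ) < 3 ^ Q0.toNat := by exact_mod_cast h1
    have h4 : (0 : ℤ) < 3 ^ Q0.toNat := by positivity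
    linarith
  obtain ⟨WJ, WK, WL, hJ, hK, hL, hJK, hKJ, hJL, hLJ, hW⟩ := exists_W s
  obtain ⟨Q, hQ⟩ : ∃ Q : ℤ, Q = 3 ^ s * 25 := ⟨_, rfl⟩
  rw [← hQ] at hs hJ hK hL hJK hKJ hJL hLJ hW
  have hQ25 : 25 ≤ Q := by
    have h4 : (1 : ℤ) ≤ 3 ^ s := one_le_pow₀ (by norm_num)
    rw [hQ]
    linarith
  have hQ0 : 0 < Q := by linarith
  have hn : (0 : ℤ) < 3 ^ k := by positivity
  obtain ⟨B0, hB0⟩ : ∃ B0 : ℤ → Finset ℤ, B0 = fun a =>
      if a.toNat ∈ As then WK.image (· + ν0 a.toNat) else WJ := ⟨_, rfl⟩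
  obtain ⟨B1, hB1⟩ : ∃ B1 : ℤ → Finset ℤ, B1 = fun b =>
      if b.toNat ∈ As then WJ else WL.image (· + ν1 b.toNat) := ⟨_, rfl⟩
  have b0i : ∀ a : ℤ, a.toNat ∈ As → B0 a = WK.image (· + ν0 a.toNat) := fun a ha => by
    rw [hB0]
    exact if_pos ha
  have b0o : ∀ a : ℤ, a.toNat ∉ As → B0 a = WJ := fun a ha => by
    rw [hB0]
    exact if_neg ha
  have b1i : ∀ a : ℤ, a.toNat ∈ As → B1 a = WJ := fun a ha => by
    rw [hB1]
    exact if_pos ha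
  have b1o : ∀ a : ℤ, a.toNat ∉ As → B1 a = WL.image (· + ν1 a.toNat) := fun a ha => by
    rw [hB1]
    exact if_neg ha
  have r0 : ∀ a, Fr Q (B0 a) := fun a => by
    by_cases ha : a.toNat ∈ As
    · rw [b0i a ha]
      exact fr_shift hK _
    · rw [b0o a ha]
      exact hJ
  have r1 : ∀ a, Fr Q (B1 a) := fun a => by
    by_cases ha : a.toNat ∈ As
    · rw [b1i a ha]
      exact hJ
    · rw [b1o a ha]
      exact fr_shift hL _
  have fJJ : Fp Q WJ WJ := fp_self hJ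
  have fJ0 : ∀ a, Fp Q WJ (B0 a) := fun a => by
    by_cases ha : a.toNat ∈ As
    · rw [b0i a ha]
      exact ec_shr hJK _
    · rw [b0o a ha]
      exact fJJ
  have f0J : ∀ a, Fp Q (B0 a) WJ := fun a => by
    by_cases ha : a.toNat ∈ As
    · rw [b0i a ha]
      exact ec_shl hKJ _
    · rw [b0o a ha]
      exact fJJ
  have fJ1 : ∀ a, Fp Q WJ (B1 a) := fun a => by
    by_cases ha : a.toNat ∈ As
    · rw [b1i a ha]
      exact fJJ
    · rw [b1o a ha]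
      exact ec_shr hJL _
  have f1J : ∀ a, Fp Q (B1 a) WJ := fun a => by
    by_cases ha : a.toNat ∈ As
    · rw [b1i a ha]
      exact fJJ
    · rw [b1o a ha]
      exact ec_shl hLJ _
  have f00 : ∀ a b, Fp Q (B0 a) (B0 b) := fun a b => by
    by_cases ha : a.toNat ∈ As
    · by_cases hb : b.toNat ∈ As
      · rw [b0i a ha, b0i b hb]
        exact fp_shift (fp_self hK) _ _
      · rw [b0o b hb]
        exact f0J a
    · rw [b0o a ha]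
      exact fJ0 b
  have f11 : ∀ a b, Fp Q (B1 a) (B1 b) := fun a b => by
    by_cases ha : a.toNat ∈ As
    · rw [b1i a ha]
      exact fJ1 b
    · by_cases hb : b.toNat ∈ As
      · rw [b1i b hb]
        exact f1J a
      · rw [b1o a ha, b1o b hb]
        exact fp_shift (fp_self hL) _ _
  have hF := fr_K1 k
  obtain ⟨Uf, hUf, hRf⟩ := fr_ext (B := fun _ => WJ) hn hQ0 hF (fun _ _ => hJ) (fun _ _ _ _ => fJJ)
  obtain ⟨U0, hU0, hR0⟩ := fr_ext (B := B0) hn hQ0 hF (fun a _ => r0 a) (fun a _ b _ => f00 a b)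
  obtain ⟨U1, hU1, hR1⟩ := fr_ext (B := B1) hn hQ0 hF (fun a _ => r1 a) (fun a _ b _ => f11 a b)
  have hFF := fp_self hF
  refine ⟨3 ^ k * Q, Uf, U0, U1, ?_, hUf, hU0, hU1, fp_ext hn hFF (fun _ _ b _ => fJ0 b) hRf hR0,
    fp_ext hn hFF (fun a _ _ _ => f0J a) hR0 hRf, fp_ext hn hFF (fun _ _ b _ => fJ1 b) hRf hR1,
    fp_ext hn hFF (fun a _ _ _ => f1J a) hR1 hRf, fun w => ⟨?_, ?_⟩⟩
  · have h1 : (3 : ℤ) ^ k * 25 ≤ 3 ^ k * Q := mul_le_mul_of_nonneg_left hQ25 hn.le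
    linarith
  · rintro ⟨u, hu, v, hv, hw⟩ x hx hwx
    obtain ⟨i, hi, i', hi', hu'⟩ := hR0.1 u hu
    obtain ⟨j, hj, j', hj', hv'⟩ := hR1.1 v hv
    obtain ⟨a, ha, rfl⟩ := mem_K1z.1 hi
    obtain ⟨b, hb, rfl⟩ := mem_K1z.1 hj
    have h1 : (3 : ℤ) ^ k * Q ∣ (c x : ℤ) + a - 2 * b - 3 ^ k * (2 * j' - i') := by
      have h2 : (c x : ℤ) + a - 2 * b - 3 ^ k * (2 * j' - i') =
          (w - (2 * v - u)) - (w - c x) + 2 * (v - ((b : ℤ) + 3 ^ k * j')) - (u - ((a : ℤ) + 3 ^ k * i')) := by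
        ring
      rw [h2]
      exact dvd_sub (dvd_add (dvd_sub hw hwx) (Dvd.dvd.mul_left hv' 2)) hu'
    have h3 : Rp k (c x) a b := by
      refine ⟨ha, hb, ?_⟩
      have h4 : (3 : ℤ) ^ k ∣ (c x : ℤ) + a - 2 * b - 3 ^ k * (2 * j' - i') := dvd_trans (dvd_mul_right _ _) h1
      have h5 := dvd_add h4 (dvd_mul_right ((3 : ℤ) ^ k) (2 * j' - i'))
      rw [sub_add_cancel] at h5
      exact h5
    obtain ⟨h6, h7, h8⟩ := ht1 x hx a b h3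
    rw [b0i _ (by rw [Int.toNat_natCast]; exact h6), Int.toNat_natCast, Finset.mem_image] at hi'
    rw [b1o _ (by rw [Int.toNat_natCast]; exact h7), Int.toNat_natCast, Finset.mem_image] at hj'
    obtain ⟨i1, hi1, rfl⟩ := hi'
    obtain ⟨j1, hj1, rfl⟩ := hj'
    have h9 : (3 : ℤ) ^ k * Q ∣ 3 ^ k * (0 - (2 * j1 - i1)) := by
      have h10 : (c x : ℤ) + a - 2 * b - 3 ^ k * (2 * (j1 + ν1 b) - (i1 + ν0 a)) =
          3 ^ k * (0 - (2 * j1 - i1)) - ((2 * (b : ℤ) - a - c x) + 3 ^ k * (2 * ν1 b - ν0 a)) := by ring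
      rw [h10, h8, sub_zero] at h1
      exact h1
    have h11 : Q ∣ 0 - (2 * j1 - i1) := (mul_dvd_mul_iff_left hn.ne').1 h9
    exact (hW 0).1 ⟨i1, hi1, j1, hj1, h11⟩ (dvd_zero Q)
  · intro hw
    have hmod : 0 ≤ w % 3 ^ k := Int.emod_nonneg w hn.ne'
    have hmod' : w % 3 ^ k < 3 ^ k := Int.emod_lt_of_pos w hn
    obtain ⟨c', hc'⟩ : ∃ c' : ℕ, (c' : ℤ) = w % 3 ^ k := ⟨(w % 3 ^ k).toNat, Int.toNat_of_nonneg hmod⟩
    have hc'lt : c' < 3 ^ k := by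
      have h1 : (c' : ℤ) < 3 ^ k := by
        rw [hc']
        exact hmod'
      exact_mod_cast h1
    have hwc : (3 : ℤ) ^ k ∣ w - c' := by
      rw [hc']
      exact Int.dvd_self_sub_emod
    have key : ∃ a b, Rp k c' a b ∧ (a ∉ As ∨ b ∈ As ∨
        ¬ ((3 ^ k * Q : ℤ) ∣ w - (2 * (b : ℤ) - a) - 3 ^ k * (2 * ν1 b - ν0 a))) := by
      by_cases h1 : ∀ x ∈ X, c' ≠ c x
      · exact ht2 Q hs c' hc'lt h1 w
      · push Not at h1
        obtain ⟨x, hx, h2⟩ := h1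
        obtain ⟨a, b, h3⟩ := rp_exists k c'
        refine ⟨a, b, h3, Or.inr (Or.inr fun h4 => hw x hx ?_)⟩
        rw [h2] at h3
        obtain ⟨-, -, h5⟩ := ht1 x hx a b h3
        have h6 : w - (2 * (b : ℤ) - a) - 3 ^ k * (2 * ν1 b - ν0 a) =
            w - c x - ((2 * (b : ℤ) - a - c x) + 3 ^ k * (2 * ν1 b - ν0 a)) := by ring
        rw [h6, h5, sub_zero] at h4
        exact h4
    obtain ⟨a, b, ⟨ha, hb, hab⟩, hor⟩ := key
    have haF : (a : ℤ) ∈ K1z k := mem_K1z.2 ⟨a, ha, rfl⟩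
    have hbF : (b : ℤ) ∈ K1z k := mem_K1z.2 ⟨b, hb, rfl⟩
    obtain ⟨w1, hw1⟩ : (3 : ℤ) ^ k ∣ w - (2 * (b : ℤ) - a) := by
      have h1 := dvd_add hwc hab
      have h2 : w - c' + ((c' : ℤ) + a - 2 * b) = w - (2 * (b : ℤ) - a) := by ring
      rw [h2] at h1
      exact h1
    refine ec_lift hR0 hR1 haF hbF hw1 ?_
    by_cases h1 : a ∈ As
    · by_cases h2 : b ∈ As
      · rw [b1i _ (by rw [Int.toNat_natCast]; exact h2)]
        exact f0J _ w1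
      · have h3 : ¬ ((3 ^ k * Q : ℤ) ∣ w - (2 * (b : ℤ) - a) - 3 ^ k * (2 * ν1 b - ν0 a)) := by
          rcases hor with h4 | h4 | h4
          · exact absurd h1 h4
          · exact absurd h4 h2
          · exact h4
        rw [hw1, ← mul_sub] at h3
        have h5 : ¬ Q ∣ w1 - (2 * ν1 b - ν0 a) := fun h6 => h3 (mul_dvd_mul_left _ h6)
        obtain ⟨i1, hi1, j1, hj1, h7⟩ := (hW _).2 h5
        rw [b0i _ (by rw [Int.toNat_natCast]; exact h1), b1o _ (by rw [Int.toNat_natCast]; exact h2),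
          Int.toNat_natCast, Int.toNat_natCast]
        refine ⟨i1 + ν0 a, Finset.mem_image_of_mem _ hi1, j1 + ν1 b, Finset.mem_image_of_mem _ hj1, ?_⟩
        have h8 : w1 - (2 * (j1 + ν1 b) - (i1 + ν0 a)) = w1 - (2 * ν1 b - ν0 a) - (2 * j1 - i1) := by ring
        rw [h8]
        exact h7
    · rw [b0o _ (by rw [Int.toNat_natCast]; exact h1)]
      exact fJ1 _ w1

end Pool.Agent.STN
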