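import Pool.Agent.STN.Defs

/-!
# Project STN, module Fa: extension of frames, partial form

`G` = image of the pairs `(i, j)`, `i ∈ F`, `j ∈ B i`, under `(i, j) ↦ i + n j + n m Λ i` with `Λ ≥ 2 |j| + 1` for all `j ∈ B i`, `i ∈ F`; this map is increasing lexicographically.
-/

set_option autoImplicit false

namespace Pool.Agent.STN

/-- the map which realises the pairs -/
private def fa_e (n m Λ i j : ℤ) : ℤ := i + n * j + n * m * Λ * i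

/-- the bound -/
private def fa_L (F : Finset ℤ) (B : ℤ → Finset ℤ) : ℤ := ∑ i ∈ F, ∑ j ∈ B i, (2 * |j| + 1)

private theorem fa_le (F : Finset ℤ) (B : ℤ → Finset ℤ) {i j : ℤ} (hi : i ∈ F) (hj : j ∈ B i) :
    2 * |j| + 1 ≤ fa_L F B := by
  unfold fa_L
  have h1 : ∀ i j : ℤ, (0 : ℤ) ≤ 2 * |j| + 1 := fun _ j => by
    have := abs_nonneg j
    omega
  calc 2 * |j| + 1 ≤ ∑ j ∈ B i, (2 * |j| + 1) :=
        Finset.single_le_sum (f := fun j => 2 * |j| + 1) (fun j _ => h1 0 j) hj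
    _ ≤ ∑ i ∈ F, ∑ j ∈ B i, (2 * |j| + 1) :=
        Finset.single_le_sum (f := fun i => ∑ j ∈ B i, (2 * |j| + 1))
          (fun i _ => Finset.sum_nonneg fun j _ => h1 0 j) hi

private theorem fa_lt {n m Λ i j i' j' : ℤ} (hn : 0 < n) (hm : 0 < m) (h1 : 2 * |j| + 1 ≤ Λ) (h2 : 2 * |j'| + 1 ≤ Λ)
    (hi : i < i') : fa_e n m Λ i j < fa_e n m Λ i' j' := by
  unfold fa_e
  have a1 : j ≤ |j| := le_abs_self j
  have a2 : -j' ≤ |j'| := neg_le_abs j'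
  have a3 : j - j' < Λ := by omega
  have hΛ : 0 < Λ := by
    have := abs_nonneg j
    omega
  have b1 : n * (j - j') < n * Λ := mul_lt_mul_of_pos_left a3 hn
  have b2 : n * Λ ≤ n * m * Λ * (i' - i) := by
    have c1 : 1 ≤ m * (i' - i) := Int.add_one_le_iff.2 (mul_pos hm (by omega))
    have c2 : 0 ≤ n * Λ := (mul_pos hn hΛ).le
    calc n * Λ = n * Λ * 1 := (mul_one _).symm
      _ ≤ n * Λ * (m * (i' - i)) := mul_le_mul_of_nonneg_left c1 c2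
      _ = n * m * Λ * (i' - i) := by ring
  have b3 : n * (j - j') = n * j - n * j' := by ring
  have b4 : n * m * Λ * (i' - i) = n * m * Λ * i' - n * m * Λ * i := by ring
  rw [b3] at b1
  rw [b4] at b2
  linarith

private theorem fa_lt' {n m Λ i j j' : ℤ} (hn : 0 < n) (h : j < j') : fa_e n m Λ i j < fa_e n m Λ i j' := by
  unfold fa_e
  have := mul_lt_mul_of_pos_left h hn
  linarith

private theorem fa_dvd (n m Λ i j : ℤ) : n * m ∣ fa_e n m Λ i j - (i + n * j) := by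
  unfold fa_e
  exact ⟨Λ * i, by ring⟩

theorem ext_part {n m : ℤ} (hn : 0 < n) (hm : 0 < m) {F : Finset ℤ}
    (hF : ∀ i ∈ F, ∀ j ∈ F, ∀ k ∈ F, n ∣ i + k - 2 * j → i = j ∧ k = j)
    {B : ℤ → Finset ℤ} (hB : ∀ i ∈ F, Fr m (B i)) :
    ∃ G : Finset ℤ, (∀ u ∈ G, ∀ v ∈ G, ∀ w ∈ G, n * m ∣ u + w - 2 * v → u = v ∧ w = v) ∧
      Rps n m F B G ∧
      (∀ i ∈ F, ∀ z : ℤ, n ∣ z - i → (∃ g ∈ G, n * m ∣ z - g) ∨
        ∃ g ∈ G, ∃ g' ∈ G, g < g' ∧ n * m ∣ z - (2 * g' - g)) ∧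
      (∀ i ∈ F, ∀ j ∈ F, i < j → ∀ a ∈ B i, ∀ b ∈ B j, ∃ g ∈ G, ∃ g' ∈ G, g < g' ∧
        n * m ∣ g - (i + n * a) ∧ n * m ∣ g' - (j + n * b)) := by
  set Λ : ℤ := fa_L F B with hΛ
  have hmem : ∀ g : ℤ, g ∈ (F.biUnion fun i => (B i).image fun j => fa_e n m Λ i j) ↔
      ∃ i ∈ F, ∃ j ∈ B i, fa_e n m Λ i j = g := by
    intro g
    simp only [Finset.mem_biUnion, Finset.mem_image]
  refine ⟨F.biUnion fun i => (B i).image fun j => fa_e n m Λ i j, ?_, ⟨?_, ?_⟩, ?_, ?_⟩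
  · intro u hu v hv w hw hd
    obtain ⟨i1, hi1, a1, ha1, rfl⟩ := (hmem u).1 hu
    obtain ⟨i2, hi2, a2, ha2, rfl⟩ := (hmem v).1 hv
    obtain ⟨i3, hi3, a3, ha3, rfl⟩ := (hmem w).1 hw
    have hd1 : n ∣ i1 + i3 - 2 * i2 := by
      have h1 : n ∣ fa_e n m Λ i1 a1 + fa_e n m Λ i3 a3 - 2 * fa_e n m Λ i2 a2 := (dvd_mul_right n m).trans hd
      have h2 : i1 + i3 - 2 * i2 = (fa_e n m Λ i1 a1 + fa_e n m Λ i3 a3 - 2 * fa_e n m Λ i2 a2) -
          n * ((a1 + m * Λ * i1) + (a3 + m * Λ * i3) - 2 * (a2 + m * Λ * i2)) := by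
        unfold fa_e
        ring
      rw [h2]
      exact dvd_sub h1 (dvd_mul_right _ _)
    obtain ⟨e1, e3⟩ := hF i1 hi1 i2 hi2 i3 hi3 hd1
    subst e1
    subst e3
    have hd2 : m ∣ a1 + a3 - 2 * a2 := by
      have h3 : fa_e n m Λ i3 a1 + fa_e n m Λ i3 a3 - 2 * fa_e n m Λ i3 a2 = n * (a1 + a3 - 2 * a2) := by
        unfold fa_e
        ring
      rw [h3] at hd
      exact Int.dvd_of_mul_dvd_mul_left (by omega) hd
    obtain ⟨f1, f3⟩ := (hB i3 hi3).1 a1 ha1 a2 ha2 a3 ha3 hd2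
    subst f1
    subst f3
    exact ⟨rfl, rfl⟩
  · intro g hg
    obtain ⟨i, hi, j, hj, rfl⟩ := (hmem g).1 hg
    exact ⟨i, hi, j, hj, fa_dvd n m Λ i j⟩
  · intro i hi j hj
    exact ⟨fa_e n m Λ i j, (hmem _).2 ⟨i, hi, j, hj, rfl⟩, fa_dvd n m Λ i j⟩
  · intro i hi z hz
    obtain ⟨w, hw⟩ := hz
    rcases (hB i hi).2 w with ⟨j, hj, hd⟩ | ⟨j1, hj1, j2, hj2, hlt, hd⟩
    · left
      refine ⟨fa_e n m Λ i j, (hmem _).2 ⟨i, hi, j, hj, rfl⟩, ?_⟩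
      have h1 : z - fa_e n m Λ i j = n * (w - j) - n * m * (Λ * i) := by
        unfold fa_e
        linear_combination hw
      rw [h1]
      exact dvd_sub (mul_dvd_mul_left n hd) (dvd_mul_right _ _)
    · right
      refine ⟨fa_e n m Λ i j1, (hmem _).2 ⟨i, hi, j1, hj1, rfl⟩, fa_e n m Λ i j2,
        (hmem _).2 ⟨i, hi, j2, hj2, rfl⟩, fa_lt' hn hlt, ?_⟩
      have h1 : z - (2 * fa_e n m Λ i j2 - fa_e n m Λ i j1) = n * (w - (2 * j2 - j1)) - n * m * (Λ * i) := by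
        unfold fa_e
        linear_combination hw
      rw [h1]
      exact dvd_sub (mul_dvd_mul_left n hd) (dvd_mul_right _ _)
  · intro i hi j hj hij a ha b hb
    exact ⟨fa_e n m Λ i a, (hmem _).2 ⟨i, hi, a, ha, rfl⟩, fa_e n m Λ j b, (hmem _).2 ⟨j, hj, b, hb, rfl⟩,
      fa_lt hn hm (fa_le F B hi ha) (fa_le F B hj hb) hij, fa_dvd n m Λ i a, fa_dvd n m Λ j b⟩

end Pool.Agent.STN
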