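import Pool.Agent.STN.Fa

/-!
# Project STN, module Fb: extension of frames and of full pairs
-/

set_option autoImplicit false

namespace Pool.Agent.STN

private theorem fb_comb {n m z i j a b g g' w : ℤ} (hw : z - (2 * j - i) = n * w)
    (h : m ∣ w - (2 * b - a)) (hg : n * m ∣ g - (i + n * a)) (hg' : n * m ∣ g' - (j + n * b)) :
    n * m ∣ z - (2 * g' - g) := by
  obtain ⟨c, hc⟩ := h
  obtain ⟨d, hd⟩ := hg
  obtain ⟨e, he⟩ := hg'
  refine ⟨c + d - 2 * e, ?_⟩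
  have h1 : w = 2 * b - a + m * c := by linarith
  have h2 : g = i + n * a + n * m * d := by linarith
  have h3 : g' = j + n * b + n * m * e := by linarith
  have h4 : z = 2 * j - i + n * w := by linarith
  rw [h4, h2, h3, h1]
  ring

theorem fr_ext {n m : ℤ} (hn : 0 < n) (hm : 0 < m) {F : Finset ℤ} (hF : Fr n F) {B : ℤ → Finset ℤ}
    (hB : ∀ i ∈ F, Fr m (B i)) (hP : ∀ i ∈ F, ∀ j ∈ F, Fp m (B i) (B j)) :
    ∃ G : Finset ℤ, Fr (n * m) G ∧ Rps n m F B G := by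
  obtain ⟨G, h1, h2, h3, h4⟩ := ext_part hn hm hF.1 hB
  refine ⟨G, ⟨h1, fun z => ?_⟩, h2⟩
  rcases hF.2 z with ⟨i, hi, hz⟩ | ⟨i, hi, j, hj, hij, w, hw⟩
  · exact h3 i hi z hz
  · obtain ⟨a, ha, b, hb, hab⟩ := hP i hi j hj w
    obtain ⟨g, hg, g', hg', hlt, hd, hd'⟩ := h4 i hi j hj hij a ha b hb
    exact Or.inr ⟨g, hg, g', hg', hlt, fb_comb hw hab hd hd'⟩

theorem fp_ext {n m : ℤ} (hn : 0 < n) {F F' : Finset ℤ} {B B' : ℤ → Finset ℤ} {G G' : Finset ℤ}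
    (hF : Fp n F F') (hB : ∀ i ∈ F, ∀ j ∈ F', Fp m (B i) (B' j))
    (hG : Rps n m F B G) (hG' : Rps n m F' B' G') : Fp (n * m) G G' := by
  intro z
  obtain ⟨i, hi, j, hj, w, hw⟩ := hF z
  obtain ⟨a, ha, b, hb, hab⟩ := hB i hi j hj w
  obtain ⟨g, hg, hd⟩ := hG.2 i hi a ha
  obtain ⟨g', hg', hd'⟩ := hG'.2 j hj b hb
  exact ⟨g, hg, g', hg', fb_comb hw hab hd hd'⟩

theorem fp_self {n : ℤ} {F : Finset ℤ} (hF : Fr n F) : Fp n F F := by
  intro z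
  rcases hF.2 z with ⟨i, hi, hz⟩ | ⟨i, hi, j, hj, _, hz⟩
  · refine ⟨i, hi, i, hi, ?_⟩
    have h : z - (2 * i - i) = z - i := by ring
    rw [h]
    exact hz
  · exact ⟨i, hi, j, hj, hz⟩

theorem fr_shift {n : ℤ} {F : Finset ℤ} (hF : Fr n F) (t : ℤ) : Fr n (F.image (· + t)) := by
  constructor
  · intro i hi j hj k hk hd
    obtain ⟨i', hi', rfl⟩ := Finset.mem_image.1 hi
    obtain ⟨j', hj', rfl⟩ := Finset.mem_image.1 hj
    obtain ⟨k', hk', rfl⟩ := Finset.mem_image.1 hk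
    have h : i' + t + (k' + t) - 2 * (j' + t) = i' + k' - 2 * j' := by ring
    rw [h] at hd
    obtain ⟨h1, h2⟩ := hF.1 i' hi' j' hj' k' hk' hd
    exact ⟨by rw [h1], by rw [h2]⟩
  · intro z
    rcases hF.2 (z - t) with ⟨i, hi, hz⟩ | ⟨i, hi, j, hj, hij, hz⟩
    · refine Or.inl ⟨i + t, Finset.mem_image.2 ⟨i, hi, rfl⟩, ?_⟩
      have h : z - (i + t) = z - t - i := by ring
      rw [h]
      exact hz
    · refine Or.inr ⟨i + t, Finset.mem_image.2 ⟨i, hi, rfl⟩, j + t, Finset.mem_image.2 ⟨j, hj, rfl⟩,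
        by linarith, ?_⟩
      have h : z - (2 * (j + t) - (i + t)) = z - t - (2 * j - i) := by ring
      rw [h]
      exact hz

theorem fp_shift {n : ℤ} {F G : Finset ℤ} (h : Fp n F G) (t u : ℤ) :
    Fp n (F.image (· + t)) (G.image (· + u)) := by
  intro z
  obtain ⟨i, hi, j, hj, hz⟩ := h (z - 2 * u + t)
  refine ⟨i + t, Finset.mem_image.2 ⟨i, hi, rfl⟩, j + u, Finset.mem_image.2 ⟨j, hj, rfl⟩, ?_⟩
  have h : z - (2 * (j + u) - (i + t)) = z - 2 * u + t - (2 * j - i) := by ring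
  rw [h]
  exact hz

end Pool.Agent.STN
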