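import Pool.Agent.STN.Bc

/-!
# Project STN, module Ga: extensions of systems

All by unfolding.  `cov_mono`: the same cells and addresses (`h`, `T` agree on the old cells; also the level of `x`, hence `hx`).  `good_trans`: a cell of `s''` is old in `s'` or new; a new cell of `s'` is
complete in `s'`, hence in `s''` (`complete_mono`).
-/

set_option autoImplicit false

namespace Pool.Agent.STN

theorem le_refl' (s : Sys) : s.Le s :=
  ⟨Finset.Subset.refl _, fun _ _ => ⟨rfl, rfl⟩⟩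

theorem le_trans' {s s' s'' : Sys} (h : s.Le s') (h' : s'.Le s'') : s.Le s'' := by
  refine ⟨h.1.trans h'.1, fun x hx => ?_⟩
  have h1 := h.2 x hx
  have h2 := h'.2 x (h.1 hx)
  exact ⟨h2.1.trans h1.1, h2.2.trans h1.2⟩

theorem cov_mono {s s' : Sys} (h : s.Le s') {x : ℤ} (hx : x ∈ s.X) {n : ℕ} (hc : s.Cov x n) : s'.Cov x n := by
  obtain ⟨x1, h1, x2, h2, h3, a, ha, b, hb, h4, h5⟩ := hc
  refine ⟨x1, h.1 h1, x2, h.1 h2, h3, a, ?_, b, ?_, ?_, ?_⟩
  · rw [(h.2 x1 h1).2]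
    exact ha
  · rw [(h.2 x2 h2).2]
    exact hb
  · rw [(h.2 x1 h1).1, (h.2 x2 h2).1, (h.2 x hx).1]
    exact h4
  · rw [(h.2 x1 h1).1, (h.2 x2 h2).1]
    exact h5

theorem complete_mono {s s' : Sys} (h : s.Le s') {x : ℤ} (hx : x ∈ s.X) (hc : s.Complete x) :
    s'.Complete x := by
  obtain ⟨n0, hn0⟩ := hc
  refine ⟨n0, fun n hn hnT => cov_mono h hx (hn0 n hn ?_)⟩
  rw [(h.2 x hx).2] at hnT
  exact hnT

theorem good_refl {s : Sys} (h : s.Free) : s.Good s :=
  ⟨le_refl' s, h, fun _ hx hx' => absurd hx hx'⟩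

theorem good_trans {s s' s'' : Sys} (h : s.Good s') (h' : s'.Good s'') : s.Good s'' := by
  refine ⟨le_trans' h.1 h'.1, h'.2.1, fun x hx hxs => ?_⟩
  by_cases hx' : x ∈ s'.X
  · exact complete_mono h'.1 hx' (h.2.2 x hx' hxs)
  · exact h'.2.2 x hx hx'

theorem good_of {s s1 s' : Sys} (h : s.Le s1) (h' : s1.Good s')
    (hc : ∀ x ∈ s1.X, x ∉ s.X → s'.Complete x) : s.Good s' := by
  refine ⟨le_trans' h h'.1, h'.2.1, fun x hx hxs => ?_⟩
  by_cases hx' : x ∈ s1.X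
  · exact hc x hx' hxs
  · exact h'.2.2 x hx hx'

/-- the degenerate line -/
theorem deg_cov {s : Sys} {x : ℤ} (hx : x ∈ s.X) {n : ℕ} (h1 : xc n ∈ s.T x) (h2 : yc n ∈ s.T x)
    (hn : n ∉ S0) : s.Cov x n := by
  refine ⟨x, hx, x, hx, by ring, xc n, h1, yc n, h2, ?_, Or.inl ?_⟩
  · have e := can_eq n
    have e' : (xc n : ℤ) + (n : ℤ) = 2 * (yc n : ℤ) := by exact_mod_cast e
    linarith
  · have e := xc_lt hn
    have e' : (xc n : ℤ) < (yc n : ℤ) := by exact_mod_cast e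
    linarith

/-- a cell with the content `S0` is complete by itself -/
theorem leaf_complete {s : Sys} {x : ℤ} (hx : x ∈ s.X) (hT : s.T x = S0) : s.Complete x := by
  refine ⟨0, fun n _ hn => deg_cov hx ?_ ?_ ?_⟩
  · rw [hT]
    exact xc_mem n
  · rw [hT]
    exact yc_mem n
  · rwa [hT] at hn

end Pool.Agent.STN
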