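import Pool.Agent.STN.Ga

/-!
# Project STN, module Gb: the gadget G1

Let `M` bound all `|x|`, `x ∈ s.X`, and `t = 10 M + 10`.  New cells: `t` (content `S0 \ D`, level `0`), `2 c - t` (content `S0`, level `0`), `2 t - A` (content `S0`, level `- s.h A`).
`s'.X = s.X ∪ {t, 2 c - t, 2 t - A}`, `s'.h z = if z ∈ s.X then s.h z else if z = 2 t - A then - s.h A else 0`, `s'.T z = if z ∈ s.X then s.T z else if z = t then S0 \ D else S0`.
Progressions `x1 + x3 = 2 x2` of cells: all old (`s.Free`); all equal (contents in `S0`: `s0_ap`); `{2 c - t, t}` with the middle `c`; `{A, 2 t - A}` with the middle `t`; nothing else (case distinction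
old / three new for each of the three, `omega` with the bounds).  In the two special cases `a + c' = 2 b` in `S0` (levels cancel) gives `a = b = c'` (`s0_ap`), but one lies in `D` and one in `S0 \ D`.
Covering of `t`: cells `2 c - t`, `c`, addresses `xc n`, `yc n` (`can_eq`, `xc_le`; if equal use `2 c - t < c`).  Covering of `A`: cells `2 t - A`, `t`, addresses `xc n`, `yc n`; order: if `0 < s.h A` the level helps, if `n ∉ S0` use `xc_lt`
(and `s.h A ≥ 0`: in the case `A = c` the level is `0`).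
-/

set_option autoImplicit false

namespace Pool.Agent.STN

private theorem gb_bound (X : Finset ℤ) : ∃ M : ℤ, 0 ≤ M ∧ ∀ x ∈ X, -M ≤ x ∧ x ≤ M := by
  refine ⟨∑ x ∈ X, |x|, Finset.sum_nonneg fun x _ => abs_nonneg x, fun x hx => ?_⟩
  have h1 : |x| ≤ ∑ x ∈ X, |x| :=
    Finset.single_le_sum (f := fun x : ℤ => |x|) (fun x _ => abs_nonneg x) hx
  exact abs_le.mp h1

/-- positions in the gadget -/
private theorem gb_cases {X : Finset ℤ} {M c A t : ℤ} (hM : 0 ≤ M) (hb : ∀ x ∈ X, -M ≤ x ∧ x ≤ M)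
    (hc : c ∈ X) (hA : A ∈ X) (ht : t = 10 * M + 10) {x1 x2 x3 : ℤ}
    (h1 : x1 ∈ X ∨ x1 = t ∨ x1 = 2 * c - t ∨ x1 = 2 * t - A)
    (h2 : x2 ∈ X ∨ x2 = t ∨ x2 = 2 * c - t ∨ x2 = 2 * t - A)
    (h3 : x3 ∈ X ∨ x3 = t ∨ x3 = 2 * c - t ∨ x3 = 2 * t - A) (h : x1 + x3 = 2 * x2) :
    (x1 ∈ X ∧ x2 ∈ X ∧ x3 ∈ X) ∨ (x1 = x2 ∧ x3 = x2 ∧ x2 ∉ X) ∨
      (x2 = c ∧ ((x1 = t ∧ x3 = 2 * c - t) ∨ (x1 = 2 * c - t ∧ x3 = t))) ∨
      (x2 = t ∧ ((x1 = A ∧ x3 = 2 * t - A) ∨ (x1 = 2 * t - A ∧ x3 = A))) := by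
  have hc' := hb c hc
  have hA' := hb A hA
  have ht1 : t ∉ X := fun h => by
    have := hb t h
    omega
  have ht2 : 2 * c - t ∉ X := fun h => by
    have := hb _ h
    omega
  have ht3 : 2 * t - A ∉ X := fun h => by
    have := hb _ h
    omega
  rcases h2 with h2 | h2 | h2 | h2
  · have e2 := hb x2 h2
    rcases h1 with h1 | h1 | h1 | h1
    · have e1 := hb x1 h1
      rcases h3 with h3 | h3 | h3 | h3
      · exact Or.inl ⟨h1, h2, h3⟩
      · exfalso; omega
      · exfalso; omega
      · exfalso; omega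
    · rcases h3 with h3 | h3 | h3 | h3
      · have e3 := hb x3 h3
        exfalso; omega
      · exfalso; omega
      · exact Or.inr (Or.inr (Or.inl ⟨by omega, Or.inl ⟨h1, h3⟩⟩))
      · exfalso; omega
    · rcases h3 with h3 | h3 | h3 | h3
      · have e3 := hb x3 h3
        exfalso; omega
      · exact Or.inr (Or.inr (Or.inl ⟨by omega, Or.inr ⟨h1, h3⟩⟩))
      · exfalso; omega
      · exfalso; omega
    · rcases h3 with h3 | h3 | h3 | h3
      · have e3 := hb x3 h3
        exfalso; omega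
      · exfalso; omega
      · exfalso; omega
      · exfalso; omega
  · rcases h1 with h1 | h1 | h1 | h1
    · have e1 := hb x1 h1
      rcases h3 with h3 | h3 | h3 | h3
      · have e3 := hb x3 h3
        exfalso; omega
      · exfalso; omega
      · exfalso; omega
      · exact Or.inr (Or.inr (Or.inr ⟨h2, Or.inl ⟨by omega, h3⟩⟩))
    · rcases h3 with h3 | h3 | h3 | h3
      · have e3 := hb x3 h3
        exfalso; omega
      · refine Or.inr (Or.inl ⟨by omega, by omega, ?_⟩)
        rw [h2]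
        exact ht1
      · exfalso; omega
      · exfalso; omega
    · rcases h3 with h3 | h3 | h3 | h3
      · have e3 := hb x3 h3
        exfalso; omega
      · exfalso; omega
      · exfalso; omega
      · exfalso; omega
    · rcases h3 with h3 | h3 | h3 | h3
      · have e3 := hb x3 h3
        exact Or.inr (Or.inr (Or.inr ⟨h2, Or.inr ⟨h1, by omega⟩⟩))
      · exfalso; omega
      · exfalso; omega
      · exfalso; omega
  · have hx2 : x2 ∉ X := by
      rw [h2]
      exact ht2
    rcases h1 with h1 | h1 | h1 | h1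
    · have e1 := hb x1 h1
      rcases h3 with h3 | h3 | h3 | h3
      · have e3 := hb x3 h3
        exfalso; omega
      · exfalso; omega
      · exfalso; omega
      · exfalso; omega
    · rcases h3 with h3 | h3 | h3 | h3
      · have e3 := hb x3 h3
        exfalso; omega
      · exfalso; omega
      · exfalso; omega
      · exfalso; omega
    · rcases h3 with h3 | h3 | h3 | h3
      · have e3 := hb x3 h3
        exfalso; omega
      · exfalso; omega
      · exact Or.inr (Or.inl ⟨by omega, by omega, hx2⟩)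
      · exfalso; omega
    · rcases h3 with h3 | h3 | h3 | h3
      · have e3 := hb x3 h3
        exfalso; omega
      · exfalso; omega
      · exfalso; omega
      · exfalso; omega
  · have hx2 : x2 ∉ X := by
      rw [h2]
      exact ht3
    rcases h1 with h1 | h1 | h1 | h1
    · have e1 := hb x1 h1
      rcases h3 with h3 | h3 | h3 | h3
      · have e3 := hb x3 h3
        exfalso; omega
      · exfalso; omega
      · exfalso; omega
      · exfalso; omega
    · rcases h3 with h3 | h3 | h3 | h3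
      · have e3 := hb x3 h3
        exfalso; omega
      · exfalso; omega
      · exfalso; omega
      · exfalso; omega
    · rcases h3 with h3 | h3 | h3 | h3
      · have e3 := hb x3 h3
        exfalso; omega
      · exfalso; omega
      · exfalso; omega
      · exfalso; omega
    · rcases h3 with h3 | h3 | h3 | h3
      · have e3 := hb x3 h3
        exfalso; omega
      · exfalso; omega
      · exfalso; omega
      · exact Or.inr (Or.inl ⟨by omega, by omega, hx2⟩)

open Classical in
theorem g1 {s : Sys} (hs : s.Free) {c A : ℤ} {D : Set ℕ} (hD : D ⊆ S0) (hc : c ∈ s.X)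
    (hcT : s.T c = D) (hch : s.h c = 0) (hA : A ∈ s.X) (hAT : s.T A = D) (hAh : 0 < s.h A ∨ A = c) :
    ∃ (s' : Sys) (t : ℤ), s.Le s' ∧ s'.Free ∧ t ∈ s'.X ∧ t ∉ s.X ∧ s'.T t = S0 \ D ∧ s'.h t = 0 ∧
      (∀ x ∈ s'.X, x ∉ s.X → x = t ∨ s'.Complete x) ∧
      (∀ n, yc n ∈ D → s'.Cov t n) ∧
      ∀ n, yc n ∉ D → (n ∉ S0 ∨ 0 < s.h A) → s'.Cov A n := by
  obtain ⟨M, hM, hb⟩ := gb_bound s.X
  obtain ⟨t, ht⟩ : ∃ t : ℤ, t = 10 * M + 10 := ⟨_, rfl⟩
  have hc' := hb c hc
  have hA' := hb A hA
  have ht1 : t ∉ s.X := fun h => by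
    have := hb t h
    omega
  have ht2 : 2 * c - t ∉ s.X := fun h => by
    have := hb _ h
    omega
  have ht3 : 2 * t - A ∉ s.X := fun h => by
    have := hb _ h
    omega
  have hAh0 : 0 ≤ s.h A := by
    rcases hAh with h | h
    · exact h.le
    · rw [h, hch]
  obtain ⟨s', hX, hh, hT⟩ : ∃ s' : Sys, s'.X = s.X ∪ {t, 2 * c - t, 2 * t - A} ∧
      (∀ z, s'.h z = if z ∈ s.X then s.h z else if z = 2 * t - A then - s.h A else 0) ∧
      (∀ z, s'.T z = if z ∈ s.X then s.T z else if z = t then S0 \ D else S0) :=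
    ⟨⟨s.X ∪ {t, 2 * c - t, 2 * t - A},
      fun z => if z ∈ s.X then s.h z else if z = 2 * t - A then - s.h A else 0,
      fun z => if z ∈ s.X then s.T z else if z = t then S0 \ D else S0⟩, rfl, fun _ => rfl, fun _ => rfl⟩
  have hmem : ∀ z, z ∈ s'.X ↔ (z ∈ s.X ∨ z = t ∨ z = 2 * c - t ∨ z = 2 * t - A) := by
    intro z
    rw [hX]
    simp only [Finset.mem_union, Finset.mem_insert, Finset.mem_singleton]
  have hho : ∀ z ∈ s.X, s'.h z = s.h z := fun z hz => by rw [hh, if_pos hz]
  have hTo : ∀ z ∈ s.X, s'.T z = s.T z := fun z hz => by rw [hT, if_pos hz]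
  have hh1 : s'.h t = 0 := by rw [hh, if_neg ht1, if_neg (by omega)]
  have hh2 : s'.h (2 * c - t) = 0 := by rw [hh, if_neg ht2, if_neg (by omega)]
  have hh3 : s'.h (2 * t - A) = - s.h A := by rw [hh, if_neg ht3, if_pos rfl]
  have hT1 : s'.T t = S0 \ D := by rw [hT, if_neg ht1, if_pos rfl]
  have hT2 : s'.T (2 * c - t) = S0 := by rw [hT, if_neg ht2, if_neg (by omega)]
  have hT3 : s'.T (2 * t - A) = S0 := by rw [hT, if_neg ht3, if_neg (by omega)]
  have hTn : ∀ z, z ∉ s.X → s'.T z ⊆ S0 := by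
    intro z hz
    rw [hT, if_neg hz]
    split_ifs
    · exact Set.diff_subset
    · exact subset_rfl
  have m1 : t ∈ s'.X := (hmem _).mpr (Or.inr (Or.inl rfl))
  have m2 : 2 * c - t ∈ s'.X := (hmem _).mpr (Or.inr (Or.inr (Or.inl rfl)))
  have m3 : 2 * t - A ∈ s'.X := (hmem _).mpr (Or.inr (Or.inr (Or.inr rfl)))
  have hle : s.Le s' := by
    refine ⟨fun z hz => (hmem z).mpr (Or.inl hz), fun z hz => ⟨hho z hz, hTo z hz⟩⟩
  have hap : ∀ a ∈ S0, ∀ b ∈ S0, ∀ d ∈ S0, (a : ℤ) + (d : ℤ) = 2 * (b : ℤ) → a = b ∧ d = b := by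
    intro a ha b hb' d hd h
    have h' : a + d = 2 * b := by exact_mod_cast h
    have e := s0_ap ha hb' hd h'
    omega
  refine ⟨s', t, hle, ?_, m1, ht1, hT1, hh1, ?_, ?_, ?_⟩
  · intro x1 h1 x2 h2 x3 h3 h a ha b hb' d hd e
    rcases gb_cases hM hb hc hA ht ((hmem x1).mp h1) ((hmem x2).mp h2) ((hmem x3).mp h3) h with
      ⟨g1, g2, g3⟩ | ⟨g1, g3, g2⟩ | ⟨g2, ⟨g1, g3⟩ | ⟨g1, g3⟩⟩ | ⟨g2, ⟨g1, g3⟩ | ⟨g1, g3⟩⟩
    · rw [hTo x1 g1] at ha
      rw [hTo x2 g2] at hb'
      rw [hTo x3 g3] at hd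
      rw [hho x1 g1, hho x2 g2, hho x3 g3] at e
      exact hs x1 g1 x2 g2 x3 g3 h a ha b hb' d hd e
    · subst g1
      subst g3
      have e1 := hap a (hTn _ g2 ha) b (hTn _ g2 hb') d (hTn _ g2 hd) (by linarith)
      exact ⟨rfl, e1.1.trans e1.2.symm⟩
    · exfalso
      subst g1
      subst g3
      subst g2
      rw [hT1] at ha
      rw [hTo _ hc, hcT] at hb'
      rw [hT2] at hd
      rw [hh1, hh2, hho _ hc, hch] at e
      have e1 := hap a ha.1 b (hD hb') d hd (by linarith)
      exact ha.2 (by rw [e1.1]; exact hb')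
    · exfalso
      subst g1
      subst g3
      subst g2
      rw [hT2] at ha
      rw [hTo _ hc, hcT] at hb'
      rw [hT1] at hd
      rw [hh1, hh2, hho _ hc, hch] at e
      have e1 := hap a ha b (hD hb') d hd.1 (by linarith)
      exact hd.2 (by rw [e1.2]; exact hb')
    · exfalso
      subst g1
      subst g3
      subst g2
      rw [hTo _ hA, hAT] at ha
      rw [hT1] at hb'
      rw [hT3] at hd
      rw [hh1, hh3, hho _ hA] at e
      have e1 := hap a (hD ha) b hb'.1 d hd (by linarith)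
      exact hb'.2 (by rw [← e1.1]; exact ha)
    · exfalso
      subst g1
      subst g3
      subst g2
      rw [hTo _ hA, hAT] at hd
      rw [hT1] at hb'
      rw [hT3] at ha
      rw [hh1, hh3, hho _ hA] at e
      have e1 := hap a ha b hb'.1 d (hD hd) (by linarith)
      exact hb'.2 (by rw [← e1.2]; exact hd)
  · intro x hx hxs
    rcases (hmem x).mp hx with g | g | g | g
    · exact absurd g hxs
    · exact Or.inl g
    · right
      rw [g]
      exact leaf_complete m2 hT2
    · right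
      rw [g]
      exact leaf_complete m3 hT3
  · intro n hn
    refine ⟨2 * c - t, m2, c, hle.1 hc, by ring, xc n, ?_, yc n, ?_, ?_, ?_⟩
    · rw [hT2]
      exact xc_mem n
    · rw [hTo c hc, hcT]
      exact hn
    · rw [hh1, hh2, hho c hc, hch]
      have e : (xc n : ℤ) + (n : ℤ) = 2 * (yc n : ℤ) := by exact_mod_cast can_eq n
      linarith
    · rw [hh2, hho c hc, hch]
      rcases Nat.lt_or_eq_of_le (xc_le n) with e | e
      · left
        have e' : (xc n : ℤ) < (yc n : ℤ) := by exact_mod_cast e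
        linarith
      · right
        have e' : (xc n : ℤ) = (yc n : ℤ) := by exact_mod_cast e
        exact ⟨by linarith, by omega⟩
  · intro n hn hor
    refine ⟨2 * t - A, m3, t, m1, by ring, xc n, ?_, yc n, ?_, ?_, Or.inl ?_⟩
    · rw [hT3]
      exact xc_mem n
    · rw [hT1]
      exact ⟨yc_mem n, hn⟩
    · rw [hh1, hh3, hho A hA]
      have e : (xc n : ℤ) + (n : ℤ) = 2 * (yc n : ℤ) := by exact_mod_cast can_eq n
      linarith
    · rw [hh1, hh3]
      have e : (xc n : ℤ) ≤ (yc n : ℤ) := by exact_mod_cast xc_le n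
      rcases hor with g | g
      · have e' : (xc n : ℤ) < (yc n : ℤ) := by exact_mod_cast xc_lt g
        linarith
      · linarith

end Pool.Agent.STN
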