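import Pool.Agent.STN.Ga

/-!
# Project STN, module Gc: the gadget G2

Let `M` bound all `|x|`, `x ∈ s.X`; `t = c + 2 (10 M + 10)`, `u = (c + t) / 2 = c + 10 M + 10`.  New cells, all with the level of `c`: `t` (content `S0 \ D`), `2 c - t` (`S0`), `u` (`S0`).
Progressions of cells: all old; all equal; `{2 c - t, t}` with the middle `c`; `{c, t}` with the middle `u`; nothing else (`omega`).  Contents: as in module Gb.
`t` is complete: if `n ∉ S0 \ D`: `yc n ∈ D`: cells `2 c - t < c` (`xc n ≤ yc n`); `yc n ∉ D`, `xc n ∈ D`: then `n ∉ S0` (otherwise `xc n = yc n`), cells `c`, `u`, `xc_lt`; neither in `D`: `n ∉ S0`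
(otherwise `n = yc n ∈ S0 \ D`), `deg_cov`.  `c` covers `n ∉ S0` with `xc n ∉ D`: cells `t`, `u`, addresses `xc n`, `yc n`.  The two new leaves: `leaf_complete`.
-/

set_option autoImplicit false

namespace Pool.Agent.STN

private theorem gc_bound (X : Finset ℤ) : ∃ M : ℤ, 0 ≤ M ∧ ∀ x ∈ X, -M ≤ x ∧ x ≤ M := by
  refine ⟨∑ x ∈ X, |x|, Finset.sum_nonneg fun _ _ => abs_nonneg _, fun x hx => ?_⟩
  have h1 : |x| ≤ ∑ x ∈ X, |x| := Finset.single_le_sum (f := fun x : ℤ => |x|) (fun _ _ => abs_nonneg _) hx
  exact abs_le.1 h1

theorem g2 {s : Sys} (hs : s.Free) {c : ℤ} {D : Set ℕ} (hD : D ⊆ S0) (hc : c ∈ s.X)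
    (hcT : s.T c = D) : ∃ s' : Sys, s.Good s' ∧ ∀ n, n ∉ S0 → xc n ∉ D → s'.Cov c n := by
  classical
  obtain ⟨M, hM0, hM⟩ := gc_bound s.X
  obtain ⟨t, ht⟩ : ∃ t, t = c + 2 * (10 * M + 10) := ⟨_, rfl⟩
  obtain ⟨u, hu⟩ : ∃ u, u = c + (10 * M + 10) := ⟨_, rfl⟩
  obtain ⟨w, hw⟩ : ∃ w, w = c - 2 * (10 * M + 10) := ⟨_, rfl⟩
  have hcM := hM c hc
  have htX : t ∉ s.X := fun h => by
    have := hM t h
    omega
  have huX : u ∉ s.X := fun h => by
    have := hM u h
    omega
  have hwX : w ∉ s.X := fun h => by
    have := hM w h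
    omega
  obtain ⟨s', hs'⟩ : ∃ s' : Sys, s' = ⟨insert t (insert w (insert u s.X)),
    fun z => if z ∈ s.X then s.h z else s.h c,
    fun z => if z ∈ s.X then s.T z else if z = t then S0 \ D else S0⟩ := ⟨_, rfl⟩
  have hX : ∀ z, z ∈ s'.X ↔ z = t ∨ z = w ∨ z = u ∨ z ∈ s.X := fun z => by
    rw [hs']
    simp only [Finset.mem_insert]
  have hh : ∀ z ∈ s.X, s'.h z = s.h z := fun z hz => by
    rw [hs']
    exact if_pos hz
  have hT : ∀ z ∈ s.X, s'.T z = s.T z := fun z hz => by
    rw [hs']
    exact if_pos hz
  have hh' : ∀ z, z ∉ s.X → s'.h z = s.h c := fun z hz => by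
    rw [hs']
    exact if_neg hz
  have hTt : s'.T t = S0 \ D := by
    rw [hs']
    show (if t ∈ s.X then s.T t else if t = t then S0 \ D else S0) = _
    rw [if_neg htX, if_pos rfl]
  have hTw : s'.T w = S0 := by
    rw [hs']
    show (if w ∈ s.X then s.T w else if w = t then S0 \ D else S0) = _
    rw [if_neg hwX, if_neg (by omega)]
  have hTu : s'.T u = S0 := by
    rw [hs']
    show (if u ∈ s.X then s.T u else if u = t then S0 \ D else S0) = _
    rw [if_neg huX, if_neg (by omega)]
  have hht := hh' t htX
  have hhu := hh' u huX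
  have hhw := hh' w hwX
  have hhc := hh c hc
  have hTc : s'.T c = D := by rw [hT c hc, hcT]
  have mt : t ∈ s'.X := (hX t).2 (Or.inl rfl)
  have mw : w ∈ s'.X := (hX w).2 (Or.inr (Or.inl rfl))
  have mu' : u ∈ s'.X := (hX u).2 (Or.inr (Or.inr (Or.inl rfl)))
  have mc : c ∈ s'.X := (hX c).2 (Or.inr (Or.inr (Or.inr hc)))
  have hLe : s.Le s' := ⟨fun z hz => (hX z).2 (Or.inr (Or.inr (Or.inr hz))), fun z hz => ⟨hh z hz, hT z hz⟩⟩
  have hFree : s'.Free := by
    intro x1 h1 x2 h2 x3 h3 hx a ha b hb d hd he
    by_cases o1 : x1 ∈ s.X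
    · have b1 := hM x1 o1
      by_cases o3 : x3 ∈ s.X
      · have b3 := hM x3 o3
        have o2 : x2 ∈ s.X := by
          rcases (hX x2).1 h2 with h | h | h | h
          · omega
          · omega
          · omega
          · exact h
        rw [hT x1 o1] at ha
        rw [hT x2 o2] at hb
        rw [hT x3 o3] at hd
        rw [hh x1 o1, hh x2 o2, hh x3 o3] at he
        exact hs x1 o1 x2 o2 x3 o3 hx a ha b hb d hd he
      · have n3 : x3 = t ∨ x3 = w ∨ x3 = u := by
          rcases (hX x3).1 h3 with h | h | h | h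
          · exact Or.inl h
          · exact Or.inr (Or.inl h)
          · exact Or.inr (Or.inr h)
          · exact absurd h o3
        by_cases o2 : x2 ∈ s.X
        · have b2 := hM x2 o2
          rcases n3 with h | h | h <;> omega
        · have n2 : x2 = t ∨ x2 = w ∨ x2 = u := by
            rcases (hX x2).1 h2 with h | h | h | h
            · exact Or.inl h
            · exact Or.inr (Or.inl h)
            · exact Or.inr (Or.inr h)
            · exact absurd h o2
          have k : x1 = c ∧ x2 = u ∧ x3 = t := by
            rcases n3 with h | h | h <;> rcases n2 with h' | h' | h' <;> omega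
          obtain ⟨k1, k2, k3⟩ := k
          subst k1 k2 k3
          rw [hTc] at ha
          rw [hTu] at hb
          rw [hTt] at hd
          rw [hhc, hhu, hht] at he
          have e : a + d = 2 * b := by omega
          obtain ⟨e1, e2⟩ := s0_ap (hD ha) hb hd.1 e
          rw [e2, ← e1] at hd
          exact absurd ha hd.2
    · have n1 : x1 = t ∨ x1 = w ∨ x1 = u := by
        rcases (hX x1).1 h1 with h | h | h | h
        · exact Or.inl h
        · exact Or.inr (Or.inl h)
        · exact Or.inr (Or.inr h)
        · exact absurd h o1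
      by_cases o3 : x3 ∈ s.X
      · have b3 := hM x3 o3
        by_cases o2 : x2 ∈ s.X
        · have b2 := hM x2 o2
          rcases n1 with h | h | h <;> omega
        · have n2 : x2 = t ∨ x2 = w ∨ x2 = u := by
            rcases (hX x2).1 h2 with h | h | h | h
            · exact Or.inl h
            · exact Or.inr (Or.inl h)
            · exact Or.inr (Or.inr h)
            · exact absurd h o2
          have k : x3 = c ∧ x2 = u ∧ x1 = t := by
            rcases n1 with h | h | h <;> rcases n2 with h' | h' | h' <;> omega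
          obtain ⟨k1, k2, k3⟩ := k
          subst k1 k2 k3
          rw [hTc] at hd
          rw [hTu] at hb
          rw [hTt] at ha
          rw [hhc, hhu, hht] at he
          have e : a + d = 2 * b := by omega
          obtain ⟨e1, e2⟩ := s0_ap ha.1 hb (hD hd) e
          rw [e1, ← e2] at ha
          exact absurd hd ha.2
      · have n3 : x3 = t ∨ x3 = w ∨ x3 = u := by
          rcases (hX x3).1 h3 with h | h | h | h
          · exact Or.inl h
          · exact Or.inr (Or.inl h)
          · exact Or.inr (Or.inr h)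
          · exact absurd h o3
        by_cases o2 : x2 ∈ s.X
        · have b2 := hM x2 o2
          have k : x2 = c ∧ ((x1 = t ∧ x3 = w) ∨ (x1 = w ∧ x3 = t)) := by
            rcases n1 with h | h | h <;> rcases n3 with h' | h' | h' <;> omega
          obtain ⟨k2, k | k⟩ := k
          · obtain ⟨k1, k3⟩ := k
            subst k1 k2 k3
            rw [hTt] at ha
            rw [hTc] at hb
            rw [hTw] at hd
            rw [hhc, hhw, hht] at he
            have e : a + d = 2 * b := by omega
            obtain ⟨e1, e2⟩ := s0_ap ha.1 (hD hb) hd e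
            rw [e1] at ha
            exact absurd hb ha.2
          · obtain ⟨k1, k3⟩ := k
            subst k1 k2 k3
            rw [hTw] at ha
            rw [hTc] at hb
            rw [hTt] at hd
            rw [hhc, hhw, hht] at he
            have e : a + d = 2 * b := by omega
            obtain ⟨e1, e2⟩ := s0_ap ha (hD hb) hd.1 e
            rw [e2] at hd
            exact absurd hb hd.2
        · have n2 : x2 = t ∨ x2 = w ∨ x2 = u := by
            rcases (hX x2).1 h2 with h | h | h | h
            · exact Or.inl h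
            · exact Or.inr (Or.inl h)
            · exact Or.inr (Or.inr h)
            · exact absurd h o2
          have k : x1 = x2 ∧ x3 = x2 := by
            rcases n1 with h | h | h <;> rcases n2 with h' | h' | h' <;> rcases n3 with h'' | h'' | h'' <;> omega
          obtain ⟨k1, k3⟩ := k
          subst k1 k3
          refine ⟨rfl, ?_⟩
          have hS : ∀ z, z = t ∨ z = w ∨ z = u → s'.T z ⊆ S0 := by
            rintro z (rfl | rfl | rfl)
            · rw [hTt]
              exact Set.diff_subset
            · rw [hTw]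
            · rw [hTu]
          have e : a + d = 2 * b := by omega
          obtain ⟨e1, e2⟩ := s0_ap (hS _ n2 ha) (hS _ n2 hb) (hS _ n2 hd) e
          rw [e1, e2]
  have hcov : ∀ n, n ∉ S0 → xc n ∉ D → s'.Cov c n := by
    intro n hn hx
    refine ⟨t, mt, u, mu', by omega, xc n, by rw [hTt]; exact ⟨xc_mem n, hx⟩, yc n, by rw [hTu]; exact yc_mem n,
      ?_, ?_⟩
    · have := can_eq n
      rw [hht, hhu, hhc]
      omega
    · left
      have := xc_lt hn
      rw [hht, hhu]
      omega
  refine ⟨s', ⟨hLe, hFree, fun x hx hxs => ?_⟩, hcov⟩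
  rcases (hX x).1 hx with h | h | h | h
  · subst h
    refine ⟨0, fun n _ hn => ?_⟩
    rw [hTt] at hn
    by_cases hy : yc n ∈ D
    · refine ⟨w, mw, c, mc, by omega, xc n, by rw [hTw]; exact xc_mem n, yc n, by rw [hTc]; exact hy, ?_, ?_⟩
      · have := can_eq n
        rw [hht, hhw, hhc]
        omega
      · have := xc_le n
        rw [hhw, hhc]
        rcases Nat.lt_or_ge (xc n) (yc n) with h1 | h1
        · left
          omega
        · right
          constructor
          · omega
          · omega
    · have hnS : n ∉ S0 := fun h => hn ⟨h, by rw [← yc_self h]; rwa [yc_self h] at hy ⊢⟩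
      by_cases hx' : xc n ∈ D
      · refine ⟨c, mc, u, mu', by omega, xc n, by rw [hTc]; exact hx', yc n, by rw [hTu]; exact yc_mem n, ?_, ?_⟩
        · have := can_eq n
          rw [hht, hhu, hhc]
          omega
        · left
          have := xc_lt hnS
          rw [hhu, hhc]
          omega
      · exact deg_cov mt (by rw [hTt]; exact ⟨xc_mem n, hx'⟩) (by rw [hTt]; exact ⟨yc_mem n, hy⟩) hnS
  · subst h
    exact leaf_complete mw hTw
  · subst h
    exact leaf_complete mu' hTu
  · exact absurd h hxs

end Pool.Agent.STN
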