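import Pool.Agent.STN.Gb
import Pool.Agent.STN.Gc

/-!
# Project STN, module Gd: copies

`copy_cell`: `g1` gives `s1, t`; `g2` for `t` in `s1` (content `S0 \ D`) gives `s2`: `t` is complete in `s2`: for `n ∉ S0 \ D`: `yc n ∈ D`: `g1` (`cov_mono`); otherwise `n ∉ S0`, and `xc n ∈ D`: `g2`; `xc n ∉ D`: `deg_cov`.
`g2` for `A` in `s2` gives `s3`: `A` is complete: `n ∉ D`: `yc n ∉ D`: `g1`; `yc n ∈ D`: then `n ∉ S0` (`yc_self`); `xc n ∉ D`: `g2`; else `deg_cov`.  Good: `good_of`, `good_trans`.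
`base_cell`: the same with `A = c`.
-/

set_option autoImplicit false

namespace Pool.Agent.STN

private theorem gd_core {s : Sys} (hs : s.Free) {c A : ℤ} {D : Set ℕ} (hD : D ⊆ S0) (hc : c ∈ s.X)
    (hcT : s.T c = D) (hch : s.h c = 0) (hA : A ∈ s.X) (hAT : s.T A = D) (hAh : 0 < s.h A ∨ A = c) :
    ∃ s' : Sys, s.Good s' ∧ ∀ n, n ∉ D → (n ∉ S0 ∨ 0 < s.h A) → s'.Cov A n := by
  obtain ⟨s1, t, hle, hf1, ht1, hts, htT, _, hnew, hcov1, hcov2⟩ := g1 hs hD hc hcT hch hA hAT hAh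
  obtain ⟨s2, hg2, hcov3⟩ := g2 (c := t) (D := S0 \ D) hf1 (fun x hx => hx.1) ht1 htT
  have ht2 : t ∈ s2.X := hg2.1.1 ht1
  have ht2T : s2.T t = S0 \ D := ((hg2.1.2 t ht1).2).trans htT
  have htc : s2.Complete t := by
    refine ⟨0, fun n _ hn => ?_⟩
    rw [ht2T] at hn
    by_cases hy : yc n ∈ D
    · exact cov_mono hg2.1 ht1 (hcov1 n hy)
    · have hn0 : n ∉ S0 := by
        intro h
        have e := yc_self h
        rw [e] at hy
        exact hn ⟨h, hy⟩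
      by_cases hx : xc n ∈ D
      · exact hcov3 n hn0 (fun h => h.2 hx)
      · refine deg_cov ht2 ?_ ?_ hn0
        · rw [ht2T]
          exact ⟨xc_mem n, hx⟩
        · rw [ht2T]
          exact ⟨yc_mem n, hy⟩
  have hA1 : A ∈ s1.X := hle.1 hA
  have hA2 : A ∈ s2.X := hg2.1.1 hA1
  have hA1T : s1.T A = D := ((hle.2 A hA).2).trans hAT
  have hA2T : s2.T A = D := ((hg2.1.2 A hA1).2).trans hA1T
  obtain ⟨s3, hg3, hcov4⟩ := g2 (c := A) (D := D) hg2.2.1 hD hA2 hA2T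
  have hA3 : A ∈ s3.X := hg3.1.1 hA2
  have hA3T : s3.T A = D := ((hg3.1.2 A hA2).2).trans hA2T
  refine ⟨s3, good_of hle (good_trans hg2 hg3) (fun x hx hxs => ?_), fun n hn hn' => ?_⟩
  · rcases hnew x hx hxs with h | h
    · rw [h]
      exact complete_mono hg3.1 ht2 htc
    · exact complete_mono (le_trans' hg2.1 hg3.1) hx h
  · by_cases hy : yc n ∈ D
    · have hn0 : n ∉ S0 := by
        intro h
        have e := yc_self h
        rw [e] at hy
        exact hn hy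
      by_cases hx : xc n ∈ D
      · refine deg_cov hA3 ?_ ?_ hn0
        · rw [hA3T]
          exact hx
        · rw [hA3T]
          exact hy
      · exact hcov4 n hn0 hx
    · exact cov_mono (le_trans' hg2.1 hg3.1) hA1 (hcov2 n hy hn')

theorem copy_cell {s : Sys} (hs : s.Free) {c A : ℤ} {D : Set ℕ} (hD : D ⊆ S0) (hc : c ∈ s.X)
    (hcT : s.T c = D) (hch : s.h c = 0) (hA : A ∈ s.X) (hAT : s.T A = D) (hAh : 0 < s.h A) :
    ∃ s' : Sys, s.Good s' ∧ s'.Complete A := by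
  obtain ⟨s', hg, hcov⟩ := gd_core hs hD hc hcT hch hA hAT (Or.inl hAh)
  refine ⟨s', hg, 0, fun n _ hn => hcov n ?_ (Or.inr hAh)⟩
  rwa [(hg.1.2 A hA).2, hAT] at hn

theorem base_cell {s : Sys} (hs : s.Free) {c : ℤ} {D : Set ℕ} (hD : D ⊆ S0) (hc : c ∈ s.X)
    (hcT : s.T c = D) (hch : s.h c = 0) : ∃ s' : Sys, s.Good s' ∧ ∀ n, n ∉ S0 → s'.Cov c n := by
  obtain ⟨s', hg, hcov⟩ := gd_core hs hD hc hcT hch hc hcT (Or.inr rfl)
  exact ⟨s', hg, fun n hn => hcov n (fun h => hn (hD h)) (Or.inl hn)⟩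

end Pool.Agent.STN
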