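import Pool.Agent.STN.Gd

/-!
# Project STN, module Ge: systems containing the base cells; the line G3

`BaseIn` is kept by good extensions.  The line `g3` puts a cell at twice the distance and its midpoint far to the left of a base cell, both at the level `1`.
-/

set_option autoImplicit false

namespace Pool.Agent.STN

structure BaseIn {Q : Type} (s : Sys) (G : Q → Set ℕ) (c : Q → ℤ) : Prop where
  free : s.Free
  mem : ∀ q, c q ∈ s.X
  lev : ∀ q, s.h (c q) = 0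
  con : ∀ q, s.T (c q) = G q

theorem base_good {Q : Type} {s s' : Sys} {G : Q → Set ℕ} {c : Q → ℤ} (h : BaseIn s G c) (h' : s.Good s') :
    BaseIn s' G c := by
  refine ⟨h'.2.1, fun q => h'.1.1 (h.mem q), fun q => ?_, fun q => ?_⟩
  · rw [(h'.1.2 (c q) (h.mem q)).1]
    exact h.lev q
  · rw [(h'.1.2 (c q) (h.mem q)).2]
    exact h.con q

private theorem ge_bound (X : Finset ℤ) : ∃ M : ℤ, 0 ≤ M ∧ ∀ x ∈ X, -M ≤ x ∧ x ≤ M := by
  refine ⟨∑ x ∈ X, |x|, Finset.sum_nonneg fun x _ => abs_nonneg x, fun x hx => ?_⟩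
  have h1 : |x| ≤ ∑ x ∈ X, |x| := Finset.single_le_sum (f := fun x : ℤ => |x|) (fun y _ => abs_nonneg y) hx
  exact abs_le.1 h1

/-- the system with two more cells -/
private def geSys (s : Sys) (A B : ℤ) (GA GB : Set ℕ) : Sys where
  X := insert A (insert B s.X)
  h := fun z => if z = A ∨ z = B then 1 else s.h z
  T := fun z => if z = A then GA else if z = B then GB else s.T z

private theorem ge_cases (s : Sys) (A B : ℤ) (GA GB : Set ℕ) (hneA : A ∉ s.X) (hneB : B ∉ s.X) (hBA : B ≠ A)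
    (x : ℤ) (hx : x ∈ (geSys s A B GA GB).X) :
    (x = A ∧ (geSys s A B GA GB).h x = 1 ∧ (geSys s A B GA GB).T x = GA) ∨
    (x = B ∧ (geSys s A B GA GB).h x = 1 ∧ (geSys s A B GA GB).T x = GB) ∨
    (x ∈ s.X ∧ (geSys s A B GA GB).h x = s.h x ∧ (geSys s A B GA GB).T x = s.T x) := by
  rcases Finset.mem_insert.1 hx with h | h
  · refine Or.inl ⟨h, ?_, ?_⟩
    · exact if_pos (Or.inl h)
    · exact if_pos h
  · rcases Finset.mem_insert.1 h with h | h
    · refine Or.inr (Or.inl ⟨h, ?_, ?_⟩)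
      · exact if_pos (Or.inr h)
      · have h1 : x ≠ A := by rw [h]; exact hBA
        exact (if_neg h1).trans (if_pos h)
    · have h1 : x ≠ A := fun e => hneA (e ▸ h)
      have h2 : x ≠ B := fun e => hneB (e ▸ h)
      refine Or.inr (Or.inr ⟨h, ?_, ?_⟩)
      · exact if_neg (fun h3 => h3.elim h1 h2)
      · exact (if_neg h1).trans (if_neg h2)

private theorem ge_free {s : Sys} (hs : s.Free) {GA GB GP : Set ℕ} (hA : GA ⊆ S0) (hB : GB ⊆ S0)
    {M p A B : ℤ} (hM0 : 0 ≤ M) (hM : ∀ x ∈ s.X, -M ≤ x ∧ x ≤ M) (hp : p ∈ s.X) (hph : s.h p = 0)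
    (hpT : s.T p = GP) (hleg : Leg 1 GA GB GP) (eA : A = p - 2 * (10 * M + 10)) (eB : B = p - (10 * M + 10)) :
    A ∉ s.X ∧ B ∉ s.X ∧ B ≠ A ∧ (geSys s A B GA GB).Free := by
  obtain ⟨hp1, hp2⟩ := hM p hp
  have hneA : A ∉ s.X := fun hx => by
    have := hM A hx
    omega
  have hneB : B ∉ s.X := fun hx => by
    have := hM B hx
    omega
  have hBA : B ≠ A := by omega
  refine ⟨hneA, hneB, hBA, ?_⟩
  intro x1 hx1 x2 hx2 x3 hx3 hx a ha b hb d hd hl
  have hap : ∀ D : Set ℕ, D ⊆ S0 → a ∈ D → b ∈ D → d ∈ D → a + d = 2 * b → a = d := by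
    intro D hD h1 h2 h3 h4
    have h5 := s0_ap (hD h1) (hD h2) (hD h3) h4
    omega
  rcases ge_cases s A B GA GB hneA hneB hBA x1 hx1 with ⟨e1, h1, t1⟩ | ⟨e1, h1, t1⟩ | ⟨m1, h1, t1⟩ <;>
  rcases ge_cases s A B GA GB hneA hneB hBA x2 hx2 with ⟨e2, h2, t2⟩ | ⟨e2, h2, t2⟩ | ⟨m2, h2, t2⟩ <;>
  rcases ge_cases s A B GA GB hneA hneB hBA x3 hx3 with ⟨e3, h3, t3⟩ | ⟨e3, h3, t3⟩ | ⟨m3, h3, t3⟩
  · -- A A A
    rw [t1] at ha; rw [t2] at hb; rw [t3] at hd; rw [h1, h2, h3] at hl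
    exact ⟨by omega, hap GA hA ha hb hd (by omega)⟩
  · omega
  · have := hM x3 m3; omega
  · omega
  · omega
  · -- A B p
    have e4 : x3 = p := by omega
    rw [t1] at ha; rw [t2] at hb; rw [t3, e4, hpT] at hd; rw [h1, h2, h3, e4, hph] at hl
    exact absurd (by omega : a + d = 2 * b + 1) (hleg a ha b hb d hd)
  · have := hM x2 m2; omega
  · have := hM x2 m2; omega
  · have := hM x2 m2; have := hM x3 m3; omega
  · omega
  · omega
  · have := hM x3 m3; omega
  · omega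
  · -- B B B
    rw [t1] at ha; rw [t2] at hb; rw [t3] at hd; rw [h1, h2, h3] at hl
    exact ⟨by omega, hap GB hB ha hb hd (by omega)⟩
  · have := hM x3 m3; omega
  · have := hM x2 m2; omega
  · have := hM x2 m2; omega
  · have := hM x2 m2; have := hM x3 m3; omega
  · have := hM x1 m1; omega
  · have := hM x1 m1; omega
  · have := hM x1 m1; have := hM x3 m3; omega
  · -- p B A
    have e4 : x1 = p := by omega
    rw [t1, e4, hpT] at ha; rw [t2] at hb; rw [t3] at hd; rw [h1, h2, h3, e4, hph] at hl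
    exact absurd (by omega : d + a = 2 * b + 1) (hleg d hd b hb a ha)
  · have := hM x1 m1; omega
  · have := hM x1 m1; have := hM x3 m3; omega
  · have := hM x1 m1; have := hM x2 m2; omega
  · have := hM x1 m1; have := hM x2 m2; omega
  · rw [t1] at ha; rw [t2] at hb; rw [t3] at hd; rw [h1, h2, h3] at hl
    exact hs x1 m1 x2 m2 x3 m3 hx a ha b hb d hd hl

private theorem ge_le (s : Sys) (A B : ℤ) (GA GB : Set ℕ) (hneA : A ∉ s.X) (hneB : B ∉ s.X) :
    s.Le (geSys s A B GA GB) := by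
  refine ⟨fun x hx => Finset.mem_insert_of_mem (Finset.mem_insert_of_mem hx), fun x hx => ?_⟩
  have h1 : x ≠ A := fun e => hneA (e ▸ hx)
  have h2 : x ≠ B := fun e => hneB (e ▸ hx)
  exact ⟨if_neg (fun h3 => h3.elim h1 h2), (if_neg h1).trans (if_neg h2)⟩

theorem g3 {Q : Type} {s : Sys} {G : Q → Set ℕ} {c : Q → ℤ} (hs : BaseIn s G c) (hG : ∀ q, G q ⊆ S0)
    (q a b : Q) (hleg : Leg 1 (G a) (G b) (G q)) :
    ∃ s' : Sys, s.Good s' ∧ ∀ n X Y : ℕ, X ∈ G a → Y ∈ G b → X + n = 2 * Y + 1 → X ≤ Y → s'.Cov (c q) n := by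
  obtain ⟨M, hM0, hM⟩ := ge_bound s.X
  obtain ⟨A, eA⟩ : ∃ A : ℤ, A = c q - 2 * (10 * M + 10) := ⟨_, rfl⟩
  obtain ⟨B, eB⟩ : ∃ B : ℤ, B = c q - (10 * M + 10) := ⟨_, rfl⟩
  obtain ⟨hneA, hneB, hBA, hfree⟩ := ge_free hs.free (hG a) (hG b) hM0 hM (hs.mem q) (hs.lev q) (hs.con q) hleg eA eB
  have hle := ge_le s A B (G a) (G b) hneA hneB
  obtain ⟨s1, es1⟩ : ∃ s1 : Sys, s1 = geSys s A B (G a) (G b) := ⟨_, rfl⟩
  rw [← es1] at hfree hle
  have hAm : A ∈ s1.X := by
    rw [es1]; exact Finset.mem_insert_self _ _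
  have hBm : B ∈ s1.X := by
    rw [es1]; exact Finset.mem_insert_of_mem (Finset.mem_insert_self _ _)
  have hAh : s1.h A = 1 := by
    rw [es1]; exact if_pos (Or.inl rfl)
  have hBh : s1.h B = 1 := by
    rw [es1]; exact if_pos (Or.inr rfl)
  have hAT : s1.T A = G a := by
    rw [es1]; exact if_pos rfl
  have hBT : s1.T B = G b := by
    rw [es1]; exact (if_neg hBA).trans (if_pos rfl)
  have hnew : ∀ x ∈ s1.X, x ∉ s.X → x = A ∨ x = B := by
    intro x hx hx'
    rw [es1] at hx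
    rcases Finset.mem_insert.1 hx with h | h
    · exact Or.inl h
    · rcases Finset.mem_insert.1 h with h | h
      · exact Or.inr h
      · exact absurd h hx'
  have hca := hle.2 (c a) (hs.mem a)
  have hcb := hle.2 (c b) (hs.mem b)
  obtain ⟨s2, hg2, hA2⟩ := copy_cell hfree (c := c a) (A := A) (D := G a) (hG a) (hle.1 (hs.mem a))
    (hca.2.trans (hs.con a)) (hca.1.trans (hs.lev a)) hAm hAT (by rw [hAh]; norm_num)
  have hcb2 := hg2.1.2 (c b) (hle.1 (hs.mem b))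
  have hB2 := hg2.1.2 B hBm
  obtain ⟨s3, hg3, hB3⟩ := copy_cell hg2.2.1 (c := c b) (A := B) (D := G b) (hG b) (hg2.1.1 (hle.1 (hs.mem b)))
    (hcb2.2.trans (hcb.2.trans (hs.con b))) (hcb2.1.trans (hcb.1.trans (hs.lev b))) (hg2.1.1 hBm)
    (hB2.2.trans hBT) (by rw [hB2.1, hBh]; norm_num)
  have hg13 := good_trans hg2 hg3
  refine ⟨s3, good_of hle hg13 ?_, ?_⟩
  · intro x hx hx'
    rcases hnew x hx hx' with h | h
    · rw [h]
      exact complete_mono hg3.1 (hg2.1.1 hAm) hA2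
    · rw [h]
      exact hB3
  · intro n X Y hX hY he hXY
    refine cov_mono hg13.1 (hle.1 (hs.mem q)) ?_
    refine ⟨A, hAm, B, hBm, by omega, X, by rw [hAT]; exact hX, Y, by rw [hBT]; exact hY, ?_, ?_⟩
    · rw [hAh, hBh, (hle.2 (c q) (hs.mem q)).1, hs.lev q]
      omega
    · rw [hAh, hBh]
      rcases Nat.lt_or_eq_of_le hXY with h | h
      · left; omega
      · right; constructor
        · omega
        · omega

end Pool.Agent.STN
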