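import Pool.Agent.STN.Ge

/-!
# Project STN, module Gf: the line G4

`M` bounds all `|x|`, `t = 10 M + 10`; add `B = t` (content `G b`, level `2`) and `A = 2 t - x` (content `G a`, level `1`).  Progressions: all old; all equal; `{A, x}` with the middle `B`:
`(X + 1) + (Z + 3) = 2 (Y + 2)`: excluded by `hleg`.  Then `copy_cell` for `A` and `B`; `good_of`.  Covering: cells `A`, `B`, addresses `X ≤ Y`: `X + 1 < Y + 2`.
-/

set_option autoImplicit false

namespace Pool.Agent.STN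

private theorem gf_bound (X : Finset ℤ) : ∃ M : ℤ, ∀ z ∈ X, -M ≤ z ∧ z ≤ M := by
  refine ⟨∑ z ∈ X, |z|, fun z hz => ?_⟩
  have h := Finset.single_le_sum (f := fun z : ℤ => |z|) (fun i _ => abs_nonneg i) hz
  exact abs_le.1 h

theorem g4 {Q : Type} {s : Sys} {G : Q → Set ℕ} {c : Q → ℤ} (hs : BaseIn s G c) (hG : ∀ q, G q ⊆ S0)
    {x : ℤ} (hx : x ∈ s.X) (hh : s.h x = 3) (a b : Q) (hleg : Leg 0 (G a) (G b) (s.T x)) :
    ∃ s' : Sys, s.Good s' ∧ ∀ n X Y : ℕ, X ∈ G a → Y ∈ G b → X + n = 2 * Y → X ≤ Y → s'.Cov x n := by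
  classical
  obtain ⟨M, hM⟩ := gf_bound s.X
  have hx' := hM x hx
  obtain ⟨t, ht⟩ : ∃ t : ℤ, t = 10 * M + 10 := ⟨_, rfl⟩
  obtain ⟨A, hA⟩ : ∃ A : ℤ, A = 2 * t - x := ⟨_, rfl⟩
  have hAt : A ≠ t := by omega
  have htX : t ∉ s.X := fun h => by have := hM t h; omega
  have hAX : A ∉ s.X := fun h => by have := hM A h; omega
  obtain ⟨s1, hs1⟩ : ∃ s1 : Sys, s1 = ⟨insert A (insert t s.X),
    fun z => if z = t then 2 else if z = A then 1 else s.h z,
    fun z => if z = t then G b else if z = A then G a else s.T z⟩ := ⟨_, rfl⟩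
  have hX1 : ∀ z, z ∈ s1.X ↔ z = A ∨ z = t ∨ z ∈ s.X := by
    intro z
    rw [hs1]
    simp only [Finset.mem_insert]
  have hht : s1.h t = 2 := by rw [hs1]; exact if_pos rfl
  have hTt : s1.T t = G b := by rw [hs1]; exact if_pos rfl
  have hhA : s1.h A = 1 := by
    rw [hs1]
    show (if A = t then (2 : ℤ) else if A = A then 1 else s.h A) = 1
    rw [if_neg hAt, if_pos rfl]
  have hTA : s1.T A = G a := by
    rw [hs1]
    show (if A = t then G b else if A = A then G a else s.T A) = G a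
    rw [if_neg hAt, if_pos rfl]
  have hold : ∀ z ∈ s.X, s1.h z = s.h z ∧ s1.T z = s.T z := by
    intro z hz
    have h1 : z ≠ t := fun h => htX (h ▸ hz)
    have h2 : z ≠ A := fun h => hAX (h ▸ hz)
    rw [hs1]
    constructor
    · show (if z = t then (2 : ℤ) else if z = A then 1 else s.h z) = s.h z
      rw [if_neg h1, if_neg h2]
    · show (if z = t then G b else if z = A then G a else s.T z) = s.T z
      rw [if_neg h1, if_neg h2]
  have hAX1 : A ∈ s1.X := (hX1 A).2 (Or.inl rfl)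
  have htX1 : t ∈ s1.X := (hX1 t).2 (Or.inr (Or.inl rfl))
  have holdX : ∀ z ∈ s.X, z ∈ s1.X := fun z hz => (hX1 z).2 (Or.inr (Or.inr hz))
  have hLe : s.Le s1 := ⟨holdX, hold⟩
  have hFree : s1.Free := by
    intro x1 h1 x2 h2 x3 h3 he a' ha b' hb c' hc heq
    have m1 : x1 = t ∨ x1 = A ∨ (x1 ∈ s.X ∧ -M ≤ x1 ∧ x1 ≤ M) := by
      rcases (hX1 x1).1 h1 with h | h | h
      · exact Or.inr (Or.inl h)
      · exact Or.inl h
      · exact Or.inr (Or.inr ⟨h, hM x1 h⟩)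
    have m2 : x2 = t ∨ x2 = A ∨ (x2 ∈ s.X ∧ -M ≤ x2 ∧ x2 ≤ M) := by
      rcases (hX1 x2).1 h2 with h | h | h
      · exact Or.inr (Or.inl h)
      · exact Or.inl h
      · exact Or.inr (Or.inr ⟨h, hM x2 h⟩)
    have m3 : x3 = t ∨ x3 = A ∨ (x3 ∈ s.X ∧ -M ≤ x3 ∧ x3 ≤ M) := by
      rcases (hX1 x3).1 h3 with h | h | h
      · exact Or.inr (Or.inl h)
      · exact Or.inl h
      · exact Or.inr (Or.inr ⟨h, hM x3 h⟩)
    rcases m1 with e1 | e1 | ⟨o1, p1, q1⟩ <;> rcases m2 with e2 | e2 | ⟨o2, p2, q2⟩ <;>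
      rcases m3 with e3 | e3 | ⟨o3, p3, q3⟩ <;> try (exfalso; omega)
    · -- t t t
      subst e1 e2 e3
      rw [hTt] at ha hb hc
      obtain ⟨r1, r2⟩ := s0_ap (hG b ha) (hG b hb) (hG b hc) (by omega)
      exact ⟨rfl, by omega⟩
    · -- A t x
      exfalso
      have e3 : x3 = x := by omega
      rw [e1, hTA] at ha
      rw [e2, hTt] at hb
      rw [e3, (hold x hx).2] at hc
      rw [e1, e2, e3, hhA, hht, (hold x hx).1, hh] at heq
      exact hleg a' ha b' hb c' hc (by omega)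
    · -- A A A
      rw [e1, hTA] at ha
      rw [e2, hTA] at hb
      rw [e3, hTA] at hc
      rw [e1, e2, e3] at heq
      obtain ⟨r1, r2⟩ := s0_ap (hG a ha) (hG a hb) (hG a hc) (by omega)
      exact ⟨by omega, by omega⟩
    · -- x t A
      exfalso
      have e1 : x1 = x := by omega
      rw [e1, (hold x hx).2] at ha
      rw [e2, hTt] at hb
      rw [e3, hTA] at hc
      rw [e1, e2, e3, hhA, hht, (hold x hx).1, hh] at heq
      exact hleg c' hc b' hb a' ha (by omega)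
    · -- old
      rw [(hold x1 o1).2] at ha
      rw [(hold x2 o2).2] at hb
      rw [(hold x3 o3).2] at hc
      rw [(hold x1 o1).1, (hold x2 o2).1, (hold x3 o3).1] at heq
      exact hs.free x1 o1 x2 o2 x3 o3 he a' ha b' hb c' hc heq
  -- copies
  obtain ⟨s2, hg2, hc2⟩ := copy_cell hFree (hG a) (holdX _ (hs.mem a))
    ((hold _ (hs.mem a)).2.trans (hs.con a)) ((hold _ (hs.mem a)).1.trans (hs.lev a))
    hAX1 hTA (by rw [hhA]; norm_num)
  have hcb1 : c b ∈ s1.X := holdX _ (hs.mem b)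
  obtain ⟨s3, hg3, hc3⟩ := copy_cell hg2.2.1 (hG b) (hg2.1.1 hcb1)
    ((hg2.1.2 _ hcb1).2.trans ((hold _ (hs.mem b)).2.trans (hs.con b)))
    ((hg2.1.2 _ hcb1).1.trans ((hold _ (hs.mem b)).1.trans (hs.lev b)))
    (hg2.1.1 htX1) ((hg2.1.2 _ htX1).2.trans hTt)
    (by rw [(hg2.1.2 _ htX1).1, hht]; norm_num)
  have hg13 : s1.Good s3 := good_trans hg2 hg3
  refine ⟨s3, good_of hLe hg13 ?_, ?_⟩
  · intro z hz hzX
    rcases (hX1 z).1 hz with h | h | h
    · rw [h]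
      exact complete_mono hg3.1 (hg2.1.1 hAX1) hc2
    · rw [h]
      exact hc3
    · exact absurd h hzX
  · intro n X Y hX hY hn hXY
    have hLe13 := hg13.1
    have hxs1 := holdX x hx
    refine ⟨A, hLe13.1 hAX1, t, hLe13.1 htX1, by omega, X, ?_, Y, ?_, ?_, ?_⟩
    · rw [(hLe13.2 _ hAX1).2, hTA]
      exact hX
    · rw [(hLe13.2 _ htX1).2, hTt]
      exact hY
    · rw [(hLe13.2 _ hAX1).1, (hLe13.2 _ htX1).1, (hLe13.2 _ hxs1).1, hhA, hht,
        (hold x hx).1, hh]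
      omega
    · rw [(hLe13.2 _ hAX1).1, (hLe13.2 _ htX1).1, hhA, hht]
      left
      omega

end Pool.Agent.STN
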