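import Pool.Agent.STN.Gh

/-!
# Project STN, module Gi: realisation

Start system: an injective enumeration `Q ∪ {T} → ℕ` (`Finite Q`), cells `3^i` (as integers; progressions `3^a + 3^c = 2 3^b` are trivial by `s0_ap`, `s0_pow`), contents `G q` at level `0`, the cell of `T` with content `T` at level `3`.  It is free
(`hG` with `s0_ap`, `hTf`), `BaseIn`.  All cells of the final system must be complete.
Step 1 (`iter` over `Q`): `base_cell` for every `c q`.  Step 2 (`iter` over `Q × Q × Q`): `g3` for all `(q, a, b)` with `Leg 1 (G a) (G b) (G q)`.  Step 3: `g4` for the cell of `T` and all `(a, b)` with `Leg 0 (G a) (G b) T`.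
Step 4: `g5` for the cell of `T` and all `(a, v)` with `Leg 0 (G a) (E v) T`.  Or one `iter` over the sum type.  Then `c q` is complete (`n ∉ S0`: step 1; `n ∈ S0`, `n > 0`: `hK`, step 2) and so is `T` (`hT`; third case: the degenerate line
of the cell of `T`, `X < Y`); the other cells are complete by `Good` (note: the cells of the start system are exactly the `c q` and the cell of `T`).
-/

set_option autoImplicit false

namespace Pool.Agent.STN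

private theorem gi_cell {i j k : ℕ} (h : (3 : ℤ) ^ i + 3 ^ k = 2 * 3 ^ j) : i = j ∧ k = j := by
  have h' : (3 : ℕ) ^ i + 3 ^ k = 2 * 3 ^ j := by exact_mod_cast h
  obtain ⟨h1, h2⟩ := s0_ap (s0_pow i) (s0_pow j) (s0_pow k) h'
  exact ⟨Nat.pow_right_injective (le_refl 2 |>.trans (by norm_num)) h1,
    Nat.pow_right_injective (le_refl 2 |>.trans (by norm_num)) h2⟩

private theorem gi_inj {i j : ℕ} (h : (3 : ℤ) ^ i = 3 ^ j) : i = j := by
  have h' : (3 : ℕ) ^ i = 3 ^ j := by exact_mod_cast h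
  exact Nat.pow_right_injective (by norm_num : 2 ≤ 3) h'

/-- the start system -/
private theorem gi_start {Q : Type} [Finite Q] {G : Q → Set ℕ} {T : Set ℕ} (hG : ∀ q, G q ⊆ S0)
    (hTf : Fre T) : ∃ (s : Sys) (c : Q → ℤ) (x0 : ℤ), BaseIn s G c ∧ x0 ∈ s.X ∧ s.h x0 = 3 ∧
      s.T x0 = T ∧ ∀ x ∈ s.X, x = x0 ∨ ∃ q, x = c q := by
  classical
  have := Fintype.ofFinite Q
  obtain ⟨f, hf⟩ := exists_injective_nat (Option Q)
  obtain ⟨c, hc⟩ : ∃ c : Q → ℤ, c = fun q => (3 : ℤ) ^ f (some q) := ⟨_, rfl⟩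
  obtain ⟨x0, hx0⟩ : ∃ x0 : ℤ, x0 = (3 : ℤ) ^ f none := ⟨_, rfl⟩
  have hc0 : ∀ q, c q ≠ x0 := by
    intro q h
    rw [hc, hx0] at h
    have := hf (gi_inj h)
    exact absurd this (by simp)
  have hci : ∀ q q', c q = c q' → q = q' := by
    intro q q' h
    rw [hc] at h
    exact Option.some_injective _ (hf (gi_inj h))
  obtain ⟨s, hs⟩ : ∃ s : Sys, s = ⟨insert x0 (Finset.univ.image c),
    fun z => if z = x0 then 3 else 0,
    fun z => if z = x0 then T else {n | ∃ q, c q = z ∧ n ∈ G q}⟩ := ⟨_, rfl⟩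
  have hX : ∀ z, z ∈ s.X ↔ z = x0 ∨ ∃ q, z = c q := by
    intro z
    rw [hs]
    simp only [Finset.mem_insert, Finset.mem_image, Finset.mem_univ, true_and]
    constructor
    · rintro (h | ⟨q, h⟩)
      · exact Or.inl h
      · exact Or.inr ⟨q, h.symm⟩
    · rintro (h | ⟨q, h⟩)
      · exact Or.inl h
      · exact Or.inr ⟨q, h.symm⟩
  have hh0 : s.h x0 = 3 := by
    rw [hs]
    exact if_pos rfl
  have hhc : ∀ q, s.h (c q) = 0 := fun q => by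
    rw [hs]
    exact if_neg (hc0 q)
  have hT0 : s.T x0 = T := by
    rw [hs]
    exact if_pos rfl
  have hTc : ∀ q, s.T (c q) = G q := fun q => by
    have h1 : s.T (c q) = {n | ∃ q', c q' = c q ∧ n ∈ G q'} := by
      rw [hs]
      exact if_neg (hc0 q)
    rw [h1]
    ext n
    constructor
    · rintro ⟨q', h2, h3⟩
      rwa [hci q' q h2] at h3
    · intro h
      exact ⟨q, rfl, h⟩
  have hpow : ∀ z ∈ s.X, ∃ i, z = (3 : ℤ) ^ i := by
    intro z hz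
    rcases (hX z).1 hz with h | ⟨q, h⟩
    · exact ⟨f none, by rw [h, hx0]⟩
    · exact ⟨f (some q), by rw [h, hc]⟩
  have hfre : ∀ z ∈ s.X, Fre (s.T z) := by
    intro z hz
    rcases (hX z).1 hz with h | ⟨q, h⟩
    · rw [h, hT0]
      exact hTf
    · rw [h, hTc]
      intro a ha b hb d hd he
      obtain ⟨h1, h2⟩ := s0_ap (hG q ha) (hG q hb) (hG q hd) he
      rw [h1, h2]
  have hFree : s.Free := by
    intro x1 h1 x2 h2 x3 h3 hx a ha b hb d hd he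
    obtain ⟨i, hi⟩ := hpow x1 h1
    obtain ⟨j, hj⟩ := hpow x2 h2
    obtain ⟨k, hk⟩ := hpow x3 h3
    have hx' := hx
    rw [hi, hj, hk] at hx'
    obtain ⟨e1, e2⟩ := gi_cell hx'
    have e12 : x1 = x2 := by rw [hi, hj, e1]
    have e32 : x3 = x2 := by rw [hk, hj, e2]
    subst e12 e32
    refine ⟨rfl, ?_⟩
    exact hfre x3 h3 a ha b hb d hd (by omega)
  exact ⟨s, c, x0, ⟨hFree, fun q => (hX _).2 (Or.inr ⟨q, rfl⟩), hhc, hTc⟩, (hX x0).2 (Or.inl rfl),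
    hh0, hT0, fun x hx => (hX x).1 hx⟩

theorem realise {Q V : Type} [Finite Q] [Finite V] {G : Q → Set ℕ} {E : V → Set ℕ} {T : Set ℕ}
    (hG : ∀ q, G q ⊆ S0)
    (hK : ∀ q, ∀ m ∈ S0, 0 < m → m ∉ G q → ∃ a b : Q, ∃ X ∈ G a, ∃ Y ∈ G b, X + m = 2 * Y + 1 ∧ X ≤ Y ∧
      Leg 1 (G a) (G b) (G q))
    (hEf : ∀ v, Fre (E v))
    (hE : ∀ v, ∀ n, n ∉ E v → ∃ a b : Q, ∃ X ∈ G a, ∃ Y ∈ G b, X + n = 2 * Y ∧ X ≤ Y ∧
      Leg 0 (G a) (G b) (E v))
    (hTf : Fre T)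
    (hT : ∀ n, n ∉ T →
      (∃ a b : Q, ∃ X ∈ G a, ∃ Y ∈ G b, X + n = 2 * Y ∧ X ≤ Y ∧ Leg 0 (G a) (G b) T) ∨
      (∃ (a : Q) (v : V), ∃ X ∈ G a, ∃ Y ∈ E v, X + n = 2 * Y ∧ X < Y ∧ Leg 0 (G a) (E v) T) ∨
      ∃ X ∈ T, ∃ Y ∈ T, X < Y ∧ X + n = 2 * Y) :
    ∃ s : Sys, s.Free ∧ (∀ x ∈ s.X, s.Complete x) ∧ ∃ x ∈ s.X, s.T x = T := by
  obtain ⟨s, c, x0, hB, hx0, hh0, hT0, hcells⟩ := gi_start (G := G) hG hTf
  obtain ⟨s', hg, ⟨hB', hx', hh', hT'⟩, hP⟩ := iter (ι := Q ⊕ (Q × Q × Q) ⊕ (Q × Q) ⊕ (Q × V))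
    (fun s => BaseIn s G c ∧ x0 ∈ s.X ∧ s.h x0 = 3 ∧ s.T x0 = T)
    (Sum.elim (fun q s => ∀ n, n ∉ S0 → s.Cov (c q) n)
      (Sum.elim (fun p s => Leg 1 (G p.2.1) (G p.2.2) (G p.1) → ∀ n X Y : ℕ, X ∈ G p.2.1 →
          Y ∈ G p.2.2 → X + n = 2 * Y + 1 → X ≤ Y → s.Cov (c p.1) n)
        (Sum.elim (fun p s => Leg 0 (G p.1) (G p.2) T → ∀ n X Y : ℕ, X ∈ G p.1 → Y ∈ G p.2 →
            X + n = 2 * Y → X ≤ Y → s.Cov x0 n)
          (fun p s => Leg 0 (G p.1) (E p.2) T → ∀ n X Y : ℕ, X ∈ G p.1 → Y ∈ E p.2 →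
            X + n = 2 * Y → X < Y → s.Cov x0 n))))
    (by
      rintro s1 s2 ⟨h1, h2, h3, h4⟩ h5
      refine ⟨base_good h1 h5, h5.1.1 h2, ?_, ?_⟩
      · rw [(h5.1.2 x0 h2).1]
        exact h3
      · rw [(h5.1.2 x0 h2).2]
        exact h4)
    (by
      rintro (q | ⟨q, a, b⟩ | ⟨a, b⟩ | ⟨a, v⟩) s1 s2 ⟨h1, h2, h3, h4⟩ h5 h6
      · intro n hn
        exact cov_mono h5.1 (h1.mem q) (h6 n hn)
      · intro hl n X Y hX hY he hXY
        exact cov_mono h5.1 (h1.mem q) (h6 hl n X Y hX hY he hXY)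
      · intro hl n X Y hX hY he hXY
        exact cov_mono h5.1 h2 (h6 hl n X Y hX hY he hXY)
      · intro hl n X Y hX hY he hXY
        exact cov_mono h5.1 h2 (h6 hl n X Y hX hY he hXY))
    (by
      rintro (q | ⟨q, a, b⟩ | ⟨a, b⟩ | ⟨a, v⟩) s1 ⟨h1, h2, h3, h4⟩
      · obtain ⟨s2, h5, h6⟩ := base_cell h1.free (hG q) (h1.mem q) (h1.con q) (h1.lev q)
        exact ⟨s2, h5, h6⟩
      · by_cases hl : Leg 1 (G a) (G b) (G q)
        · obtain ⟨s2, h5, h6⟩ := g3 h1 hG q a b hl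
          exact ⟨s2, h5, fun _ => h6⟩
        · exact ⟨s1, good_refl h1.free, fun h => absurd h hl⟩
      · by_cases hl : Leg 0 (G a) (G b) T
        · obtain ⟨s2, h5, h6⟩ := g4 h1 hG h2 h3 a b (by rw [h4]; exact hl)
          exact ⟨s2, h5, fun _ => h6⟩
        · exact ⟨s1, good_refl h1.free, fun h => absurd h hl⟩
      · by_cases hl : Leg 0 (G a) (E v) T
        · obtain ⟨s2, h5, h6⟩ := g5 h1 hG (hEf v) (hE v) h2 h3 a (by rw [h4]; exact hl)
          exact ⟨s2, h5, fun _ => h6⟩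
        · exact ⟨s1, good_refl h1.free, fun h => absurd h hl⟩)
    (fun s h => h.1.free) s ⟨hB, hx0, hh0, hT0⟩
  refine ⟨s', hB'.free, ?_, x0, hx', hT'⟩
  intro x hx
  by_cases hxs : x ∈ s.X
  · rcases hcells x hxs with rfl | ⟨q, rfl⟩
    · refine ⟨0, fun n _ hn => ?_⟩
      rw [hT'] at hn
      rcases hT n hn with ⟨a, b, X, hX, Y, hY, he, hXY, hl⟩ | ⟨a, v, X, hX, Y, hY, he, hXY, hl⟩ |
        ⟨X, hX, Y, hY, hXY, he⟩
      · exact hP (Sum.inr (Sum.inr (Sum.inl (a, b)))) hl n X Y hX hY he hXY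
      · exact hP (Sum.inr (Sum.inr (Sum.inr (a, v)))) hl n X Y hX hY he hXY
      · refine ⟨x, hx', x, hx', by ring, X, by rw [hT']; exact hX, Y, by rw [hT']; exact hY, ?_,
          Or.inl ?_⟩
        · omega
        · omega
    · refine ⟨1, fun n hn1 hn => ?_⟩
      rw [hB'.con q] at hn
      by_cases hS : n ∈ S0
      · obtain ⟨a, b, X, hX, Y, hY, he, hXY, hl⟩ := hK q n hS hn1 hn
        exact hP (Sum.inr (Sum.inl (q, a, b))) hl n X Y hX hY he hXY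
      · exact hP (Sum.inl q) n hS
  · exact hg.2.2 x hx hxs

end Pool.Agent.STN
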