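import Pool.Agent.STN.Bc

/-!
# Project STN, module Ma: class sums

`cs_step`, `tw_step` hold for all `n` (for `n = 0` both sides are zero).  `cs_append`: induction on `j` (for `b + 3^(j+1) a` use `b = b % 3 + 3 (b / 3)`, `(b + 3^(j+1) a) / 3 = b / 3 + 3^j a`).
`cs_add_pow`: strong induction on `n` or `p` (generalise the offset `k`), or split `n = n % 3^p + 3^p (d + 3 m)`.  `cs_can`: strong induction with `xc_step`, `yc_step`.
-/

set_option autoImplicit false

namespace Pool.Agent.STN

theorem cs_zero (l s k : ℕ) : cs l s k 0 = 0 := by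
  rw [cs, dif_pos rfl]

theorem cs_step (l s k n : ℕ) :
    cs l s k n = (if k % l = s then ((n % 3 : ℕ) : ZMod 3) else 0) + cs l s (k + 1) (n / 3) := by
  by_cases h : n = 0
  · subst h
    have e : 0 / 3 = 0 := by norm_num
    rw [e, cs_zero, cs_zero]
    simp
  · conv_lhs => rw [cs]
    rw [dif_neg h]

theorem cs_append {j b : ℕ} (hb : b < 3 ^ j) (l s k a : ℕ) :
    cs l s k (b + 3 ^ j * a) = cs l s k b + cs l s (k + j) a := by
  induction j generalizing b k with
  | zero =>
    have e : b = 0 := by simpa using hb
    subst e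
    rw [cs_zero]
    simp
  | succ j ih =>
    have h1 : (b + 3 ^ (j + 1) * a) % 3 = b % 3 := by
      rw [pow_succ']
      have : b + 3 * 3 ^ j * a = b + 3 * (3 ^ j * a) := by ring
      omega
    have h2 : (b + 3 ^ (j + 1) * a) / 3 = b / 3 + 3 ^ j * a := by
      rw [pow_succ']
      have : b + 3 * 3 ^ j * a = b + 3 * (3 ^ j * a) := by ring
      omega
    have h3 : b / 3 < 3 ^ j := by
      rw [pow_succ'] at hb
      omega
    rw [cs_step l s k (b + 3 ^ (j + 1) * a), h1, h2, ih h3, cs_step l s k b]
    have h4 : k + 1 + j = k + (j + 1) := by ring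
    rw [h4]
    ring

theorem cs_eq_zero {l s k n : ℕ} (h : ∀ p, (k + p) % l = s → dg n p = 0) : cs l s k n = 0 := by
  induction n using Nat.strong_induction_on generalizing k with
  | _ n ih =>
    by_cases hn : n = 0
    · subst hn
      exact cs_zero l s k
    · rw [cs_step]
      have h1 : cs l s (k + 1) (n / 3) = 0 := by
        refine ih (n / 3) (by omega) fun p hp => ?_
        rw [← dg_succ]
        refine h (p + 1) ?_
        rw [← hp]
        congr 1
        ring
      rw [h1, add_zero]
      split_ifs with hk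
      · have h2 := h 0 (by rw [add_zero]; exact hk)
        rw [dg_zero'] at h2
        rw [h2]
        simp
      · rfl

private theorem ma_add (l s : ℕ) (p : ℕ) : ∀ (k n : ℕ), dg n p ≤ 1 →
    cs l s k (n + 3 ^ p) = cs l s k n + (if (k + p) % l = s then 1 else 0) := by
  induction p with
  | zero =>
    intro k n h
    rw [dg_zero'] at h
    have h1 : (n + 3 ^ 0) % 3 = n % 3 + 1 := by
      rw [pow_zero]
      omega
    have h2 : (n + 3 ^ 0) / 3 = n / 3 := by
      rw [pow_zero]
      omega
    rw [cs_step l s k (n + 3 ^ 0), h1, h2, cs_step l s k n, add_zero]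
    split_ifs
    · push_cast
      ring
    · ring
  | succ p ih =>
    intro k n h
    rw [dg_succ] at h
    have h1 : (n + 3 ^ (p + 1)) % 3 = n % 3 := by
      rw [pow_succ']
      omega
    have h2 : (n + 3 ^ (p + 1)) / 3 = n / 3 + 3 ^ p := by
      rw [pow_succ']
      omega
    rw [cs_step l s k (n + 3 ^ (p + 1)), h1, h2, ih (k + 1) (n / 3) h, cs_step l s k n]
    have h3 : k + 1 + p = k + (p + 1) := by ring
    rw [h3]
    ring

theorem cs_add_pow {n p : ℕ} (h : dg n p ≤ 1) (l s : ℕ) :
    cs l s 0 (n + 3 ^ p) = cs l s 0 n + (if p % l = s then 1 else 0) := by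
  have h1 := ma_add l s p 0 n h
  rwa [zero_add] at h1

theorem cs_sub_pow {n p : ℕ} (h : 1 ≤ dg n p) (l s : ℕ) :
    cs l s 0 (n - 3 ^ p) = cs l s 0 n - (if p % l = s then 1 else 0) := by
  obtain ⟨h1, h2⟩ := dg_sub_pow h
  have h3 : dg (n - 3 ^ p) p ≤ 1 := by
    rw [h2, if_pos rfl]
    have := dg_lt n p
    omega
  have h4 := cs_add_pow h3 l s
  rw [Nat.sub_add_cancel h1] at h4
  rw [h4]
  ring

private theorem ma_tw0 (l s k : ℕ) : tw l s k 0 = 0 := by
  rw [tw, dif_pos rfl]

theorem tw_step (l s k n : ℕ) :
    tw l s k n = (if k % l = s ∧ n % 3 = 2 then 1 else 0) + tw l s (k + 1) (n / 3) := by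
  by_cases h : n = 0
  · subst h
    have e : 0 / 3 = 0 := by norm_num
    rw [e, ma_tw0, ma_tw0]
    simp
  · conv_lhs => rw [tw]
    rw [dif_neg h]

theorem tw_append {j b : ℕ} (hb : b < 3 ^ j) (l s k a : ℕ) :
    tw l s k (b + 3 ^ j * a) = tw l s k b + tw l s (k + j) a := by
  induction j generalizing b k with
  | zero =>
    have e : b = 0 := by simpa using hb
    subst e
    rw [ma_tw0]
    simp
  | succ j ih =>
    have h1 : (b + 3 ^ (j + 1) * a) % 3 = b % 3 := by
      rw [pow_succ']
      have : b + 3 * 3 ^ j * a = b + 3 * (3 ^ j * a) := by ring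
      omega
    have h2 : (b + 3 ^ (j + 1) * a) / 3 = b / 3 + 3 ^ j * a := by
      rw [pow_succ']
      have : b + 3 * 3 ^ j * a = b + 3 * (3 ^ j * a) := by ring
      omega
    have h3 : b / 3 < 3 ^ j := by
      rw [pow_succ'] at hb
      omega
    rw [tw_step l s k (b + 3 ^ (j + 1) * a), h1, h2, ih h3, tw_step l s k b]
    have h4 : k + 1 + j = k + (j + 1) := by ring
    rw [h4]
    ring

theorem tw_eq_zero {l s k n : ℕ} : tw l s k n = 0 ↔ ∀ p, (k + p) % l = s → dg n p ≠ 2 := by
  induction n using Nat.strong_induction_on generalizing k with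
  | _ n ih =>
    by_cases hn : n = 0
    · subst hn
      rw [ma_tw0]
      refine ⟨fun _ p _ => ?_, fun _ => rfl⟩
      rw [dg_zero_left]
      omega
    · rw [tw_step, Nat.add_eq_zero_iff, ih (n / 3) (by omega)]
      constructor
      · rintro ⟨h1, h2⟩ p hp
        cases p with
        | zero =>
          rw [dg_zero']
          intro h3
          rw [add_zero] at hp
          rw [if_pos ⟨hp, h3⟩] at h1
          exact absurd h1 one_ne_zero
        | succ p =>
          rw [dg_succ]
          refine h2 p ?_
          rw [← hp]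
          congr 1
          ring
      · intro h
        refine ⟨?_, fun p hp => ?_⟩
        · rw [if_neg]
          rintro ⟨h1, h2⟩
          have h3 := h 0 (by rw [add_zero]; exact h1)
          rw [dg_zero'] at h3
          exact h3 h2
        · rw [← dg_succ]
          refine h (p + 1) ?_
          rw [← hp]
          congr 1
          ring

/-- the lowest digit two in a class -/
theorem tw_lowest {l s n : ℕ} (h : 0 < tw l s 0 n) :
    ∃ p, p % l = s ∧ dg n p = 2 ∧ ∀ p' < p, p' % l = s → dg n p' ≠ 2 := by
  classical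
  have h1 : ¬ tw l s 0 n = 0 := by omega
  rw [tw_eq_zero] at h1
  push Not at h1
  have h2 : ∃ p, p % l = s ∧ dg n p = 2 := by
    obtain ⟨p, hp1, hp2⟩ := h1
    rw [zero_add] at hp1
    exact ⟨p, hp1, hp2⟩
  refine ⟨Nat.find h2, (Nat.find_spec h2).1, (Nat.find_spec h2).2, fun p' hp' h3 h4 => ?_⟩
  exact Nat.find_min h2 hp' ⟨h3, h4⟩

theorem cs_can (l s k n : ℕ) : cs l s k (yc n) = cs l s k (xc n) + (tw l s k n : ZMod 3) := by
  induction n using Nat.strong_induction_on generalizing k with
  | _ n ih =>
    by_cases hn : n = 0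
    · subst hn
      have e : 0 / 3 = 0 := by norm_num
      have hx : xc 0 = 0 := by
        have := xc_step 0
        rw [e] at this
        simp only [Nat.zero_mod] at this
        norm_num at this
        omega
      have hy : yc 0 = 0 := by
        have := yc_step 0
        rw [e] at this
        simp only [Nat.zero_mod] at this
        norm_num at this
        omega
      rw [hx, hy, ma_tw0]
      simp
    · have h1 := ih (n / 3) (by omega) (k + 1)
      have hy1 : yc n % 3 = if n % 3 = 0 then 0 else 1 := by
        rw [yc_step n]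
        split_ifs <;> omega
      have hy2 : yc n / 3 = yc (n / 3) := by
        rw [yc_step n]
        split_ifs <;> omega
      have hx1 : xc n % 3 = if n % 3 = 1 then 1 else 0 := by
        rw [xc_step n]
        split_ifs <;> omega
      have hx2 : xc n / 3 = xc (n / 3) := by
        rw [xc_step n]
        split_ifs <;> omega
      rw [cs_step l s k (yc n), cs_step l s k (xc n), tw_step l s k n, hy1, hy2, hx1, hx2, h1]
      have h3 : n % 3 = 0 ∨ n % 3 = 1 ∨ n % 3 = 2 := by omega
      by_cases hk : k % l = s
      · rcases h3 with h3 | h3 | h3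
        · rw [h3]
          simp [hk]
        · rw [h3]
          simp [hk]
          ring
        · rw [h3]
          simp [hk]
          ring
      · simp [hk]

end Pool.Agent.STN
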