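import Pool.Agent.STN.Ma

/-!
# Project STN, module Mb: the automaton

`mu_zero`, `mu_d0`, `mu_d1`, `mu_d2`: unfold `mu` (`3 n / 3 = n`; for `n = 0` both sides of `mu_d0` are `some (0, none)`).  `mu_shift`: induction on `j`.  `mu_add_pow`: `x = 3^(j+1) a`, `x + 3^j = 3^j (3 a + 1)`, `mu_shift`, `mu_d1`.
`stp_sat`: case distinction on the state; kind `3`: `min V (u + t) = min V (min V u + t)`; kind `1`: `m = none` is preserved by `sat`.
`sg_cong`: `mu_add_pow`, `stp_sat`, `cs_add_pow` (the digit of `x` at `j` is `0`).
`mu_kind`: induction.  `sg_finite`: the second component lies in the finite set of `none` and `some (kd, m)`, `kd ≤ 3`, `m = none` or `some u` with `u ≤ V`; the first in a finite type.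
-/

set_option autoImplicit false

namespace Pool.Agent.STN

theorem mu_zero (r k : ℕ) : mu r k 0 = some (0, none) := by
  unfold mu
  simp

theorem mu_d0 (r k n : ℕ) : mu r k (3 * n) = mu r (k + 1) n := by
  rcases Nat.eq_zero_or_pos n with h | h
  · subst h
    rw [Nat.mul_zero, mu_zero, mu_zero]
  · rw [mu, dif_neg (by omega), if_pos (by omega)]
    have : 3 * n / 3 = n := by omega
    rw [this]

theorem mu_d1 (r k n : ℕ) : mu r k (3 * n + 1) = stp r (k % (r + 4)) (mu r (k + 1) n) := by
  rw [mu, dif_neg (by omega), if_neg (by omega), if_pos (by omega)]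
  have : (3 * n + 1) / 3 = n := by omega
  rw [this]

theorem mu_d2 (r k n : ℕ) : mu r k (3 * n + 2) = none := by
  rw [mu, dif_neg (by omega), if_neg (by omega), if_neg (by omega)]

theorem mu_shift (r k j n : ℕ) : mu r k (3 ^ j * n) = mu r (k + j) n := by
  induction j generalizing k with
  | zero => simp
  | succ j ih =>
    have : 3 ^ (j + 1) * n = 3 * (3 ^ j * n) := by ring
    rw [this, mu_d0, ih]
    congr 1
    omega

theorem mu_add_pow {r x j : ℕ} (h : 3 ^ (j + 1) ∣ x) : mu r 0 (x + 3 ^ j) = stp r (j % (r + 4)) (mu r 0 x) := by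
  obtain ⟨a, rfl⟩ := h
  have h1 : 3 ^ (j + 1) * a + 3 ^ j = 3 ^ j * (3 * a + 1) := by ring
  rw [h1, mu_shift, mu_d1, mu_shift, Nat.zero_add, Nat.zero_add]

theorem stp_sat (V r c : ℕ) (q : Option (ℕ × Option ℕ)) : sat V (stp r c q) = sat V (stp r c (sat V q)) := by
  have hmm : ∀ u : ℕ, min V (min V u) = min V u := fun u => by omega
  have hmap : ∀ m : Option ℕ, (m.map fun u => min V u).map (fun u => min V u) = m.map fun u => min V u := by
    intro m
    cases m with
    | none => rfl
    | some u => simp
  rcases q with _ | ⟨kd, m⟩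
  · rfl
  · rcases kd with _ | _ | _ | _ | kd
    · show sat V (if c = r + 3 then some (1, m) else none) =
        sat V (if c = r + 3 then some (1, m.map fun u => min V u) else none)
      split_ifs
      · show some (1, m.map fun u => min V u) = some (1, (m.map fun u => min V u).map fun u => min V u)
        rw [hmap]
      · rfl
    · show sat V (if c = r + 2 then some (2, m) else if c = r + 1 ∧ m = none then some (3, some 0) else none) =
        sat V (if c = r + 2 then some (2, m.map fun u => min V u) else
          if c = r + 1 ∧ (m.map fun u => min V u) = none then some (3, some 0) else none)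
      have hn : (m.map fun u => min V u) = none ↔ m = none := by
        cases m <;> simp
      simp only [hn]
      split_ifs
      · show some (2, m.map fun u => min V u) = some (2, (m.map fun u => min V u).map fun u => min V u)
        rw [hmap]
      · rfl
      · rfl
    · show sat V (if 1 ≤ c ∧ c ≤ r then some (2, m) else if c = r + 3 then some (1, m) else none) =
        sat V (if 1 ≤ c ∧ c ≤ r then some (2, m.map fun u => min V u) else
          if c = r + 3 then some (1, m.map fun u => min V u) else none)
      split_ifs
      · show some (2, m.map fun u => min V u) = some (2, (m.map fun u => min V u).map fun u => min V u)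
        rw [hmap]
      · show some (1, m.map fun u => min V u) = some (1, (m.map fun u => min V u).map fun u => min V u)
        rw [hmap]
      · rfl
    · show sat V (if 1 ≤ c ∧ c ≤ r then some (3, m.map (· + 3 ^ (c - 1))) else
          if c = r + 3 then some (1, m) else none) =
        sat V (if 1 ≤ c ∧ c ≤ r then some (3, (m.map fun u => min V u).map (· + 3 ^ (c - 1))) else
          if c = r + 3 then some (1, m.map fun u => min V u) else none)
      split_ifs
      · show some (3, (m.map (· + 3 ^ (c - 1))).map fun u => min V u) =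
          some (3, ((m.map fun u => min V u).map (· + 3 ^ (c - 1))).map fun u => min V u)
        cases m with
        | none => rfl
        | some u =>
          simp only [Option.map_some]
          have : min V (u + 3 ^ (c - 1)) = min V (min V u + 3 ^ (c - 1)) := by
            generalize 3 ^ (c - 1) = T
            omega
          rw [this]
      · show some (1, m.map fun u => min V u) = some (1, (m.map fun u => min V u).map fun u => min V u)
        rw [hmap]
      · rfl
    · rfl

/-- (F1) -/
theorem sg_cong {r x x' j j' : ℕ} (h : 3 ^ (j + 1) ∣ x) (h' : 3 ^ (j' + 1) ∣ x') (hs : sg r x = sg r x')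
    (hj : j % (r + 4) = j' % (r + 4)) : sg r (x + 3 ^ j) = sg r (x' + 3 ^ j') := by
  have hd : ∀ {x j : ℕ}, 3 ^ (j + 1) ∣ x → dg x j ≤ 1 := by
    intro x j h
    obtain ⟨a, rfl⟩ := h
    have : 3 ^ (j + 1) * a = 3 ^ j * (3 * a) := by ring
    unfold dg
    rw [this, Nat.mul_div_cancel_left _ (by positivity)]
    omega
  unfold sg at hs ⊢
  rw [Prod.mk.injEq] at hs ⊢
  obtain ⟨h1, h2⟩ := hs
  constructor
  · funext s
    rw [cs_add_pow (hd h), cs_add_pow (hd h'), congrFun h1 s, hj]
  · rw [mu_add_pow h, mu_add_pow h', stp_sat, h2, ← stp_sat, hj]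

private theorem mb_kind {r c : ℕ} {q : Option (ℕ × Option ℕ)} {kd : ℕ} {m : Option ℕ}
    (h : stp r c q = some (kd, m)) : kd ≤ 3 := by
  rcases q with _ | ⟨a, b⟩
  · exact absurd h (by simp [stp])
  · rcases a with _ | _ | _ | _ | a
    · simp only [stp] at h
      split_ifs at h
      simp only [Option.some.injEq, Prod.mk.injEq] at h
      omega
    · simp only [stp] at h
      split_ifs at h <;> simp only [Option.some.injEq, Prod.mk.injEq] at h <;> omega
    · simp only [stp] at h
      split_ifs at h <;> simp only [Option.some.injEq, Prod.mk.injEq] at h <;> omega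
    · simp only [stp] at h
      split_ifs at h <;> simp only [Option.some.injEq, Prod.mk.injEq] at h <;> omega
    · exact absurd h (by simp [stp])

theorem mu_kind {r k n kd : ℕ} {m : Option ℕ} (h : mu r k n = some (kd, m)) : kd ≤ 3 := by
  induction n using Nat.strong_induction_on generalizing k kd m with
  | _ n ih =>
    rw [mu] at h
    split_ifs at h with h0 h1 h2
    · simp only [Option.some.injEq, Prod.mk.injEq] at h
      omega
    · exact ih (n / 3) (by omega) h
    · exact mb_kind h

theorem sg_finite (r : ℕ) : (sg r '' S0).Finite := by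
  have hf : ((fun p : ℕ × Option ℕ => some p) ''
      (((Finset.range 4) ×ˢ (Finset.insertNone (Finset.range (VV r + 1))) : Finset (ℕ × Option ℕ)) :
        Set (ℕ × Option ℕ))).Finite := (Finset.finite_toSet _).image _
  have hf2 := hf.insert (none : Option (ℕ × Option ℕ))
  refine (Set.Finite.prod (Set.finite_univ (α := Fin (r + 4) → ZMod 3)) hf2).subset ?_
  rintro _ ⟨x, _, rfl⟩
  refine ⟨Set.mem_univ _, ?_⟩
  show sat (VV r) (mu r 0 x) ∈ _
  rcases hq : mu r 0 x with _ | ⟨kd, m⟩
  · exact Set.mem_insert _ _
  · refine Set.mem_insert_of_mem _ ⟨(kd, m.map fun u => min (VV r) u), ?_, rfl⟩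
    rw [Finset.mem_coe, Finset.mem_product]
    refine ⟨Finset.mem_range.2 (by have := mu_kind hq; show kd < 4; omega), ?_⟩
    cases m with
    | none => exact Finset.none_mem_insertNone
    | some u =>
      show some (min (VV r) u) ∈ _
      rw [Finset.some_mem_insertNone, Finset.mem_range]
      omega

theorem V0_sat {V : ℕ} {q : Option (ℕ × Option ℕ)} : V0 (sat V q) ↔ V0 q := by
  rcases q with _ | ⟨kd, m⟩
  · simp [V0, sat]
  · cases m <;> simp [V0, sat]

theorem V1_sat {V : ℕ} {q : Option (ℕ × Option ℕ)} : V1 (sat V q) ↔ V1 q := by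
  rcases q with _ | ⟨kd, m⟩
  · simp [V1, sat]
  · cases m with
    | none => simp [V1, sat]
    | some u =>
      constructor
      · rintro ⟨v, hv | hv⟩
        · simp only [sat, Option.map_some, Option.some.injEq, Prod.mk.injEq] at hv
          exact ⟨u, Or.inl (by rw [hv.1])⟩
        · simp only [sat, Option.map_some, Option.some.injEq, Prod.mk.injEq] at hv
          exact ⟨u, Or.inr (by rw [hv.1])⟩
      · rintro ⟨v, hv | hv⟩
        · simp only [Option.some.injEq, Prod.mk.injEq] at hv
          exact ⟨min V u, Or.inl (by rw [hv.1]; rfl)⟩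
        · simp only [Option.some.injEq, Prod.mk.injEq] at hv
          exact ⟨min V u, Or.inr (by rw [hv.1]; rfl)⟩

end Pool.Agent.STN
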