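import Pool.Agent.STN.Mb

/-!
# Project STN, module Mc: the structure of unmarked and marked words (F2)

Strong induction on `n`, all offsets `k`; `n = 3 a + d`: `mu_d0`, `mu_d1`, `mu_d2`; digits: `dg_zero'`, `dg_succ`.  `l = r + 4`, classes of the digit `p` of `n`: `(k + p) % l`.
`mu_unm`: state `(kd, none)`: for `d = 1` the step comes from an unmarked state, with a class `r + 3`, `r + 2` or a letter class.
`mu_mar`: for `d = 1` either the step comes from a marked state (class `r + 3` or a letter): induction; here `i` becomes `i + 1`, and `3 a + 1 - 3^(i+1) + 3^(i+2) = 3 (a - 3^i + 3^(i+1)) + 1`; or the step is `(1, none) → (3, 0)` with the class `r + 1`: `i = 0`;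
`mu r (k+1) a = (1, none)` and the position `k + 1` has the class `r + 2`, so the lowest digit of `a` is `0` (otherwise the last step would give kind `2` or `none`), `a = 3 a'`, `n = 9 a' + 1`, `n - 1 + 3 = 3 (3 a' + 1)` has the state
`stp (r+2) (1, none) = (2, none)`; the other digits of class `0`, `r + 1` vanish by `mu_unm` for `a`.
-/

set_option autoImplicit false

namespace Pool.Agent.STN

/-- induction on the ternary expansion -/
private theorem mc_ind {P : ℕ → Prop} (h0 : P 0) (h1 : ∀ a, 0 < a → P a → P (3 * a))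
    (h2 : ∀ a, P a → P (3 * a + 1)) (h3 : ∀ a, P a → P (3 * a + 2)) : ∀ n, P n := by
  intro n
  induction n using Nat.strong_induction_on with
  | _ n ih =>
    rcases Nat.eq_zero_or_pos n with h | h
    · subst h
      exact h0
    · have hlt : n / 3 < n := by omega
      have hP := ih (n / 3) hlt
      have hm : n % 3 = 0 ∨ n % 3 = 1 ∨ n % 3 = 2 := by omega
      rcases hm with hm | hm | hm
      · have e : n = 3 * (n / 3) := by omega
        rw [e]
        exact h1 _ (by omega) hP
      · have e : n = 3 * (n / 3) + 1 := by omega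
        rw [e]
        exact h2 _ hP
      · have e : n = 3 * (n / 3) + 2 := by omega
        rw [e]
        exact h3 _ hP

private theorem mc_s0 (a p : ℕ) : dg (3 * a) (p + 1) = dg a p := by
  rw [dg_succ]
  congr 1
  omega

private theorem mc_s1 (a p : ℕ) : dg (3 * a + 1) (p + 1) = dg a p := by
  rw [dg_succ]
  congr 1
  omega

private theorem mc_s2 (a p : ℕ) : dg (3 * a + 2) (p + 1) = dg a p := by
  rw [dg_succ]
  congr 1
  omega

private theorem mc_z0 (a : ℕ) : dg (3 * a) 0 = 0 := by
  rw [dg_zero']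
  omega

private theorem mc_z1 (a : ℕ) : dg (3 * a + 1) 0 = 1 := by
  rw [dg_zero']
  omega

theorem mu_dig {r k n : ℕ} (h : mu r k n ≠ none) (p : ℕ) : dg n p ≤ 1 := by
  revert k p
  refine mc_ind (P := fun n => ∀ {k : ℕ}, mu r k n ≠ none → ∀ p, dg n p ≤ 1) ?_ ?_ ?_ ?_ n
  · intro k _ p
    rw [dg_zero_left]
    omega
  · intro a _ ih k h p
    rw [mu_d0] at h
    cases p with
    | zero => rw [mc_z0]; omega
    | succ p => rw [mc_s0]; exact ih h p
  · intro a ih k h p
    rw [mu_d1] at h
    cases p with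
    | zero => rw [mc_z1]
    | succ p =>
      rw [mc_s1]
      refine ih (k := k + 1) (fun hq => h ?_) p
      rw [hq]
      rfl
  · intro a _ k h p
    exact absurd (mu_d2 r k a) h

/-- the possible steps -/
private theorem mc_step {r c : ℕ} {q : Option (ℕ × Option ℕ)} {kd : ℕ} {m : Option ℕ}
    (h : stp r c q = some (kd, m)) :
    (q = some (0, m) ∧ c = r + 3 ∧ kd = 1) ∨ (q = some (1, m) ∧ c = r + 2 ∧ kd = 2) ∨
    (q = some (1, none) ∧ c = r + 1 ∧ kd = 3 ∧ m = some 0) ∨
    (q = some (2, m) ∧ (1 ≤ c ∧ c ≤ r) ∧ kd = 2) ∨ (q = some (2, m) ∧ c = r + 3 ∧ kd = 1) ∨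
    (∃ m', q = some (3, m') ∧ (1 ≤ c ∧ c ≤ r) ∧ kd = 3 ∧ m = m'.map (· + 3 ^ (c - 1))) ∨
    (q = some (3, m) ∧ c = r + 3 ∧ kd = 1) := by
  rcases q with _ | ⟨a, b⟩
  · exact absurd h (by simp [stp])
  · rcases a with _ | _ | _ | _ | a
    · simp only [stp] at h
      split_ifs at h with h1
      simp only [Option.some.injEq, Prod.mk.injEq] at h
      exact Or.inl ⟨by rw [h.2], h1, h.1.symm⟩
    · simp only [stp] at h
      split_ifs at h with h1 h2
      · simp only [Option.some.injEq, Prod.mk.injEq] at h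
        exact Or.inr (Or.inl ⟨by rw [h.2], h1, h.1.symm⟩)
      · simp only [Option.some.injEq, Prod.mk.injEq] at h
        exact Or.inr (Or.inr (Or.inl ⟨by rw [h2.2], h2.1, h.1.symm, h.2.symm⟩))
    · simp only [stp] at h
      split_ifs at h with h1 h2
      · simp only [Option.some.injEq, Prod.mk.injEq] at h
        exact Or.inr (Or.inr (Or.inr (Or.inl ⟨by rw [h.2], h1, h.1.symm⟩)))
      · simp only [Option.some.injEq, Prod.mk.injEq] at h
        exact Or.inr (Or.inr (Or.inr (Or.inr (Or.inl ⟨by rw [h.2], h2, h.1.symm⟩))))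
    · simp only [stp] at h
      split_ifs at h with h1 h2
      · simp only [Option.some.injEq, Prod.mk.injEq] at h
        exact Or.inr (Or.inr (Or.inr (Or.inr (Or.inr (Or.inl ⟨b, rfl, h1, h.1.symm, h.2.symm⟩)))))
      · simp only [Option.some.injEq, Prod.mk.injEq] at h
        exact Or.inr (Or.inr (Or.inr (Or.inr (Or.inr (Or.inr ⟨by rw [h.2], h2, h.1.symm⟩)))))
    · exact absurd h (by simp [stp])

private theorem mc_add (k p : ℕ) : k + (p + 1) = k + 1 + p := by omega

theorem mu_unm {r k n kd : ℕ} (h : mu r k n = some (kd, none)) :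
    kd ≤ 2 ∧ ∀ p, ((k + p) % (r + 4) = 0 ∨ (k + p) % (r + 4) = r + 1) → dg n p = 0 := by
  revert k kd
  refine mc_ind (P := fun n => ∀ {k kd : ℕ}, mu r k n = some (kd, none) →
    kd ≤ 2 ∧ ∀ p, ((k + p) % (r + 4) = 0 ∨ (k + p) % (r + 4) = r + 1) → dg n p = 0) ?_ ?_ ?_ ?_ n
  · intro k kd h
    rw [mu_zero] at h
    simp only [Option.some.injEq, Prod.mk.injEq] at h
    exact ⟨by omega, fun p _ => dg_zero_left p⟩
  · intro a _ ih k kd h
    rw [mu_d0] at h
    obtain ⟨h1, h2⟩ := ih h
    refine ⟨h1, fun p hp => ?_⟩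
    cases p with
    | zero => exact mc_z0 a
    | succ p =>
      rw [mc_s0]
      rw [mc_add] at hp
      exact h2 p hp
  · intro a ih k kd h
    rw [mu_d1] at h
    have key : ∀ kd', mu r (k + 1) a = some (kd', none) → ¬ (k % (r + 4) = 0 ∨ k % (r + 4) = r + 1) →
        ∀ p, ((k + p) % (r + 4) = 0 ∨ (k + p) % (r + 4) = r + 1) → dg (3 * a + 1) p = 0 := by
      intro kd' hq hc p hp
      cases p with
      | zero => exact absurd hp hc
      | succ p =>
        rw [mc_s1]
        rw [mc_add] at hp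
        exact (ih hq).2 p hp
    rcases mc_step h with h1 | h1 | h1 | h1 | h1 | h1 | h1
    · exact ⟨by omega, key 0 h1.1 (by omega)⟩
    · exact ⟨by omega, key 1 h1.1 (by omega)⟩
    · exact absurd h1.2.2.2 (by simp)
    · exact ⟨by omega, key 2 h1.1 (by omega)⟩
    · exact ⟨by omega, key 2 h1.1 (by omega)⟩
    · obtain ⟨m', h1, h2, h3, h4⟩ := h1
      have hm : m' = none := by
        cases m' with
        | none => rfl
        | some u => exact absurd h4 (by simp)
      rw [hm] at h1
      have := (ih h1).1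
      omega
    · have := (ih h1.1).1
      omega
  · intro a _ k kd h
    rw [mu_d2] at h
    exact absurd h (by simp)

private theorem mc_pow0 (a i : ℕ) : 3 * a - 3 ^ (i + 1) + 3 ^ (i + 1 + 1) = 3 * (a - 3 ^ i + 3 ^ (i + 1)) := by
  have e1 : 3 ^ (i + 1) = 3 * 3 ^ i := by ring
  have e2 : 3 ^ (i + 1 + 1) = 9 * 3 ^ i := by ring
  rw [e1, e2]
  omega

private theorem mc_pow1 (a i : ℕ) (h : 3 ^ i ≤ a) :
    3 * a + 1 - 3 ^ (i + 1) + 3 ^ (i + 1 + 1) = 3 * (a - 3 ^ i + 3 ^ (i + 1)) + 1 := by
  have e1 : 3 ^ (i + 1) = 3 * 3 ^ i := by ring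
  have e2 : 3 ^ (i + 1 + 1) = 9 * 3 ^ i := by ring
  rw [e1, e2]
  omega

private theorem mc_le {a i : ℕ} (h : dg a i = 1) : 3 ^ i ≤ a := by
  by_contra hc
  push Not at hc
  rw [dg_of_lt hc] at h
  omega

theorem mu_mar {r k n kd u : ℕ} (h : mu r k n = some (kd, some u)) :
    1 ≤ kd ∧ kd ≤ 3 ∧ (∀ p, (k + p) % (r + 4) = 0 → dg n p = 0) ∧
      ∃ i, (k + i) % (r + 4) = r + 1 ∧ dg n i = 1 ∧ dg n (i + 1) = 0 ∧
        (∀ p, (k + p) % (r + 4) = r + 1 → p ≠ i → dg n p = 0) ∧
        mu r k (n - 3 ^ i + 3 ^ (i + 1)) = some (if kd = 3 then 2 else kd, none) := by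
  revert k kd u
  refine mc_ind (P := fun n => ∀ {k kd u : ℕ}, mu r k n = some (kd, some u) →
    1 ≤ kd ∧ kd ≤ 3 ∧ (∀ p, (k + p) % (r + 4) = 0 → dg n p = 0) ∧
      ∃ i, (k + i) % (r + 4) = r + 1 ∧ dg n i = 1 ∧ dg n (i + 1) = 0 ∧
        (∀ p, (k + p) % (r + 4) = r + 1 → p ≠ i → dg n p = 0) ∧
        mu r k (n - 3 ^ i + 3 ^ (i + 1)) = some (if kd = 3 then 2 else kd, none)) ?_ ?_ ?_ ?_ n
  · intro k kd u h
    rw [mu_zero] at h
    simp at h
  · intro a _ ih k kd u h
    rw [mu_d0] at h
    obtain ⟨h1, h2, h3, i, h4, h5, h6, h7, h8⟩ := ih h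
    refine ⟨h1, h2, fun p hp => ?_, i + 1, ?_, ?_, ?_, fun p hp hpi => ?_, ?_⟩
    · cases p with
      | zero => exact mc_z0 a
      | succ p =>
        rw [mc_s0]
        rw [mc_add] at hp
        exact h3 p hp
    · rw [mc_add]
      exact h4
    · rw [mc_s0]
      exact h5
    · rw [mc_s0]
      exact h6
    · cases p with
      | zero => exact mc_z0 a
      | succ p =>
        rw [mc_s0]
        rw [mc_add] at hp
        exact h7 p hp (by omega)
    · rw [mc_pow0, mu_d0]
      exact h8
  · intro a ih k kd u h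
    rw [mu_d1] at h
    have key : ∀ kd' u', mu r (k + 1) a = some (kd', some u') →
        ¬ (k % (r + 4) = 0 ∨ k % (r + 4) = r + 1) →
        stp r (k % (r + 4)) (some (if kd' = 3 then 2 else kd', none)) = some (if kd = 3 then 2 else kd, none) →
        1 ≤ kd → kd ≤ 3 →
        1 ≤ kd ∧ kd ≤ 3 ∧ (∀ p, (k + p) % (r + 4) = 0 → dg (3 * a + 1) p = 0) ∧
          ∃ i, (k + i) % (r + 4) = r + 1 ∧ dg (3 * a + 1) i = 1 ∧ dg (3 * a + 1) (i + 1) = 0 ∧
            (∀ p, (k + p) % (r + 4) = r + 1 → p ≠ i → dg (3 * a + 1) p = 0) ∧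
            mu r k (3 * a + 1 - 3 ^ i + 3 ^ (i + 1)) = some (if kd = 3 then 2 else kd, none) := by
      intro kd' u' hq hc hs hk1 hk2
      obtain ⟨h1, h2, h3, i, h4, h5, h6, h7, h8⟩ := ih hq
      refine ⟨hk1, hk2, fun p hp => ?_, i + 1, ?_, ?_, ?_, fun p hp hpi => ?_, ?_⟩
      · cases p with
        | zero => exact absurd (Or.inl hp) hc
        | succ p =>
          rw [mc_s1]
          rw [mc_add] at hp
          exact h3 p hp
      · rw [mc_add]
        exact h4
      · rw [mc_s1]
        exact h5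
      · rw [mc_s1]
        exact h6
      · cases p with
        | zero => exact absurd (Or.inr hp) hc
        | succ p =>
          rw [mc_s1]
          rw [mc_add] at hp
          exact h7 p hp (by omega)
      · rw [mc_pow1 a i (mc_le h5), mu_d1, h8]
        exact hs
    rcases mc_step h with h1 | h1 | h1 | h1 | h1 | h1 | h1
    · have := (ih h1.1).1
      omega
    · refine key 1 u h1.1 (by omega) ?_ (by omega) (by omega)
      rw [h1.2.1, h1.2.2]
      simp [stp]
    · obtain ⟨hq, hc, hkd, hu⟩ := h1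
      have hc1 : (k + 1) % (r + 4) = r + 2 := by
        have h5 : k % (r + 4) + 1 < r + 4 := by omega
        rw [Nat.add_mod, Nat.mod_eq_of_lt (show 1 < r + 4 by omega), Nat.mod_eq_of_lt h5, hc]
      have hm : a % 3 = 0 := by
        by_contra hm
        have hm' : a % 3 = 1 ∨ a % 3 = 2 := by omega
        rcases hm' with hm' | hm'
        · have e : a = 3 * (a / 3) + 1 := by omega
          rw [e, mu_d1, hc1] at hq
          rcases mc_step hq with h1 | h1 | h1 | h1 | h1 | h1 | h1
          · omega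
          · omega
          · omega
          · omega
          · omega
          · obtain ⟨m', _, h2, h3, _⟩ := h1
            omega
          · omega
        · have e : a = 3 * (a / 3) + 2 := by omega
          rw [e, mu_d2] at hq
          exact absurd hq (by simp)
      obtain ⟨b, rfl⟩ : ∃ b, a = 3 * b := ⟨a / 3, by omega⟩
      have hun := (mu_unm hq).2
      refine ⟨by omega, by omega, fun p hp => ?_, 0, hc, mc_z1 _, ?_, fun p hp hpi => ?_, ?_⟩
      · cases p with
        | zero =>
          rw [Nat.add_zero, hc] at hp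
          omega
        | succ p =>
          rw [mc_s1]
          rw [mc_add] at hp
          exact hun p (Or.inl hp)
      · rw [mc_s1]
        exact mc_z0 b
      · cases p with
        | zero => exact absurd rfl hpi
        | succ p =>
          rw [mc_s1]
          rw [mc_add] at hp
          exact hun p (Or.inr hp)
      · have e : 3 * (3 * b) + 1 - 3 ^ 0 + 3 ^ (0 + 1) = 3 * (3 * b + 1) := by
          have e1 : 3 ^ 0 = 1 := rfl
          have e2 : 3 ^ (0 + 1) = 3 := rfl
          rw [e1, e2]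
          omega
        rw [e, mu_d0, mu_d1, hc1]
        rw [mu_d0] at hq
        rw [hq, hkd]
        simp [stp]
    · refine key 2 u h1.1 (by omega) ?_ (by omega) (by omega)
      rw [h1.2.2]
      simp [stp, h1.2.1.1, h1.2.1.2]
    · refine key 2 u h1.1 (by omega) ?_ (by omega) (by omega)
      rw [h1.2.1, h1.2.2]
      simp [stp]
    · obtain ⟨m', h1, h2, h3, h4⟩ := h1
      cases m' with
      | none => exact absurd h4 (by simp)
      | some u' =>
        refine key 3 u' h1 (by omega) ?_ (by omega) (by omega)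
        rw [h3]
        simp [stp, h2.1, h2.2]
    · refine key 3 u h1.1 (by omega) ?_ (by omega) (by omega)
      rw [h1.2.1, h1.2.2]
      simp [stp]
  · intro a _ k kd u h
    rw [mu_d2] at h
    exact absurd h (by simp)

end Pool.Agent.STN
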