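import Pool.Agent.STN.Ma

/-!
# Project STN, module Mf: the flip

Let `p` be the lowest position of class `s` with digit `2` (`tw_lowest`), `p' = l (p / l + 1)` the next position of class `0`: `p < p' < p + l` since `0 < s < l`; `dg n p' = 0`.  Write `p' = p + 1 + j`, `j + 1 < l`;
`n = low + 2 3^p + 3^(p+1) (A + 3^(j+1) B)` with `low < 3^p`, `A < 3^j` (the digit `j` of `A + 3^(j+1) B` is zero).  `m = (A + 1) + 3^(j+1) B`, `A + 1 < 3^(j+1)`.
`x = xc low + 3^p + 3^(p+1) xc m`, `y = yc low + 3^(p+1) yc m`.  In `S0`: `s0_append`.  `x + n = 2 y`: `can_eq low`, `can_eq m`.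
`cs` (`cs_append`): low part: no digit two of class `s` below `p`, so `cs y_low = cs x_low` (`cs_can`, `tw_eq_zero`); at `p`: `x` has `1`, `y` has `0`; above: `cs_can` for `m` with offset `p + 1`: `tw l s (p+1) m = tw l s (p+1) (A + 3^(j+1) B)`: by `tw_append` both
are `tw` of `B` with offset `p + 1 + (j + 1)` because the positions `p + 1, ..., p + 1 + j` are not of class `s` (they lie strictly between `p` and `p + l`).  So `cs y = cs x - 1 + (tw n - 1) = cs x + tw n + 1` in `ZMod 3`.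
`x < y`: `tw l s (..) B ≥ 1`, so `B ∉ S0`, `m ∉ S0`, `xc m < yc m` (`xc_lt`), and `xc low ≤ yc low`; `3^(p+1) (yc m - xc m) ≥ 3^(p+1) > 3^p`.
-/

set_option autoImplicit false

namespace Pool.Agent.STN

private theorem mf_class {l s p q : ℕ} (hp : p % l = s) (hq1 : 0 < q) (hq2 : q < l) : (p + q) % l ≠ s := by
  intro h
  have h1 : p + q ≡ p + 0 [MOD l] := by
    show (p + q) % l = (p + 0) % l
    rw [h, add_zero, hp]
  have h2 : q ≡ 0 [MOD l] := Nat.ModEq.add_left_cancel' p h1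
  have h3 : q % l = 0 % l := h2
  rw [Nat.mod_eq_of_lt hq2, Nat.zero_mod] at h3
  omega

private theorem mf_tw {l s p j a : ℕ} (hp : p % l = s) (hj : j + 1 < l) (ha : a < 3 ^ (j + 1)) :
    tw l s (p + 1) a = 0 := by
  rw [tw_eq_zero]
  intro q hq
  by_cases hqj : q ≤ j
  · exfalso
    have h1 := mf_class hp (q := 1 + q) (by omega) (by omega)
    rw [← add_assoc] at h1
    exact h1 hq
  · have h1 : a < 3 ^ q := lt_of_lt_of_le ha (Nat.pow_le_pow_right (by norm_num) (by omega))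
    rw [dg_of_lt h1]
    norm_num

theorem flip {l s n : ℕ} (hs : 0 < s) (hsl : s < l) (hv : ∀ p, p % l = 0 → dg n p = 0)
    (h2 : 2 ≤ tw l s 0 n) : ∃ x ∈ S0, ∃ y ∈ S0, x < y ∧ x + n = 2 * y ∧
      cs l s 0 y = cs l s 0 x + (tw l s 0 n : ZMod 3) + 1 := by
  obtain ⟨p, hp, hp2, hp3⟩ := tw_lowest (show 0 < tw l s 0 n by omega)
  obtain ⟨j, hj⟩ : ∃ j, l = s + 1 + j := ⟨l - s - 1, by omega⟩
  have hjl : j + 1 < l := by omega
  -- the decomposition of `n`
  obtain ⟨low, hlow⟩ : ∃ low, low = n % 3 ^ p := ⟨_, rfl⟩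
  obtain ⟨A, hA⟩ : ∃ A, A = n / 3 ^ (p + 1) % 3 ^ j := ⟨_, rfl⟩
  obtain ⟨B, hB⟩ : ∃ B, B = n / 3 ^ (p + 1) / 3 ^ j / 3 := ⟨_, rfl⟩
  have hlow1 : low < 3 ^ p := by
    rw [hlow]
    exact Nat.mod_lt _ (by positivity)
  have hA1 : A < 3 ^ j := by
    rw [hA]
    exact Nat.mod_lt _ (by positivity)
  have hpj : (p + 1 + j) % l = 0 := by
    have h1 := Nat.div_add_mod p l
    rw [hp] at h1
    have h2 : p + 1 + j = l * (p / l + 1) := by
      rw [mul_add, mul_one]
      omega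
    rw [h2]
    exact Nat.mul_mod_right _ _
  have hd0 : n / 3 ^ (p + 1) / 3 ^ j % 3 = 0 := by
    have h1 := hv _ hpj
    unfold dg at h1
    rw [Nat.div_div_eq_div_mul, ← pow_add]
    exact h1
  have hN2 : n / 3 ^ (p + 1) = A + 3 ^ (j + 1) * B := by
    have h1 := Nat.mod_add_div (n / 3 ^ (p + 1)) (3 ^ j)
    have h2 : n / 3 ^ (p + 1) / 3 ^ j = 3 * B := by omega
    rw [h2, ← hA] at h1
    rw [← h1, pow_succ]
    ring
  have hn : n = low + 3 ^ p * (2 + 3 * (A + 3 ^ (j + 1) * B)) := by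
    have h1 := Nat.mod_add_div n (3 ^ p)
    have h2 : n / 3 ^ p = 2 + 3 * (n / 3 ^ (p + 1)) := by
      have h3 := Nat.mod_add_div (n / 3 ^ p) 3
      have h4 : n / 3 ^ p % 3 = 2 := hp2
      rw [h4, Nat.div_div_eq_div_mul, ← pow_succ] at h3
      exact h3.symm
    rw [← hN2, ← h2, hlow]
    exact h1.symm
  -- numbers of digits two
  have t1 : tw l s 0 low = 0 := by
    rw [tw_eq_zero]
    intro q hq
    rw [zero_add] at hq
    rw [hlow, dg_mod]
    split_ifs with h
    · exact hp3 q h hq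
    · norm_num
  have hA2 : A < 3 ^ (j + 1) := lt_of_lt_of_le hA1 (Nat.pow_le_pow_right (by norm_num) (by omega))
  have hA3 : A + 1 < 3 ^ (j + 1) := by
    have h1 : 3 ^ (j + 1) = 3 ^ j * 3 := pow_succ _ _
    have h2 : 0 < 3 ^ j := by positivity
    omega
  have t2 : tw l s (p + 1) (A + 3 ^ (j + 1) * B) = tw l s (p + 1 + (j + 1)) B := by
    rw [tw_append hA2, mf_tw hp hjl hA2, zero_add]
  have t3 : tw l s (p + 1) (A + 1 + 3 ^ (j + 1) * B) = tw l s (p + 1 + (j + 1)) B := by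
    rw [tw_append hA3, mf_tw hp hjl hA3, zero_add]
  have t4 : tw l s 0 n = 1 + tw l s (p + 1 + (j + 1)) B := by
    rw [hn, tw_append hlow1, t1, zero_add, zero_add, tw_step, if_pos ⟨hp, by omega⟩]
    have h1 : (2 + 3 * (A + 3 ^ (j + 1) * B)) / 3 = A + 3 ^ (j + 1) * B := by omega
    rw [h1, t2]
  have hBS : B ∉ S0 := by
    intro h
    have h1 : tw l s (p + 1 + (j + 1)) B = 0 := by
      rw [tw_eq_zero]
      intro q _
      have h2 := h q
      omega
    omega
  obtain ⟨m, hm⟩ : ∃ m, m = A + 1 + 3 ^ (j + 1) * B := ⟨_, rfl⟩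
  have hmS : m ∉ S0 := by
    intro h
    have h1 := s0_div h (j + 1)
    rw [hm, Nat.add_mul_div_left _ _ (by positivity), Nat.div_eq_of_lt hA3, zero_add] at h1
    exact hBS h1
  have hyl : yc low < 3 ^ p := yc_lt hlow1
  have hxl : xc low < 3 ^ p := lt_of_le_of_lt (xc_le low) hyl
  have hx3 : 1 + 3 * xc m ∈ S0 := by
    rw [s0_step]
    refine ⟨by omega, ?_⟩
    have h1 : (1 + 3 * xc m) / 3 = xc m := by omega
    rw [h1]
    exact xc_mem m
  have hy3 : 3 * yc m ∈ S0 := by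
    rw [s0_step]
    refine ⟨by omega, ?_⟩
    have h1 : 3 * yc m / 3 = yc m := by omega
    rw [h1]
    exact yc_mem m
  refine ⟨xc low + 3 ^ p * (1 + 3 * xc m), s0_append hxl (xc_mem low) hx3,
    yc low + 3 ^ p * (3 * yc m), s0_append hyl (yc_mem low) hy3, ?_, ?_, ?_⟩
  · have h1 := xc_lt hmS
    have h2 := xc_le low
    have h3 : 3 ^ p * (1 + 3 * xc m) < 3 ^ p * (3 * yc m) := Nat.mul_lt_mul_of_pos_left (by omega) (by positivity)
    omega
  · have h1 := can_eq low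
    have h2 := can_eq m
    have h3 : 3 * (A + 3 ^ (j + 1) * B) + 3 = 3 * m := by
      rw [hm]
      ring
    have h4 : 3 ^ p * (1 + 3 * xc m) + 3 ^ p * (2 + 3 * (A + 3 ^ (j + 1) * B)) = 2 * (3 ^ p * (3 * yc m)) := by
      rw [← mul_add]
      have h5 : 1 + 3 * xc m + (2 + 3 * (A + 3 ^ (j + 1) * B)) = 2 * (3 * yc m) := by omega
      rw [h5]
      ring
    calc xc low + 3 ^ p * (1 + 3 * xc m) + n
        = (xc low + low) + (3 ^ p * (1 + 3 * xc m) + 3 ^ p * (2 + 3 * (A + 3 ^ (j + 1) * B))) := by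
          rw [hn]
          ring
      _ = 2 * (yc low + 3 ^ p * (3 * yc m)) := by
          rw [h1, h4]
          ring
  · have c1 := cs_can l s 0 low
    have c2 := cs_can l s (p + 1) m
    rw [t1, Nat.cast_zero, add_zero] at c1
    rw [hm, t3, ← hm] at c2
    have c3 : cs l s p (3 * yc m) = cs l s (p + 1) (yc m) := by
      rw [cs_step]
      have h1 : 3 * yc m / 3 = yc m := by omega
      have h2 : 3 * yc m % 3 = 0 := by omega
      rw [h1, h2, if_pos hp, Nat.cast_zero, zero_add]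
    have c4 : cs l s p (1 + 3 * xc m) = 1 + cs l s (p + 1) (xc m) := by
      rw [cs_step]
      have h1 : (1 + 3 * xc m) / 3 = xc m := by omega
      have h2 : (1 + 3 * xc m) % 3 = 1 := by omega
      rw [h1, h2, if_pos hp, Nat.cast_one]
    rw [cs_append hyl, cs_append hxl, zero_add, c3, c4, c1, c2, t4]
    push_cast
    have h3 : (3 : ZMod 3) = 0 := by decide
    linear_combination (-1 : ZMod 3) * h3

end Pool.Agent.STN
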