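import Pool.Agent.STN.Mg
import Pool.Agent.STN.Mf

/-!
# Project STN, module Mh: every `n` outside `C_v` has a legal ordered representation (A2)

Try `X = xc n`, `Y = yc n` (`can_eq`, `xc_le`).  If it is not legal there are `X', Y', Z` with the same `sg` and `Z ∈ C_v`: `ill_C`; the values `cs` of `X', Y'` agree with those of `X, Y` (components of `sg`), `mu` up to `sat` (`V0_sat`).  With `cs_can`:
`tw l s 0 n = [s = r+1]` or `= - [s = r+1]` in `ZMod 3` for all `s < l`.
Second case: `V0 (mu (yc n))`, so `yc n` has digit `0` in the class `r + 1` (`mu_unm`), so `n` too (`dg_yc`), `tw = 0` there, contradiction to `= -1`.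
First case: `sg (yc n) = v`; `mu_mar` for `yc n` (`V1`): guard `i`, the only digit one of class `r + 1`, so `tw l (r+1) 0 n ≤ 1` and `= 1 (mod 3)`: `dg n i = 2`.  If `tw l s 0 n = 0` for all `s ≠ r + 1`, then `n = yc n + 3^i` (digits: `dg_yc`, `dg_add_pow`, `dg_ext`),
`w = yc n - 3^i`, so `n ∈ C_v`: contradiction.  So some `s ≠ r + 1`, `s < l`, has `tw l s 0 n ≠ 0`, `≡ 0 (mod 3)`, so `≥ 3`; `s ≠ 0` since digits of class `0` vanish (`mu_mar`).  `flip`: `x < y` with `cs y = cs x + 1` in the class `s`.  This pair is legal: by `ill_C` illegal pairs have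
equal `cs` in the class `s ≠ r + 1`.
-/

set_option autoImplicit false

namespace Pool.Agent.STN

private theorem mh_cs {r s x y : ℕ} (hs : s < r + 4) (h : sg r x = sg r y) :
    cs (r + 4) s 0 x = cs (r + 4) s 0 y := by
  have h1 : (sg r x).1 ⟨s, hs⟩ = (sg r y).1 ⟨s, hs⟩ := by rw [h]
  exact h1

private theorem mh_mu {r x y : ℕ} (h : sg r x = sg r y) : sat (VV r) (mu r 0 x) = sat (VV r) (mu r 0 y) := by
  have h1 : (sg r x).2 = (sg r y).2 := by rw [h]
  exact h1

private theorem mh_ill {r : ℕ} {v : (Fin (r + 4) → ZMod 3) × Option (ℕ × Option ℕ)} (hv : V1 v.2) {X Y : ℕ}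
    (h : ¬ Leg 0 (Gq r (sg r X)) (Gq r (sg r Y)) (Cv r v)) :
    (sg r Y = v ∧ ∀ s < r + 4, cs (r + 4) s 0 Y = cs (r + 4) s 0 X + (if s = r + 1 then 1 else 0)) ∨
    (V0 (mu r 0 Y) ∧ ∀ s < r + 4, cs (r + 4) s 0 Y = cs (r + 4) s 0 X - (if s = r + 1 then 1 else 0)) := by
  unfold Leg at h
  push Not at h
  obtain ⟨X', hX', Y', hY', Z, hZ, he⟩ := h
  rcases ill_C hv hX'.1 hY'.1 hZ he with h1 | h1
  · left
    refine ⟨hY'.2.symm.trans h1.1, fun s hs => ?_⟩
    rw [← mh_cs hs hY'.2, ← mh_cs hs hX'.2]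
    exact h1.2 s hs
  · right
    refine ⟨?_, fun s hs => ?_⟩
    · have h2 := V0_sat (V := VV r).2 h1.1
      rw [mh_mu hY'.2] at h2
      exact V0_sat.1 h2
    · rw [← mh_cs hs hY'.2, ← mh_cs hs hX'.2]
      exact h1.2 s hs

private theorem mh_three {t : ℕ} (h : (t : ZMod 3) = 0) (h0 : t ≠ 0) : 2 ≤ t := by
  have h1 : 3 ∣ t := (ZMod.natCast_eq_zero_iff t 3).1 h
  have h2 := Nat.le_of_dvd (Nat.pos_of_ne_zero h0) h1
  omega

theorem a2 (r : ℕ) {v : (Fin (r + 4) → ZMod 3) × Option (ℕ × Option ℕ)} (hv : V1 v.2) {n : ℕ}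
    (hn : n ∉ Cv r v) : ∃ X ∈ S0, ∃ Y ∈ S0, X + n = 2 * Y ∧ X ≤ Y ∧
      Leg 0 (Gq r (sg r X)) (Gq r (sg r Y)) (Cv r v) := by
  by_contra hcon
  have hill : ∀ X ∈ S0, ∀ Y ∈ S0, X + n = 2 * Y → X ≤ Y →
      ¬ Leg 0 (Gq r (sg r X)) (Gq r (sg r Y)) (Cv r v) :=
    fun X hX Y hY h1 h2 h3 => hcon ⟨X, hX, Y, hY, h1, h2, h3⟩
  have hcan := mh_ill hv (hill (xc n) (xc_mem n) (yc n) (yc_mem n) (can_eq n) (xc_le n))
  have hclass : ∀ p, dg (yc n) p = 0 → dg n p = 0 := by
    intro p hp
    rw [dg_yc] at hp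
    by_contra h1
    rw [if_neg h1] at hp
    exact one_ne_zero hp
  rcases hcan with ⟨hY, hcs⟩ | ⟨hY, hcs⟩
  · -- first case
    have htw : ∀ s < r + 4, (tw (r + 4) s 0 n : ZMod 3) = if s = r + 1 then 1 else 0 := by
      intro s hs
      have h1 := hcs s hs
      rw [cs_can] at h1
      exact add_left_cancel h1
    have hmu : V1 (mu r 0 (yc n)) := by
      have h1 : v.2 = sat (VV r) (mu r 0 (yc n)) := by
        rw [← hY]
        rfl
      rw [h1] at hv
      exact V1_sat.1 hv
    have hmar : ∃ kd u, mu r 0 (yc n) = some (kd, some u) := by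
      obtain ⟨u, h1 | h1⟩ := hmu
      · exact ⟨2, u, h1⟩
      · exact ⟨3, u, h1⟩
    obtain ⟨kd, u, hku⟩ := hmar
    obtain ⟨-, -, hz, i, hi, hi1, hi2, hi3, -⟩ := mu_mar hku
    have hz' : ∀ p, p % (r + 4) = 0 → dg n p = 0 := fun p hp => hclass p (hz p (by rw [zero_add]; exact hp))
    have hi' : i % (r + 4) = r + 1 := by
      rw [zero_add] at hi
      exact hi
    have huniq : ∀ p, p % (r + 4) = r + 1 → dg n p ≠ 0 → p = i := by
      intro p hp h1
      by_contra h2
      exact h1 (hclass p (hi3 p (by rw [zero_add]; exact hp) h2))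
    -- the digit two at the guard
    have hg : dg n i = 2 := by
      have h1 : tw (r + 4) (r + 1) 0 n ≠ 0 := by
        intro h1
        have h2 := htw (r + 1) (by omega)
        rw [h1, if_pos rfl] at h2
        exact absurd h2 (by decide)
      obtain ⟨p, hp, hp2, -⟩ := tw_lowest (Nat.pos_of_ne_zero h1)
      have h2 : p = i := huniq p hp (by rw [hp2]; norm_num)
      rw [← h2]
      exact hp2
    by_cases hall : ∀ s < r + 4, s ≠ r + 1 → tw (r + 4) s 0 n = 0
    · -- n in C_v
      apply hn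
      have hdig : ∀ q, q ≠ i → dg n q ≤ 1 := by
        intro q hq
        have h1 := dg_lt n q
        by_contra h2
        have h3 : dg n q = 2 := by omega
        by_cases h4 : q % (r + 4) = r + 1
        · exact hq (huniq q h4 (by rw [h3]; norm_num))
        · have h5 := hall (q % (r + 4)) (Nat.mod_lt _ (by omega)) h4
          rw [tw_eq_zero] at h5
          exact h5 q (by rw [zero_add]) h3
      have hsum : n = yc n + 3 ^ i := by
        apply dg_ext
        intro q
        rw [dg_add_pow (by rw [hi1]) q]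
        by_cases h1 : q = i
        · rw [if_pos h1, h1, hi1, hg]
        · rw [if_neg h1, dg_yc]
          have h2 := hdig q h1
          by_cases h3 : dg n q = 0
          · rw [if_pos h3, h3]
          · rw [if_neg h3]
            omega
      obtain ⟨hle, hsub⟩ := dg_sub_pow (n := yc n) (p := i) (by rw [hi1])
      refine ⟨yc n - 3 ^ i, i, s0_sub_pow (yc_mem n) hi1, hi', ?_, ?_, ?_, ?_⟩
      · rw [hsub, if_pos rfl, hi1]
      · rw [hsub, if_neg (by omega), hi2]
      · rw [Nat.sub_add_cancel hle]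
        exact hY
      · omega
    · push Not at hall
      obtain ⟨s, hs, hs1, hs2⟩ := hall
      have ht0 : (tw (r + 4) s 0 n : ZMod 3) = 0 := by
        rw [htw s hs, if_neg hs1]
      have hs0 : 0 < s := by
        rcases Nat.eq_zero_or_pos s with h1 | h1
        · exfalso
          apply hs2
          rw [h1, tw_eq_zero]
          intro p hp
          rw [zero_add] at hp
          rw [hz' p hp]
          norm_num
        · exact h1
      obtain ⟨x, hx, y, hy, hxy, he, hc⟩ := flip hs0 hs hz' (mh_three ht0 hs2)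
      rw [ht0, add_zero] at hc
      rcases mh_ill hv (hill x hx y hy he hxy.le) with h1 | h1
      · have h2 := h1.2 s hs
        rw [hc, if_neg hs1] at h2
        exact absurd (add_left_cancel h2) (by decide)
      · have h2 := h1.2 s hs
        rw [hc, if_neg hs1, sub_eq_add_neg, neg_zero] at h2
        exact absurd (add_left_cancel h2) (by decide)
  · -- second case
    have hun : ∃ kd, mu r 0 (yc n) = some (kd, none) := by
      rcases hY with h1 | h1
      · exact ⟨0, h1⟩
      · exact ⟨2, h1⟩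
    obtain ⟨kd, hkd⟩ := hun
    have h1 : tw (r + 4) (r + 1) 0 n = 0 := by
      rw [tw_eq_zero]
      intro p hp
      rw [hclass p ((mu_unm hkd).2 p (Or.inr hp))]
      norm_num
    have h2 := hcs (r + 1) (by omega)
    rw [cs_can, h1, if_pos rfl, sub_eq_add_neg] at h2
    have h3 := add_left_cancel h2
    exact absurd h3 (by decide)

end Pool.Agent.STN
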