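import Pool.Agent.STN.Mc

/-!
# Project STN, module Mi: `C_v` is free of progressions (A3)

`w + 3^i` is marked (`V1_sat`), its guard is `i` (`mu_mar`: the digit at `i` is one, the class is `r + 1`), so all digits of `w` in the class `r + 1` are zero.  Let `a = w1 + 2 3^(i1)`, `b = w2 + 2 3^(i2)`, `c = w3 + 2 3^(i3)`, `a + c = 2 b`, `p = min(i1, i2, i3)`.
Modulo `3^p`: `w1 % 3^p + w3 % 3^p < 3^p`, `2 (w2 % 3^p) < 3^p` (`s0_two`): equal, no carry; the digit `p`: `2 [i1 = p] + 2 [i3 = p] ≡ 4 [i2 = p] (mod 3)` (the `w`s have digit `0` at `p`): so `i1 = i2 = i3 = p` (if `i2 ≠ p` none is `p`).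
Then `w1 + w3 = 2 w2`, `s0_ap`.
-/

set_option autoImplicit false

namespace Pool.Agent.STN

private theorem mi_dig (r : ℕ) {v : (Fin (r + 4) → ZMod 3) × Option (ℕ × Option ℕ)} (hv : V1 v.2)
    {w i : ℕ} (hi : i % (r + 4) = r + 1) (h0 : dg w i = 0) (hs : sg r (w + 3 ^ i) = v) :
    ∀ p, p % (r + 4) = r + 1 → dg w p = 0 := by
  have h1 : V1 (mu r 0 (w + 3 ^ i)) := by
    rw [← hs] at hv
    exact V1_sat.1 hv
  have hadd := dg_add_pow (n := w) (p := i) (by omega)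
  have key : ∃ kd u, mu r 0 (w + 3 ^ i) = some (kd, some u) := by
    obtain ⟨u, h2 | h2⟩ := h1
    · exact ⟨2, u, h2⟩
    · exact ⟨3, u, h2⟩
  obtain ⟨kd, u, hm⟩ := key
  obtain ⟨-, -, -, j, -, -, -, hz, -⟩ := mu_mar hm
  have hij : i = j := by
    by_contra hne
    have h3 := hz i (by rw [zero_add]; exact hi) hne
    rw [hadd i, if_pos rfl, h0] at h3
    omega
  intro p hp
  by_cases hpi : p = i
  · rw [hpi]
    exact h0
  · have h3 := hz p (by rw [zero_add]; exact hp) (by rw [← hij]; exact hpi)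
    rw [hadd p, if_neg hpi] at h3
    exact h3

private theorem mi_split (w p : ℕ) (h : dg w p = 0) : w = w % 3 ^ p + 3 ^ p * (3 * (w / 3 ^ p / 3)) := by
  have h1 := Nat.mod_add_div w (3 ^ p)
  have h2 : w / 3 ^ p % 3 = 0 := h
  have h3 : 3 * (w / 3 ^ p / 3) = w / 3 ^ p := by omega
  rw [h3]
  exact h1.symm

private theorem mi_pow {p i : ℕ} (h : p ≤ i) : 2 * 3 ^ i = 3 ^ p * (2 * 3 ^ (i - p)) := by
  have h1 : 3 ^ i = 3 ^ p * 3 ^ (i - p) := by rw [← pow_add, Nat.add_sub_cancel' h]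
  rw [h1]
  ring

private theorem mi_canc {A B X Y P : ℕ} (hA : A < P) (hB : B < P) (h : A + P * X = B + P * Y) : X = Y := by
  have hP : 0 < P := by omega
  have h1 := congrArg (fun z => z / P) h
  have h2 : (A + P * X) / P = (B + P * Y) / P := h1
  rwa [Nat.add_mul_div_left _ _ hP, Nat.add_mul_div_left _ _ hP, Nat.div_eq_of_lt hA, Nat.div_eq_of_lt hB,
    zero_add, zero_add] at h2

private theorem mi_three (t : ℕ) : (t = 0 ∧ 3 ^ t = 1) ∨ (t ≠ 0 ∧ ∃ s, 3 ^ t = 3 * s) := by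
  cases t with
  | zero => exact Or.inl ⟨rfl, pow_zero 3⟩
  | succ t => exact Or.inr ⟨Nat.succ_ne_zero t, 3 ^ t, pow_succ' 3 t⟩

theorem a3 (r : ℕ) {v : (Fin (r + 4) → ZMod 3) × Option (ℕ × Option ℕ)} (hv : V1 v.2) : Fre (Cv r v) := by
  rintro a ⟨w1, i1, s1, c1, z1, -, g1, rfl⟩ b ⟨w2, i2, s2, c2, z2, -, g2, rfl⟩ c
    ⟨w3, i3, s3, c3, z3, -, g3, rfl⟩ habc
  have d1 := mi_dig r hv c1 z1 g1
  have d2 := mi_dig r hv c2 z2 g2
  have d3 := mi_dig r hv c3 z3 g3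
  obtain ⟨p, hp, p1, p2, p3, hmin⟩ : ∃ p, p % (r + 4) = r + 1 ∧ p ≤ i1 ∧ p ≤ i2 ∧ p ≤ i3 ∧
      (p = i1 ∨ p = i2 ∨ p = i3) := by
    rcases le_total i1 i2 with h12 | h12
    · rcases le_total i1 i3 with h13 | h13
      · exact ⟨i1, c1, le_rfl, h12, h13, Or.inl rfl⟩
      · exact ⟨i3, c3, h13, h13.trans h12, le_rfl, Or.inr (Or.inr rfl)⟩
    · rcases le_total i2 i3 with h23 | h23
      · exact ⟨i2, c2, h12, le_rfl, h23, Or.inr (Or.inl rfl)⟩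
      · exact ⟨i3, c3, h23.trans h12, h23, le_rfl, Or.inr (Or.inr rfl)⟩
  have e1 := mi_split w1 p (d1 p hp)
  have e2 := mi_split w2 p (d2 p hp)
  have e3 := mi_split w3 p (d3 p hp)
  have t1 := s0_two s1 p
  have t2 := s0_two s2 p
  have t3 := s0_two s3 p
  have q1 := mi_pow p1
  have q2 := mi_pow p2
  have q3 := mi_pow p3
  have hX : (w1 % 3 ^ p + w3 % 3 ^ p) + 3 ^ p * (3 * (w1 / 3 ^ p / 3) + 2 * 3 ^ (i1 - p) +
      (3 * (w3 / 3 ^ p / 3) + 2 * 3 ^ (i3 - p))) =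
      2 * (w2 % 3 ^ p) + 3 ^ p * (2 * (3 * (w2 / 3 ^ p / 3) + 2 * 3 ^ (i2 - p))) := by
    calc (w1 % 3 ^ p + w3 % 3 ^ p) + 3 ^ p * (3 * (w1 / 3 ^ p / 3) + 2 * 3 ^ (i1 - p) +
          (3 * (w3 / 3 ^ p / 3) + 2 * 3 ^ (i3 - p)))
        = (w1 % 3 ^ p + 3 ^ p * (3 * (w1 / 3 ^ p / 3)) + 3 ^ p * (2 * 3 ^ (i1 - p))) +
          (w3 % 3 ^ p + 3 ^ p * (3 * (w3 / 3 ^ p / 3)) + 3 ^ p * (2 * 3 ^ (i3 - p))) := by ring
      _ = (w1 + 2 * 3 ^ i1) + (w3 + 2 * 3 ^ i3) := by rw [← e1, ← e3, ← q1, ← q3]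
      _ = 2 * (w2 + 2 * 3 ^ i2) := habc
      _ = 2 * (w2 % 3 ^ p + 3 ^ p * (3 * (w2 / 3 ^ p / 3)) + 3 ^ p * (2 * 3 ^ (i2 - p))) := by
          rw [← e2, ← q2]
      _ = _ := by ring
  have hpos : 0 < 3 ^ p := by positivity
  have hdiv : 3 * (w1 / 3 ^ p / 3) + 2 * 3 ^ (i1 - p) + (3 * (w3 / 3 ^ p / 3) + 2 * 3 ^ (i3 - p)) =
      2 * (3 * (w2 / 3 ^ p / 3) + 2 * 3 ^ (i2 - p)) := mi_canc (by omega) (by omega) hX
  have hall : i1 - p = 0 ∧ i2 - p = 0 ∧ i3 - p = 0 := by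
    have hm : i1 - p = 0 ∨ i2 - p = 0 ∨ i3 - p = 0 := by omega
    rcases mi_three (i1 - p) with ⟨a1, a1'⟩ | ⟨a1, x1, a1'⟩ <;>
    rcases mi_three (i2 - p) with ⟨a2, a2'⟩ | ⟨a2, x2, a2'⟩ <;>
    rcases mi_three (i3 - p) with ⟨a3, a3'⟩ | ⟨a3, x3, a3'⟩ <;>
    rw [a1', a2', a3'] at hdiv <;> omega
  have f1 : i1 = p := by omega
  have f2 : i2 = p := by omega
  have f3 : i3 = p := by omega
  rw [f1, f2, f3] at habc
  have h4 := s0_ap s1 s2 s3 (by omega : w1 + w3 = 2 * w2)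
  rw [f1, f3, h4.1, h4.2]

end Pool.Agent.STN
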