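import Pool.Agent.STN.Mc

/-!
# Project STN, module Mj: facts on the machine `uz`

The machine `uz` unfolds by one digit; the kinds of its states and the digits of the accepted words in the special classes are
restricted; if all elements of `A` are small, the accepted words have no digit in the top class.
-/

set_option autoImplicit false

namespace Pool.Agent.STN

private theorem mj_zero (r : ℕ) (A : Set ℕ) (k : ℕ) : uz r A k 0 = some (0, 0) := by
  rw [uz, dif_pos rfl]

private theorem mj_dg_zero (p : ℕ) : dg 0 p = 0 := by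
  unfold dg
  rw [Nat.zero_div, Nat.zero_mod]

private theorem mj_dg_0 (n : ℕ) : dg n 0 = n % 3 := by
  unfold dg
  rw [pow_zero, Nat.div_one]

private theorem mj_dg_succ (n p : ℕ) : dg n (p + 1) = dg (n / 3) p := by
  unfold dg
  rw [Nat.div_div_eq_div_mul, pow_succ']

/-- the possible steps -/
private theorem mj_cases {r : ℕ} {A : Set ℕ} {c d : ℕ} {q : Option (ℕ × ℕ)} {kd z : ℕ}
    (h : ust r A c d q = some (kd, z)) :
    ∃ k' z', q = some (k', z') ∧ k' ≤ 2 ∧
      ((d = 0 ∧ kd = k' ∧ z = z') ∨ (k' = 0 ∧ c = r + 3 ∧ d = 1 ∧ kd = 1 ∧ z = 0) ∨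
        (k' = 1 ∧ c = r + 2 ∧ d = 1 ∧ kd = 2 ∧ z = 0) ∨
        (k' = 2 ∧ 1 ≤ c ∧ c ≤ r ∧ d ≠ 0 ∧ kd = 2 ∧ z = z' + d * 3 ^ (c - 1)) ∨
        (k' = 2 ∧ c = r + 3 ∧ d = 1 ∧ z' ∈ A ∧ kd = 1 ∧ z = 0)) := by
  rcases q with _ | ⟨k', z'⟩
  · simp [ust] at h
  rcases k' with _ | _ | _ | k'
  · refine ⟨0, z', rfl, by omega, ?_⟩
    rw [ust] at h
    split_ifs at h with h1 h2
    · left
      simp only [Option.some.injEq, Prod.mk.injEq] at h
      exact ⟨h1, h.1.symm, h.2.symm⟩
    · right; left
      simp only [Option.some.injEq, Prod.mk.injEq] at h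
      exact ⟨rfl, h2.1, h2.2, h.1.symm, h.2.symm⟩
  · refine ⟨1, z', rfl, by omega, ?_⟩
    rw [ust] at h
    split_ifs at h with h1 h2
    · left
      simp only [Option.some.injEq, Prod.mk.injEq] at h
      exact ⟨h1, h.1.symm, h.2.symm⟩
    · right; right; left
      simp only [Option.some.injEq, Prod.mk.injEq] at h
      exact ⟨rfl, h2.1, h2.2, h.1.symm, h.2.symm⟩
  · refine ⟨2, z', rfl, by omega, ?_⟩
    rw [ust] at h
    split_ifs at h with h1 h2 h3
    · left
      simp only [Option.some.injEq, Prod.mk.injEq] at h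
      exact ⟨h1, h.1.symm, h.2.symm⟩
    · right; right; right; left
      simp only [Option.some.injEq, Prod.mk.injEq] at h
      exact ⟨rfl, h2.1, h2.2, h1, h.1.symm, h.2.symm⟩
    · right; right; right; right
      simp only [Option.some.injEq, Prod.mk.injEq] at h
      exact ⟨rfl, h3.1, h3.2.1, h3.2.2, h.1.symm, h.2.symm⟩
  · simp [ust] at h

theorem uz_step (r : ℕ) (A : Set ℕ) (k n : ℕ) :
    uz r A k n = ust r A (k % (r + 4)) (n % 3) (uz r A (k + 1) (n / 3)) := by
  by_cases h : n = 0
  · subst h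
    rw [Nat.zero_mod, Nat.zero_div, mj_zero, mj_zero, ust, if_pos rfl]
  · rw [uz, dif_neg h]

theorem uz_kind {r : ℕ} {A : Set ℕ} {k n kd z : ℕ} (h : uz r A k n = some (kd, z)) :
    kd ≤ 2 ∧ (kd ≠ 2 → z = 0) := by
  induction n using Nat.strong_induction_on generalizing k kd z with
  | _ n ih =>
    by_cases hn : n = 0
    · subst hn
      rw [mj_zero] at h
      simp only [Option.some.injEq, Prod.mk.injEq] at h
      obtain ⟨h1, h2⟩ := h
      subst h1 h2
      exact ⟨by omega, fun _ => rfl⟩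
    · rw [uz_step] at h
      obtain ⟨k', z', hq, hk', hc⟩ := mj_cases h
      have hi := ih (n / 3) (Nat.div_lt_self (Nat.pos_of_ne_zero hn) (by norm_num)) hq
      rcases hc with ⟨-, h1, h2⟩ | ⟨-, -, -, h1, h2⟩ | ⟨-, -, -, h1, h2⟩ | ⟨-, -, -, -, h1, h2⟩ | ⟨-, -, -, -, h1, h2⟩
      · rw [h1, h2]
        exact hi
      · exact ⟨by omega, fun _ => h2⟩
      · exact ⟨by omega, fun _ => h2⟩
      · exact ⟨by omega, fun h3 => absurd h1 h3⟩
      · exact ⟨by omega, fun _ => h2⟩

theorem uz_dig {r : ℕ} {A : Set ℕ} {k n kd z : ℕ} (h : uz r A k n = some (kd, z)) (p : ℕ) :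
    (((k + p) % (r + 4) = 0 ∨ (k + p) % (r + 4) = r + 1) → dg n p = 0) ∧
    (((k + p) % (r + 4) = r + 2 ∨ (k + p) % (r + 4) = r + 3) → dg n p ≤ 1) := by
  induction n using Nat.strong_induction_on generalizing k kd z p with
  | _ n ih =>
    by_cases hn : n = 0
    · subst hn
      rw [mj_dg_zero]
      exact ⟨fun _ => rfl, fun _ => by omega⟩
    · rw [uz_step] at h
      obtain ⟨k', z', hq, hk', hc⟩ := mj_cases h
      rcases p with _ | p
      · rw [mj_dg_0, Nat.add_zero]
        rcases hc with ⟨h1, -, -⟩ | ⟨-, h1, h2, -, -⟩ | ⟨-, h1, h2, -, -⟩ | ⟨-, h1, h2, -, -, -⟩ | ⟨-, h1, h2, -, -, -⟩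
        · exact ⟨fun _ => h1, fun _ => by omega⟩
        · exact ⟨fun h3 => by omega, fun _ => by omega⟩
        · exact ⟨fun h3 => by omega, fun _ => by omega⟩
        · exact ⟨fun h3 => by omega, fun h3 => by omega⟩
        · exact ⟨fun h3 => by omega, fun _ => by omega⟩
      · have hi := ih (n / 3) (Nat.div_lt_self (Nat.pos_of_ne_zero hn) (by norm_num)) hq p
        rw [mj_dg_succ]
        have h1 : k + (p + 1) = k + 1 + p := by ring
        rw [h1]
        exact hi

theorem uz_top {r : ℕ} {A : Set ℕ} (hr : 1 ≤ r) (hA : ∀ a ∈ A, a < 3 ^ (r - 1)) {n : ℕ} (hn : n ∈ UU r A)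
    (p : ℕ) (hp : p % (r + 4) = r) : dg n p = 0 := by
  have key : ∀ n k kd z, uz r A k n = some (kd, z) →
      (∀ p, (k + p) % (r + 4) = r → dg n p = 0) ∨ (kd = 2 ∧ 3 ^ (r - 1) ≤ z) := by
    intro n
    induction n using Nat.strong_induction_on with
    | _ n ih =>
      intro k kd z h
      by_cases hn0 : n = 0
      · subst hn0
        exact Or.inl fun p _ => mj_dg_zero p
      · rw [uz_step] at h
        obtain ⟨k', z', hq, hk', hc⟩ := mj_cases h
        rcases ih (n / 3) (Nat.div_lt_self (Nat.pos_of_ne_zero hn0) (by norm_num)) _ _ _ hq with hi | ⟨hi1, hi2⟩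
        · by_cases hkr : k % (r + 4) = r
          · rcases hc with ⟨h1, -, -⟩ | ⟨-, h1, h2, -, -⟩ | ⟨-, h1, h2, -, -⟩ | ⟨-, h1, h2, h3, h4, h5⟩ | ⟨-, h1, h2, -, -, -⟩
            · left
              intro p hp
              rcases p with _ | p
              · rw [mj_dg_0]
                exact h1
              · rw [mj_dg_succ]
                exact hi p (by rw [Nat.add_assoc, Nat.add_comm 1 p]; exact hp)
            · exact absurd (hkr.symm.trans h1) (by omega)
            · exact absurd (hkr.symm.trans h1) (by omega)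
            · right
              refine ⟨h4, ?_⟩
              rw [h5, hkr]
              have h6 : 1 * 3 ^ (r - 1) ≤ n % 3 * 3 ^ (r - 1) :=
                Nat.mul_le_mul_right _ (Nat.one_le_iff_ne_zero.2 h3)
              omega
            · exact absurd (hkr.symm.trans h1) (by omega)
          · left
            intro p hp
            rcases p with _ | p
            · exact absurd hp hkr
            · rw [mj_dg_succ]
              exact hi p (by rw [Nat.add_assoc, Nat.add_comm 1 p]; exact hp)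
        · right
          rcases hc with ⟨h1, h2, h3⟩ | ⟨h1, -, -, -, -⟩ | ⟨h1, -, -, -, -⟩ | ⟨-, -, -, -, h4, h5⟩ | ⟨-, -, -, h1, -, -⟩
          · exact ⟨h2.trans hi1, h3 ▸ hi2⟩
          · omega
          · omega
          · refine ⟨h4, ?_⟩
            rw [h5]
            exact hi2.trans (Nat.le_add_right _ _)
          · exact absurd (hA z' h1) (by omega)
  rcases hn with h | ⟨z, hz, h⟩
  · rcases key n 0 _ _ h with h1 | ⟨h1, -⟩
    · exact h1 p (by rw [Nat.zero_add]; exact hp)
    · omega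
  · rcases key n 0 _ _ h with h1 | ⟨-, h1⟩
    · exact h1 p (by rw [Nat.zero_add]; exact hp)
    · exact absurd (hA z hz) (by omega)

end Pool.Agent.STN
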