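import Pool.Agent.STN.Mj
import Pool.Agent.STN.Bd

/-!
# Project STN, module Mk: representations of the elements of `U` (A4)

`a4_key` by strong induction on `n`: a carry only arises at a letter class below `r` in kind `2`, and there the automaton does not change its state.
`a4` is the case without carry, `a4_cs` the statement on the digit sums of a class which is not a letter.
-/

set_option autoImplicit false

namespace Pool.Agent.STN

private theorem mk_ust {r : ℕ} {A : Set ℕ} {c d kd z kd' z' : ℕ} (h : ust r A c d (some (kd', z')) = some (kd, z)) :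
    (d = 0 ∧ kd = kd') ∨ ((1 ≤ c ∧ c ≤ r) ∧ kd' = 2 ∧ kd = 2) ∨
      (d = 1 ∧ ((kd' = 0 ∧ kd = 1 ∧ c = r + 3) ∨ (kd' = 1 ∧ kd = 2 ∧ c = r + 2) ∨
        (kd' = 2 ∧ kd = 1 ∧ c = r + 3))) := by
  match kd', h with
  | 0, h =>
    change (if d = 0 then some (0, z') else if c = r + 3 ∧ d = 1 then some (1, 0) else none) = some (kd, z) at h
    split_ifs at h with h1 h2
    · rw [Option.some.injEq, Prod.mk.injEq] at h
      exact Or.inl ⟨h1, h.1.symm⟩
    · rw [Option.some.injEq, Prod.mk.injEq] at h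
      exact Or.inr (Or.inr ⟨h2.2, Or.inl ⟨rfl, h.1.symm, h2.1⟩⟩)
  | 1, h =>
    change (if d = 0 then some (1, z') else if c = r + 2 ∧ d = 1 then some (2, 0) else none) = some (kd, z) at h
    split_ifs at h with h1 h2
    · rw [Option.some.injEq, Prod.mk.injEq] at h
      exact Or.inl ⟨h1, h.1.symm⟩
    · rw [Option.some.injEq, Prod.mk.injEq] at h
      exact Or.inr (Or.inr ⟨h2.2, Or.inr (Or.inl ⟨rfl, h.1.symm, h2.1⟩)⟩)
  | 2, h =>
    by_cases h1 : d = 0
    · have h2 : ust r A c d (some (2, z')) = some (2, z') := if_pos h1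
      rw [h2, Option.some.injEq, Prod.mk.injEq] at h
      exact Or.inl ⟨h1, h.1.symm⟩
    · by_cases h3 : 1 ≤ c ∧ c ≤ r
      · have h2 : ust r A c d (some (2, z')) = some (2, z' + d * 3 ^ (c - 1)) := (if_neg h1).trans (if_pos h3)
        rw [h2, Option.some.injEq, Prod.mk.injEq] at h
        exact Or.inr (Or.inl ⟨h3, rfl, h.1.symm⟩)
      · by_cases h4 : c = r + 3 ∧ d = 1 ∧ z' ∈ A
        · have h2 : ust r A c d (some (2, z')) = some (1, 0) := (if_neg h1).trans ((if_neg h3).trans (if_pos h4))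
          rw [h2, Option.some.injEq, Prod.mk.injEq] at h
          exact Or.inr (Or.inr ⟨h4.2.1, Or.inr (Or.inr ⟨rfl, h.1.symm, h4.1⟩)⟩)
        · have h2 : ust r A c d (some (2, z')) = none := (if_neg h1).trans ((if_neg h3).trans (if_neg h4))
          rw [h2] at h
          cases h
  | m + 3, h =>
    have h2 : ust r A c d (some (m + 3, z')) = none := rfl
    rw [h2] at h
    cases h

private theorem mk_mu0 {r k x : ℕ} (h : x % 3 = 0) : mu r k x = mu r (k + 1) (x / 3) := by
  have e : x = 3 * (x / 3) := by omega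
  conv_lhs => rw [e]
  exact mu_d0 r k (x / 3)

private theorem mk_mu1 {r k x : ℕ} (h : x % 3 = 1) :
    mu r k x = stp r (k % (r + 4)) (mu r (k + 1) (x / 3)) := by
  have e : x = 3 * (x / 3) + 1 := by omega
  conv_lhs => rw [e]
  exact mu_d1 r k (x / 3)

private theorem mk_let {r k x : ℕ} (hx : x % 3 ≤ 1) (hc : 1 ≤ k % (r + 4) ∧ k % (r + 4) ≤ r)
    (h : mu r (k + 1) (x / 3) = some (2, none)) : mu r k x = some (2, none) := by
  have h1 : x % 3 = 0 ∨ x % 3 = 1 := by omega
  rcases h1 with h1 | h1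
  · rw [mk_mu0 h1, h]
  · rw [mk_mu1 h1, h]
    exact if_pos hc

private theorem mk_dig {r k x y n : ℕ}
    (h : ∀ p, ¬ (1 ≤ (k + 1 + p) % (r + 4) ∧ (k + 1 + p) % (r + 4) ≤ r) →
      dg (x / 3) p = dg (n / 3) p ∧ dg (y / 3) p = dg (n / 3) p)
    (h0 : ¬ (1 ≤ k % (r + 4) ∧ k % (r + 4) ≤ r) → x % 3 = n % 3 ∧ y % 3 = n % 3) (p : ℕ)
    (hp : ¬ (1 ≤ (k + p) % (r + 4) ∧ (k + p) % (r + 4) ≤ r)) : dg x p = dg n p ∧ dg y p = dg n p := by
  cases p with
  | zero =>
    rw [dg_zero', dg_zero', dg_zero']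
    exact h0 hp
  | succ p =>
    rw [dg_succ, dg_succ, dg_succ]
    have e : k + (p + 1) = k + 1 + p := by ring
    rw [e] at hp
    exact h p hp

private theorem mk_cs {l s : ℕ} (N : ℕ) : ∀ (k x y : ℕ), x + y ≤ N → (∀ p, (k + p) % l = s → dg x p = dg y p) →
    cs l s k x = cs l s k y := by
  induction N with
  | zero =>
    intro k x y h _
    have h1 : x = 0 := by omega
    have h2 : y = 0 := by omega
    rw [h1, h2]
  | succ N ih =>
    intro k x y h h1
    by_cases h0 : x + y = 0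
    · have h1 : x = 0 := by omega
      have h2 : y = 0 := by omega
      rw [h1, h2]
    · rw [cs_step l s k x, cs_step l s k y]
      have h2 : cs l s (k + 1) (x / 3) = cs l s (k + 1) (y / 3) := by
        refine ih (k + 1) (x / 3) (y / 3) (by omega) fun p hp => ?_
        have e : k + (p + 1) = k + 1 + p := by ring
        have h3 := h1 (p + 1) (by rw [e]; exact hp)
        rw [dg_succ, dg_succ] at h3
        exact h3
      rw [h2]
      by_cases h4 : k % l = s
      · have h3 := h1 0 h4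
        rw [dg_zero', dg_zero'] at h3
        rw [h3]
      · rw [if_neg h4, if_neg h4]

theorem a4_key {r : ℕ} {A : Set ℕ} (n : ℕ) : ∀ (k γ x y kd z : ℕ), x ∈ S0 → y ∈ S0 → x + n + γ = 2 * y →
    uz r A k n = some (kd, z) → (∀ p, (k + p) % (r + 4) = r → dg n p = 0) →
    (γ = 0 ∨ (γ = 1 ∧ kd = 2 ∧ 2 ≤ k % (r + 4) ∧ k % (r + 4) ≤ r)) →
    mu r k x = some (kd, none) ∧ mu r k y = some (kd, none) ∧
      ∀ p, ¬ (1 ≤ (k + p) % (r + 4) ∧ (k + p) % (r + 4) ≤ r) → dg x p = dg n p ∧ dg y p = dg n p := by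
  induction n using Nat.strong_induction_on with
  | _ n ih =>
    intro k γ x y kd z hx hy h hu hr hγ
    by_cases hn : n = 0
    · subst hn
      have hu0 : uz r A k 0 = some (0, 0) := by
        unfold uz
        exact dif_pos rfl
      rw [hu0, Option.some.injEq, Prod.mk.injEq] at hu
      rcases hγ with hγ | hγ
      · rw [hγ] at h
        obtain ⟨h1, h2⟩ := s0_ap hx hy s0_zero h
        have h3 : x = 0 := by omega
        rw [← h2, h3, ← hu.1]
        exact ⟨mu_zero r k, mu_zero r k, fun p _ => ⟨rfl, rfl⟩⟩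
      · omega
    · have hx3 := s0_step.1 hx
      have hy3 := s0_step.1 hy
      rw [uz_step] at hu
      cases hq : uz r A (k + 1) (n / 3) with
      | none =>
        rw [hq] at hu
        unfold ust at hu
        cases hu
      | some q =>
        obtain ⟨kd', z'⟩ := q
        rw [hq] at hu
        have hr' : ∀ p, (k + 1 + p) % (r + 4) = r → dg (n / 3) p = 0 := by
          intro p hp
          have e : k + (p + 1) = k + 1 + p := by ring
          have h1 := hr (p + 1) (by rw [e]; exact hp)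
          rw [dg_succ] at h1
          exact h1
        have IH := fun γ' h' hγ' => ih (n / 3) (by omega) (k + 1) γ' (x / 3) (y / 3) kd' z' hx3.2 hy3.2 h' hq hr' hγ'
        rcases mk_ust hu with ⟨h1, h2⟩ | ⟨h1, h2, h3⟩ | ⟨h1, h2⟩
        · -- digit zero
          have h4 : x / 3 + n / 3 + 0 = 2 * (y / 3) := by
            have h5 : γ = 0 ∨ γ = 1 := by omega
            have h6 := hx3.1
            have h7 := hy3.1
            omega
          obtain ⟨a1, a2, a3⟩ := IH 0 h4 (Or.inl rfl)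
          rcases hγ with hγ | ⟨g1, g2, g3, g4⟩
          · have h6 : x % 3 = 0 := by
              have h6 := hx3.1
              have h7 := hy3.1
              omega
            have h7 : y % 3 = 0 := by
              have h6 := hx3.1
              have h7 := hy3.1
              omega
            refine ⟨?_, ?_, mk_dig a3 fun _ => ⟨by omega, by omega⟩⟩
            · rw [mk_mu0 h6, a1, h2]
            · rw [mk_mu0 h7, a2, h2]
          · rw [← h2, g2] at a1 a2
            rw [g2]
            refine ⟨mk_let hx3.1 ⟨by omega, g4⟩ a1, mk_let hy3.1 ⟨by omega, g4⟩ a2, mk_dig a3 fun hc => ?_⟩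
            exact absurd ⟨by omega, g4⟩ hc
        · -- letter
          rw [h3]
          rw [h2] at IH
          have h4 : x / 3 + n / 3 + 0 = 2 * (y / 3) ∨ (x / 3 + n / 3 + 1 = 2 * (y / 3) ∧ n % 3 ≠ 0) := by
            have h5 : γ = 0 ∨ γ = 1 := by omega
            have h6 := hx3.1
            have h7 := hy3.1
            omega
          have h5 : mu r (k + 1) (x / 3) = some (2, none) ∧ mu r (k + 1) (y / 3) = some (2, none) ∧
              ∀ p, ¬ (1 ≤ (k + 1 + p) % (r + 4) ∧ (k + 1 + p) % (r + 4) ≤ r) →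
                dg (x / 3) p = dg (n / 3) p ∧ dg (y / 3) p = dg (n / 3) p := by
            rcases h4 with h4 | ⟨h4, h5⟩
            · exact IH 0 h4 (Or.inl rfl)
            · refine IH 1 h4 (Or.inr ⟨rfl, rfl, ?_⟩)
              have h6 : k % (r + 4) ≠ r := by
                intro h6
                have h7 := hr 0 h6
                rw [dg_zero'] at h7
                exact h5 h7
              have h7 : (k + 1) % (r + 4) = k % (r + 4) + 1 := by
                rw [Nat.add_mod, Nat.mod_eq_of_lt (show 1 < r + 4 by omega)]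
                exact Nat.mod_eq_of_lt (by omega)
              rw [h7]
              omega
          obtain ⟨a1, a2, a3⟩ := h5
          exact ⟨mk_let hx3.1 h1 a1, mk_let hy3.1 h1 a2, mk_dig a3 fun hc => absurd h1 hc⟩
        · -- digit one in a class which is not a letter
          have h3 : γ = 0 := by
            rcases hγ with hγ | hγ
            · exact hγ
            · omega
          have h4 : x / 3 + n / 3 + 0 = 2 * (y / 3) ∧ x % 3 = 1 ∧ y % 3 = 1 := by
            have h6 := hx3.1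
            have h7 := hy3.1
            omega
          obtain ⟨a1, a2, a3⟩ := IH 0 h4.1 (Or.inl rfl)
          have h5 : stp r (k % (r + 4)) (some (kd', none)) = some (kd, none) := by
            rcases h2 with ⟨e1, e2, e3⟩ | ⟨e1, e2, e3⟩ | ⟨e1, e2, e3⟩
            · rw [e1, e2, e3]
              exact if_pos rfl
            · rw [e1, e2, e3]
              exact if_pos rfl
            · rw [e1, e2, e3]
              show (if 1 ≤ r + 3 ∧ r + 3 ≤ r then _ else if r + 3 = r + 3 then _ else _) = _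
              rw [if_neg (by omega), if_pos rfl]
          refine ⟨?_, ?_, mk_dig a3 fun _ => ⟨by omega, by omega⟩⟩
          · rw [mk_mu1 h4.2.1, a1, h5]
          · rw [mk_mu1 h4.2.2, a2, h5]

theorem a4 {r : ℕ} {A : Set ℕ} (hr : 1 ≤ r) (hA : ∀ a ∈ A, a < 3 ^ (r - 1)) {X Y Z : ℕ} (hX : X ∈ S0)
    (hY : Y ∈ S0) (hZ : Z ∈ UU r A) (h : X + Z = 2 * Y) :
    V0 (mu r 0 X) ∧ V0 (mu r 0 Y) ∧
      ∀ p, ¬ (1 ≤ p % (r + 4) ∧ p % (r + 4) ≤ r) → dg X p = dg Z p ∧ dg Y p = dg Z p := by
  have h1 : ∀ p, (0 + p) % (r + 4) = r → dg Z p = 0 := by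
    intro p hp
    rw [zero_add] at hp
    exact uz_top hr hA hZ p hp
  have h2 : X + Z + 0 = 2 * Y := h
  have h3 : ∀ kd z, uz r A 0 Z = some (kd, z) → mu r 0 X = some (kd, none) ∧ mu r 0 Y = some (kd, none) ∧
      ∀ p, ¬ (1 ≤ p % (r + 4) ∧ p % (r + 4) ≤ r) → dg X p = dg Z p ∧ dg Y p = dg Z p := by
    intro kd z hz
    obtain ⟨a1, a2, a3⟩ := a4_key Z 0 0 X Y kd z hX hY h2 hz h1 (Or.inl rfl)
    refine ⟨a1, a2, fun p hp => a3 p ?_⟩
    rw [zero_add]
    exact hp
  rcases hZ with hz | ⟨z, _, hz⟩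
  · obtain ⟨a1, a2, a3⟩ := h3 0 0 hz
    exact ⟨Or.inl a1, Or.inl a2, a3⟩
  · obtain ⟨a1, a2, a3⟩ := h3 2 z hz
    exact ⟨Or.inr a1, Or.inr a2, a3⟩

theorem a4_cs {r : ℕ} {A : Set ℕ} (hr : 1 ≤ r) (hA : ∀ a ∈ A, a < 3 ^ (r - 1)) {X Y Z : ℕ} (hX : X ∈ S0)
    (hY : Y ∈ S0) (hZ : Z ∈ UU r A) (h : X + Z = 2 * Y) {s : ℕ} (hs : ¬ (1 ≤ s ∧ s ≤ r)) :
    cs (r + 4) s 0 X = cs (r + 4) s 0 Y := by
  obtain ⟨_, _, h3⟩ := a4 hr hA hX hY hZ h
  refine mk_cs (X + Y) 0 X Y le_rfl fun p hp => ?_
  rw [zero_add] at hp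
  obtain ⟨h4, h5⟩ := h3 p (by rw [hp]; exact hs)
  rw [h4, h5]

end Pool.Agent.STN
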