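import Pool.Agent.STN.Mb

/-!
# Project STN, module Ml: blocks, and the automaton on a block

`l = r + 4`.  `bk r L f x = 3 L + 3^(r+1) f + 3^(r+4) x`: class `0` digit zero, letters `L < 3^r`, then the digits `f < 27` of the classes `r+1, r+2, r+3`, then the rest `x`.
`mu_blk`: `bk = 3 (L + 3^r (f + 27 x))`; `mu_d0`; reading the letters `L` (`L ∈ S0`, classes `1..r`, from the top): by induction on `j`: for `L < 3^j`, `j ≤ r`, `mu r (r+1-j) (L + 3^j y) = lt` with the sum `3^(r-j) L` added, applied to `mu r (r+1) y`.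
The three digits of `f` by `mu_d0`, `mu_d1`; `mu r (r+4) x = mu r 0 x` (`mu_per`, induction).
-/

set_option autoImplicit false

namespace Pool.Agent.STN

/-- a block -/
def bk (r L f x : ℕ) : ℕ := 3 * L + 3 ^ (r + 1) * f + 3 ^ (r + 4) * x

/-- effect of the letters -/
def lt (L : ℕ) : Option (ℕ × Option ℕ) → Option (ℕ × Option ℕ)
  | none => none
  | some (kd, m) => if L = 0 then some (kd, m) else if kd = 2 then some (2, m) else
      if kd = 3 then some (3, m.map (· + L)) else none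

/-- effect of a digit `0` or `1` in the class `c` -/
def fs (r c d : ℕ) (q : Option (ℕ × Option ℕ)) : Option (ℕ × Option ℕ) := if d = 0 then q else stp r c q

theorem mu_per (r k n : ℕ) : mu r (k + (r + 4)) n = mu r k n := by
  induction n using Nat.strong_induction_on generalizing k with
  | _ n ih =>
    by_cases h : n = 0
    · subst h
      rw [mu_zero, mu_zero]
    · rw [mu, mu.eq_def r k n, dif_neg h, dif_neg h]
      have e : k + (r + 4) + 1 = k + 1 + (r + 4) := by omega
      rw [e, ih (n / 3) (by omega) (k + 1), Nat.add_mod_right]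

private theorem ml_form (r L f x : ℕ) : bk r L f x = 3 * (L + 3 ^ r * (f + 3 ^ 3 * x)) := by
  unfold bk
  ring

private theorem ml_fs (r k d n : ℕ) (hd : d ≤ 1) (hk : k < r + 4) :
    mu r k (d + 3 * n) = fs r k d (mu r (k + 1) n) := by
  unfold fs
  rcases Nat.eq_zero_or_pos d with h | h
  · subst h
    rw [if_pos rfl, Nat.zero_add, mu_d0]
  · have hd1 : d = 1 := by omega
    subst hd1
    rw [if_neg (by norm_num), Nat.add_comm, mu_d1, Nat.mod_eq_of_lt hk]

private theorem ml_step (r c L : ℕ) (hc : 1 ≤ c) (hcr : c ≤ r) (q : Option (ℕ × Option ℕ)) :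
    stp r c (lt L q) = lt (L + 3 ^ (c - 1)) q := by
  have hp : 0 < 3 ^ (c - 1) := by positivity
  have hne : L + 3 ^ (c - 1) ≠ 0 := by omega
  have h1 : c ≠ r + 3 := by omega
  have h2 : c ≠ r + 2 := by omega
  have h3 : c ≠ r + 1 := by omega
  rcases q with _ | ⟨kd, m⟩
  · rfl
  · unfold lt
    by_cases hL : L = 0
    · subst hL
      simp only [if_true, Nat.zero_add]
      rcases kd with _ | _ | _ | _ | kd
      · simp [stp, h1]
      · simp [stp, h2, h3]
      · simp [stp, hc, hcr]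
      · simp [stp, hc, hcr]
      · simp [stp]
    · simp only [hL, hne, if_false]
      rcases kd with _ | _ | _ | _ | kd
      · simp [stp]
      · simp [stp]
      · simp [stp, hc, hcr]
      · cases m with
        | none => simp [stp, hc, hcr]
        | some u =>
          simp [stp, hc, hcr, Nat.add_assoc]
      · simp [stp]

private theorem ml_let (r y : ℕ) : ∀ (j L : ℕ), j ≤ r → L ∈ S0 → L < 3 ^ j →
    mu r (r + 1 - j) (L + 3 ^ j * y) = lt (3 ^ (r - j) * L) (mu r (r + 1) y) := by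
  intro j
  induction j with
  | zero =>
    intro L _ _ hL
    have e : L = 0 := by simpa using hL
    subst e
    rw [Nat.sub_zero, pow_zero, Nat.one_mul, Nat.zero_add, Nat.mul_zero]
    rcases mu r (r + 1) y with _ | ⟨kd, m⟩
    · rfl
    · rfl
  | succ j ih =>
    intro L hj hL hlt
    obtain ⟨hd, hq⟩ := s0_step.1 hL
    have hlt' : L / 3 < 3 ^ j := by
      rw [pow_succ'] at hlt
      omega
    have e1 : L + 3 ^ (j + 1) * y = L % 3 + 3 * (L / 3 + 3 ^ j * y) := by
      have : 3 ^ (j + 1) * y = 3 * (3 ^ j * y) := by ring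
      rw [this]
      have := Nat.mod_add_div L 3
      omega
    have e2 : r + 1 - (j + 1) + 1 = r + 1 - j := by omega
    rw [e1, ml_fs r _ _ _ hd (by omega), e2, ih (L / 3) (by omega) hq hlt']
    have e3 : 3 ^ (r - j) = 3 * 3 ^ (r - (j + 1)) := by
      rw [← pow_succ']
      congr 1
      omega
    have e4 : 3 ^ (r - (j + 1)) * L = 3 ^ (r - j) * (L / 3) + 3 ^ (r - (j + 1)) * (L % 3) := by
      rw [e3]
      have := Nat.mod_add_div L 3
      calc 3 ^ (r - (j + 1)) * L = 3 ^ (r - (j + 1)) * (L % 3 + 3 * (L / 3)) := by rw [this]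
        _ = _ := by ring
    unfold fs
    rcases Nat.eq_zero_or_pos (L % 3) with h | h
    · rw [if_pos h, e4, h, Nat.mul_zero]
      rfl
    · have h1 : L % 3 = 1 := by omega
      rw [if_neg (by omega), ml_step r _ _ (by omega) (by omega), e4, h1, Nat.mul_one]
      have e5 : r + 1 - (j + 1) - 1 = r - (j + 1) := by omega
      rw [e5]

theorem mu_blk {r L g b s x : ℕ} (hL : L ∈ S0) (hL' : L < 3 ^ r) (hg : g ≤ 1) (hb : b ≤ 1) (hs : s ≤ 1) :
    mu r 0 (bk r L (g + 3 * b + 9 * s) x) =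
      lt L (fs r (r + 1) g (fs r (r + 2) b (fs r (r + 3) s (mu r 0 x)))) := by
  have h1 := ml_let r (g + 3 * b + 9 * s + 3 ^ 3 * x) r L le_rfl hL hL'
  have e1 : r + 1 - r = 1 := by omega
  rw [e1, Nat.sub_self, pow_zero, Nat.one_mul] at h1
  have e2 : g + 3 * b + 9 * s + 3 ^ 3 * x = g + 3 * (b + 3 * (s + 3 * x)) := by ring
  have h4 := mu_per r 0 x
  rw [Nat.zero_add] at h4
  rw [ml_form, mu_d0, Nat.zero_add, h1, e2, ml_fs r (r + 1) g _ hg (by omega), ml_fs r (r + 1 + 1) b _ hb (by omega),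
    ml_fs r (r + 1 + 1 + 1) s _ hs (by omega), ← h4]

private theorem ml_dm {j b b' a a' : ℕ} (hb : b < j) (hb' : b' < j) (h : b + j * a = b' + j * a') :
    b = b' ∧ a = a' := by
  have hj : 0 < j := by omega
  have h1 : (b + j * a) % j = (b' + j * a') % j := by rw [h]
  rw [Nat.add_mul_mod_self_left, Nat.add_mul_mod_self_left, Nat.mod_eq_of_lt hb, Nat.mod_eq_of_lt hb'] at h1
  refine ⟨h1, ?_⟩
  subst h1
  have h2 : j * a = j * a' := by omega
  exact Nat.eq_of_mul_eq_mul_left hj h2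

theorem bk_inj {r L f x L' f' x' : ℕ} (h1 : L < 3 ^ r) (h2 : f < 27) (h1' : L' < 3 ^ r) (h2' : f' < 27)
    (h : bk r L f x = bk r L' f' x') : L = L' ∧ f = f' ∧ x = x' := by
  rw [ml_form, ml_form] at h
  have h3 := Nat.eq_of_mul_eq_mul_left (by norm_num : 0 < 3) h
  obtain ⟨hL, h4⟩ := ml_dm h1 h1' h3
  obtain ⟨hf, hx⟩ := ml_dm (j := 3 ^ 3) (by norm_num; exact h2) (by norm_num; exact h2') h4
  exact ⟨hL, hf, hx⟩

theorem exists_bk {r n : ℕ} (h : n % 3 = 0) : ∃ L f x, L < 3 ^ r ∧ f < 27 ∧ n = bk r L f x := by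
  refine ⟨n / 3 % 3 ^ r, n / 3 / 3 ^ r % 3 ^ 3, n / 3 / 3 ^ r / 3 ^ 3, Nat.mod_lt _ (by positivity), ?_, ?_⟩
  · have := Nat.mod_lt (n / 3 / 3 ^ r) (show 0 < 3 ^ 3 by norm_num)
    exact this
  · rw [ml_form, Nat.mod_add_div, Nat.mod_add_div]
    omega

theorem dg_bk {r L f x : ℕ} (h1 : L < 3 ^ r) (h2 : f < 27) (p : ℕ) :
    dg (bk r L f x) p = if p = 0 then 0 else if p ≤ r then dg L (p - 1) else
      if p < r + 4 then dg f (p - (r + 1)) else dg x (p - (r + 4)) := by
  rw [ml_form]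
  rcases p with _ | p
  · rw [dg_zero', if_pos rfl]
    omega
  · have e : 3 * (L + 3 ^ r * (f + 3 ^ 3 * x)) / 3 = L + 3 ^ r * (f + 3 ^ 3 * x) := by omega
    rw [dg_succ, e, dg_split h1, if_neg (by omega : ¬ p + 1 = 0)]
    by_cases hp : p < r
    · rw [if_pos hp, if_pos (by omega)]
      congr 1
    · rw [if_neg hp, if_neg (by omega), dg_split (j := 3) (by norm_num; exact h2)]
      by_cases hq : p - r < 3
      · rw [if_pos hq, if_pos (by omega)]
        congr 1
        omega
      · rw [if_neg hq, if_neg (by omega)]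
        congr 1
        omega

theorem xc_bk {r L f x : ℕ} (h1 : L < 3 ^ r) (h2 : f < 27) :
    xc (bk r L f x) = bk r (xc L) (xc f) (xc x) ∧ yc (bk r L f x) = bk r (yc L) (yc f) (yc x) := by
  have h27 : f < 3 ^ 3 := by norm_num; exact h2
  have e : 3 * (L + 3 ^ r * (f + 3 ^ 3 * x)) / 3 = L + 3 ^ r * (f + 3 ^ 3 * x) := by omega
  have e0 : 3 * (L + 3 ^ r * (f + 3 ^ 3 * x)) % 3 = 0 := by omega
  constructor
  · rw [ml_form, ml_form, xc_step, e, e0, xc_append h1, xc_append h27]
    simp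
  · rw [ml_form, ml_form, yc_step, e, e0, yc_append h1, yc_append h27]
    simp

end Pool.Agent.STN
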