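import Pool.Agent.STN.Mj
import Pool.Agent.STN.Ml

/-!
# Project STN, module Mm: the machine of `U` on a block

As in module Ml: the letters add `L` to the sum in kind `2` (digits `0, 1, 2`), and are impossible in the kinds `0`, `1` unless `L = 0`.  `uu_blk`: the digits of the classes `0`, `r + 1` vanish, those of `r + 2`, `r + 3` are at most `1` (`uz_dig`), `exists_bk`.
-/

set_option autoImplicit false

namespace Pool.Agent.STN

/-- effect of the letters -/
def ltu (L : ℕ) : Option (ℕ × ℕ) → Option (ℕ × ℕ)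
  | none => none
  | some (kd, z) => if L = 0 then some (kd, z) else if kd = 2 then some (2, z + L) else none

private theorem mm_ust0 (r : ℕ) (A : Set ℕ) (c k n : ℕ) : ust r A c 0 (uz r A k n) = uz r A k n := by
  rcases h : uz r A k n with _ | ⟨kd, z⟩
  · rfl
  · have hk := (uz_kind h).1
    obtain rfl | rfl | rfl : kd = 0 ∨ kd = 1 ∨ kd = 2 := by omega
    · simp [ust]
    · simp [ust]
    · simp [ust]

private theorem mm_ltu (r : ℕ) (A : Set ℕ) {c d t : ℕ} (hc : 1 ≤ c) (hc' : c ≤ r) (k n : ℕ) :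
    ust r A c d (ltu t (uz r A k n)) = ltu (t + d * 3 ^ (c - 1)) (uz r A k n) := by
  rcases h : uz r A k n with _ | ⟨kd, z⟩
  · rfl
  · have hk := (uz_kind h).1
    have h3 : 3 ^ (c - 1) ≠ 0 := by positivity
    have hc1 : c ≠ r + 3 := by omega
    have hc2 : c ≠ r + 2 := by omega
    rcases Nat.eq_zero_or_pos t with rfl | ht
    · rcases Nat.eq_zero_or_pos d with rfl | hd
      · obtain rfl | rfl | rfl : kd = 0 ∨ kd = 1 ∨ kd = 2 := by omega
        · simp [ust, ltu]
        · simp [ust, ltu]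
        · simp [ust, ltu]
      · have hd' : d ≠ 0 := by omega
        obtain rfl | rfl | rfl : kd = 0 ∨ kd = 1 ∨ kd = 2 := by omega
        · simp [ust, ltu, hd', hc1]
        · simp [ust, ltu, hd', hc2]
        · simp [ust, ltu, hd', hc, hc']
    · have ht' : t ≠ 0 := by omega
      have hne : t + d * 3 ^ (c - 1) ≠ 0 := by omega
      obtain rfl | rfl | rfl : kd = 0 ∨ kd = 1 ∨ kd = 2 := by omega
      · simp [ust, ltu, ht']
      · simp [ust, ltu, ht']
      · rcases Nat.eq_zero_or_pos d with rfl | hd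
        · simp [ust, ltu, ht']
        · have hd' : d ≠ 0 := by omega
          simp [ust, ltu, ht', hd', hc, hc', add_assoc]

private theorem mm_let (r : ℕ) (A : Set ℕ) (y : ℕ) (j : ℕ) : ∀ L, L < 3 ^ j → j ≤ r →
    uz r A (r + 1 - j) (L + 3 ^ j * y) = ltu (3 ^ (r - j) * L) (uz r A (r + 1) y) := by
  induction j with
  | zero =>
    intro L hL _
    have h0 : L = 0 := by simpa using hL
    subst h0
    rw [Nat.sub_zero, pow_zero, one_mul, Nat.zero_add, Nat.mul_zero]
    rcases h : uz r A (r + 1) y with _ | ⟨kd, z⟩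
    · rfl
    · simp [ltu]
  | succ j ih =>
    intro L hL hj
    have h1 : r + 1 - (j + 1) = r - j := by omega
    have h2 : (r - j) % (r + 4) = r - j := Nat.mod_eq_of_lt (by omega)
    have e1 : L + 3 ^ (j + 1) * y = L + 3 * (3 ^ j * y) := by rw [pow_succ]; ring
    have h3 : (L + 3 ^ (j + 1) * y) % 3 = L % 3 := by
      rw [e1]; omega
    have h4 : (L + 3 ^ (j + 1) * y) / 3 = L / 3 + 3 ^ j * y := by
      rw [e1]; omega
    have h5 : L / 3 < 3 ^ j := by
      rw [pow_succ] at hL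
      omega
    rw [h1, uz_step, h2, h3, h4]
    have h6 := ih (L / 3) h5 (by omega)
    have h7 : r + 1 - j = r - j + 1 := by omega
    rw [h7] at h6
    rw [h6, mm_ltu r A (by omega) (by omega)]
    congr 1
    have h8 : r - j = (r - (j + 1)) + 1 := by omega
    have h9 : r - j - 1 = r - (j + 1) := by omega
    rw [h9, h8, pow_succ]
    have h10 := Nat.div_add_mod L 3
    calc 3 ^ (r - (j + 1)) * 3 * (L / 3) + L % 3 * 3 ^ (r - (j + 1))
        = 3 ^ (r - (j + 1)) * (3 * (L / 3) + L % 3) := by ring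
      _ = 3 ^ (r - (j + 1)) * L := by rw [h10]

theorem uz_per (r : ℕ) (A : Set ℕ) (k n : ℕ) : uz r A (k + (r + 4)) n = uz r A k n := by
  induction n using Nat.strong_induction_on generalizing k with
  | _ n ih =>
    rcases Nat.eq_zero_or_pos n with rfl | hn
    · have h0 : ∀ k, uz r A k 0 = some (0, 0) := by
        intro k
        rw [uz]
        simp
      rw [h0, h0]
    · rw [uz_step, uz_step r A k n, Nat.add_mod_right]
      have h1 : k + (r + 4) + 1 = (k + 1) + (r + 4) := by ring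
      rw [h1, ih (n / 3) (Nat.div_lt_self hn (by norm_num))]

theorem uz_blk {r : ℕ} {A : Set ℕ} {L b s x : ℕ} (hL : L < 3 ^ r) (hb : b ≤ 1) (hs : s ≤ 1) :
    uz r A 0 (bk r L (3 * b + 9 * s) x) = ltu L (ust r A (r + 2) b (ust r A (r + 3) s (uz r A 0 x))) := by
  have e0 : bk r L (3 * b + 9 * s) x = 3 * (L + 3 ^ r * (3 * (b + 3 * (s + 3 * x)))) := by
    unfold bk
    ring
  have h1 : (3 * (L + 3 ^ r * (3 * (b + 3 * (s + 3 * x))))) % 3 = 0 := Nat.mul_mod_right _ _
  have h2 : (3 * (L + 3 ^ r * (3 * (b + 3 * (s + 3 * x))))) / 3 = L + 3 ^ r * (3 * (b + 3 * (s + 3 * x))) :=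
    Nat.mul_div_cancel_left _ (by norm_num)
  rw [e0, uz_step, Nat.zero_mod, h1, h2, mm_ust0]
  have h3 := mm_let r A (3 * (b + 3 * (s + 3 * x))) r L hL le_rfl
  have h4 : r + 1 - r = 0 + 1 := by omega
  rw [h4, Nat.sub_self, pow_zero, one_mul] at h3
  rw [h3]
  congr 1
  have c1 : (r + 1) % (r + 4) = r + 1 := Nat.mod_eq_of_lt (by omega)
  have c2 : (r + 1 + 1) % (r + 4) = r + 2 := Nat.mod_eq_of_lt (by omega)
  have c3 : (r + 1 + 1 + 1) % (r + 4) = r + 3 := Nat.mod_eq_of_lt (by omega)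
  have d1 : (3 * (b + 3 * (s + 3 * x))) % 3 = 0 := Nat.mul_mod_right _ _
  have d1' : (3 * (b + 3 * (s + 3 * x))) / 3 = b + 3 * (s + 3 * x) := Nat.mul_div_cancel_left _ (by norm_num)
  have d2 : (b + 3 * (s + 3 * x)) % 3 = b := by omega
  have d2' : (b + 3 * (s + 3 * x)) / 3 = s + 3 * x := by omega
  have d3 : (s + 3 * x) % 3 = s := by omega
  have d3' : (s + 3 * x) / 3 = x := by omega
  rw [uz_step, c1, d1, d1', mm_ust0, uz_step, c2, d2, d2', uz_step, c3, d3, d3']
  have h5 := uz_per r A 0 x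
  have h6 : 0 + (r + 4) = r + 1 + 1 + 1 + 1 := by omega
  rw [h6] at h5
  rw [h5]

theorem uu_blk {r : ℕ} {A : Set ℕ} {n kd z : ℕ} (h : uz r A 0 n = some (kd, z)) :
    ∃ L b s x, L < 3 ^ r ∧ b ≤ 1 ∧ s ≤ 1 ∧ n = bk r L (3 * b + 9 * s) x := by
  have h0 : n % 3 = 0 := by
    have h1 := (uz_dig h 0).1 (Or.inl (by simp))
    simpa [dg] using h1
  obtain ⟨L, f, x, hL, hf, rfl⟩ := exists_bk (r := r) h0
  have g1 := (uz_dig h (r + 1)).1 (Or.inr (by rw [Nat.zero_add]; exact Nat.mod_eq_of_lt (by omega)))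
  have g2 := (uz_dig h (r + 2)).2 (Or.inl (by rw [Nat.zero_add]; exact Nat.mod_eq_of_lt (by omega)))
  have g3 := (uz_dig h (r + 3)).2 (Or.inr (by rw [Nat.zero_add]; exact Nat.mod_eq_of_lt (by omega)))
  rw [dg_bk hL hf, if_neg (by omega), if_neg (by omega), if_pos (by omega)] at g1 g2 g3
  have k1 : r + 1 - (r + 1) = 0 := by omega
  have k2 : r + 2 - (r + 1) = 1 := by omega
  have k3 : r + 3 - (r + 1) = 2 := by omega
  rw [k1] at g1
  rw [k2] at g2
  rw [k3] at g3
  unfold dg at g1 g2 g3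
  norm_num at g1 g2 g3
  refine ⟨L, f / 3 % 3, f / 9 % 3, x, hL, g2, g3, ?_⟩
  congr 1
  omega

end Pool.Agent.STN
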