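import Pool.Agent.STN.Mm
import Pool.Agent.STN.Mc

/-!
# Project STN, module Mn: existence of a marking of a bad group

`mark_key` by strong induction on `n`: a block is read with `mu_blk` and `uz_blk`; `mn_back` gives the states before the block, `mn_fwd` the
states of marked words. A marking of the rest is shifted by one block, or the block itself is marked at the guard.
-/

set_option autoImplicit false

namespace Pool.Agent.STN

private theorem mn_lt {L k : ℕ} {q : Option (ℕ × Option ℕ)} (hk : k ≤ 2) (h : lt L q = some (k, none)) :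
    q = some (k, none) ∧ (L ≠ 0 → k = 2) := by
  rcases q with _ | ⟨kd, m⟩
  · simp [lt] at h
  · have h' : (if L = 0 then some (kd, m) else if kd = 2 then some (2, m) else
      if kd = 3 then some (3, m.map (· + L)) else none) = some (k, none) := h
    by_cases hL : L = 0
    · rw [if_pos hL] at h'
      exact ⟨h', fun h1 => absurd hL h1⟩
    · rw [if_neg hL] at h'
      by_cases h2 : kd = 2
      · rw [if_pos h2] at h'
        simp only [Option.some.injEq, Prod.mk.injEq] at h'
        rw [h2, h'.2, ← h'.1]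
        exact ⟨rfl, fun _ => rfl⟩
      · rw [if_neg h2] at h'
        by_cases h3 : kd = 3
        · rw [if_pos h3] at h'
          simp only [Option.some.injEq, Prod.mk.injEq] at h'
          omega
        · rw [if_neg h3] at h'
          simp at h'

private theorem mn_two {r k : ℕ} {q : Option (ℕ × Option ℕ)} {m : Option ℕ} (h : stp r (r + 2) q = some (k, m)) :
    q = some (1, m) ∧ k = 2 := by
  rcases q with _ | ⟨kd, m'⟩
  · simp [stp] at h
  · rcases kd with _ | _ | _ | _ | kd
    · simp [stp] at h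
    · simp [stp] at h
      simp [h.1, h.2]
    · simp [stp] at h
    · simp [stp] at h
    · simp [stp] at h

private theorem mn_three {r k : ℕ} {q : Option (ℕ × Option ℕ)} {m : Option ℕ} (h : stp r (r + 3) q = some (k, m)) :
    (q = some (0, m) ∨ q = some (2, m) ∨ q = some (3, m)) ∧ k = 1 := by
  rcases q with _ | ⟨kd, m'⟩
  · simp [stp] at h
  · rcases kd with _ | _ | _ | _ | kd
    · simp [stp] at h
      simp [h.1, h.2]
    · simp [stp] at h
    · simp [stp] at h
      obtain ⟨h1, h2⟩ := h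
      subst h1
      subst h2
      simp
    · simp [stp] at h
      obtain ⟨h1, h2⟩ := h
      subst h1
      subst h2
      simp
    · simp [stp] at h

private theorem mn_stp2 (r : ℕ) (m : Option ℕ) : stp r (r + 2) (some (1, m)) = some (2, m) := by
  simp [stp]

private theorem mn_stp3 (r : ℕ) (m : Option ℕ) (k : ℕ) (hk : k = 0 ∨ k = 2 ∨ k = 3) :
    stp r (r + 3) (some (k, m)) = some (1, m) := by
  rcases hk with rfl | rfl | rfl <;> simp [stp]

/-- reading a block backwards -/
private theorem mn_back {r L b s k : ℕ} {q : Option (ℕ × Option ℕ)} (hk : k ≤ 2) (hb : b ≤ 1) (hs : s ≤ 1)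
    (h3 : q ≠ some (3, none)) (h : lt L (fs r (r + 2) b (fs r (r + 3) s q)) = some (k, none)) :
    (L ≠ 0 → k = 2) ∧ (b = 1 → k = 2 ∧ fs r (r + 3) s q = some (1, none)) ∧ (b = 0 → s = 1 → k = 1) ∧
    ∃ k', q = some (k', none) ∧ (s = 1 → k' = 0 ∨ k' = 2) ∧ (s = 0 → b = 1 → k' = 1) ∧
      (s = 0 → b = 0 → k' = k) := by
  obtain ⟨h1, h2⟩ := mn_lt hk h
  have hb' : b = 0 ∨ b = 1 := by omega
  have hs' : s = 0 ∨ s = 1 := by omega
  have e0 : ∀ (c : ℕ) (q : Option (ℕ × Option ℕ)), fs r c 0 q = q := fun c q => if_pos rfl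
  have e1 : ∀ (c : ℕ) (q : Option (ℕ × Option ℕ)), fs r c 1 q = stp r c q := fun c q => if_neg one_ne_zero
  refine ⟨h2, ?_, ?_, ?_⟩
  · intro hb1
    subst hb1
    rw [e1] at h1
    obtain ⟨h4, h5⟩ := mn_two h1
    exact ⟨h5, h4⟩
  · intro hb0 hs1
    subst hb0
    subst hs1
    rw [e0, e1] at h1
    exact (mn_three h1).2
  · rcases hb' with rfl | rfl <;> rcases hs' with rfl | rfl
    · rw [e0, e0] at h1
      exact ⟨k, h1, fun h4 => by omega, fun _ h4 => by omega, fun _ _ => rfl⟩
    · rw [e0, e1] at h1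
      rcases (mn_three h1).1 with h4 | h4 | h4
      · exact ⟨0, h4, fun _ => Or.inl rfl, fun h5 => by omega, fun h5 => by omega⟩
      · exact ⟨2, h4, fun _ => Or.inr rfl, fun h5 => by omega, fun h5 => by omega⟩
      · exact absurd h4 h3
    · rw [e1, e0] at h1
      obtain ⟨h4, -⟩ := mn_two h1
      exact ⟨1, h4, fun h5 => by omega, fun _ _ => rfl, fun _ h5 => by omega⟩
    · rw [e1, e1] at h1
      obtain ⟨h4, -⟩ := mn_two h1
      rcases (mn_three h4).1 with h4 | h4 | h4
      · exact ⟨0, h4, fun _ => Or.inl rfl, fun h5 => by omega, fun h5 => by omega⟩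
      · exact ⟨2, h4, fun _ => Or.inr rfl, fun h5 => by omega, fun h5 => by omega⟩
      · exact absurd h4 h3

/-- marked words of kind at most two -/
private theorem mn_fwd {r L b s k k' : ℕ} (hk : k ≤ 2) (hk' : k' ≤ 2) (hb : b ≤ 1) (hs : s ≤ 1)
    (h : lt L (fs r (r + 2) b (fs r (r + 3) s (some (k', none)))) = some (k, none)) (u : ℕ) :
    lt L (fs r (r + 2) b (fs r (r + 3) s (some (k', some u)))) = some (k, some u) := by
  obtain ⟨h1, h2, h4, k'', h5, h6, h7, h8⟩ := mn_back hk hb hs (by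
    intro h3
    simp only [Option.some.injEq, Prod.mk.injEq] at h3
    omega) h
  have h9 : k' = k'' := by
    simp only [Option.some.injEq, Prod.mk.injEq] at h5
    exact h5.1
  subst h9
  have e0 : ∀ (c : ℕ) (q : Option (ℕ × Option ℕ)), fs r c 0 q = q := fun c q => if_pos rfl
  have e1 : ∀ (c : ℕ) (q : Option (ℕ × Option ℕ)), fs r c 1 q = stp r c q := fun c q => if_neg one_ne_zero
  have hlt : lt L (some (k, some u)) = some (k, some u) := by
    have h10 : lt L (some (k, some u)) = if L = 0 then some (k, some u) else if k = 2 then some (2, some u) else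
      if k = 3 then some (3, (some u).map (· + L)) else none := rfl
    rw [h10]
    by_cases hL : L = 0
    · rw [if_pos hL]
    · rw [if_neg hL, if_pos (h1 hL), h1 hL]
  have hb' : b = 0 ∨ b = 1 := by omega
  have hs' : s = 0 ∨ s = 1 := by omega
  rcases hb' with rfl | rfl <;> rcases hs' with rfl | rfl
  · rw [e0, e0, h8 rfl rfl, hlt]
  · rw [e0, e1, mn_stp3 r _ _ (by rcases h6 rfl with h | h <;> simp [h]), ← h4 rfl rfl, hlt]
  · rw [e1, e0, h7 rfl rfl, mn_stp2, ← (h2 rfl).1, hlt]
  · rw [e1, e1, mn_stp3 r _ _ (by rcases h6 rfl with h | h <;> simp [h]), mn_stp2, ← (h2 rfl).1, hlt]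

/-- marked words of kind three which are closed -/
private theorem mn_fwd3 {r L b k k' : ℕ} (hk : k ≤ 2) (hk' : k' ≤ 2) (hb : b ≤ 1)
    (h : lt L (fs r (r + 2) b (fs r (r + 3) 1 (some (k', none)))) = some (k, none)) (u : ℕ) :
    lt L (fs r (r + 2) b (fs r (r + 3) 1 (some (3, some u)))) = some (k, some u) := by
  have h1 := mn_fwd hk hk' hb le_rfl h u
  obtain ⟨-, -, -, k'', h5, h6, -, -⟩ := mn_back hk hb le_rfl (by
    intro h3
    simp only [Option.some.injEq, Prod.mk.injEq] at h3
    omega) h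
  have h9 : k' = k'' := by
    simp only [Option.some.injEq, Prod.mk.injEq] at h5
    exact h5.1
  subst h9
  have e1 : ∀ (c : ℕ) (q : Option (ℕ × Option ℕ)), fs r c 1 q = stp r c q := fun c q => if_neg one_ne_zero
  rw [e1 (r + 3), mn_stp3 r _ _ (by rcases h6 rfl with h | h <;> simp [h])] at h1
  rw [e1 (r + 3), mn_stp3 r _ _ (by simp)]
  exact h1

private theorem mn_u0 {r : ℕ} {A : Set ℕ} {c kd z : ℕ} (hk : kd ≤ 2) :
    ust r A c 0 (some (kd, z)) = some (kd, z) := by
  rcases kd with _ | _ | _ | kd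
  · simp [ust]
  · simp [ust]
  · simp [ust]
  · omega

private theorem mn_u2 {r : ℕ} {A : Set ℕ} {z : ℕ} : ust r A (r + 2) 1 (some (1, z)) = some (2, 0) := by
  simp [ust]

private theorem mn_u2' {r : ℕ} {A : Set ℕ} {q : Option (ℕ × ℕ)} {k z : ℕ} (h : ust r A (r + 2) 1 q = some (k, z)) :
    (∃ z', q = some (1, z')) ∧ k = 2 ∧ z = 0 := by
  rcases q with _ | ⟨kd, z'⟩
  · simp [ust] at h
  · rcases kd with _ | _ | _ | kd
    · simp [ust] at h
    · simp [ust] at h
      exact ⟨⟨z', rfl⟩, h.1.symm, h.2.symm⟩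
    · simp [ust] at h
    · simp [ust] at h

private theorem mn_u3 {r : ℕ} {A : Set ℕ} {z : ℕ} : ust r A (r + 3) 1 (some (0, z)) = some (1, 0) := by
  simp [ust]

private theorem mn_u3A {r : ℕ} {A : Set ℕ} {z : ℕ} (hz : z ∈ A) : ust r A (r + 3) 1 (some (2, z)) = some (1, 0) := by
  simp [ust, hz]

private theorem mn_u3' {r : ℕ} {A : Set ℕ} {q : Option (ℕ × ℕ)} {k z : ℕ} (h : ust r A (r + 3) 1 q = some (k, z)) :
    (∃ z', q = some (0, z') ∨ q = some (2, z')) ∧ k = 1 ∧ z = 0 := by
  rcases q with _ | ⟨kd, z'⟩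
  · simp [ust] at h
  · rcases kd with _ | _ | _ | kd
    · simp [ust] at h
      exact ⟨⟨z', Or.inl rfl⟩, h.1.symm, h.2.symm⟩
    · simp [ust] at h
    · simp [ust] at h
      exact ⟨⟨z', Or.inr rfl⟩, h.2.1.symm, h.2.2.symm⟩
    · simp [ust] at h

private theorem mn_ltu {L k z : ℕ} {q : Option (ℕ × ℕ)} (h : ltu L q = some (k, z)) :
    ∃ z', q = some (k, z') ∧ z = z' + L := by
  rcases q with _ | ⟨kd, z'⟩
  · simp [ltu] at h
  · have h' : (if L = 0 then some (kd, z') else if kd = 2 then some (2, z' + L) else none) = some (k, z) := h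
    by_cases hL : L = 0
    · rw [if_pos hL] at h'
      simp only [Option.some.injEq, Prod.mk.injEq] at h'
      exact ⟨z', by rw [h'.1], by omega⟩
    · rw [if_neg hL] at h'
      by_cases h2 : kd = 2
      · rw [if_pos h2] at h'
        simp only [Option.some.injEq, Prod.mk.injEq] at h'
        exact ⟨z', by rw [h2, h'.1], h'.2.symm⟩
      · rw [if_neg h2] at h'
        simp at h'

private theorem mn_ltn {L k z : ℕ} (h : ltu L (some (k, z)) = none) : L ≠ 0 ∧ k ≠ 2 := by
  have h' : (if L = 0 then some (k, z) else if k = 2 then some (2, z + L) else none) = none := h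
  by_cases hL : L = 0
  · rw [if_pos hL] at h'
    simp at h'
  · rw [if_neg hL] at h'
    by_cases h2 : k = 2
    · rw [if_pos h2] at h'
      simp at h'
    · exact ⟨hL, h2⟩

private theorem mn_f {b s : ℕ} (hb : b ≤ 1) (hs : s ≤ 1) : 3 * b + 9 * s ∈ S0 := by
  have h1 : s ∈ S0 := s0_step.2 ⟨by omega, by
    have : s / 3 = 0 := by omega
    rw [this]
    exact s0_zero⟩
  have h2 : b + 3 * s ∈ S0 := s0_step.2 ⟨by omega, by
    have : (b + 3 * s) / 3 = s := by omega
    rw [this]
    exact h1⟩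
  exact s0_step.2 ⟨by omega, by
    have : (3 * b + 9 * s) / 3 = b + 3 * s := by omega
    rw [this]
    exact h2⟩

private theorem mn_mu {r L b s x : ℕ} (hL : L ∈ S0) (hL' : L < 3 ^ r) (hb : b ≤ 1) (hs : s ≤ 1) :
    mu r 0 (bk r L (3 * b + 9 * s) x) = lt L (fs r (r + 2) b (fs r (r + 3) s (mu r 0 x))) := by
  have h := mu_blk (r := r) (g := 0) (x := x) hL hL' zero_le_one hb hs
  rw [zero_add] at h
  rw [h]
  congr 1

private theorem mn_mg {r L s x : ℕ} (hL : L ∈ S0) (hL' : L < 3 ^ r) (hs : s ≤ 1)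
    (h : fs r (r + 3) s (mu r 0 x) = some (1, none)) :
    mu r 0 (bk r L (1 + 9 * s) x) = some (3, some L) := by
  have h1 := mu_blk (r := r) (g := 1) (b := 0) (x := x) hL hL' le_rfl zero_le_one hs
  have h2 : 1 + 3 * 0 + 9 * s = 1 + 9 * s := by omega
  rw [h2, h] at h1
  rw [h1]
  have h3 : fs r (r + 1) 1 (fs r (r + 2) 0 (some (1, none))) = some (3, some 0) := by
    simp [fs, stp]
  rw [h3]
  by_cases h4 : L = 0
  · simp [lt, h4]
  · simp [lt, h4]

private theorem mn_lt3 (L u : ℕ) : lt L (some (3, some u)) = some (3, some (u + L)) := by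
  by_cases h4 : L = 0
  · simp [lt, h4]
  · simp [lt, h4]

private theorem mn_bs {r L f X i : ℕ} (h : 3 ^ (i + 1) ≤ X) :
    bk r L f X - 3 ^ (i + (r + 4) + 1) + 3 ^ (i + (r + 4)) = bk r L f (X - 3 ^ (i + 1) + 3 ^ i) := by
  obtain ⟨c, rfl⟩ := Nat.exists_eq_add_of_le h
  have e1 : bk r L f (3 ^ (i + 1) + c) = bk r L f c + 3 ^ (i + (r + 4) + 1) := by
    unfold bk
    ring
  have e2 : 3 ^ (i + 1) + c - 3 ^ (i + 1) + 3 ^ i = c + 3 ^ i := by omega
  have e3 : bk r L f (c + 3 ^ i) = bk r L f c + 3 ^ (i + (r + 4)) := by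
    unfold bk
    ring
  rw [e2, e3, e1]
  omega

private theorem mn_bg {r L s X : ℕ} :
    bk r L (3 * 1 + 9 * s) X - 3 ^ (r + 1 + 1) + 3 ^ (r + 1) = bk r L (1 + 9 * s) X := by
  have e1 : bk r L (3 * 1 + 9 * s) X = bk r L (9 * s) X + 3 ^ (r + 1 + 1) := by
    unfold bk
    ring
  have e3 : bk r L (1 + 9 * s) X = bk r L (9 * s) X + 3 ^ (r + 1) := by
    unfold bk
    ring
  rw [e3, e1]
  omega

theorem mark_key {r : ℕ} {A : Set ℕ} (n : ℕ) : ∀ kx ky : ℕ, mu r 0 (xc n) = some (kx, none) →
    mu r 0 (yc n) = some (ky, none) → (∀ p, dg n p = 2 → 1 ≤ p % (r + 4) ∧ p % (r + 4) ≤ r) →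
    kx = ky ∧
    (∀ kd z, uz r A 0 n = some (kd, z) → kd = kx ∧ (kd = 2 → ∃ i u v, i % (r + 4) = r + 1 ∧ dg n i = 0 ∧
      dg n (i + 1) = 1 ∧ mu r 0 (xc n - 3 ^ (i + 1) + 3 ^ i) = some (3, some u) ∧
      mu r 0 (yc n - 3 ^ (i + 1) + 3 ^ i) = some (3, some v) ∧ u + z = 2 * v)) ∧
    (uz r A 0 n = none → ∃ i u v z, i % (r + 4) = r + 1 ∧ dg n i = 0 ∧
      dg n (i + 1) = 1 ∧ mu r 0 (xc n - 3 ^ (i + 1) + 3 ^ i) = some (kx, some u) ∧
      mu r 0 (yc n - 3 ^ (i + 1) + 3 ^ i) = some (kx, some v) ∧ u + z = 2 * v ∧ z ∉ A) := by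
  induction n using Nat.strong_induction_on with
  | _ n ih =>
    intro kx ky hx hy h2
    by_cases hn : n = 0
    · subst hn
      have e1 : xc 0 = 0 := xc_self s0_zero
      have e2 : yc 0 = 0 := yc_self s0_zero
      rw [e1, mu_zero] at hx
      rw [e2, mu_zero] at hy
      simp only [Option.some.injEq, Prod.mk.injEq] at hx hy
      have hu : uz r A 0 0 = some (0, 0) := by
        rw [uz]
        simp
      refine ⟨by omega, fun kd z h => ?_, fun h => ?_⟩
      · rw [hu] at h
        simp only [Option.some.injEq, Prod.mk.injEq] at h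
        exact ⟨by omega, fun h3 => by omega⟩
      · rw [hu] at h
        simp at h
    · obtain ⟨hkx, -⟩ := mu_unm hx
      obtain ⟨hky, hy0⟩ := mu_unm hy
      have hd0 : ∀ p, (p % (r + 4) = 0 ∨ p % (r + 4) = r + 1) → dg n p = 0 := by
        intro p hp
        have h3 := hy0 p (by rw [zero_add]; exact hp)
        rw [dg_yc] at h3
        by_contra h4
        rw [if_neg h4] at h3
        omega
      have hn3 : n % 3 = 0 := by
        rw [← dg_zero']
        exact hd0 0 (Or.inl (Nat.zero_mod _))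
      obtain ⟨L, f, x, hL, hf, hnb⟩ := exists_bk (r := r) hn3
      have hdf : ∀ t, t < 3 → dg n (r + 1 + t) = dg f t := by
        intro t ht
        rw [hnb, dg_bk hL hf, if_neg (by omega), if_neg (by omega), if_pos (by omega)]
        congr 1
        omega
      have hm : ∀ t, t < r + 4 → t % (r + 4) = t := fun t ht => Nat.mod_eq_of_lt ht
      have hf0 : dg f 0 = 0 := by
        rw [← hdf 0 (by norm_num)]
        exact hd0 _ (Or.inr (hm _ (by omega)))
      have hf1 : dg f 1 ≤ 1 := by
        rw [← hdf 1 (by norm_num)]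
        by_contra hc
        have h3 := dg_lt n (r + 1 + 1)
        have h4 := h2 (r + 1 + 1) (by omega)
        rw [hm _ (by omega)] at h4
        omega
      have hf2 : dg f 2 ≤ 1 := by
        rw [← hdf 2 (by norm_num)]
        by_contra hc
        have h3 := dg_lt n (r + 1 + 2)
        have h4 := h2 (r + 1 + 2) (by omega)
        rw [hm _ (by omega)] at h4
        omega
      obtain ⟨b, hbd⟩ : ∃ b, b = dg f 1 := ⟨_, rfl⟩
      obtain ⟨s, hsd⟩ : ∃ s, s = dg f 2 := ⟨_, rfl⟩
      have hb : b ≤ 1 := by omega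
      have hs : s ≤ 1 := by omega
      have hfe : f = 3 * b + 9 * s := by
        rw [hbd, hsd]
        unfold dg at hf0 ⊢
        norm_num at hf0 ⊢
        omega
      subst hfe
      have hxn : x < n := by
        have h3 : 3 ^ (r + 4) * x ≤ n := by
          rw [hnb]
          unfold bk
          omega
        have h4 : 3 ^ 4 ≤ 3 ^ (r + 4) := Nat.pow_le_pow_right (by norm_num) (by omega)
        have h5 : 3 ^ 4 * x ≤ n := (Nat.mul_le_mul_right x h4).trans h3
        norm_num at h5
        omega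
      have hxf : xc (3 * b + 9 * s) = 3 * b + 9 * s := xc_self (mn_f hb hs)
      have hyf : yc (3 * b + 9 * s) = 3 * b + 9 * s := yc_self (mn_f hb hs)
      obtain ⟨hxc, hyc⟩ := xc_bk (r := r) (x := x) hL hf
      rw [hxf, ← hnb] at hxc
      rw [hyf, ← hnb] at hyc
      have hxL : xc L < 3 ^ r := (xc_le L).trans_lt (yc_lt hL)
      have hyL : yc L < 3 ^ r := yc_lt hL
      have hce := can_eq L
      rw [hxc, mn_mu (xc_mem L) hxL hb hs] at hx
      rw [hyc, mn_mu (yc_mem L) hyL hb hs] at hy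
      have hx3 : mu r 0 (xc x) ≠ some (3, none) := fun h3 => by
        have := (mu_unm h3).1
        omega
      have hy3 : mu r 0 (yc x) ≠ some (3, none) := fun h3 => by
        have := (mu_unm h3).1
        omega
      obtain ⟨x1, x2, x3, kx', x4, x5, x6, x7⟩ := mn_back hkx hb hs hx3 hx
      obtain ⟨y1, y2, y3, ky', y4, y5, y6, y7⟩ := mn_back hky hb hs hy3 hy
      have hkx' := (mu_unm x4).1
      have hky' := (mu_unm y4).1
      have hdx : ∀ p, dg n (p + (r + 4)) = dg x p := by
        intro p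
        rw [hnb, dg_bk hL hf, if_neg (by omega), if_neg (by omega), if_neg (by omega), Nat.add_sub_cancel]
      obtain ⟨i1, i2, i3⟩ := ih x hxn kx' ky' x4 y4 (fun p hp => by
        rw [← hdx] at hp
        have h3 := h2 _ hp
        rw [Nat.add_mod_right] at h3
        exact h3)
      have hb' : b = 0 ∨ b = 1 := by omega
      have hs' : s = 0 ∨ s = 1 := by omega
      have hkk : kx = ky := by
        rcases hb' with h3 | h3
        · rcases hs' with h4 | h4
          · rw [← x7 h4 h3, ← y7 h4 h3]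
            exact i1
          · rw [x3 h3 h4, y3 h3 h4]
        · rw [(x2 h3).1, (y2 h3).1]
      have hu : uz r A 0 n = ltu L (ust r A (r + 2) b (ust r A (r + 3) s (uz r A 0 x))) := by
        conv_lhs => rw [hnb]
        exact uz_blk hL hb hs
      have hsh : ∀ i u v kd, i % (r + 4) = r + 1 → dg x i = 0 → dg x (i + 1) = 1 →
          mu r 0 (xc x - 3 ^ (i + 1) + 3 ^ i) = some (kd, some u) →
          mu r 0 (yc x - 3 ^ (i + 1) + 3 ^ i) = some (kd, some v) →
          (i + (r + 4)) % (r + 4) = r + 1 ∧ dg n (i + (r + 4)) = 0 ∧ dg n (i + (r + 4) + 1) = 1 ∧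
          mu r 0 (xc n - 3 ^ (i + (r + 4) + 1) + 3 ^ (i + (r + 4))) =
            lt (xc L) (fs r (r + 2) b (fs r (r + 3) s (some (kd, some u)))) ∧
          mu r 0 (yc n - 3 ^ (i + (r + 4) + 1) + 3 ^ (i + (r + 4))) =
            lt (yc L) (fs r (r + 2) b (fs r (r + 3) s (some (kd, some v)))) := by
        intro i u v kd h3 h4 h5 h6 h7
        have hX : 3 ^ (i + 1) ≤ xc x := by
          refine (dg_sub_pow (n := xc x) (p := i + 1) ?_).1
          rw [dg_xc, if_pos h5]
        have hY : 3 ^ (i + 1) ≤ yc x := by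
          refine (dg_sub_pow (n := yc x) (p := i + 1) ?_).1
          rw [dg_yc, if_neg (by omega)]
        refine ⟨by rw [Nat.add_mod_right]; exact h3, by rw [hdx]; exact h4, ?_, ?_, ?_⟩
        · have h8 : i + (r + 4) + 1 = (i + 1) + (r + 4) := by omega
          rw [h8, hdx]
          exact h5
        · rw [hxc, mn_bs hX, mn_mu (xc_mem L) hxL hb hs, h6]
        · rw [hyc, mn_bs hY, mn_mu (yc_mem L) hyL hb hs, h7]
      have hgd : b = 1 → (r + 1) % (r + 4) = r + 1 ∧ dg n (r + 1) = 0 ∧ dg n (r + 1 + 1) = 1 ∧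
          mu r 0 (xc n - 3 ^ (r + 1 + 1) + 3 ^ (r + 1)) = some (3, some (xc L)) ∧
          mu r 0 (yc n - 3 ^ (r + 1 + 1) + 3 ^ (r + 1)) = some (3, some (yc L)) := by
        intro h3
        refine ⟨hm _ (by omega), hd0 _ (Or.inr (hm _ (by omega))), ?_, ?_, ?_⟩
        · rw [hdf 1 (by norm_num), ← hbd]
          exact h3
        · rw [hxc, h3, mn_bg]
          exact mn_mg (xc_mem L) hxL hs (x2 h3).2
        · rw [hyc, h3, mn_bg]
          exact mn_mg (yc_mem L) hyL hs (y2 h3).2
      have hL0 : L ≠ 0 → ky = 2 := fun h3 => y1 (by omega)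
      refine ⟨hkk, fun kd z h3 => ?_, fun h3 => ?_⟩
      · rw [hu] at h3
        obtain ⟨z2, h4, hz⟩ := mn_ltu h3
        rcases hb' with hb0 | hb1
        · rcases hs' with hs0 | hs1
          · rw [hb0, hs0] at h4
            rcases hux : uz r A 0 x with _ | ⟨k5, z5⟩
            · rw [hux] at h4
              simp [ust] at h4
            · have h5 := (uz_kind hux).1
              rw [hux, mn_u0 h5, mn_u0 h5] at h4
              simp only [Option.some.injEq, Prod.mk.injEq] at h4
              obtain ⟨h6, h7⟩ := i2 k5 z5 hux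
              have h8 : kd = kx := by rw [← h4.1, h6, x7 hs0 hb0]
              refine ⟨h8, fun h9 => ?_⟩
              obtain ⟨i, u, v, j1, j2, j3, j4, j5, j6⟩ := h7 (by omega)
              obtain ⟨m1, m2, m3, m4, m5⟩ := hsh i u v 3 j1 j2 j3 j4 j5
              refine ⟨_, u + xc L, v + yc L, m1, m2, m3, ?_, ?_, by omega⟩
              · rw [m4, hb0, hs0]
                exact mn_lt3 _ _
              · rw [m5, hb0, hs0]
                exact mn_lt3 _ _
          · rw [hb0, hs1] at h4
            rcases hux : ust r A (r + 3) 1 (uz r A 0 x) with _ | ⟨k5, z5⟩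
            · rw [hux] at h4
              simp [ust] at h4
            · obtain ⟨-, h6, h7⟩ := mn_u3' hux
              rw [hux, mn_u0 (by omega)] at h4
              simp only [Option.some.injEq, Prod.mk.injEq] at h4
              have h8 := x3 hb0 hs1
              exact ⟨by omega, fun h9 => by omega⟩
        · rw [hb1] at h4
          obtain ⟨-, h5, h6⟩ := mn_u2' h4
          obtain ⟨m1, m2, m3, m4, m5⟩ := hgd hb1
          have h7 := (x2 hb1).1
          exact ⟨by omega, fun _ => ⟨_, _, _, m1, m2, m3, m4, m5, by omega⟩⟩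
      · rw [hu] at h3
        rcases hux : uz r A 0 x with _ | ⟨k5, z5⟩
        · obtain ⟨i, u, v, z, j1, j2, j3, j4, j5, j6, j7⟩ := i3 hux
          obtain ⟨m1, m2, m3, m4, m5⟩ := hsh i u v kx' j1 j2 j3 j4 (by rw [j5])
          rw [x4] at hx
          rw [y4, ← i1, ← hkk] at hy
          refine ⟨_, u, v, z, m1, m2, m3, ?_, ?_, j6, j7⟩
          · rw [m4]
            exact mn_fwd hkx hkx' hb hs hx u
          · rw [m5]
            exact mn_fwd hkx hkx' hb hs hy v
        · have h5 := (uz_kind hux).1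
          obtain ⟨h6, h7⟩ := i2 k5 z5 hux
          rw [hux] at h3
          rcases hs' with hs0 | hs1
          · rw [hs0, mn_u0 h5] at h3
            rcases hb' with hb0 | hb1
            · rw [hb0, mn_u0 h5] at h3
              obtain ⟨h8, h9⟩ := mn_ltn h3
              have h10 := hL0 h8
              have h11 := x7 hs0 hb0
              omega
            · have h8 := x6 hs0 hb1
              have h9 : k5 = 1 := by omega
              subst h9
              rw [hb1, mn_u2] at h3
              exact absurd rfl (mn_ltn h3).2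
          · rw [hs1] at h3
            have h8 : k5 = 0 ∨ k5 = 2 := by
              rcases x5 hs1 with h8 | h8 <;> omega
            by_cases hgood : ust r A (r + 3) 1 (some (k5, z5)) = some (1, 0)
            · rw [hgood] at h3
              rcases hb' with hb0 | hb1
              · rw [hb0, mn_u0 (by norm_num)] at h3
                have h10 := hL0 (mn_ltn h3).1
                have h11 := x3 hb0 hs1
                omega
              · rw [hb1, mn_u2] at h3
                exact absurd rfl (mn_ltn h3).2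
            · rcases h8 with h8 | h8
              · subst h8
                exact absurd mn_u3 hgood
              · subst h8
                have hzA : z5 ∉ A := fun h9 => hgood (mn_u3A h9)
                obtain ⟨i, u, v, j1, j2, j3, j4, j5, j6⟩ := h7 rfl
                obtain ⟨m1, m2, m3, m4, m5⟩ := hsh i u v 3 j1 j2 j3 j4 j5
                rw [x4, hs1] at hx
                rw [y4, ← hkk, hs1] at hy
                refine ⟨_, u, v, z5, m1, m2, m3, ?_, ?_, j6, hzA⟩
                · rw [m4, hs1]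
                  exact mn_fwd3 hkx hkx' hb hx u
                · rw [m5, hs1]
                  exact mn_fwd3 hkx hky' hb hy v

theorem mark {r : ℕ} {A : Set ℕ} {n : ℕ} (hx : V0 (mu r 0 (xc n))) (hy : V0 (mu r 0 (yc n)))
    (h2 : ∀ p, dg n p = 2 → 1 ≤ p % (r + 4) ∧ p % (r + 4) ≤ r) (hn : n ∉ UU r A) :
    ∃ i kd u v z, i % (r + 4) = r + 1 ∧ dg n i = 0 ∧ dg n (i + 1) = 1 ∧ (kd = 2 ∨ kd = 3) ∧
      mu r 0 (xc n - 3 ^ (i + 1) + 3 ^ i) = some (kd, some u) ∧
      mu r 0 (yc n - 3 ^ (i + 1) + 3 ^ i) = some (kd, some v) ∧ u + z = 2 * v ∧ z ∉ A := by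
  obtain ⟨kx, hkx, hx'⟩ : ∃ kx, (kx = 0 ∨ kx = 2) ∧ mu r 0 (xc n) = some (kx, none) := by
    rcases hx with h | h
    · exact ⟨0, Or.inl rfl, h⟩
    · exact ⟨2, Or.inr rfl, h⟩
  obtain ⟨ky, hky, hy'⟩ : ∃ ky, (ky = 0 ∨ ky = 2) ∧ mu r 0 (yc n) = some (ky, none) := by
    rcases hy with h | h
    · exact ⟨0, Or.inl rfl, h⟩
    · exact ⟨2, Or.inr rfl, h⟩
  obtain ⟨h1, h3, h4⟩ := mark_key (A := A) n kx ky hx' hy' h2
  rcases hu : uz r A 0 n with _ | ⟨kd, z⟩
  · obtain ⟨i, u, v, z, j1, j2, j3, j4, j5, j6, j7⟩ := h4 hu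
    have h5 := (mu_mar j4).1
    exact ⟨i, kx, u, v, z, j1, j2, j3, by omega, j4, j5, j6, j7⟩
  · obtain ⟨h5, h6⟩ := h3 kd z hu
    rcases hkx with h7 | h7
    · exfalso
      have h8 := (uz_kind hu).2 (by omega)
      apply hn
      left
      rw [hu, h5, h7, h8]
    · obtain ⟨i, u, v, j1, j2, j3, j4, j5, j6⟩ := h6 (by omega)
      refine ⟨i, 3, u, v, z, j1, j2, j3, Or.inr rfl, j4, j5, j6, fun hz => hn (Or.inr ⟨z, hz, ?_⟩)⟩
      rw [hu, h5, h7]

end Pool.Agent.STN
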