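import Pool.Agent.STN.Mm
import Pool.Agent.STN.Mk

/-!
# Project STN, module Mo: the sums of a marked group

Strong induction on `Z`.  `Z = bk r L (3 b + 9 s) Z'` (`uu_blk`), `L < 3^(r-1)` (the class `r` digit is `0`).  By `a4_key` (`k = 0`, `γ = 0`) the non letter digits of `x`, `w` are those of `Z`, so `x = bk r Lx (3 b + 9 s) x'`, `w = bk r Lw (3 b + 9 s) w'` with `Lx, Lw ∈ S0` below `3^r`
(`exists_bk`, `dg_bk`); `Lx + L < 3^r` (`2 Lx < 3^r`, `2 L < 3^r`) and `2 Lw < 3^r`, so `Lx + L = 2 Lw` and `x' + Z' = 2 w'`; `a4_key` for `Z'`: the states of `x'`, `w'` are `(kd', none)` if `uz r A 0 Z' = some (kd', z')`.  If `L = 0`: `Lx = Lw = 0` (`s0_ap` with `0`), so `Lx, Lw ≤ 3^r L`.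
Case `q = r + 1` (then `b = 1`): `x - 3^(r+2) + 3^(r+1) = bk r Lx (1 + 9 s) x'`; the state before is `(1, none)`, `mu_blk`: `(3, Lx)`, `(3, Lw)`, and `z = L`, `kd = 2`.
Case `q ≥ r + 4`: `q - (r + 4)` for `x', w', Z'` (`dg_bk`), `x - 3^(q+1) + 3^q = bk r Lx (3 b + 9 s) (x' - 3^(q-(r+4)+1) + 3^(q-(r+4)))`; transitions by `mu_blk`, `uz_blk`: current group and `s = 1`: `z' ∈ A`, closed with `z0 = z'`; current group and `s = 0`: `b = 0`, sums
`u + Lx`, `v + Lw`, `z' + L`; closed group: the same transitions as for unmarked states, `u`, `v` unchanged.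
-/

set_option autoImplicit false

namespace Pool.Agent.STN

private theorem mo_lt0 (Lx m : ℕ) : lt Lx (some (3, some m)) = some (3, some (m + Lx)) := by
  by_cases h : Lx = 0
  · subst h
    simp [lt]
  · simp [lt, h]

private theorem mo_lt2 (Lx : ℕ) (m : Option ℕ) : lt Lx (some (2, m)) = some (2, m) := by
  by_cases h : Lx = 0
  · subst h
    simp [lt]
  · simp [lt, h]

private theorem mo_fs0 (r c : ℕ) (q : Option (ℕ × Option ℕ)) : fs r c 0 q = q := by
  simp [fs]

/-- the new group -/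
private theorem mo_new {r : ℕ} {A : Set ℕ} {L s kd kd' z z' : ℕ} (hs : s ≤ 1) (hk : kd' ≤ 2)
    (h : ltu L (ust r A (r + 2) 1 (ust r A (r + 3) s (some (kd', z')))) = some (kd, z)) :
    kd = 2 ∧ z = L ∧ ∀ Lx : ℕ, lt Lx (fs r (r + 1) 1 (fs r (r + 2) 0 (fs r (r + 3) s (some (kd', none))))) =
      some (3, some Lx) := by
  have hs' : s = 0 ∨ s = 1 := by omega
  have hk' : kd' = 0 ∨ kd' = 1 ∨ kd' = 2 := by omega
  have key : ltu L (some (2, 0)) = some (kd, z) → kd = 2 ∧ z = L := by
    intro h1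
    by_cases hL : L = 0
    · subst hL
      simp [ltu] at h1
      exact ⟨h1.1.symm, h1.2.symm⟩
    · simp [ltu, hL] at h1
      exact ⟨h1.1.symm, h1.2.symm⟩
  rcases hs' with rfl | rfl
  · rcases hk' with rfl | rfl | rfl
    · simp [ust, ltu] at h
    · have h2 : ust r A (r + 2) 1 (ust r A (r + 3) 0 (some (1, z'))) = some (2, 0) := by
        simp [ust]
      rw [h2] at h
      obtain ⟨h3, h4⟩ := key h
      refine ⟨h3, h4, fun Lx => ?_⟩
      have h5 : fs r (r + 1) 1 (fs r (r + 2) 0 (fs r (r + 3) 0 (some (1, none)))) = some (3, some 0) := by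
        simp [fs, stp]
      rw [h5, mo_lt0, zero_add]
    · simp [ust, ltu] at h
  · rcases hk' with rfl | rfl | rfl
    · have h2 : ust r A (r + 2) 1 (ust r A (r + 3) 1 (some (0, z'))) = some (2, 0) := by
        simp [ust]
      rw [h2] at h
      obtain ⟨h3, h4⟩ := key h
      refine ⟨h3, h4, fun Lx => ?_⟩
      have h5 : fs r (r + 1) 1 (fs r (r + 2) 0 (fs r (r + 3) 1 (some (0, none)))) = some (3, some 0) := by
        simp [fs, stp]
      rw [h5, mo_lt0, zero_add]
    · simp [ust, ltu] at h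
    · by_cases hz : z' ∈ A
      · have h2 : ust r A (r + 2) 1 (ust r A (r + 3) 1 (some (2, z'))) = some (2, 0) := by
          simp [ust, hz]
        rw [h2] at h
        obtain ⟨h3, h4⟩ := key h
        refine ⟨h3, h4, fun Lx => ?_⟩
        have h5 : fs r (r + 1) 1 (fs r (r + 2) 0 (fs r (r + 3) 1 (some (2, none)))) = some (3, some 0) := by
          simp [fs, stp]
        rw [h5, mo_lt0, zero_add]
      · simp [ust, ltu, hz] at h

/-- the current marked group -/
private theorem mo_cur {r : ℕ} {A : Set ℕ} {L b s kd z z' : ℕ} (hb : b ≤ 1) (hs : s ≤ 1)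
    (h : ltu L (ust r A (r + 2) b (ust r A (r + 3) s (some (2, z')))) = some (kd, z)) :
    (kd = 2 ∧ z = z' + L ∧ ∀ Lx u : ℕ, lt Lx (fs r (r + 1) 0 (fs r (r + 2) b (fs r (r + 3) s (some (3, some u))))) =
      some (3, some (u + Lx))) ∨
    (z' ∈ A ∧ ∀ Lx u : ℕ, (L = 0 → Lx = 0) → lt Lx (fs r (r + 1) 0 (fs r (r + 2) b (fs r (r + 3) s (some (3, some u))))) =
      some (kd, some u)) := by
  have hs' : s = 0 ∨ s = 1 := by omega
  have hb' : b = 0 ∨ b = 1 := by omega
  rcases hs' with rfl | rfl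
  · rcases hb' with rfl | rfl
    · left
      have h2 : ust r A (r + 2) 0 (ust r A (r + 3) 0 (some (2, z'))) = some (2, z') := by
        simp [ust]
      rw [h2] at h
      refine ⟨?_, ?_, ?_⟩
      · by_cases hL : L = 0
        · subst hL
          simp [ltu] at h
          exact h.1.symm
        · simp [ltu, hL] at h
          exact h.1.symm
      · by_cases hL : L = 0
        · subst hL
          simp [ltu] at h
          exact h.2.symm
        · simp [ltu, hL] at h
          exact h.2.symm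
      · intro Lx u
        rw [mo_fs0, mo_fs0, mo_fs0, mo_lt0]
    · simp [ust, ltu] at h
  · by_cases hz : z' ∈ A
    · right
      refine ⟨hz, ?_⟩
      intro Lx u hLx
      rcases hb' with rfl | rfl
      · have h2 : ust r A (r + 2) 0 (ust r A (r + 3) 1 (some (2, z'))) = some (1, 0) := by
          simp [ust, hz]
        rw [h2] at h
        have h5 : fs r (r + 1) 0 (fs r (r + 2) 0 (fs r (r + 3) 1 (some (3, some u)))) = some (1, some u) := by
          simp [fs, stp]
        rw [h5]
        by_cases hL : L = 0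
        · rw [hLx hL]
          subst hL
          simp [ltu] at h
          rw [← h.1]
          simp [lt]
        · simp [ltu, hL] at h
      · have h2 : ust r A (r + 2) 1 (ust r A (r + 3) 1 (some (2, z'))) = some (2, 0) := by
          simp [ust, hz]
        rw [h2] at h
        have h5 : fs r (r + 1) 0 (fs r (r + 2) 1 (fs r (r + 3) 1 (some (3, some u)))) = some (2, some u) := by
          simp [fs, stp]
        rw [h5, mo_lt2]
        have h6 : kd = 2 := by
          by_cases hL : L = 0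
          · subst hL
            simp [ltu] at h
            exact h.1.symm
          · simp [ltu, hL] at h
            exact h.1.symm
        rw [h6]
    · simp [ust, ltu, hz] at h

/-- a closed marked group -/
private theorem mo_old {r : ℕ} {A : Set ℕ} {L b s kd kd' z z' : ℕ} (hb : b ≤ 1) (hs : s ≤ 1) (hk : kd' ≤ 2)
    (h : ltu L (ust r A (r + 2) b (ust r A (r + 3) s (some (kd', z')))) = some (kd, z))
    (Lx u : ℕ) (hLx : L = 0 → Lx = 0) :
    lt Lx (fs r (r + 1) 0 (fs r (r + 2) b (fs r (r + 3) s (some (kd', some u))))) = some (kd, some u) := by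
  have fin : ∀ k2 z2 : ℕ, k2 ≤ 2 → ltu L (some (k2, z2)) = some (kd, z) →
      lt Lx (some (k2, some u)) = some (kd, some u) := by
    intro k2 z2 hk2 h1
    by_cases hL : L = 0
    · rw [hLx hL]
      subst hL
      simp [ltu] at h1
      simp [lt, h1.1]
    · simp only [ltu, if_neg hL] at h1
      by_cases h3 : k2 = 2
      · subst h3
        rw [if_pos rfl] at h1
        rw [mo_lt2]
        simp at h1
        rw [h1.1]
      · rw [if_neg h3] at h1
        simp at h1
  have hs' : s = 0 ∨ s = 1 := by omega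
  have hb' : b = 0 ∨ b = 1 := by omega
  have hk' : kd' = 0 ∨ kd' = 1 ∨ kd' = 2 := by omega
  have st1 : ∀ k1 z1 : ℕ, k1 ≤ 2 → ltu L (ust r A (r + 2) b (some (k1, z1))) = some (kd, z) →
      lt Lx (fs r (r + 2) b (some (k1, some u))) = some (kd, some u) := by
    intro k1 z1 hk1 h1
    have hk1' : k1 = 0 ∨ k1 = 1 ∨ k1 = 2 := by omega
    rcases hb' with rfl | rfl
    · rw [mo_fs0]
      refine fin k1 z1 hk1 ?_
      have h2 : ust r A (r + 2) 0 (some (k1, z1)) = some (k1, z1) := by
        rcases hk1' with rfl | rfl | rfl <;> simp [ust]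
      rwa [h2] at h1
    · rcases hk1' with rfl | rfl | rfl
      · simp [ust, ltu] at h1
      · have h2 : ust r A (r + 2) 1 (some (1, z1)) = some (2, 0) := by simp [ust]
        rw [h2] at h1
        have h3 : fs r (r + 2) 1 (some (1, some u)) = some (2, some u) := by simp [fs, stp]
        rw [h3]
        exact fin 2 0 le_rfl h1
      · simp [ust, ltu] at h1
  rw [mo_fs0]
  rcases hs' with rfl | rfl
  · rw [mo_fs0]
    refine st1 kd' z' hk ?_
    have h2 : ust r A (r + 3) 0 (some (kd', z')) = some (kd', z') := by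
      rcases hk' with rfl | rfl | rfl <;> simp [ust]
    rwa [h2] at h
  · rcases hk' with rfl | rfl | rfl
    · have h2 : ust r A (r + 3) 1 (some (0, z')) = some (1, 0) := by simp [ust]
      rw [h2] at h
      have h3 : fs r (r + 3) 1 (some (0, some u)) = some (1, some u) := by simp [fs, stp]
      rw [h3]
      exact st1 1 0 (by norm_num) h
    · simp [ust, ltu] at h
    · by_cases hz : z' ∈ A
      · have h2 : ust r A (r + 3) 1 (some (2, z')) = some (1, 0) := by simp [ust, hz]
        rw [h2] at h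
        have h3 : fs r (r + 3) 1 (some (2, some u)) = some (1, some u) := by simp [fs, stp]
        rw [h3]
        exact st1 1 0 (by norm_num) h
      · simp [ust, ltu, hz] at h

/-- the block of `x` -/
private theorem mo_dec {r L b s Z' x : ℕ} (hL : L < 3 ^ r) (hb : b ≤ 1) (hs : s ≤ 1) (hx : x ∈ S0)
    (hd : ∀ p, ¬ (1 ≤ p % (r + 4) ∧ p % (r + 4) ≤ r) → dg x p = dg (bk r L (3 * b + 9 * s) Z') p) :
    ∃ Lx x', Lx < 3 ^ r ∧ Lx ∈ S0 ∧ x' ∈ S0 ∧ x = bk r Lx (3 * b + 9 * s) x' := by
  have hf : 3 * b + 9 * s < 27 := by omega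
  have h0 : x % 3 = 0 := by
    have h1 := hd 0 (by simp)
    rw [dg_bk hL hf, if_pos rfl, dg_zero'] at h1
    exact h1
  obtain ⟨Lx, fx, x', hLx, hfx, he⟩ := exists_bk (r := r) h0
  have hdx : ∀ p, dg x p = if p = 0 then 0 else if p ≤ r then dg Lx (p - 1) else
      if p < r + 4 then dg fx (p - (r + 1)) else dg x' (p - (r + 4)) := by
    intro p
    rw [he]
    exact dg_bk hLx hfx p
  have hfeq : ∀ j, j < 3 → dg fx j = dg (3 * b + 9 * s) j := by
    intro j hj
    have h1 := hd (r + 1 + j) (by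
      have : (r + 1 + j) % (r + 4) = r + 1 + j := Nat.mod_eq_of_lt (by omega)
      omega)
    rw [hdx, dg_bk hL hf] at h1
    rw [if_neg (by omega), if_neg (by omega), if_pos (by omega), if_neg (by omega), if_neg (by omega),
      if_pos (by omega)] at h1
    have h2 : r + 1 + j - (r + 1) = j := by omega
    rw [h2] at h1
    exact h1
  have hfe : fx = 3 * b + 9 * s := by
    have h1 := hfeq 0 (by norm_num)
    have h2 := hfeq 1 (by norm_num)
    have h3 := hfeq 2 (by norm_num)
    unfold dg at h1 h2 h3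
    norm_num at h1 h2 h3
    omega
  refine ⟨Lx, x', hLx, ?_, ?_, by rw [he, hfe]⟩
  · intro p
    by_cases hp : p < r
    · have h1 := hx (p + 1)
      rw [hdx, if_neg (by omega), if_pos (by omega)] at h1
      exact h1
    · rw [dg_of_lt (hLx.trans_le (Nat.pow_le_pow_right (by norm_num) (by omega)))]
      exact Nat.zero_le _
  · intro p
    have h1 := hx (p + (r + 4))
    rw [hdx, if_neg (by omega), if_neg (by omega), if_neg (by omega), Nat.add_sub_cancel] at h1
    exact h1

theorem leg_key {r : ℕ} {A : Set ℕ} (hr : 1 ≤ r) (Z : ℕ) : ∀ x w kd z q : ℕ, x ∈ S0 → w ∈ S0 →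
    x + Z = 2 * w → uz r A 0 Z = some (kd, z) → (∀ p, p % (r + 4) = r → dg Z p = 0) →
    q % (r + 4) = r + 1 → dg Z (q + 1) = 1 →
    (kd = 2 ∧ ∃ u v, mu r 0 (x - 3 ^ (q + 1) + 3 ^ q) = some (3, some u) ∧
      mu r 0 (w - 3 ^ (q + 1) + 3 ^ q) = some (3, some v) ∧ u + z = 2 * v ∧ u ≤ 3 ^ r * z ∧ v ≤ 3 ^ r * z) ∨
    ∃ z0 ∈ A, ∃ u v, mu r 0 (x - 3 ^ (q + 1) + 3 ^ q) = some (kd, some u) ∧
      mu r 0 (w - 3 ^ (q + 1) + 3 ^ q) = some (kd, some v) ∧ u + z0 = 2 * v ∧
      u ≤ 3 ^ r * z0 ∧ v ≤ 3 ^ r * z0 := by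
  induction Z using Nat.strong_induction_on with
  | _ Z ih =>
    intro x w kd z q hx hw hxw hZ hcl hq hdq
    obtain ⟨L, b, s, Z', hL, hb, hs, hZe⟩ := uu_blk hZ
    have hf : 3 * b + 9 * s < 27 := by omega
    obtain ⟨hmx, hmw, hdg⟩ := a4_key (A := A) Z 0 0 x w kd z hx hw (by rw [add_zero]; exact hxw) hZ
      (fun p hp => hcl p (by rwa [zero_add] at hp)) (Or.inl rfl)
    have hdgx : ∀ p, ¬ (1 ≤ p % (r + 4) ∧ p % (r + 4) ≤ r) → dg x p = dg (bk r L (3 * b + 9 * s) Z') p := by
      intro p hp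
      rw [← hZe]
      exact (hdg p (by rwa [zero_add])).1
    have hdgw : ∀ p, ¬ (1 ≤ p % (r + 4) ∧ p % (r + 4) ≤ r) → dg w p = dg (bk r L (3 * b + 9 * s) Z') p := by
      intro p hp
      rw [← hZe]
      exact (hdg p (by rwa [zero_add])).2
    obtain ⟨Lx, x', hLx, hLxS, hx'S, hxe⟩ := mo_dec hL hb hs hx hdgx
    obtain ⟨Lw, w', hLw, hLwS, hw'S, hwe⟩ := mo_dec hL hb hs hw hdgw
    have hdZ : ∀ p, dg Z p = if p = 0 then 0 else if p ≤ r then dg L (p - 1) else
        if p < r + 4 then dg (3 * b + 9 * s) (p - (r + 1)) else dg Z' (p - (r + 4)) := by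
      intro p
      rw [hZe]
      exact dg_bk hL hf p
    -- the top letter of `Z` vanishes
    have hL2 : 2 * L < 3 ^ r := by
      have h1 := hcl r (Nat.mod_eq_of_lt (by omega))
      rw [hdZ, if_neg (by omega), if_pos le_rfl] at h1
      have h2 : 3 ^ r = 3 ^ (r - 1) * 3 := by
        rw [← pow_succ]
        congr 1
        omega
      unfold dg at h1
      have h3 : L / 3 ^ (r - 1) < 3 := by
        rw [Nat.div_lt_iff_lt_mul (by positivity), mul_comm, ← h2]
        exact hL
      have h4 : L / 3 ^ (r - 1) = 0 := by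
        generalize L / 3 ^ (r - 1) = t at h1 h3
        omega
      have h5 : L < 3 ^ (r - 1) := by
        rcases Nat.div_eq_zero_iff.mp h4 with h6 | h6
        · have : 0 < 3 ^ (r - 1) := by positivity
          omega
        · exact h6
      omega
    have hLx2 : 2 * Lx < 3 ^ r := by
      have h1 := s0_two hLxS r
      rw [Nat.mod_eq_of_lt hLx] at h1
      omega
    have hLw2 : 2 * Lw < 3 ^ r := by
      have h1 := s0_two hLwS r
      rw [Nat.mod_eq_of_lt hLw] at h1
      omega
    have hsum : Lx + L = 2 * Lw ∧ x' + Z' = 2 * w' := by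
      have e1 : bk r Lx (3 * b + 9 * s) x' + bk r L (3 * b + 9 * s) Z' =
          2 * bk r Lw (3 * b + 9 * s) w' := by
        rw [← hxe, ← hwe, ← hZe]
        exact hxw
      unfold bk at e1
      have e2 : 3 ^ (r + 4) = 3 * (27 * 3 ^ r) := by ring
      have e3 : 3 ^ (r + 1) = 3 * 3 ^ r := by ring
      rw [e2, e3] at e1
      have e4 : (Lx + L) + (27 * 3 ^ r) * (x' + Z') = 2 * Lw + (27 * 3 ^ r) * (2 * w') := by
        nlinarith [e1]
      have p1 : 0 < 27 * 3 ^ r := by positivity
      have l1 : Lx + L < 27 * 3 ^ r := by omega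
      have l2 : 2 * Lw < 27 * 3 ^ r := by omega
      constructor
      · have := congrArg (· % (27 * 3 ^ r)) e4
        simp only [Nat.add_mul_mod_self_left] at this
        rwa [Nat.mod_eq_of_lt l1, Nat.mod_eq_of_lt l2] at this
      · have := congrArg (· / (27 * 3 ^ r)) e4
        simp only [Nat.add_mul_div_left _ _ p1] at this
        rwa [Nat.div_eq_of_lt l1, Nat.div_eq_of_lt l2, zero_add, zero_add] at this
    obtain ⟨hs1, hs2⟩ := hsum
    have hL0 : L = 0 → Lx = 0 ∧ Lw = 0 := by
      intro h0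
      have h1 := s0_ap hLxS hLwS s0_zero (by rw [← hs1, h0])
      exact ⟨by rw [h1.1, ← h1.2], h1.2.symm⟩
    have hbLx : Lx ≤ 3 ^ r * L := by
      by_cases h0 : L = 0
      · rw [(hL0 h0).1]
        exact Nat.zero_le _
      · exact hLx.le.trans (Nat.le_mul_of_pos_right _ (Nat.pos_of_ne_zero h0))
    have hbLw : Lw ≤ 3 ^ r * L := by
      by_cases h0 : L = 0
      · rw [(hL0 h0).2]
        exact Nat.zero_le _
      · exact hLw.le.trans (Nat.le_mul_of_pos_right _ (Nat.pos_of_ne_zero h0))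
    -- the state of `Z'`
    have hu : ltu L (ust r A (r + 2) b (ust r A (r + 3) s (uz r A 0 Z'))) = some (kd, z) := by
      rw [← uz_blk hL hb hs, ← hZe]
      exact hZ
    obtain ⟨kd', z', hZ'⟩ : ∃ kd' z', uz r A 0 Z' = some (kd', z') := by
      rcases h1 : uz r A 0 Z' with _ | ⟨a, c⟩
      · rw [h1] at hu
        simp [ust, ltu] at hu
      · exact ⟨a, c, rfl⟩
    rw [hZ'] at hu
    have hk' : kd' ≤ 2 := (uz_kind hZ').1
    have hcl' : ∀ p, p % (r + 4) = r → dg Z' p = 0 := by
      intro p hp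
      have h1 := hcl (p + (r + 4)) (by rw [Nat.add_mod_right]; exact hp)
      rw [hdZ, if_neg (by omega), if_neg (by omega), if_neg (by omega), Nat.add_sub_cancel] at h1
      exact h1
    obtain ⟨hmx', hmw', hdg'⟩ := a4_key (A := A) Z' 0 0 x' w' kd' z' hx'S hw'S (by rw [add_zero]; exact hs2) hZ'
      (fun p hp => hcl' p (by rwa [zero_add] at hp)) (Or.inl rfl)
    by_cases hqr : q = r + 1
    · -- the new group
      subst hqr
      have hb1 : b = 1 := by
        have h1 := hdq
        rw [hdZ, if_neg (by omega), if_neg (by omega), if_pos (by omega)] at h1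
        have h2 : r + 1 + 1 - (r + 1) = 1 := by omega
        rw [h2] at h1
        unfold dg at h1
        norm_num at h1
        omega
      subst hb1
      obtain ⟨h1, h2, h3⟩ := mo_new hs hk' hu
      have hsh : ∀ Ly y : ℕ, bk r Ly (3 * 1 + 9 * s) y - 3 ^ (r + 1 + 1) + 3 ^ (r + 1) =
          bk r Ly (1 + 3 * 0 + 9 * s) y := by
        intro Ly y
        unfold bk
        have e3 : 3 ^ (r + 1 + 1) = 3 ^ (r + 1) * 3 := by ring
        have e4 : 3 ^ (r + 1) * (3 * 1 + 9 * s) = 3 ^ (r + 1) * 3 + 3 ^ (r + 1) * (9 * s) := by ring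
        have e5 : 3 ^ (r + 1) * (1 + 3 * 0 + 9 * s) = 3 ^ (r + 1) + 3 ^ (r + 1) * (9 * s) := by ring
        rw [e3, e4, e5]
        omega
      left
      refine ⟨h1, Lx, Lw, ?_, ?_, by rw [h2]; exact hs1, by rw [h2]; exact hbLx, by rw [h2]; exact hbLw⟩
      · rw [hxe, hsh, mu_blk hLxS hLx le_rfl (by norm_num) hs, hmx']
        exact h3 Lx
      · rw [hwe, hsh, mu_blk hLwS hLw le_rfl (by norm_num) hs, hmw']
        exact h3 Lw
    · -- an old group
      have hq4 : r + 4 ≤ q := by
        by_contra hc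
        rw [Nat.mod_eq_of_lt (by omega)] at hq
        exact hqr hq
      obtain ⟨q', rfl⟩ : ∃ q', q = q' + (r + 4) := ⟨q - (r + 4), by omega⟩
      rw [Nat.add_mod_right] at hq
      have hdq' : dg Z' (q' + 1) = 1 := by
        have h1 := hdq
        rw [hdZ, if_neg (by omega), if_neg (by omega), if_neg (by omega)] at h1
        have h2 : q' + (r + 4) + 1 - (r + 4) = q' + 1 := by omega
        rw [h2] at h1
        exact h1
      have hZ'0 : Z' ≠ 0 := by
        intro h0
        rw [h0, dg_zero_left] at hdq'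
        omega
      have hlt : Z' < Z := by
        rw [hZe]
        unfold bk
        have h1 : 1 < 3 ^ (r + 4) := Nat.one_lt_pow (by omega) (by norm_num)
        have h2 : Z' < 3 ^ (r + 4) * Z' := by
          have : 1 * Z' < 3 ^ (r + 4) * Z' := Nat.mul_lt_mul_of_pos_right h1 (Nat.pos_of_ne_zero hZ'0)
          omega
        omega
      have hq1 : ¬ (1 ≤ (q' + 1) % (r + 4) ∧ (q' + 1) % (r + 4) ≤ r) := by
        have : (q' + 1) % (r + 4) = r + 2 := by
          rw [Nat.add_mod, hq, Nat.mod_eq_of_lt (show 1 < r + 4 by omega)]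
          exact Nat.mod_eq_of_lt (by omega)
        omega
      have hdd := hdg' (q' + 1) (by rwa [zero_add])
      have hpx : 3 ^ (q' + 1) ≤ x' := (dg_sub_pow (n := x') (p := q' + 1) (by rw [hdd.1, hdq'])).1
      have hpw : 3 ^ (q' + 1) ≤ w' := (dg_sub_pow (n := w') (p := q' + 1) (by rw [hdd.2, hdq'])).1
      have hsh : ∀ Ly y : ℕ, 3 ^ (q' + 1) ≤ y →
          bk r Ly (3 * b + 9 * s) y - 3 ^ (q' + (r + 4) + 1) + 3 ^ (q' + (r + 4)) =
          bk r Ly (0 + 3 * b + 9 * s) (y - 3 ^ (q' + 1) + 3 ^ q') := by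
        intro Ly y hy
        obtain ⟨t, rfl⟩ := Nat.exists_eq_add_of_le hy
        unfold bk
        have e1 : 3 ^ (q' + 1) + t - 3 ^ (q' + 1) = t := by omega
        have e2 : 3 ^ (r + 4) * (3 ^ (q' + 1) + t) = 3 ^ (q' + (r + 4) + 1) + 3 ^ (r + 4) * t := by ring
        have e3 : 3 ^ (r + 4) * (t + 3 ^ q') = 3 ^ (r + 4) * t + 3 ^ (q' + (r + 4)) := by ring
        rw [e1, e2, e3, zero_add]
        omega
      have hmX : mu r 0 (x - 3 ^ (q' + (r + 4) + 1) + 3 ^ (q' + (r + 4))) =
          lt Lx (fs r (r + 1) 0 (fs r (r + 2) b (fs r (r + 3) s (mu r 0 (x' - 3 ^ (q' + 1) + 3 ^ q'))))) := by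
        rw [hxe, hsh _ _ hpx, mu_blk hLxS hLx (by norm_num) hb hs]
      have hmW : mu r 0 (w - 3 ^ (q' + (r + 4) + 1) + 3 ^ (q' + (r + 4))) =
          lt Lw (fs r (r + 1) 0 (fs r (r + 2) b (fs r (r + 3) s (mu r 0 (w' - 3 ^ (q' + 1) + 3 ^ q'))))) := by
        rw [hwe, hsh _ _ hpw, mu_blk hLwS hLw (by norm_num) hb hs]
      rcases ih Z' hlt x' w' kd' z' q' hx'S hw'S hs2 hZ' hcl' hq hdq' with
        ⟨hk2, u, v, h1, h2, h3, h4, h5⟩ | ⟨z0, hz0, u, v, h1, h2, h3, h4, h5⟩
      · subst hk2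
        rcases mo_cur hb hs hu with ⟨g1, g2, g3⟩ | ⟨g1, g3⟩
        · left
          refine ⟨g1, u + Lx, v + Lw, ?_, ?_, ?_, ?_, ?_⟩
          · rw [hmX, h1]
            exact g3 Lx u
          · rw [hmW, h2]
            exact g3 Lw v
          · rw [g2]
            omega
          · rw [g2, mul_add]
            omega
          · rw [g2, mul_add]
            omega
        · right
          refine ⟨z', g1, u, v, ?_, ?_, h3, h4, h5⟩
          · rw [hmX, h1]
            exact g3 Lx u fun h0 => (hL0 h0).1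
          · rw [hmW, h2]
            exact g3 Lw v fun h0 => (hL0 h0).2
      · right
        refine ⟨z0, hz0, u, v, ?_, ?_, h3, h4, h5⟩
        · rw [hmX, h1]
          exact mo_old hb hs hk' hu Lx u fun h0 => (hL0 h0).1
        · rw [hmW, h2]
          exact mo_old hb hs hk' hu Lw v fun h0 => (hL0 h0).2

end Pool.Agent.STN
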