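import Pool.Agent.STN.Mo

/-!
# Project STN, module Mp: legality of marked pairs

`X + Z = 2 W + 4 3^q`, `q ≥ 1`.  Modulo `3^q`: `dg Z (q-1) = 0` (class `r`, `uz_top`), so `X % 3^q + Z % 3^q < 3^q`, `2 (W % 3^q) < 3^q` (`s0_two`): equal (as in `split_mod`); the digit at `q`: `dg X q + dg Z q ≡ 2 dg W q + 4 (mod 3)`, `dg Z q = 0` (`uz_dig`), `dg W q = 0`, so `dg X q = 1`.
`mu_mar` for `X`: its guard is `q` (the only digit one of the class `r + 1`), so `dg X (q + 1) = 0`.  `x = X - 3^q + 3^(q+1)`, `w = W + 3^(q+1)` are in `S0`, `x + Z = 2 w`; `X = x - 3^(q+1) + 3^q`, `W + 3^q = w - 3^(q+1) + 3^q`.  `a4`: `dg Z (q + 1) = dg x (q + 1) = 1`.  `leg_key`.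
In the first case `Z ∈ UU` gives `z ∈ A`.  `z0 < 3^(r-1)` gives `u, v ≤ 3^r 3^(r-1) < VV r`.
-/

set_option autoImplicit false

namespace Pool.Agent.STN

private theorem mp_mod {X W Z q : ℕ} (hX : X ∈ S0) (hW : W ∈ S0) (hq : 1 ≤ q)
    (hz1 : dg Z (q - 1) = 0) (hz : dg Z q = 0) (h0 : dg W q = 0)
    (h : X + Z = 2 * (W + 2 * 3 ^ q)) : dg X q = 1 := by
  have hpos : 0 < 3 ^ (q - 1) := by positivity
  have hpq : 3 ^ q = 3 * 3 ^ (q - 1) := by
    have e : q = (q - 1) + 1 := by omega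
    calc 3 ^ q = 3 ^ ((q - 1) + 1) := by rw [← e]
      _ = 3 * 3 ^ (q - 1) := by rw [pow_succ, mul_comm]
  have e1 := Nat.mod_add_div X (3 ^ q)
  have e2 := Nat.mod_add_div Z (3 ^ q)
  have e3 := Nat.mod_add_div W (3 ^ q)
  have b1 := s0_two hX q
  have b3 := s0_two hW q
  have b2 : Z % 3 ^ q < 3 ^ (q - 1) := by
    have e : Z % 3 ^ q = Z % 3 ^ (q - 1) + 3 ^ (q - 1) * (Z / 3 ^ (q - 1) % 3) := by
      rw [hpq, mul_comm 3 (3 ^ (q - 1)), Nat.mod_mul]
    have e' : Z / 3 ^ (q - 1) % 3 = 0 := hz1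
    rw [e, e', mul_zero, add_zero]
    exact Nat.mod_lt _ hpos
  have d1 : X / 3 ^ q % 3 = dg X q := rfl
  have d2 : Z / 3 ^ q % 3 = 0 := hz
  have d3 : W / 3 ^ q % 3 = 0 := h0
  rw [← d1]
  have c1 := Nat.mod_add_div (X / 3 ^ q) 3
  generalize hP : 3 ^ q = P at *
  generalize hQ : 3 ^ (q - 1) = Q at *
  generalize X % P = xa at *
  generalize Z % P = za at *
  generalize W % P = wa at *
  generalize X / P = xd at *
  generalize Z / P = zd at *
  generalize W / P = wd at *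
  -- `xa + za - 2 wa = P (2 wd + 4 - xd - zd)`
  have key : (xa : ℤ) + za - 2 * wa = P * (2 * wd + 4 - xd - zd) := by
    have h' : (X : ℤ) + Z = 2 * (W + 2 * P) := by exact_mod_cast h
    have e1' : (xa : ℤ) + P * xd = X := by exact_mod_cast e1
    have e2' : (za : ℤ) + P * zd = Z := by exact_mod_cast e2
    have e3' : (wa : ℤ) + P * wd = W := by exact_mod_cast e3
    rw [← e1', ← e2', ← e3'] at h'
    linarith
  have hP0 : (0 : ℤ) < P := by
    have : 0 < P := by omega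
    exact_mod_cast this
  have k0 : (2 * wd + 4 - xd - zd : ℤ) = 0 := by
    have u1 : (xa : ℤ) + za - 2 * wa < P := by
      have : xa + za < P := by omega
      have h2 : (xa : ℤ) + za < P := by exact_mod_cast this
      have h3 : (0 : ℤ) ≤ wa := by positivity
      linarith
    have u2 : -(P : ℤ) < (xa : ℤ) + za - 2 * wa := by
      have h2 : (2 * (wa : ℤ)) + 1 ≤ P := by exact_mod_cast b3
      have h3 : (0 : ℤ) ≤ xa := by positivity
      have h4 : (0 : ℤ) ≤ za := by positivity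
      linarith
    rw [key] at u1 u2
    have v1 : (2 * wd + 4 - xd - zd : ℤ) < 1 := by
      by_contra hc
      have := not_lt.1 hc
      nlinarith
    have v2 : (-1 : ℤ) < 2 * wd + 4 - xd - zd := by
      by_contra hc
      have := not_lt.1 hc
      nlinarith
    omega
  have k1 : xd + zd = 2 * wd + 4 := by
    have : (xd : ℤ) + zd = 2 * wd + 4 := by linarith
    exact_mod_cast this
  omega

theorem mark_leg {r : ℕ} {A : Set ℕ} (hr : 1 ≤ r) (hA : ∀ a ∈ A, a < 3 ^ (r - 1)) {X W Z q : ℕ}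
    (hX : X ∈ S0) (hW : W ∈ S0) (hq : q % (r + 4) = r + 1) (h0 : dg W q = 0) (h1 : dg W (q + 1) = 0)
    (hZ : Z ∈ UU r A) (h : X + Z = 2 * (W + 2 * 3 ^ q)) (hmX : V1 (mu r 0 X)) (hmW : V1 (mu r 0 (W + 3 ^ q))) :
    ∃ kd u v, ∃ z0 ∈ A, mu r 0 X = some (kd, some u) ∧ mu r 0 (W + 3 ^ q) = some (kd, some v) ∧
      u + z0 = 2 * v ∧ u < VV r ∧ v < VV r := by
  have hl : 0 < r + 4 := by omega
  have hq1 : 1 ≤ q := by
    rcases Nat.eq_zero_or_pos q with h2 | h2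
    · subst h2
      rw [Nat.zero_mod] at hq
      omega
    · exact h2
  have hqm : (q - 1) % (r + 4) = r := by
    have e := Nat.mod_add_div q (r + 4)
    rw [hq] at e
    have e' : q - 1 = r + (r + 4) * (q / (r + 4)) := by omega
    rw [e', Nat.add_mul_mod_self_left, Nat.mod_eq_of_lt (by omega)]
  have hqp : (q + 1) % (r + 4) = r + 2 := by
    have e := Nat.mod_add_div q (r + 4)
    rw [hq] at e
    have e' : q + 1 = (r + 2) + (r + 4) * (q / (r + 4)) := by omega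
    rw [e', Nat.add_mul_mod_self_left, Nat.mod_eq_of_lt (by omega)]
  have hz1 : dg Z (q - 1) = 0 := uz_top hr hA hZ _ hqm
  have hzq : dg Z q = 0 := by
    rcases hZ with hz | ⟨z, -, hz⟩
    · refine (uz_dig hz q).1 (Or.inr ?_)
      rw [zero_add]
      exact hq
    · refine (uz_dig hz q).1 (Or.inr ?_)
      rw [zero_add]
      exact hq
  have hxq : dg X q = 1 := mp_mod hX hW hq1 hz1 hzq h0 h
  have hxq1 : dg X (q + 1) = 0 := by
    have hm : ∃ kd u, mu r 0 X = some (kd, some u) := by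
      obtain ⟨u, hu | hu⟩ := hmX
      · exact ⟨2, u, hu⟩
      · exact ⟨3, u, hu⟩
    obtain ⟨kd, u, hm⟩ := hm
    obtain ⟨-, -, -, i, hi, -, hi1, huniq, -⟩ := mu_mar hm
    have hqi : q = i := by
      by_contra hc
      have h2 := huniq q (by rw [zero_add]; exact hq) hc
      omega
    rw [hqi]
    exact hi1
  obtain ⟨hle, hsub⟩ := dg_sub_pow (n := X) (p := q) (by omega)
  have hx1 : X - 3 ^ q ∈ S0 := s0_sub_pow hX hxq
  have hx1d : dg (X - 3 ^ q) (q + 1) = 0 := by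
    rw [hsub, if_neg (by omega)]
    exact hxq1
  have hx : X - 3 ^ q + 3 ^ (q + 1) ∈ S0 := s0_add_pow hx1 hx1d
  have hw : W + 3 ^ (q + 1) ∈ S0 := s0_add_pow hW h1
  have hpow : 3 ^ (q + 1) = 3 * 3 ^ q := by rw [pow_succ, mul_comm]
  have hsum : X - 3 ^ q + 3 ^ (q + 1) + Z = 2 * (W + 3 ^ (q + 1)) := by
    rw [hpow]
    omega
  have hd1 : dg (X - 3 ^ q + 3 ^ (q + 1)) (q + 1) = 1 := by
    rw [dg_add_pow (by omega), if_pos rfl, hx1d]
  obtain ⟨-, -, ha4⟩ := a4 hr hA hx hw hZ hsum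
  have hzq1 : dg Z (q + 1) = 1 := by
    rw [← (ha4 (q + 1) (by rw [hqp]; omega)).1]
    exact hd1
  have hback1 : X - 3 ^ q + 3 ^ (q + 1) - 3 ^ (q + 1) + 3 ^ q = X := by omega
  have hback2 : W + 3 ^ (q + 1) - 3 ^ (q + 1) + 3 ^ q = W + 3 ^ q := by omega
  have htop : ∀ p, p % (r + 4) = r → dg Z p = 0 := fun p hp => uz_top hr hA hZ p hp
  have hbd : ∀ z ∈ A, ∀ u, u ≤ 3 ^ r * z → u < VV r := by
    intro z hz u hu
    have h2 := hA z hz
    have h3 : 3 ^ r * z ≤ 3 ^ r * 3 ^ (r - 1) := Nat.mul_le_mul_left _ h2.le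
    have h4 : 3 ^ r * 3 ^ (r - 1) ≤ 3 ^ (2 * r) := by
      rw [← pow_add]
      exact Nat.pow_le_pow_right (by norm_num) (by omega)
    unfold VV
    omega
  have hmain : ∀ kd z, uz r A 0 Z = some (kd, z) → (kd = 2 → z ∈ A) →
      ∃ kd u v, ∃ z0 ∈ A, mu r 0 X = some (kd, some u) ∧ mu r 0 (W + 3 ^ q) = some (kd, some v) ∧
      u + z0 = 2 * v ∧ u < VV r ∧ v < VV r := by
    intro kd z hu hkz
    have hk := leg_key (A := A) hr Z _ _ kd z q hx hw hsum hu htop hq hzq1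
    rw [hback1, hback2] at hk
    rcases hk with ⟨hkd, u, v, m1, m2, e, b1, b2⟩ | ⟨z0, hz0, u, v, m1, m2, e, b1, b2⟩
    · exact ⟨3, u, v, z, hkz hkd, m1, m2, e, hbd z (hkz hkd) u b1, hbd z (hkz hkd) v b2⟩
    · exact ⟨kd, u, v, z0, hz0, m1, m2, e, hbd z0 hz0 u b1, hbd z0 hz0 v b2⟩
  rcases hZ with hz | ⟨z, hzA, hz⟩
  · exact hmain 0 0 hz (fun h2 => absurd h2 (by norm_num))
  · exact hmain 2 z hz (fun _ => hzA)

end Pool.Agent.STN
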