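import Pool.Agent.STN.Mp
import Pool.Agent.STN.Mn
import Pool.Agent.STN.Mf

/-!
# Project STN, module Mq: every `n` outside `U` has a legal representation (A5)

(1) If `mu (xc n)` or `mu (yc n)` is not in `V0`: `X = xc n`, `Y = yc n`; legal by `a4` (states agree up to `sat`: `V0_sat`).
(2) Both in `V0`: the digits of `n` in the classes `0`, `r + 1` vanish (`mu_unm`, `dg_yc`).  If for `s = r + 2` or `s = r + 3` `tw (r+4) s 0 n > 0`: if it is not `0` mod `3` the canonical pair is legal (`cs_can`, `a4_cs`: legality depends only on `sg`); otherwise it is at least `3`: `flip` gives `x < y` with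
`cs y = cs x + 1` in the class `s`: legal.
(3) Otherwise digits two only in the classes `1..r`: `mark`: `i, kd, u, v, z`.  `X = xc n - 3^(i+1) + 3^i`, `w = yc n - 3^(i+1)`, `Y = w + 2 3^i`; `dg w i = dg w (i+1) = 0`, `Y ∈ Cv r (sg r (w + 3^i))`; `X + n = 2 Y` (`can_eq`), `X < Y` (`xc_le`).  Legal: let `X'`, `Y' = W + 2 3^q`, `Z` be a violation;
`mark_leg`: `kd', u', v', z0`; `sat` of the states agree, `u', v' < VV r`, so `u' = u`, `v' = v` (`min V u = min V u' = u' < V`), `z = z0 ∈ A`: contradiction.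
-/

set_option autoImplicit false

namespace Pool.Agent.STN

/-- equal states have equal class sums -/
private theorem mq_cs {r x x' s : ℕ} (h : sg r x = sg r x') (hs : s < r + 4) :
    cs (r + 4) s 0 x = cs (r + 4) s 0 x' := by
  have h1 := congrArg Prod.fst h
  exact congrFun h1 ⟨s, hs⟩

/-- equal states have equal saturated automaton states -/
private theorem mq_sat {r x x' : ℕ} (h : sg r x = sg r x') :
    sat (VV r) (mu r 0 x) = sat (VV r) (mu r 0 x') := congrArg Prod.snd h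

private theorem mq_V0 {r x x' : ℕ} (h : sg r x = sg r x') (h0 : V0 (mu r 0 x)) : V0 (mu r 0 x') := by
  have h1 : V0 (sat (VV r) (mu r 0 x)) := V0_sat.mpr h0
  rw [mq_sat h] at h1
  exact V0_sat.mp h1

private theorem mq_V1 {r x x' : ℕ} (h : sg r x = sg r x') (h0 : V1 (mu r 0 x)) : V1 (mu r 0 x') := by
  have h1 : V1 (sat (VV r) (mu r 0 x)) := V1_sat.mpr h0
  rw [mq_sat h] at h1
  exact V1_sat.mp h1

/-- states with exact sums below the bound -/
private theorem mq_ex {V kd kd' u u' : ℕ} (h : sat V (some (kd', some u')) = sat V (some (kd, some u)))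
    (hu : u' < V) : u' = u := by
  have h1 : (some (kd', some (min V u')) : Option (ℕ × Option ℕ)) = some (kd, some (min V u)) := h
  have h2 := Option.some.inj h1
  have h3 : (some (min V u') : Option ℕ) = some (min V u) := congrArg Prod.snd h2
  have h4 := Option.some.inj h3
  omega

/-- a pair with different class sums outside the letters is legal -/
private theorem mq_leg {r : ℕ} {A : Set ℕ} (hr : 1 ≤ r) (hA : ∀ a ∈ A, a < 3 ^ (r - 1)) {X Y s : ℕ}
    (hs : s < r + 4) (hs' : ¬ (1 ≤ s ∧ s ≤ r)) (hne : cs (r + 4) s 0 X ≠ cs (r + 4) s 0 Y) :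
    Leg 0 (Gq r (sg r X)) (Gq r (sg r Y)) (UU r A) := by
  rintro X' ⟨hX', hsX⟩ Y' ⟨hY', hsY⟩ Z hZ h
  rw [add_zero] at h
  apply hne
  rw [← mq_cs hsX hs, ← mq_cs hsY hs]
  exact a4_cs hr hA hX' hY' hZ h hs'

theorem a5 {r : ℕ} {A : Set ℕ} (hr : 1 ≤ r) (hA : ∀ a ∈ A, a < 3 ^ (r - 1)) {n : ℕ} (hn : n ∉ UU r A) :
    (∃ X ∈ S0, ∃ Y ∈ S0, X + n = 2 * Y ∧ X ≤ Y ∧ Leg 0 (Gq r (sg r X)) (Gq r (sg r Y)) (UU r A)) ∨
    ∃ X ∈ S0, ∃ v, V1 v.2 ∧ v ∈ sg r '' S0 ∧ ∃ Y ∈ Cv r v, X + n = 2 * Y ∧ X < Y ∧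
      Leg 0 (Gq r (sg r X)) (Cv r v) (UU r A) := by
  by_cases hV : V0 (mu r 0 (xc n)) ∧ V0 (mu r 0 (yc n))
  swap
  · left
    refine ⟨xc n, xc_mem n, yc n, yc_mem n, can_eq n, xc_le n, ?_⟩
    rintro X' ⟨hX', hsX⟩ Y' ⟨hY', hsY⟩ Z hZ h
    rw [add_zero] at h
    obtain ⟨h1, h2, -⟩ := a4 hr hA hX' hY' hZ h
    exact hV ⟨mq_V0 hsX h1, mq_V0 hsY h2⟩
  obtain ⟨hx, hy⟩ := hV
  -- digits in the classes `0` and `r + 1` vanish
  have hdig : ∀ p, (p % (r + 4) = 0 ∨ p % (r + 4) = r + 1) → dg n p = 0 := by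
    intro p hp
    have h1 : ∃ kd, mu r 0 (yc n) = some (kd, none) := by
      rcases hy with h | h
      · exact ⟨0, h⟩
      · exact ⟨2, h⟩
    obtain ⟨kd, hkd⟩ := h1
    have h2 := (mu_unm hkd).2 p (by rw [zero_add]; exact hp)
    rw [dg_yc] at h2
    by_contra h3
    rw [if_neg h3] at h2
    exact one_ne_zero h2
  -- the sync classes
  by_cases htw : ∃ s, s < r + 4 ∧ r + 2 ≤ s ∧ 0 < tw (r + 4) s 0 n
  · obtain ⟨s, hs, hs2, ht⟩ := htw
    have hs' : ¬ (1 ≤ s ∧ s ≤ r) := by omega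
    left
    by_cases h3 : ((tw (r + 4) s 0 n : ℕ) : ZMod 3) = 0
    · have h4 : 3 ∣ tw (r + 4) s 0 n := (ZMod.natCast_eq_zero_iff _ _).mp h3
      have h5 : 2 ≤ tw (r + 4) s 0 n := by omega
      obtain ⟨x, hx0, y, hy0, hlt, heq, hcs⟩ := flip (l := r + 4) (s := s) (n := n) (by omega) hs
        (fun p hp => hdig p (Or.inl hp)) h5
      refine ⟨x, hx0, y, hy0, heq, hlt.le, mq_leg hr hA hs hs' ?_⟩
      intro h6
      rw [h3, add_zero, ← h6] at hcs
      have h7 : (1 : ZMod 3) = 0 := by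
        have h8 : cs (r + 4) s 0 x + 1 = cs (r + 4) s 0 x + 0 := by rw [add_zero]; exact hcs.symm
        exact add_left_cancel h8
      exact absurd h7 (by decide)
    · refine ⟨xc n, xc_mem n, yc n, yc_mem n, can_eq n, xc_le n, mq_leg hr hA hs hs' ?_⟩
      intro h6
      have h7 := cs_can (r + 4) s 0 n
      rw [← h6] at h7
      apply h3
      have h8 : cs (r + 4) s 0 (xc n) + ((tw (r + 4) s 0 n : ℕ) : ZMod 3) = cs (r + 4) s 0 (xc n) + 0 := by
        rw [add_zero]; exact h7.symm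
      exact add_left_cancel h8
  -- digits two only in letter classes
  have h2 : ∀ p, dg n p = 2 → 1 ≤ p % (r + 4) ∧ p % (r + 4) ≤ r := by
    intro p hp
    have hlt : p % (r + 4) < r + 4 := Nat.mod_lt _ (by omega)
    have h0 : p % (r + 4) ≠ 0 := fun h => by
      have := hdig p (Or.inl h)
      omega
    have h1 : p % (r + 4) ≠ r + 1 := fun h => by
      have := hdig p (Or.inr h)
      omega
    have h3 : ¬ r + 2 ≤ p % (r + 4) := by
      intro h
      apply htw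
      refine ⟨p % (r + 4), hlt, h, ?_⟩
      by_contra h4
      have h5 : tw (r + 4) (p % (r + 4)) 0 n = 0 := by omega
      exact tw_eq_zero.mp h5 p (by rw [zero_add]) hp
    omega
  obtain ⟨i, kd, u, v, z, hi, hd0, hd1, hkd, hmx, hmy, huv, hz⟩ := mark hx hy h2 hn
  right
  -- digits of the canonical pair
  have hx1 : dg (xc n) (i + 1) = 1 := by rw [dg_xc, if_pos hd1]
  have hy1 : dg (yc n) (i + 1) = 1 := by rw [dg_yc, if_neg (by omega)]
  have hx0 : dg (xc n) i = 0 := by rw [dg_xc, if_neg (by omega)]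
  have hy0 : dg (yc n) i = 0 := by rw [dg_yc, if_pos hd0]
  obtain ⟨hxle, hxd⟩ := dg_sub_pow (n := xc n) (p := i + 1) (by omega)
  obtain ⟨hyle, hyd⟩ := dg_sub_pow (n := yc n) (p := i + 1) (by omega)
  have hxd0 : dg (xc n - 3 ^ (i + 1)) i = 0 := by rw [hxd, if_neg (by omega), hx0]
  have hyd0 : dg (yc n - 3 ^ (i + 1)) i = 0 := by rw [hyd, if_neg (by omega), hy0]
  have hyd1 : dg (yc n - 3 ^ (i + 1)) (i + 1) = 0 := by rw [hyd, if_pos rfl, hy1]
  have hxS : xc n - 3 ^ (i + 1) ∈ S0 := s0_sub_pow (xc_mem n) hx1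
  have hyS : yc n - 3 ^ (i + 1) ∈ S0 := s0_sub_pow (yc_mem n) hy1
  have hXS : xc n - 3 ^ (i + 1) + 3 ^ i ∈ S0 := s0_add_pow hxS hxd0
  have hWS : yc n - 3 ^ (i + 1) + 3 ^ i ∈ S0 := s0_add_pow hyS hyd0
  have hVx : V1 (mu r 0 (xc n - 3 ^ (i + 1) + 3 ^ i)) := by
    rcases hkd with h | h
    · exact ⟨u, Or.inl (by rw [hmx, h])⟩
    · exact ⟨u, Or.inr (by rw [hmx, h])⟩
  have hVy : V1 (mu r 0 (yc n - 3 ^ (i + 1) + 3 ^ i)) := by
    rcases hkd with h | h
    · exact ⟨v, Or.inl (by rw [hmy, h])⟩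
    · exact ⟨v, Or.inr (by rw [hmy, h])⟩
  have hc := can_eq n
  have hle := xc_le n
  have hpow : 3 ^ (i + 1) = 3 * 3 ^ i := by rw [pow_succ']
  have hpos : 0 < 3 ^ i := by positivity
  refine ⟨xc n - 3 ^ (i + 1) + 3 ^ i, hXS, sg r (yc n - 3 ^ (i + 1) + 3 ^ i), V1_sat.mpr hVy,
    ⟨_, hWS, rfl⟩, yc n - 3 ^ (i + 1) + 2 * 3 ^ i,
    ⟨yc n - 3 ^ (i + 1), i, hyS, hi, hyd0, hyd1, rfl, rfl⟩, ?_, ?_, ?_⟩
  · rw [hpow] at hxle hyle ⊢
    omega
  · rw [hpow] at hxle hyle ⊢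
    omega
  · rintro X' ⟨hX', hsX⟩ Y' ⟨W, q, hW, hq, hW0, hW1, hsW, rfl⟩ Z hZ h
    rw [add_zero] at h
    obtain ⟨kd', u', v', z0, hz0, hmX', hmW', huv', hu', hv'⟩ := mark_leg hr hA hX' hW hq hW0 hW1 hZ h
      (mq_V1 hsX.symm hVx) (mq_V1 hsW.symm hVy)
    have e1 := mq_sat hsX
    rw [hmX', hmx] at e1
    have e2 := mq_sat hsW
    rw [hmW', hmy] at e2
    have e3 := mq_ex e1 hu'
    have e4 := mq_ex e2 hv'
    apply hz
    have e5 : z = z0 := by omega
    rw [e5]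
    exact hz0

end Pool.Agent.STN
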