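import Pool.Agent.STN.Defs

/-!
# Project STN, module Mr: the greedy subset

The greedy subset `T` of `U`: `n` is in `T` iff `n` is in `U` and `n` is not the last term of a
three term progression whose first two terms are in `T`.
-/

set_option autoImplicit false

namespace Pool.Agent.STN

/-- The greedy set, by strong recursion. -/
private def mr_P (U : Set ℕ) : ℕ → Prop
  | n => n ∈ U ∧ ∀ x, ∀ _hx : x < n, ∀ y, ∀ _hy : y < n, mr_P U x → mr_P U y → x < y →
      x + n ≠ 2 * y
termination_by n => n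
decreasing_by all_goals assumption

private theorem mr_iff (U : Set ℕ) (n : ℕ) : mr_P U n ↔ (n ∈ U ∧ ∀ x, x < n → ∀ y, y < n →
    mr_P U x → mr_P U y → x < y → x + n ≠ 2 * y) := by
  rw [mr_P]

theorem greedy (U : Set ℕ) : ∃ T : Set ℕ, T ⊆ U ∧ Fre T ∧
    (∀ n ∈ U, n ∉ T → ∃ x ∈ T, ∃ y ∈ T, x < y ∧ x + n = 2 * y) ∧
    ∀ n ∈ U, (∀ x ∈ U, ∀ y ∈ U, x < y → x + n ≠ 2 * y) → n ∈ T := by
  refine ⟨{n | mr_P U n}, ?_, ?_, ?_, ?_⟩
  · intro n hn
    exact ((mr_iff U n).1 hn).1
  · intro a ha b hb c hc he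
    have hPa : mr_P U a := ha
    have hPb : mr_P U b := hb
    have hPc : mr_P U c := hc
    rcases lt_trichotomy a c with h | h | h
    · exact absurd he (((mr_iff U c).1 hPc).2 a h b (by omega) hPa hPb (by omega))
    · exact h
    · exact absurd (by omega : c + a = 2 * b)
        (((mr_iff U a).1 hPa).2 c h b (by omega) hPc hPb (by omega))
  · intro n hn hnT
    have h : ¬ mr_P U n := hnT
    rw [mr_iff] at h
    push Not at h
    obtain ⟨x, hx, y, hy, hPx, hPy, hxy, he⟩ := h hn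
    exact ⟨x, hPx, y, hPy, hxy, he⟩
  · intro n hn hno
    show mr_P U n
    rw [mr_iff]
    exact ⟨hn, fun x _ y _ hPx hPy hxy => hno x ((mr_iff U x).1 hPx).1 y ((mr_iff U y).1 hPy).1 hxy⟩

end Pool.Agent.STN
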