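import Pool.Agent.STN.Mm

/-!
# Project STN, module Ms: the full words (A6)

`wd r a h` for a sequence of letters `a 0, ..., a (h-1)` in `A` (block `i` has the letter value `a i`): `wd (h+1) = bk r (a 0) 12 (wd of the shifted sequence)`, `12 = 3 * 1 + 9 * 1`.
`wd_mem`: induction: `uz_blk`: the state of the rest is `(0,0)` or `(2, z)` with `z ∈ A`, sync and `B` lead to `(2, 0)`, then the letters: `(2, a 0)` (if `a 0 = 0` too).
`wd_ap`: let `x + wd = 2 y` with `x, y ∈ UU r A`: then `x = y`.  Induction on `h`.  `h = 0`: `x = 2 y`: strong induction on `y`: `x = bk r Lx (3 bx + 9 sx) x'`, `y = bk r Ly (3 by + 9 sy) y'` with `Lx, Ly < 3^(r-1)` (`uz_top`): fieldwise `Lx = 2 Ly`, `bx = 2 by`, `sx = 2 sy`, `x' = 2 y'`: `b = s = 0`, the state of `x'`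
is the one of `x` without letters; `x', y'` are in the domain of the machine with kind `0` only: so prove the claim for all `x, y` with `uz` not `none` and class `r` digits zero: `x = y = 0`, the state of `0` is `(0,0)`, so `Lx = 0`.
`h + 1`: fieldwise (`bk_inj` after the bounds `a 0 + Lx < 3^r`, `2 Ly < 3^r`, `12 + 3 bx + 9 sx ≤ 24 < 27`): `a 0 + Lx = 2 Ly`, `bx = by = sx = sy = 1`, `wd' + x' = 2 y'`; since `s = 1` the rests `x', y'` are in `UU` (`uz_blk`), and `Lx, Ly ∈ A` since `x, y ∈ UU` have the states `(2, Lx)`, `(2, Ly)`; `hA`: `a 0 = Lx`, so `Ly = Lx`;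
induction: `x' = y'`.
Count: `F` = image of `Fin h → A` (`Fintype.card_fun`, or `Finset.Pi`), injective (`bk_inj`), all elements below `3^((r+4) h)`.
-/

set_option autoImplicit false

namespace Pool.Agent.STN

/-- the word with all blocks full and the letters `a 0, a 1, ..` -/
def wd (r : ℕ) : ℕ → (ℕ → ℕ) → ℕ
  | 0, _ => 0
  | h + 1, a => bk r (a 0) 12 (wd r h fun i => a (i + 1))

private theorem ms_zero (r : ℕ) (A : Set ℕ) : uz r A 0 0 = some (0, 0) := by
  rw [uz, dif_pos rfl]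

private theorem ms_one3 {r : ℕ} {A : Set ℕ} {q : Option (ℕ × ℕ)}
    (h : q = some (0, 0) ∨ ∃ z ∈ A, q = some (2, z)) : ust r A (r + 3) 1 q = some (1, 0) := by
  rcases h with rfl | ⟨z, hz, rfl⟩
  · simp [ust]
  · simp [ust, hz]

private theorem ms_one2 (r : ℕ) (A : Set ℕ) : ust r A (r + 2) 1 (some (1, 0)) = some (2, 0) := by
  simp [ust]

private theorem ms_ltu (L : ℕ) : ltu L (some (2, 0)) = some (2, L) := by
  rcases Nat.eq_zero_or_pos L with rfl | h
  · simp [ltu]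
  · have h1 : L ≠ 0 := by omega
    simp [ltu, h1]

private theorem ms_pow {r : ℕ} (hr : 1 ≤ r) : 3 ^ r = 3 * 3 ^ (r - 1) := by
  obtain ⟨q, rfl⟩ := Nat.exists_eq_add_of_le hr
  rw [Nat.add_sub_cancel_left, pow_add, pow_one]

theorem wd_mem {r : ℕ} {A : Set ℕ} (hr : 1 ≤ r) (hA : ∀ a ∈ A, a < 3 ^ (r - 1)) (h : ℕ) {a : ℕ → ℕ}
    (ha : ∀ i, a i ∈ A) : wd r h a ∈ UU r A := by
  induction h generalizing a with
  | zero => exact Or.inl (ms_zero r A)
  | succ h ih =>
    have h1 := ih (a := fun i => a (i + 1)) (fun i => ha (i + 1))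
    have h2 : a 0 < 3 ^ r := by
      have := hA _ (ha 0)
      have := ms_pow hr
      omega
    refine Or.inr ⟨a 0, ha 0, ?_⟩
    show uz r A 0 (bk r (a 0) (3 * 1 + 9 * 1) (wd r h fun i => a (i + 1))) = some (2, a 0)
    rw [uz_blk h2 le_rfl le_rfl, ms_one3 h1, ms_one2, ms_ltu]

/-- digits zero, machine not stuck -/
private def Dm (r : ℕ) (A : Set ℕ) (n : ℕ) : Prop :=
  (∃ q, uz r A 0 n = some q) ∧ ∀ p, p % (r + 4) = r → dg n p = 0

private theorem ms_uu {r : ℕ} {A : Set ℕ} (hr : 1 ≤ r) (hA : ∀ a ∈ A, a < 3 ^ (r - 1)) {n : ℕ}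
    (h : n ∈ UU r A) : Dm r A n := by
  refine ⟨?_, fun p hp => uz_top hr hA h p hp⟩
  rcases h with h | ⟨z, _, h⟩
  · exact ⟨_, h⟩
  · exact ⟨_, h⟩

/-- the fields of an element of the domain -/
private theorem ms_fld {r : ℕ} {A : Set ℕ} (hr : 1 ≤ r) {n : ℕ} (h : Dm r A n) :
    ∃ L b s x, L < 3 ^ (r - 1) ∧ L < 3 ^ r ∧ b ≤ 1 ∧ s ≤ 1 ∧ n = bk r L (3 * b + 9 * s) x ∧
      ∀ p, p % (r + 4) = r → dg x p = 0 := by
  obtain ⟨⟨⟨kd, z⟩, hq⟩, hd⟩ := h
  obtain ⟨L, b, s, x, hL, hb, hs, rfl⟩ := uu_blk hq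
  refine ⟨L, b, s, x, ?_, hL, hb, hs, rfl, ?_⟩
  · have h1 := hd r (Nat.mod_eq_of_lt (by omega))
    rw [dg_bk hL (by omega), if_neg (by omega), if_pos le_rfl] at h1
    unfold dg at h1
    have h2 := ms_pow hr
    have h3 : L / 3 ^ (r - 1) < 3 := by
      rw [Nat.div_lt_iff_lt_mul (by positivity)]
      omega
    have h4 : L / 3 ^ (r - 1) = 0 := by
      generalize L / 3 ^ (r - 1) = v at h1 h3 ⊢
      omega
    rcases Nat.div_eq_zero_iff.mp h4 with h5 | h5
    · exact absurd h5 (by positivity)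
    · exact h5
  · intro p hp
    have h1 := hd (p + (r + 4)) (by rw [Nat.add_mod_right]; exact hp)
    rw [dg_bk hL (by omega), if_neg (by omega), if_neg (by omega), if_neg (by omega),
      Nat.add_sub_cancel] at h1
    exact h1

private theorem ms_zero' {r : ℕ} {A : Set ℕ} (c k n : ℕ) : ust r A c 0 (uz r A k n) = uz r A k n := by
  rcases h : uz r A k n with _ | ⟨kd, z⟩
  · rfl
  · have hk := (uz_kind h).1
    obtain rfl | rfl | rfl : kd = 0 ∨ kd = 1 ∨ kd = 2 := by omega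
    · simp [ust]
    · simp [ust]
    · simp [ust]

private theorem ms_dbl {r : ℕ} {A : Set ℕ} (hr : 1 ≤ r) : ∀ y x : ℕ, Dm r A x → Dm r A y → x = 2 * y →
    y = 0 := by
  intro y
  induction y using Nat.strong_induction_on with
  | _ y ih =>
    intro x hx hy he
    by_contra hy0
    obtain ⟨L, b, s, x', hL1, hL, hb, hs, rfl, hdx⟩ := ms_fld hr hx
    obtain ⟨M, c, t, y', hM1, hM, hc, ht, rfl, hdy⟩ := ms_fld hr hy
    have h3 := ms_pow hr
    have e1 : bk r L (3 * b + 9 * s) x' = bk r (2 * M) (2 * (3 * c + 9 * t)) (2 * y') := by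
      rw [he]
      unfold bk
      ring
    obtain ⟨e2, e3, e4⟩ := bk_inj hL (by omega) (by omega) (by omega) e1
    obtain ⟨rfl, rfl, rfl, rfl⟩ : b = 0 ∧ s = 0 ∧ c = 0 ∧ t = 0 := by omega
    obtain ⟨⟨q1, h1⟩, _⟩ := hx
    obtain ⟨⟨q2, h2⟩, _⟩ := hy
    rw [uz_blk hL (by omega) (by omega), ms_zero', ms_zero'] at h1
    rw [uz_blk hM (by omega) (by omega), ms_zero', ms_zero'] at h2
    have hx' : Dm r A x' := by
      refine ⟨?_, hdx⟩
      rcases h : uz r A 0 x' with _ | q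
      · rw [h] at h1
        simp [ltu] at h1
      · exact ⟨q, rfl⟩
    have hy' : Dm r A y' := by
      refine ⟨?_, hdy⟩
      rcases h : uz r A 0 y' with _ | q
      · rw [h] at h2
        simp [ltu] at h2
      · exact ⟨q, rfl⟩
    have hlt : y' < bk r M (3 * 0 + 9 * 0) y' := by
      unfold bk at hy0 ⊢
      have h5 : 3 ^ (r + 4) ≥ 3 := by
        calc 3 ^ (r + 4) ≥ 3 ^ 1 := Nat.pow_le_pow_right (by norm_num) (by omega)
          _ = 3 := by norm_num
      rcases Nat.eq_zero_or_pos y' with h6 | h6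
      · subst h6
        omega
      · nlinarith
    have h6 := ih y' hlt x' hx' hy' e4
    subst h6
    rw [ms_zero] at h2
    apply hy0
    have h7 : M = 0 := by
      by_contra h7
      simp [ltu, h7] at h2
    subst h7
    simp [bk]

private theorem ms_full {r : ℕ} {A : Set ℕ} {L x : ℕ} (hL : L < 3 ^ r)
    (h : bk r L (3 * 1 + 9 * 1) x ∈ UU r A) : L ∈ A ∧ x ∈ UU r A := by
  have h1 : x ∈ UU r A := by
    by_contra hx
    have h2 : uz r A 0 (bk r L (3 * 1 + 9 * 1) x) = none := by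
      rw [uz_blk hL le_rfl le_rfl]
      rcases hq : uz r A 0 x with _ | ⟨kd, z⟩
      · rfl
      · have hk := uz_kind hq
        obtain rfl | rfl | rfl : kd = 0 ∨ kd = 1 ∨ kd = 2 := by omega
        · have hz := hk.2 (by omega)
          subst hz
          exact absurd (Or.inl hq) hx
        · simp [ust, ltu]
        · have hz : z ∉ A := fun hz => hx (Or.inr ⟨z, hz, hq⟩)
          simp [ust, ltu, hz]
    rcases h with h | ⟨z, _, h⟩
    · rw [h2] at h
      exact absurd h (by simp)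
    · rw [h2] at h
      exact absurd h (by simp)
  refine ⟨?_, h1⟩
  have h2 : uz r A 0 (bk r L (3 * 1 + 9 * 1) x) = some (2, L) := by
    rw [uz_blk hL le_rfl le_rfl, ms_one3 h1, ms_one2, ms_ltu]
  rcases h with h | ⟨z, hz, h⟩
  · rw [h2] at h
    simp at h
  · rw [h2] at h
    simp only [Option.some.injEq, Prod.mk.injEq, true_and] at h
    rw [h]
    exact hz

theorem wd_ap {r : ℕ} {A : Set ℕ} (hr : 1 ≤ r) (hA : ∀ a ∈ A, a < 3 ^ (r - 1)) (hf : Fre A) (h : ℕ)
    {a : ℕ → ℕ} (ha : ∀ i, a i ∈ A) {x y : ℕ} (hx : x ∈ UU r A) (hy : y ∈ UU r A)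
    (he : x + wd r h a = 2 * y) : x = y := by
  induction h generalizing a x y with
  | zero =>
    have h1 : x = 2 * y := by simpa [wd] using he
    have h2 := ms_dbl hr y x (ms_uu hr hA hx) (ms_uu hr hA hy) h1
    omega
  | succ h ih =>
    obtain ⟨L, b, s, x', hL1, hL, hb, hs, rfl, _⟩ := ms_fld hr (ms_uu hr hA hx)
    obtain ⟨M, c, t, y', hM1, hM, hc, ht, rfl, _⟩ := ms_fld hr (ms_uu hr hA hy)
    have h3 := ms_pow hr
    have ha0 := hA _ (ha 0)
    have e1 : bk r (a 0 + L) (12 + (3 * b + 9 * s)) ((wd r h fun i => a (i + 1)) + x') =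
        bk r (2 * M) (2 * (3 * c + 9 * t)) (2 * y') := by
      have h4 : bk r L (3 * b + 9 * s) x' + bk r (a 0) 12 (wd r h fun i => a (i + 1)) =
        2 * bk r M (3 * c + 9 * t) y' := he
      unfold bk at h4 ⊢
      linarith
    obtain ⟨e2, e3, e4⟩ := bk_inj (by omega) (by omega) (by omega) (by omega) e1
    obtain ⟨rfl, rfl, rfl, rfl⟩ : b = 1 ∧ s = 1 ∧ c = 1 ∧ t = 1 := by omega
    obtain ⟨g1, g2⟩ := ms_full hL hx
    obtain ⟨g3, g4⟩ := ms_full hM hy
    have g5 := hf (a 0) (ha 0) M g3 L g1 e2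
    have g6 := ih (a := fun i => a (i + 1)) (fun i => ha (i + 1)) g2 g4 (by omega)
    have g7 : L = M := by omega
    rw [g6, g7]

private theorem ms_lt {r : ℕ} (hr : 1 ≤ r) (h : ℕ) {a : ℕ → ℕ} (ha : ∀ i, a i < 3 ^ (r - 1)) :
    wd r h a < (3 ^ (r + 4)) ^ h := by
  induction h generalizing a with
  | zero => simp [wd]
  | succ h ih =>
    have h1 := ih (a := fun i => a (i + 1)) (fun i => ha (i + 1))
    have h2 := ha 0
    have h3 := ms_pow hr
    show bk r (a 0) 12 (wd r h fun i => a (i + 1)) < _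
    set w := wd r h fun i => a (i + 1)
    set B := (3 ^ (r + 4)) ^ h
    have h4 : (3 ^ (r + 4)) ^ (h + 1) = 3 ^ (r + 4) * B := pow_succ' _ _
    rw [h4]
    unfold bk
    have h5 : 3 ^ (r + 4) = 81 * 3 ^ r := by rw [pow_add]; ring
    have h6 : 3 ^ (r + 1) = 3 * 3 ^ r := by rw [pow_add]; ring
    have h7 : 3 ^ (r + 4) * (w + 1) ≤ 3 ^ (r + 4) * B := Nat.mul_le_mul_left _ h1
    rw [Nat.mul_add, mul_one] at h7
    have h8 : 3 ^ (r + 1) * 12 = 36 * 3 ^ r := by rw [h6]; ring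
    omega

private theorem ms_inj {r : ℕ} (hr : 1 ≤ r) (h : ℕ) {a a' : ℕ → ℕ} (ha : ∀ i, a i < 3 ^ (r - 1))
    (ha' : ∀ i, a' i < 3 ^ (r - 1)) (he : wd r h a = wd r h a') (i : ℕ) (hi : i < h) : a i = a' i := by
  induction h generalizing a a' i with
  | zero => omega
  | succ h ih =>
    have h3 := ms_pow hr
    have h1 := ha 0
    have h2 := ha' 0
    obtain ⟨e1, _, e2⟩ := bk_inj (r := r) (L := a 0) (f := 12) (x := wd r h fun i => a (i + 1))
      (L' := a' 0) (f' := 12) (x' := wd r h fun i => a' (i + 1)) (by omega) (by omega) (by omega)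
      (by omega) he
    rcases i with _ | i
    · exact e1
    · exact ih (a := fun i => a (i + 1)) (a' := fun i => a' (i + 1)) (fun i => ha (i + 1))
        (fun i => ha' (i + 1)) e2 i (by omega)

theorem a6 {r : ℕ} {A : Finset ℕ} (hr : 1 ≤ r) (hA : ∀ a ∈ A, a < 3 ^ (r - 1)) (hf : Fre (A : Set ℕ))
    {T : Set ℕ} (hT : ∀ n ∈ UU r (A : Set ℕ), (∀ x ∈ UU r (A : Set ℕ), ∀ y ∈ UU r (A : Set ℕ), x < y →
      x + n ≠ 2 * y) → n ∈ T) (h : ℕ) :
    ∃ F : Finset ℕ, A.card ^ h ≤ F.card ∧ ∀ m ∈ F, m ∈ T ∧ m < (3 ^ (r + 4)) ^ h := by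
  classical
  have hA' : ∀ a ∈ (A : Set ℕ), a < 3 ^ (r - 1) := fun a ha => hA a (Finset.mem_coe.mp ha)
  rcases A.eq_empty_or_nonempty with hE | ⟨a0, ha0⟩
  · rcases Nat.eq_zero_or_pos h with rfl | hh
    · refine ⟨{0}, by simp, fun m hm => ?_⟩
      rw [Finset.mem_singleton] at hm
      subst hm
      refine ⟨hT 0 (Or.inl (ms_zero r _)) fun x hx y hy hxy he => ?_, by simp⟩
      have h1 := ms_dbl hr y x (ms_uu hr hA' hx) (ms_uu hr hA' hy) (by omega)
      omega
    · refine ⟨∅, ?_, fun m hm => absurd hm (Finset.notMem_empty m)⟩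
      rw [hE, Finset.card_empty, zero_pow (by omega)]
  · have hex : ∃ g : (Fin h → {a // a ∈ A}) → ℕ → ℕ,
        (∀ f i, g f i ∈ A) ∧ ∀ f (i : Fin h), g f i = (f i : ℕ) :=
      ⟨fun f i => if hi : i < h then (f ⟨i, hi⟩ : ℕ) else a0, fun f i => by
        show (if hi : i < h then ((f ⟨i, hi⟩ : {a // a ∈ A}) : ℕ) else a0) ∈ A
        split_ifs
        · exact (f _).2
        · exact ha0, fun f i => by
        show (if hi : (i : ℕ) < h then ((f ⟨i, hi⟩ : {a // a ∈ A}) : ℕ) else a0) = _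
        rw [dif_pos i.isLt]⟩
    obtain ⟨g, hg1, hg2⟩ := hex
    refine ⟨Finset.univ.image fun f => wd r h (g f), ?_, ?_⟩
    · rw [Finset.card_image_of_injective]
      · rw [Finset.card_univ, Fintype.card_fun, Fintype.card_fin, Fintype.card_coe]
      · intro f f' hff
        funext i
        apply Subtype.ext
        rw [← hg2, ← hg2]
        exact ms_inj hr h (fun i => hA _ (hg1 f i)) (fun i => hA _ (hg1 f' i)) hff i i.isLt
    · intro m hm
      obtain ⟨f, _, rfl⟩ := Finset.mem_image.mp hm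
      refine ⟨hT _ (wd_mem hr hA' h fun i => Finset.mem_coe.mpr (hg1 f i)) fun x hx y hy hxy he => ?_,
        ms_lt hr h fun i => hA _ (hg1 f i)⟩
      have h1 := wd_ap hr hA' hf h (fun i => Finset.mem_coe.mpr (hg1 f i)) hx hy he
      omega

end Pool.Agent.STN
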