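import Pool.Agent.STN.Mq
import Pool.Agent.STN.Mr
import Pool.Agent.STN.Ms
import Pool.Agent.STN.Mh
import Pool.Agent.STN.Mi
import Pool.Agent.STN.Me
import Pool.Agent.STN.Gi

/-!
# Project STN, module Mt: a complete system with a dense cell

`Q = {q // q ∈ sg r '' S0}` (finite: `sg_finite`), `G q = Gq r q`; `V = {v // v ∈ sg r '' S0 ∧ V1 v.2}`, `E v = Cv r v`; `T` from `greedy (UU r A)`.  `realise`: `hK`: `a1` (`sg r m ≠ q` since `m ∈ S0`, `m ∉ Gq r q`), `hEf`: `a3`, `hE`: `a2`, `hT`: `n ∈ UU`: greedy (third case); `n ∉ UU`: `a5` and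
`Leg` for `UU` implies `Leg` for `T`.  Last part: `a6`.
-/

set_option autoImplicit false

namespace Pool.Agent.STN

theorem sys_T {r : ℕ} {A : Finset ℕ} (hr : 1 ≤ r) (hA : ∀ a ∈ A, a < 3 ^ (r - 1)) (hf : Fre (A : Set ℕ)) :
    ∃ s : Sys, s.Free ∧ (∀ x ∈ s.X, s.Complete x) ∧ ∃ x ∈ s.X, ∀ h : ℕ,
      ∃ F : Finset ℕ, A.card ^ h ≤ F.card ∧ ∀ m ∈ F, m ∈ s.T x ∧ m < (3 ^ (r + 4)) ^ h := by
  have hA' : ∀ a ∈ (A : Set ℕ), a < 3 ^ (r - 1) := fun a ha => hA a (Finset.mem_coe.1 ha)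
  obtain ⟨T, hTU, hTf, hTg, hTm⟩ := greedy (UU r (A : Set ℕ))
  have hfin : (sg r '' S0).Finite := sg_finite r
  haveI hQ : Finite {q // q ∈ sg r '' S0} := hfin.to_subtype
  haveI hV : Finite {v // v ∈ sg r '' S0 ∧ V1 v.2} :=
    (hfin.subset (fun v hv => hv.1 : {v | v ∈ sg r '' S0 ∧ V1 v.2} ⊆ sg r '' S0)).to_subtype
  obtain ⟨s, hs1, hs2, x, hx, hxT⟩ := realise (Q := {q // q ∈ sg r '' S0})
    (V := {v // v ∈ sg r '' S0 ∧ V1 v.2}) (G := fun q => Gq r q.1) (E := fun v => Cv r v.1)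
    (T := T) (fun q y hy => hy.1)
    (by
      intro q m hm h0 hmq
      have hq : sg r m ≠ q.1 := fun h => hmq ⟨hm, h⟩
      obtain ⟨X, hX, Y, hY, h1, h2, h3⟩ := a1 r hm h0 q.1 hq
      exact ⟨⟨sg r X, ⟨X, hX, rfl⟩⟩, ⟨sg r Y, ⟨Y, hY, rfl⟩⟩, X, ⟨hX, rfl⟩, Y, ⟨hY, rfl⟩, h1, h2, h3⟩)
    (fun v => a3 r v.2.2)
    (by
      intro v n hn
      obtain ⟨X, hX, Y, hY, h1, h2, h3⟩ := a2 r v.2.2 hn
      exact ⟨⟨sg r X, ⟨X, hX, rfl⟩⟩, ⟨sg r Y, ⟨Y, hY, rfl⟩⟩, X, ⟨hX, rfl⟩, Y, ⟨hY, rfl⟩, h1, h2, h3⟩)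
    hTf
    (by
      intro n hn
      by_cases hU : n ∈ UU r (A : Set ℕ)
      · obtain ⟨y, hy, z, hz, h1, h2⟩ := hTg n hU hn
        exact Or.inr (Or.inr ⟨y, hy, z, hz, h1, h2⟩)
      · rcases a5 hr hA' hU with ⟨X, hX, Y, hY, h1, h2, h3⟩ | ⟨X, hX, v, hv1, hv2, Y, hY, h1, h2, h3⟩
        · exact Or.inl ⟨⟨sg r X, ⟨X, hX, rfl⟩⟩, ⟨sg r Y, ⟨Y, hY, rfl⟩⟩, X, ⟨hX, rfl⟩, Y, ⟨hY, rfl⟩,
            h1, h2, fun X' hX' Y' hY' Z hZ => h3 X' hX' Y' hY' Z (hTU hZ)⟩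
        · exact Or.inr (Or.inl ⟨⟨sg r X, ⟨X, hX, rfl⟩⟩, ⟨v, hv2, hv1⟩, X, ⟨hX, rfl⟩, Y, hY,
            h1, h2, fun X' hX' Y' hY' Z hZ => h3 X' hX' Y' hY' Z (hTU hZ)⟩))
  refine ⟨s, hs1, hs2, x, hx, fun h => ?_⟩
  rw [hxT]
  exact a6 hr hA hf hTm h

end Pool.Agent.STN
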