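import Pool.Agent.STN.Fd

/-!
# Project STN, module Ra: representations modulo `3^k`

`rp_exists`: take the canonical pair of `c % 3^k`.
`rp_two`: `c` has a digit two at a position `p < k`; besides the canonical representation there is one with the digits `(1, 0)` at the position `p`, obtained from a representation of the upper
part plus one.
-/

set_option autoImplicit false

namespace Pool.Agent.STN

theorem rp_exists (k c : ℕ) : ∃ a b, Rp k c a b := by
  have hpos : 0 < 3 ^ k := by positivity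
  have hlt : c % 3 ^ k < 3 ^ k := Nat.mod_lt _ hpos
  have h1 := xc_le (c % 3 ^ k)
  have h2 := yc_lt hlt
  refine ⟨xc (c % 3 ^ k), yc (c % 3 ^ k), mem_K1.2 ⟨xc_mem _, by omega⟩, mem_K1.2 ⟨yc_mem _, h2⟩, ?_⟩
  have h3 : (xc (c % 3 ^ k) : ℤ) + ((c % 3 ^ k : ℕ) : ℤ) = 2 * yc (c % 3 ^ k) := by
    exact_mod_cast can_eq (c % 3 ^ k)
  have h4 : (c : ℤ) + xc (c % 3 ^ k) - 2 * yc (c % 3 ^ k) = (c : ℤ) - ((c % 3 ^ k : ℕ) : ℤ) := by
    linarith
  rw [h4]
  push_cast
  exact Int.dvd_self_sub_emod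

theorem rp_self {k c : ℕ} (h : c ∈ K1 k) : Rp k c c c := by
  refine ⟨h, h, ?_⟩
  have h1 : (c : ℤ) + c - 2 * c = 0 := by ring
  rw [h1]
  exact dvd_zero _

theorem rp_two {k c : ℕ} (hc : c < 3 ^ k) (h : c ∉ K1 k) :
    ∃ a b a' b', Rp k c a b ∧ Rp k c a' b' ∧ (a ≠ a' ∨ b ≠ b') := by
  have hS : c ∉ S0 := fun hS => h (mem_K1.2 ⟨hS, hc⟩)
  obtain ⟨p, hp⟩ : ∃ p, dg c p = 2 := by
    by_contra hcon
    push Not at hcon
    refine hS fun p => ?_
    have h1 := dg_lt c p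
    have h2 := hcon p
    omega
  have hpk : p < k := by
    by_contra hcon
    have h1 : 3 ^ k ≤ 3 ^ p := Nat.pow_le_pow_right (by norm_num) (by omega)
    have h2 := dg_of_lt (lt_of_lt_of_le hc h1)
    omega
  -- the canonical representation
  have hx := xc_le c
  have hy := yc_lt hc
  have hcan : Rp k c (xc c) (yc c) := by
    refine ⟨mem_K1.2 ⟨xc_mem _, by omega⟩, mem_K1.2 ⟨yc_mem _, hy⟩, ?_⟩
    have h3 : (xc c : ℤ) + (c : ℤ) = 2 * yc c := by exact_mod_cast can_eq c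
    have h4 : (c : ℤ) + xc c - 2 * yc c = 0 := by linarith
    rw [h4]
    exact dvd_zero _
  -- the second one
  obtain ⟨m, hm⟩ : ∃ m, c / 3 ^ p = 2 + 3 * m := by
    refine ⟨c / 3 ^ p / 3, ?_⟩
    unfold dg at hp
    omega
  set low := c % 3 ^ p with hlow
  have hlow_lt : low < 3 ^ p := Nat.mod_lt _ (by positivity)
  have hdec : c = low + 3 ^ p * (2 + 3 * m) := by
    rw [← hm, hlow]
    exact (Nat.mod_add_div c (3 ^ p)).symm
  obtain ⟨a', b', ha', hb', q, hq⟩ := rp_exists (k - p - 1) (m + 1)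
  rw [mem_K1] at ha' hb'
  have hxl := xc_le low
  have hyl := yc_lt hlow_lt
  have hpow1 : 3 ^ (k - p) = 3 * 3 ^ (k - p - 1) := by
    rw [← pow_succ']
    congr 1
    omega
  have hpow2 : 3 ^ k = 3 ^ p * 3 ^ (k - p) := by
    rw [← pow_add]
    congr 1
    omega
  refine ⟨xc c, yc c, xc low + 3 ^ p * (1 + 3 * a'), yc low + 3 ^ p * (3 * b'), hcan, ⟨?_, ?_, ?_⟩,
    Or.inr ?_⟩
  · refine mem_K1.2 ⟨s0_append (by omega) (xc_mem _) (s0_step.2 ⟨by omega, ?_⟩), ?_⟩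
    · have h1 : (1 + 3 * a') / 3 = a' := by omega
      rw [h1]
      exact ha'.1
    · rw [hpow2]
      have h1 : 1 + 3 * a' + 1 ≤ 3 ^ (k - p) := by omega
      calc xc low + 3 ^ p * (1 + 3 * a') < 3 ^ p + 3 ^ p * (1 + 3 * a') := by omega
        _ = 3 ^ p * (1 + 3 * a' + 1) := by ring
        _ ≤ 3 ^ p * 3 ^ (k - p) := Nat.mul_le_mul_left _ h1
  · refine mem_K1.2 ⟨s0_append hyl (yc_mem _) (s0_step.2 ⟨by omega, ?_⟩), ?_⟩
    · have h1 : 3 * b' / 3 = b' := by omega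
      rw [h1]
      exact hb'.1
    · rw [hpow2]
      have h1 : 3 * b' + 1 ≤ 3 ^ (k - p) := by omega
      calc yc low + 3 ^ p * (3 * b') < 3 ^ p + 3 ^ p * (3 * b') := by omega
        _ = 3 ^ p * (3 * b' + 1) := by ring
        _ ≤ 3 ^ p * 3 ^ (k - p) := Nat.mul_le_mul_left _ h1
  · refine ⟨q, ?_⟩
    have h3 : (xc low : ℤ) + (low : ℤ) = 2 * yc low := by exact_mod_cast can_eq low
    have h4 : (c : ℤ) = low + 3 ^ p * (2 + 3 * m) := by exact_mod_cast hdec
    have h5 : (3 : ℤ) ^ k = 3 ^ p * (3 * 3 ^ (k - p - 1)) := by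
      have := hpow2
      rw [hpow1] at this
      exact_mod_cast this
    push_cast at hq ⊢
    rw [h4, h5]
    linear_combination h3 + (3 : ℤ) ^ p * 3 * hq
  · intro heq
    have h1 : dg (yc c) p = 1 := by
      rw [dg_yc, hp]
      norm_num
    rw [heq, dg_split hyl, if_neg (lt_irrefl p), Nat.sub_self, dg_zero'] at h1
    omega

end Pool.Agent.STN
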